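import Pool.Agent.MP_a0a8d4_co.Defs2

/-!
Module BAL of MP_a0a8d4_co: a halving direction.
-/

set_option autoImplicit false

namespace Pool.Agent.MP_a0a8d4_co

open Set

namespace BalAux

theorem balance1 {ι : Type} [Fintype ι] (t : ι → ℝ) (ht : Function.Injective t) (c : ι → ℝ)
    (M : ℝ) (hM : 0 ≤ M) (hc : ∀ i, |c i| ≤ M) (hC : 0 ≤ ∑ i, c i) (Z : Finset ℝ) :
    ∃ s : ℝ, s ∉ Z ∧ (∀ i, s ≠ t i) ∧ |∑ i, c i * (if t i < s then 1 else -1)| ≤ M := by
  classical
  rcases isEmpty_or_nonempty ι with hι | hι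
  · obtain ⟨s, hs⟩ := Infinite.exists_notMem_finset Z
    exact ⟨s, hs, fun i => (hι.false i).elim, by simpa using hM⟩
  set R : Finset ℝ := Finset.univ.image t with hR
  have hRne : R.Nonempty := Finset.univ_nonempty.image t
  set b0 : ℝ := R.min' hRne - 1 with hb0
  have hb0R : ∀ i, b0 < t i := by
    intro i
    have := R.min'_le (t i) (Finset.mem_image_of_mem t (Finset.mem_univ i))
    linarith
  set h : ℝ → ℝ := fun s => ∑ i, c i * (if t i ≤ s then 1 else -1) with hh
  set R' : Finset ℝ := insert b0 R with hR'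
  set A : Finset ℝ := R'.filter (fun s => -M ≤ h s) with hA
  have hAne : A.Nonempty := by
    refine ⟨R.max' hRne, ?_⟩
    rw [hA, Finset.mem_filter]
    refine ⟨Finset.mem_insert_of_mem (R.max'_mem hRne), ?_⟩
    have : h (R.max' hRne) = ∑ i, c i := by
      simp only [hh]
      apply Finset.sum_congr rfl
      intro i _
      rw [if_pos (R.le_max' (t i) (Finset.mem_image_of_mem t (Finset.mem_univ i))), mul_one]
    rw [this]
    linarith
  set s : ℝ := A.min' hAne with hs
  have hsA : s ∈ A := A.min'_mem hAne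
  rw [hA, Finset.mem_filter] at hsA
  obtain ⟨hsR', hsM⟩ := hsA
  -- upper bound
  have hup : h s ≤ M := by
    rcases Finset.mem_insert.mp hsR' with h1 | h1
    · have : h s = - ∑ i, c i := by
        simp only [hh]
        rw [h1, ← Finset.sum_neg_distrib]
        apply Finset.sum_congr rfl
        intro i _
        rw [if_neg (not_le.mpr (hb0R i))]
        ring
      rw [this]
      linarith
    · obtain ⟨i, -, hi⟩ := Finset.mem_image.mp h1
      set B : Finset ℝ := R'.filter (fun x => x < s) with hB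
      have hBne : B.Nonempty := by
        refine ⟨b0, ?_⟩
        rw [hB, Finset.mem_filter]
        exact ⟨Finset.mem_insert_self _ _, by rw [← hi]; exact hb0R i⟩
      set s' : ℝ := B.max' hBne with hs'
      have hs'B : s' ∈ B := B.max'_mem hBne
      rw [hB, Finset.mem_filter] at hs'B
      have hs'A : s' ∉ A := by
        intro hmem
        have := A.min'_le s' hmem
        linarith [hs'B.2]
      have hs'M : h s' < -M := by
        by_contra hcon
        push Not at hcon
        exact hs'A (Finset.mem_filter.mpr ⟨hs'B.1, hcon⟩)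
      have hstep : h s = h s' + 2 * c i := by
        simp only [hh]
        have hj : ∀ j, c j * (if t j ≤ s then (1 : ℝ) else -1) =
            c j * (if t j ≤ s' then (1 : ℝ) else -1) + (if j = i then 2 * c i else 0) := by
          intro j
          by_cases hji : j = i
          · subst hji
            rw [if_pos hi.le, if_neg (not_le.mpr (by rw [hi]; exact hs'B.2)), if_pos rfl]
            ring
          · rw [if_neg hji]
            by_cases hle : t j ≤ s
            · have hlt : t j < s := lt_of_le_of_ne hle (fun h' => hji (ht (h'.trans hi.symm)))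
              have : t j ≤ s' := by
                apply B.le_max'
                rw [hB, Finset.mem_filter]
                exact ⟨Finset.mem_insert_of_mem (Finset.mem_image_of_mem t (Finset.mem_univ j)), hlt⟩
              rw [if_pos hle, if_pos this, add_zero]
            · have : ¬ t j ≤ s' := fun h' => hle (h'.trans hs'B.2.le)
              rw [if_neg hle, if_neg this, add_zero]
        rw [Finset.sum_congr rfl (fun j _ => hj j), Finset.sum_add_distrib]
        congr 1
        simp
      have := (abs_le.mp (hc i)).2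
      linarith
  -- the interval after s
  have hnext : ∃ u : ℝ, s < u ∧ ∀ i, s < t i → u ≤ t i := by
    set D : Finset ℝ := R.filter (fun x => s < x) with hD
    rcases D.eq_empty_or_nonempty with hDe | hDne
    · refine ⟨s + 1, by linarith, fun i hi => ?_⟩
      have : t i ∈ D := by
        rw [hD, Finset.mem_filter]
        exact ⟨Finset.mem_image_of_mem t (Finset.mem_univ i), hi⟩
      rw [hDe] at this
      exact absurd this (Finset.notMem_empty _)
    · refine ⟨D.min' hDne, ?_, fun i hi => ?_⟩
      · have := D.min'_mem hDne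
        exact (Finset.mem_filter.mp this).2
      · apply D.min'_le
        rw [hD, Finset.mem_filter]
        exact ⟨Finset.mem_image_of_mem t (Finset.mem_univ i), hi⟩
  obtain ⟨u, hsu, hu⟩ := hnext
  obtain ⟨x, hx, hxZ⟩ := ((Set.Ioo_infinite hsu).sdiff Z.finite_toSet).nonempty
  refine ⟨x, fun h' => hxZ (Finset.mem_coe.mpr h'), fun i hi => ?_, ?_⟩
  · by_cases h1 : t i ≤ s
    · rw [← hi] at h1
      exact absurd hx.1 (not_lt.mpr h1)
    · have := hu i (not_le.mp h1)
      rw [← hi] at this
      exact absurd hx.2 (not_lt.mpr this)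
  · have e : ∑ i, c i * (if t i < x then (1 : ℝ) else -1) = h s := by
      simp only [hh]
      apply Finset.sum_congr rfl
      intro i _
      by_cases h1 : t i ≤ s
      · rw [if_pos h1, if_pos (lt_of_le_of_lt h1 hx.1)]
      · rw [if_neg h1, if_neg (not_lt.mpr (hx.2.le.trans (hu i (not_le.mp h1))))]
    rw [e, abs_le]
    exact ⟨hsM, hup⟩

theorem balance2 {ι : Type} [Fintype ι] (t : ι → ℝ) (ht : Function.Injective t) (c : ι → ℝ)
    (M : ℝ) (hM : 0 ≤ M) (hc : ∀ i, |c i| ≤ M) (Z : Finset ℝ) :
    ∃ s : ℝ, s ∉ Z ∧ (∀ i, s ≠ t i) ∧ |∑ i, c i * (if t i < s then 1 else -1)| ≤ M := by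
  rcases le_total 0 (∑ i, c i) with hC | hC
  · exact balance1 t ht c M hM hc hC Z
  · obtain ⟨s, h1, h2, h3⟩ := balance1 t ht (fun i => -c i) M hM (fun i => by rw [abs_neg]; exact hc i)
      (by rw [Finset.sum_neg_distrib]; linarith) Z
    refine ⟨s, h1, h2, ?_⟩
    have e : ∑ i, -c i * (if t i < s then (1 : ℝ) else -1) =
        - ∑ i, c i * (if t i < s then (1 : ℝ) else -1) := by
      rw [← Finset.sum_neg_distrib]
      apply Finset.sum_congr rfl
      intro i _
      ring
    rw [e, abs_neg] at h3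
    exact h3

theorem exists_slope (A : Set Pt) (hA : A.Finite) (h0 : ∀ a ∈ A, a ≠ 0) :
    ∃ s : ℝ, ∀ a ∈ A, det2 a (1, s) ≠ 0 := by
  classical
  obtain ⟨s, hs⟩ := Infinite.exists_notMem_finset (hA.toFinset.image (fun a => a.2 / a.1))
  refine ⟨s, fun a ha hdet => ?_⟩
  unfold det2 at hdet
  simp only [mul_one] at hdet
  by_cases h1 : a.1 = 0
  · apply h0 a ha
    rw [h1] at hdet
    ext
    · exact h1
    · change a.2 = 0
      linarith
  · apply hs
    rw [Finset.mem_image]
    refine ⟨a, hA.mem_toFinset.mpr ha, ?_⟩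
    rw [div_eq_iff h1]
    linarith

end BalAux

open BalAux in
theorem balance {ι : Type} [Fintype ι] (d : ι → Pt) (hd0 : ∀ i, d i ≠ 0)
    (hd : ∀ i j, i ≠ j → det2 (d i) (d j) ≠ 0) (ω : ι → ℝ) (M : ℝ) (hM : 0 ≤ M)
    (hω0 : ∀ i, 0 ≤ ω i) (hω : ∀ i, ω i ≤ M) (F : Finset Pt) (hF : ∀ u ∈ F, u ≠ 0) :
    ∃ v : Pt, (∀ i, det2 (d i) v ≠ 0) ∧ (∀ u ∈ F, det2 u v ≠ 0) ∧
      |∑ i, ω i * (SignType.sign (det2 (d i) v) : ℝ)| ≤ M := by
  classical
  obtain ⟨k, hk⟩ := exists_slope (Set.range d ∪ (F : Set Pt))
    ((Set.finite_range d).union F.finite_toSet) (by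
      rintro a (⟨i, rfl⟩ | ha)
      · exact hd0 i
      · exact hF a ha)
  have hdk : ∀ i, det2 (d i) (1, k) ≠ 0 := fun i => hk _ (Or.inl ⟨i, rfl⟩)
  have hFk : ∀ u ∈ F, det2 u (1, k) ≠ 0 := fun u hu => hk u (Or.inr hu)
  -- v_t = (t, 1 + t k)
  have hlin : ∀ (a : Pt) (x : ℝ), det2 a (x, 1 + x * k) = a.1 + x * det2 a (1, k) := by
    intro a x
    unfold det2
    simp only
    ring
  set t : ι → ℝ := fun i => -(d i).1 / det2 (d i) (1, k) with ht
  have hti : ∀ i x, det2 (d i) (x, 1 + x * k) = det2 (d i) (1, k) * (x - t i) := by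
    intro i x
    rw [hlin]
    simp only [ht]
    field_simp [hdk i]
    ring
  have htinj : Function.Injective t := by
    intro i j hij
    by_contra hne
    apply hd i j hne
    have h1 : det2 (d i) (t i, 1 + t i * k) = 0 := by rw [hti]; ring
    have h2 : det2 (d j) (t i, 1 + t i * k) = 0 := by rw [hti, hij]; ring
    unfold det2 at h1 h2 ⊢
    simp only at h1 h2
    set τ := t i with hτ
    have e1 : ((d i).1 * (d j).2 - (d i).2 * (d j).1) * τ = 0 := by
      linear_combination (d i).1 * (-h2) + (d j).1 * h1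
    have e2 : ((d i).1 * (d j).2 - (d i).2 * (d j).1) * (1 + τ * k) = 0 := by
      linear_combination (-(d i).2) * h2 + (d j).2 * h1
    rcases mul_eq_zero.mp e1 with h | h
    · exact h
    · rw [h] at e2
      simpa using e2
  set c : ι → ℝ := fun i => ω i * (SignType.sign (det2 (d i) (1, k)) : ℝ) with hc
  have hcb : ∀ i, |c i| ≤ M := by
    intro i
    simp only [hc]
    rw [abs_mul, abs_of_nonneg (hω0 i)]
    have : |(SignType.sign (det2 (d i) (1, k)) : ℝ)| ≤ 1 := by
      rcases lt_trichotomy (det2 (d i) (1, k)) 0 with h | h | h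
      · rw [sign_neg h]; simp
      · exact absurd h (hdk i)
      · rw [sign_pos h]; simp
    calc ω i * |(SignType.sign (det2 (d i) (1, k)) : ℝ)| ≤ ω i * 1 :=
          mul_le_mul_of_nonneg_left this (hω0 i)
      _ ≤ M := by rw [mul_one]; exact hω i
  obtain ⟨x, hxZ, hxt, hxM⟩ := balance2 t htinj c M hM hcb
    (F.image (fun u => -u.1 / det2 u (1, k)))
  refine ⟨(x, 1 + x * k), fun i => ?_, fun u hu => ?_, ?_⟩
  · rw [hti]
    exact mul_ne_zero (hdk i) (sub_ne_zero.mpr (hxt i))
  · rw [hlin]
    intro h0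
    apply hxZ
    rw [Finset.mem_image]
    refine ⟨u, hu, ?_⟩
    rw [div_eq_iff (hFk u hu)]
    linarith
  · have e : ∑ i, ω i * (SignType.sign (det2 (d i) (x, 1 + x * k)) : ℝ) =
        ∑ i, c i * (if t i < x then 1 else -1) := by
      apply Finset.sum_congr rfl
      intro i _
      rw [hti, sign_mul]
      simp only [hc]
      rw [SignType.coe_mul]
      by_cases h1 : t i < x
      · rw [if_pos h1, sign_pos (sub_pos.mpr h1)]
        simp
      · have h2 : x < t i := lt_of_le_of_ne (not_lt.mp h1) (hxt i)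
        rw [if_neg h1, sign_neg (sub_neg.mpr h2)]
        simp
    rw [e]
    exact hxM

end Pool.Agent.MP_a0a8d4_co
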