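import Pool.Agent.MP_a0a8d4_co.Defs2

set_option autoImplicit false

/-!
# MP_a0a8d4_co: basic lemmas on orientations, crossings and segments of polylines
-/

namespace Pool.Agent.MP_a0a8d4_co

open MeasureTheory Set Filter
open scoped unitInterval Topology

theorem orient_rot (a b c : Pt) : orient b c a = orient a b c := by unfold orient; ring
theorem orient_swap (a b c : Pt) : orient b a c = -orient a b c := by unfold orient; ring
theorem orient_swap' (a b c : Pt) : orient a c b = -orient a b c := by unfold orient; ring
theorem orient_self_left (a b : Pt) : orient a b a = 0 := by unfold orient; ring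
theorem orient_self_right (a b : Pt) : orient a b b = 0 := by unfold orient; ring
theorem orient_self (a b : Pt) : orient a a b = 0 := by unfold orient; ring

theorem Cr_comm {a b c d : Pt} : Cr a b c d ↔ Cr c d a b := by
  unfold Cr; exact and_comm

theorem Cr_swap_left {a b c d : Pt} : Cr a b c d ↔ Cr b a c d := by
  unfold Cr
  rw [orient_swap a b c, orient_swap a b d, neg_mul_neg, mul_comm (orient c d b)]

theorem Cr_swap_right {a b c d : Pt} : Cr a b c d ↔ Cr a b d c := by
  rw [Cr_comm, Cr_swap_left, Cr_comm]

theorem Cr_nodup {a b c d : Pt} (h : Cr a b c d) : [a, b, c, d].Nodup := by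
  obtain ⟨h1, h2⟩ := h
  simp only [List.nodup_cons, List.mem_cons, List.not_mem_nil, or_false, not_or,
    List.nodup_nil, and_true, not_false_eq_true]
  refine ⟨⟨?_, ?_, ?_⟩, ⟨?_, ?_⟩, ?_⟩ <;> rintro rfl
  · simp [orient_self] at h1
  · simp [orient_self_left] at h1
  · simp [orient_self_left] at h1
  · simp [orient_self_right] at h1
  · simp [orient_self_right] at h1
  · simp [orient_self] at h2

theorem mem_segment_iff {a b p : Pt} :
    p ∈ segment ℝ a b ↔ ∃ t : ℝ, 0 ≤ t ∧ t ≤ 1 ∧ p.1 = a.1 + t * (b.1 - a.1) ∧
      p.2 = a.2 + t * (b.2 - a.2) := by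
  rw [segment_eq_image']
  constructor
  · rintro ⟨t, ⟨h0, h1⟩, rfl⟩
    exact ⟨t, h0, h1, by simp, by simp⟩
  · rintro ⟨t, h0, h1, h2, h3⟩
    refine ⟨t, ⟨h0, h1⟩, ?_⟩
    ext
    · simp [h2]
    · simp [h3]

theorem mem_openSegment_iff {a b p : Pt} :
    p ∈ openSegment ℝ a b ↔ ∃ t : ℝ, 0 < t ∧ t < 1 ∧ p.1 = a.1 + t * (b.1 - a.1) ∧
      p.2 = a.2 + t * (b.2 - a.2) := by
  rw [openSegment_eq_image']
  constructor
  · rintro ⟨t, ⟨h0, h1⟩, rfl⟩
    exact ⟨t, h0, h1, by simp, by simp⟩
  · rintro ⟨t, h0, h1, h2, h3⟩
    refine ⟨t, ⟨h0, h1⟩, ?_⟩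
    ext
    · simp [h2]
    · simp [h3]

/-- A point of a segment is collinear with the end points. -/
theorem orient_of_mem {a b p : Pt} (h : p ∈ segment ℝ a b) : orient a b p = 0 := by
  obtain ⟨t, _, _, h2, h3⟩ := mem_segment_iff.1 h
  unfold orient
  rw [h2, h3]; ring

/-- Orientation is affine along a segment. -/
theorem orient_affine {a b c d p : Pt} {t : ℝ} (h1 : p.1 = a.1 + t * (b.1 - a.1))
    (h2 : p.2 = a.2 + t * (b.2 - a.2)) :
    orient c d p = (1 - t) * orient c d a + t * orient c d b := by
  unfold orient; rw [h1, h2]; ring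

/-- Crossing segments meet in exactly one point, which is interior to both. -/
theorem Cr_inter {a b c d : Pt} (h : Cr a b c d) :
    ∃ p, segment ℝ a b ∩ segment ℝ c d = {p} ∧ p ∈ openSegment ℝ a b ∧ p ∈ openSegment ℝ c d := by
  obtain ⟨h1, h2⟩ := h
  -- `t` parametrises the point on `[a,b]`, `s` on `[c,d]`
  set A := orient c d a with hA
  set B := orient c d b with hB
  set C := orient a b c with hC
  set D := orient a b d with hD
  have key : A - B = D - C := by
    rw [hA, hB, hC, hD]; unfold orient; ring
  have hAB : A - B ≠ 0 := by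
    intro h0
    have : A = B := by linarith
    rw [this] at h2; nlinarith [mul_self_nonneg B]
  have hDC : D - C ≠ 0 := by rw [← key]; exact hAB
  have ht0 : 0 < A / (A - B) ∧ A / (A - B) < 1 := by
    rcases lt_or_gt_of_ne (show A ≠ 0 by rintro h0; rw [h0] at h2; simp at h2) with hA0 | hA0
    · have hB0 : 0 < B := by
        by_contra hcon; push Not at hcon; nlinarith
      have hneg : A - B < 0 := by linarith
      constructor
      · exact div_pos_of_neg_of_neg hA0 hneg
      · rw [div_lt_one_of_neg hneg]; linarith
    · have hB0 : B < 0 := by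
        by_contra hcon; push Not at hcon; nlinarith
      have hpos : 0 < A - B := by linarith
      constructor
      · exact div_pos hA0 hpos
      · rw [div_lt_one hpos]; linarith
  have hs0 : 0 < C / (C - D) ∧ C / (C - D) < 1 := by
    rcases lt_or_gt_of_ne (show C ≠ 0 by rintro h0; rw [h0] at h1; simp at h1) with hA0 | hA0
    · have hB0 : 0 < D := by
        by_contra hcon; push Not at hcon; nlinarith
      have hneg : C - D < 0 := by linarith
      constructor
      · exact div_pos_of_neg_of_neg hA0 hneg
      · rw [div_lt_one_of_neg hneg]; linarith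
    · have hB0 : D < 0 := by
        by_contra hcon; push Not at hcon; nlinarith
      have hpos : 0 < C - D := by linarith
      constructor
      · exact div_pos hA0 hpos
      · rw [div_lt_one hpos]; linarith
  have hCD : C - D ≠ 0 := by intro h0; apply hDC; linarith
  set t := A / (A - B) with htdef
  set s := C / (C - D) with hsdef
  have e1 : a.1 + t * (b.1 - a.1) = c.1 + s * (d.1 - c.1) := by
    have hk : C - D = -(A - B) := by linarith
    rw [htdef, hsdef, hk]
    field_simp
    rw [hA, hB, hC]; unfold orient; ring
  have e2 : a.2 + t * (b.2 - a.2) = c.2 + s * (d.2 - c.2) := by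
    have hk : C - D = -(A - B) := by linarith
    rw [htdef, hsdef, hk]
    field_simp
    rw [hA, hB, hC]; unfold orient; ring
  refine ⟨(a.1 + t * (b.1 - a.1), a.2 + t * (b.2 - a.2)), ?_, ?_, ?_⟩
  · apply Subset.antisymm
    · rintro p ⟨hp1, hp2⟩
      obtain ⟨t', _, _, h5, h6⟩ := mem_segment_iff.1 hp1
      have h7 := orient_of_mem hp2
      rw [orient_affine h5 h6, ← hA, ← hB] at h7
      have h8 : t' = t := by
        rw [htdef, eq_div_iff hAB]; linarith
      rw [mem_singleton_iff]
      ext
      · simp [h5, h8]
      · simp [h6, h8]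
    · rintro p hp
      rw [mem_singleton_iff] at hp
      subst hp
      refine ⟨mem_segment_iff.2 ⟨t, ht0.1.le, ht0.2.le, rfl, rfl⟩,
        mem_segment_iff.2 ⟨s, hs0.1.le, hs0.2.le, e1, e2⟩⟩
  · exact mem_openSegment_iff.2 ⟨t, ht0.1, ht0.2, rfl, rfl⟩
  · exact mem_openSegment_iff.2 ⟨s, hs0.1, hs0.2, e1, e2⟩

theorem Cr.not_mem {a b c d : Pt} (h : Cr a b c d) : a ∉ segment ℝ c d ∧ b ∉ segment ℝ c d := by
  constructor
  · intro h'
    have := orient_of_mem h'
    have h2 := h.2
    rw [this] at h2; simp at h2
  · intro h'
    have := orient_of_mem h'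
    have h2 := h.2
    rw [this] at h2; simp at h2

/-- Segments with four distinct end points in general position meet only if they cross. -/
theorem Cr_of_inter {a b c d : Pt} (h : GP {a, b, c, d}) (hn : [a, b, c, d].Nodup)
    (hm : (segment ℝ a b ∩ segment ℝ c d).Nonempty) : Cr a b c d := by
  simp only [List.nodup_cons, List.mem_cons, List.not_mem_nil, or_false, not_or,
    List.nodup_nil, and_true, not_false_eq_true] at hn
  obtain ⟨⟨hab, hac, had⟩, ⟨hbc, hbd⟩, hcd⟩ := hn
  have n1 : orient a b c ≠ 0 := h a (by simp) b (by simp) c (by simp) hab hbc hac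
  have n2 : orient a b d ≠ 0 := h a (by simp) b (by simp) d (by simp) hab hbd had
  have n3 : orient c d a ≠ 0 := h c (by simp) d (by simp) a (by simp) hcd (Ne.symm had)
    (Ne.symm hac)
  have n4 : orient c d b ≠ 0 := h c (by simp) d (by simp) b (by simp) hcd (Ne.symm hbd)
    (Ne.symm hbc)
  obtain ⟨p, hp1, hp2⟩ := hm
  obtain ⟨t, t0, t1, h5, h6⟩ := mem_segment_iff.1 hp1
  obtain ⟨s, s0, s1, h7, h8⟩ := mem_segment_iff.1 hp2
  have e1 := orient_of_mem hp2
  rw [orient_affine h5 h6] at e1
  have e2 := orient_of_mem hp1
  rw [orient_affine h7 h8] at e2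
  constructor
  · by_contra hcon
    push Not at hcon
    have : 0 < orient a b c * orient a b d := lt_of_le_of_ne hcon (Ne.symm (mul_ne_zero n1 n2))
    have hs : s = 0 ∨ 0 < s := by rcases eq_or_lt_of_le s0 with h | h <;> [left; right] <;> [exact h.symm; exact h]
    rcases hs with hs | hs
    · rw [hs] at e2; simp at e2; exact n1 e2
    · have h9 : (1 - s) * (orient a b c * orient a b c) + s * (orient a b c * orient a b d) = 0 := by
        linear_combination orient a b c * e2
      have : 0 < s * (orient a b c * orient a b d) := by positivity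
      nlinarith [mul_self_nonneg (orient a b c)]
  · by_contra hcon
    push Not at hcon
    have : 0 < orient c d a * orient c d b := lt_of_le_of_ne hcon (Ne.symm (mul_ne_zero n3 n4))
    have hs : t = 0 ∨ 0 < t := by rcases eq_or_lt_of_le t0 with h | h <;> [left; right] <;> [exact h.symm; exact h]
    rcases hs with hs | hs
    · rw [hs] at e1; simp at e1; exact n3 e1
    · have h9 : (1 - t) * (orient c d a * orient c d a) + t * (orient c d a * orient c d b) = 0 := by
        linear_combination orient c d a * e1
      have : 0 < t * (orient c d a * orient c d b) := by positivity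
      nlinarith [mul_self_nonneg (orient c d a)]

/-- Two segments with a common end point that are not collinear share only this point. -/
theorem inter_common {a b c : Pt} (h : orient a b c ≠ 0) :
    segment ℝ a b ∩ segment ℝ a c = {a} := by
  apply Subset.antisymm
  · rintro p ⟨hp1, hp2⟩
    obtain ⟨t, _, _, h5, h6⟩ := mem_segment_iff.1 hp1
    have h7 := orient_of_mem hp2
    rw [orient_affine h5 h6, orient_self_left, orient_swap'] at h7
    have : t = 0 := by
      have : t * orient a b c = 0 := by linarith
      rcases mul_eq_zero.1 this with h | h'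
      · exact h
      · exact absurd h' h
    rw [mem_singleton_iff]
    ext
    · simp [h5, this]
    · simp [h6, this]
  · rintro p hp
    rw [mem_singleton_iff] at hp
    subst hp
    exact ⟨left_mem_segment ℝ _ _, left_mem_segment ℝ _ _⟩

/-! ## Segments of polylines -/

theorem segs_nil : segs [] = [] := rfl

theorem segs_single (a : Pt) : segs [a] = [] := rfl

theorem segs_cons_cons (a b : Pt) (l : List Pt) : segs (a :: b :: l) = (a, b) :: segs (b :: l) := by
  rfl

theorem segs_mem {l : List Pt} {e : Pt × Pt} (h : e ∈ segs l) : e.1 ∈ l ∧ e.2 ∈ l := by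
  unfold segs at h
  have h' : (e.1, e.2) ∈ l.zip l.tail := h
  exact ⟨(List.of_mem_zip h').1, List.mem_of_mem_tail (List.of_mem_zip h').2⟩

theorem segs_append (l : List Pt) (a : Pt) (m : List Pt) :
    segs (l ++ a :: m) = segs (l ++ [a]) ++ segs (a :: m) := by
  induction l with
  | nil => simp [segs_single]
  | cons b l ih =>
    cases l with
    | nil => simp [segs_cons_cons, segs_single]
    | cons c l =>
      simp only [List.cons_append, segs_cons_cons] at ih ⊢
      rw [ih]

theorem segs_concat (l : List Pt) (a b : Pt) : segs (l ++ [a, b]) = segs (l ++ [a]) ++ [(a, b)] := by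
  have := segs_append l a [b]
  rw [this]
  rfl

theorem segs_reverse_eq (l : List Pt) : segs l.reverse = ((segs l).map Prod.swap).reverse := by
  induction l with
  | nil => rfl
  | cons a l ih =>
    cases l with
    | nil => rfl
    | cons b l =>
      have h1 : ((segs (a :: b :: l)).map Prod.swap).reverse = segs (b :: l).reverse ++ [(b, a)] := by
        rw [ih, segs_cons_cons, List.map_cons, List.reverse_cons]; rfl
      rw [h1, List.reverse_cons, List.reverse_cons, List.append_assoc]
      exact segs_concat _ _ _

theorem segs_reverse {l : List Pt} {a b : Pt} : (a, b) ∈ segs l.reverse ↔ (b, a) ∈ segs l := by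
  rw [segs_reverse_eq, List.mem_reverse, List.mem_map]
  constructor
  · rintro ⟨⟨c, d⟩, h, h'⟩
    simp only [Prod.swap_prod_mk, Prod.mk.injEq] at h'
    rw [← h'.1, ← h'.2]; exact h
  · intro h
    exact ⟨(b, a), h, rfl⟩

theorem segs_ne {l : List Pt} (hl : l.Nodup) {e : Pt × Pt} (h : e ∈ segs l) : e.1 ≠ e.2 := by
  induction l with
  | nil => simp [segs] at h
  | cons a l ih =>
    cases l with
    | nil => simp [segs] at h
    | cons b l =>
      rw [segs_cons_cons, List.mem_cons] at h
      rcases h with rfl | h
      · rintro heq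
        simp only at heq
        rw [List.nodup_cons] at hl
        exact hl.1 (by rw [heq]; simp)
      · exact ih (List.nodup_cons.1 hl).2 h

theorem segs_map (f : Pt → Pt) (l : List Pt) :
    segs (l.map f) = (segs l).map fun e => (f e.1, f e.2) := by
  unfold segs
  rw [← List.map_tail, List.zip_map]
  rfl

theorem segs_nodup {l : List Pt} (hl : l.Nodup) : (segs l).Nodup := by
  induction l with
  | nil => simp [segs]
  | cons a l ih =>
    cases l with
    | nil => simp [segs]
    | cons b l =>
      rw [segs_cons_cons, List.nodup_cons]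
      refine ⟨?_, ih (List.nodup_cons.1 hl).2⟩
      intro h
      exact (List.nodup_cons.1 hl).1 (segs_mem h).1

theorem Car_reverse (l : List Pt) : Car l.reverse = Car l := by
  ext p
  constructor
  · rintro ⟨⟨a, b⟩, he, hp⟩
    exact ⟨(b, a), segs_reverse.1 he, by simpa [segment_symm] using hp⟩
  · rintro ⟨⟨a, b⟩, he, hp⟩
    exact ⟨(b, a), segs_reverse.2 he, by simpa [segment_symm] using hp⟩

theorem Car_cons_cons (a b : Pt) (l : List Pt) : Car (a :: b :: l) = segment ℝ a b ∪ Car (b :: l) := by
  ext p
  simp only [Car, segs_cons_cons, List.mem_cons, mem_ofPred_eq, mem_union]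
  constructor
  · rintro ⟨e, rfl | he, hp⟩
    · exact Or.inl hp
    · exact Or.inr ⟨e, he, hp⟩
  · rintro (hp | ⟨e, he, hp⟩)
    · exact ⟨_, Or.inl rfl, hp⟩
    · exact ⟨e, Or.inr he, hp⟩

theorem Car_single (a : Pt) : Car [a] = ∅ := by
  ext p; simp [Car, segs_single]

theorem Car_nil : Car [] = ∅ := by
  ext p; simp [Car, segs_nil]

theorem Car_append (l : List Pt) (a : Pt) (m : List Pt) :
    Car (l ++ a :: m) = Car (l ++ [a]) ∪ Car (a :: m) := by
  ext p
  simp only [Car, segs_append l a m, List.mem_append, mem_ofPred_eq, mem_union]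
  constructor
  · rintro ⟨e, he | he, hp⟩
    · exact Or.inl ⟨e, he, hp⟩
    · exact Or.inr ⟨e, he, hp⟩
  · rintro (⟨e, he, hp⟩ | ⟨e, he, hp⟩)
    · exact ⟨e, Or.inl he, hp⟩
    · exact ⟨e, Or.inr he, hp⟩

/-- The members of a list with at least two elements are in the point set. -/
theorem mem_Car {l : List Pt} {a b : Pt} (h : a ∈ l) (hb : b ∈ l) (hab : a ≠ b) : a ∈ Car l := by
  induction l with
  | nil => simp at h
  | cons c l ih =>
    cases l with
    | nil =>
      simp only [List.mem_cons, List.not_mem_nil, or_false] at h hb
      exact absurd (h.trans hb.symm) hab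
    | cons d l =>
      rw [Car_cons_cons]
      rcases List.mem_cons.1 h with rfl | h'
      · exact Or.inl (left_mem_segment ℝ _ _)
      · rcases List.mem_cons.1 hb with rfl | hb'
        · cases l with
          | nil =>
            simp only [List.mem_cons, List.not_mem_nil, or_false] at h'
            subst h'
            exact Or.inl (right_mem_segment ℝ _ _)
          | cons f l =>
            by_cases hd : a = d
            · subst hd
              exact Or.inl (right_mem_segment ℝ _ _)
            · -- then `a` and `d` are distinct members of the tail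
              clear ih
              have : ∀ (m : List Pt) (x y : Pt), x ∈ m → y ∈ m → x ≠ y → x ∈ Car m := by
                intro m
                induction m with
                | nil => intro x y hx; simp at hx
                | cons u m ihm =>
                  intro x y hx hy hxy
                  cases m with
                  | nil =>
                    simp only [List.mem_cons, List.not_mem_nil, or_false] at hx hy
                    exact absurd (hx.trans hy.symm) hxy
                  | cons v m =>
                    rw [Car_cons_cons]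
                    rcases List.mem_cons.1 hx with rfl | hx'
                    · exact Or.inl (left_mem_segment ℝ _ _)
                    · by_cases hxv : x = v
                      · subst hxv
                        exact Or.inl (right_mem_segment ℝ _ _)
                      · exact Or.inr (ihm x v hx' (by simp) hxv)
              exact Or.inr (this _ a d h' (by simp) hd)
        · exact Or.inr (ih h' hb')

/-! ## Symmetries of the crossing relation -/

theorem Nice.cr_comm {V : Type} (N : Nice V) (x y z w : V) : N.cr x y z w ↔ N.cr z w x y := by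
  constructor
  · rintro ⟨e, he, f, hf, h⟩
    exact ⟨f, hf, e, he, Cr_comm.1 h⟩
  · rintro ⟨e, he, f, hf, h⟩
    exact ⟨f, hf, e, he, Cr_comm.1 h⟩

theorem Nice.cr_swap_left {V : Type} (N : Nice V) (x y z w : V) : N.cr x y z w ↔ N.cr y x z w := by
  have key : ∀ x y : V, N.cr x y z w → N.cr y x z w := by
    rintro x y ⟨⟨a, b⟩, he, f, hf, h⟩
    refine ⟨(b, a), ?_, f, hf, Cr_swap_left.1 h⟩
    rw [N.rev x y]
    exact segs_reverse.2 he
  exact ⟨key x y, key y x⟩

theorem Nice.cr_swap_right {V : Type} (N : Nice V) (x y z w : V) : N.cr x y z w ↔ N.cr x y w z := by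
  rw [N.cr_comm, N.cr_swap_left, N.cr_comm]

end Pool.Agent.MP_a0a8d4_co
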