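import Pool.Agent.MP_a0a8d4_co.Defs2

set_option autoImplicit false

/-!
# MP_a0a8d4_co: dyadic cells
-/

namespace Pool.Agent.MP_a0a8d4_co

open MeasureTheory Set Filter
open scoped unitInterval Topology

theorem measurable_cell (r : ℕ) : Measurable (cell r) := by
  unfold cell
  apply Measurable.min _ measurable_const
  apply Nat.measurable_floor.comp
  exact (measurable_const.mul measurable_subtype_coe)

theorem cell_eq_floor {r : ℕ} {x : I} (hx : (x : ℝ) < 1) : cell r x = ⌊(2 : ℝ) ^ r * (x : ℝ)⌋₊ := by
  unfold cell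
  apply min_eq_left
  have h : ⌊(2 : ℝ) ^ r * (x : ℝ)⌋₊ < 2 ^ r := by
    rw [Nat.floor_lt (by have := x.2.1; positivity)]
    push_cast
    have h2 : (0 : ℝ) < 2 ^ r := by positivity
    nlinarith
  omega

theorem cell_one {r : ℕ} {x : I} (hx : (x : ℝ) = 1) : cell r x = 2 ^ r - 1 := by
  unfold cell
  rw [hx, mul_one]
  have : ⌊(2 : ℝ) ^ r⌋₊ = 2 ^ r := by
    have : ((2 : ℝ) ^ r) = ((2 ^ r : ℕ) : ℝ) := by push_cast; rfl
    rw [this, Nat.floor_natCast]
  rw [this]
  omega

theorem cell_bounds (r : ℕ) (x : I) :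
    (cell r x : ℝ) ≤ 2 ^ r * (x : ℝ) ∧ 2 ^ r * (x : ℝ) ≤ cell r x + 1 := by
  have h2 : (1 : ℝ) ≤ 2 ^ r := one_le_pow₀ (by norm_num)
  by_cases hx : (x : ℝ) < 1
  · rw [cell_eq_floor hx]
    exact ⟨Nat.floor_le (by have := x.2.1; positivity), (Nat.lt_floor_add_one _).le⟩
  · have hx1 : (x : ℝ) = 1 := le_antisymm x.2.2 (not_lt.1 hx)
    rw [cell_one hx1, hx1]
    have h3 : 1 ≤ 2 ^ r := Nat.one_le_two_pow
    push_cast [Nat.cast_sub h3]
    constructor <;> linarith

theorem cell_div {k r : ℕ} (hk : k ≤ r) (x : I) : cell r x / 2 ^ (r - k) = cell k x := by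
  by_cases hx : (x : ℝ) < 1
  · rw [cell_eq_floor hx, cell_eq_floor hx, ← Nat.floor_div_natCast]
    congr 1
    push_cast
    have : (2 : ℝ) ^ r = 2 ^ k * 2 ^ (r - k) := by rw [← pow_add]; congr 1; omega
    rw [this]
    field_simp
  · have hx1 : (x : ℝ) = 1 := le_antisymm x.2.2 (not_lt.1 hx)
    rw [cell_one hx1, cell_one hx1]
    have h1 : 2 ^ r = 2 ^ k * 2 ^ (r - k) := by rw [← pow_add]; congr 1; omega
    have h2 : 0 < 2 ^ (r - k) := by positivity
    have h3 : 0 < 2 ^ k := by positivity
    obtain ⟨a, ha⟩ : ∃ a, 2 ^ k = a + 1 := ⟨2 ^ k - 1, by omega⟩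
    rw [h1, ha, Nat.add_sub_cancel]
    have h4 : (a + 1) * 2 ^ (r - k) - 1 = a * 2 ^ (r - k) + (2 ^ (r - k) - 1) := by
      rw [add_mul, one_mul]; omega
    rw [h4, mul_comm, Nat.mul_add_div h2, Nat.div_eq_of_lt (by omega), add_zero]

theorem cell_mono {k r : ℕ} (hk : k ≤ r) {x y : I} (h : cell r x = cell r y) :
    cell k x = cell k y := by rw [← cell_div hk x, ← cell_div hk y, h]

theorem cell_zero (x : I) : cell 0 x = 0 := by
  have := cell_lt 0 x
  simpa using this

theorem cell_close {r : ℕ} {x y : I} (h : cell r x = cell r y) :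
    |(x : ℝ) - y| ≤ (1 / 2) ^ r := by
  have h1 := cell_bounds r x
  have h2 := cell_bounds r y
  rw [h] at h1
  have h3 : (0 : ℝ) < 2 ^ r := by positivity
  have h4 : ((1 : ℝ) / 2) ^ r = 1 / 2 ^ r := by rw [one_div, one_div, inv_pow]
  rw [h4, abs_le]
  constructor
  · rw [neg_le_sub_iff_le_add]
    rw [← mul_le_mul_iff_right₀ h3, mul_add, mul_one_div_cancel h3.ne']
    linarith [h1.1, h2.2]
  · rw [sub_le_iff_le_add]
    rw [← mul_le_mul_iff_right₀ h3, mul_add, mul_one_div_cancel h3.ne']
    linarith [h1.2, h2.1]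

theorem vol_cell (r j : ℕ) (hj : j < 2 ^ r) :
    (volume : Measure I).real {x | cell r x = j} = (1 / 2) ^ r := by
  have h3 : (0 : ℝ) < 2 ^ r := by positivity
  have hj' : (j : ℝ) + 1 ≤ 2 ^ r := by exact_mod_cast hj
  have hp : ((1 : ℝ) / 2) ^ r = 1 / 2 ^ r := by rw [one_div, one_div, inv_pow]
  have key : volume {x : I | cell r x = j} = ENNReal.ofReal ((1 / 2) ^ r) := by
    rw [unitInterval.volume_apply]
    apply le_antisymm
    · have hsub : Subtype.val '' {x : I | cell r x = j} ⊆ Icc ((j : ℝ) / 2 ^ r) ((j + 1) / 2 ^ r) := by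
        rintro _ ⟨x, hx, rfl⟩
        have h1 := cell_bounds r x
        rw [show cell r x = j from hx] at h1
        constructor
        · rw [div_le_iff₀ h3]; linarith [h1.1]
        · rw [le_div_iff₀ h3]; linarith [h1.2]
      refine (measure_mono hsub).trans ?_
      rw [Real.volume_Icc]
      apply ENNReal.ofReal_le_ofReal
      rw [hp, ← sub_div]
      simp
    · have hsub : Ioo ((j : ℝ) / 2 ^ r) ((j + 1) / 2 ^ r) ⊆ Subtype.val '' {x : I | cell r x = j} := by
        rintro t ⟨ht1, ht2⟩
        rw [div_lt_iff₀ h3] at ht1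
        rw [lt_div_iff₀ h3] at ht2
        have ht0 : 0 ≤ t := by
          by_contra hcon
          push Not at hcon
          have : (0 : ℝ) ≤ j := Nat.cast_nonneg j
          nlinarith
        have ht3 : t < 1 := by
          by_contra hcon
          push Not at hcon
          nlinarith
        refine ⟨⟨t, ht0, ht3.le⟩, ?_, rfl⟩
        have : cell r ⟨t, ht0, ht3.le⟩ = ⌊(2 : ℝ) ^ r * t⌋₊ :=
          cell_eq_floor (x := ⟨t, ht0, ht3.le⟩) ht3
        change cell r ⟨t, ht0, ht3.le⟩ = j
        rw [this, Nat.floor_eq_iff (by positivity)]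
        constructor <;> linarith
      refine le_trans ?_ (measure_mono hsub)
      rw [Real.volume_Ioo]
      apply ENNReal.ofReal_le_ofReal
      rw [hp, ← sub_div]
      simp
  rw [measureReal_def, key, ENNReal.toReal_ofReal (by positivity)]

theorem vol_cell' (r j : ℕ) (hj : j < 2 ^ r) :
    (volume : Measure I) {x | cell r x = j} = ENNReal.ofReal ((1 / 2) ^ r) := by
  rw [← vol_cell r j hj, measureReal_def, ENNReal.ofReal_toReal (measure_ne_top _ _)]

theorem measurableSet_cell (r j : ℕ) : MeasurableSet {x : I | cell r x = j} :=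
  measurable_cell r (measurableSet_singleton j)

/-- The volume of a product of cells. -/
theorem vol_cells {m : ℕ} (r : ℕ) (c : Fin m → ℕ) (hc : ∀ i, c i < 2 ^ r) :
    (volume : Measure (Fin m → I)).real {v | ∀ i, cell r (v i) = c i} = ((1 / 2) ^ r) ^ m := by
  have h : {v : Fin m → I | ∀ i, cell r (v i) = c i} = Set.pi univ fun i => {x | cell r x = c i} := by
    ext v; simp
  rw [h, measureReal_def, volume_pi_pi, ENNReal.toReal_prod]
  rw [Finset.prod_congr rfl (g := fun _ => ((1 : ℝ) / 2) ^ r)]
  · simp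
  · intro i _
    exact vol_cell r (c i) (hc i)

theorem measurable_cell_coord {m : ℕ} (r : ℕ) (i : Fin m) :
    Measurable fun v : Fin m → I => cell r (v i) :=
  (measurable_cell r).comp (measurable_pi_apply i)

theorem measurableSet_same {m : ℕ} (r : ℕ) (i j : Fin m) :
    MeasurableSet {v : Fin m → I | cell r (v i) = cell r (v j)} :=
  measurableSet_eq_fun (measurable_cell_coord r i) (measurable_cell_coord r j)

/-- The vector of cells of level `r`. -/
noncomputable def cellV {m : ℕ} (r : ℕ) (v : Fin m → I) : Fin m → Fin (2 ^ r) :=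
  fun i => cellF r (v i)

theorem cellF_eq {r : ℕ} {x : I} {j : Fin (2 ^ r)} : cellF r x = j ↔ cell r x = j := by
  unfold cellF
  rw [Fin.ext_iff]

theorem measurable_cellF (r : ℕ) : Measurable (cellF r) := by
  apply measurable_to_countable'
  intro j
  have : cellF r ⁻¹' {j} = {x | cell r x = (j : ℕ)} := by
    ext x; simp [cellF_eq]
  rw [this]
  exact measurableSet_cell r j

theorem measurable_cellV {m : ℕ} (r : ℕ) : Measurable (cellV (m := m) r) := by
  apply measurable_pi_lambda
  intro i
  exact (measurable_cellF r).comp (measurable_pi_apply i)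

theorem vol_cellV {m : ℕ} (r : ℕ) (c : Fin m → Fin (2 ^ r)) :
    (volume : Measure (Fin m → I)).real {v | cellV r v = c} = ((1 / 2) ^ r) ^ m := by
  rw [← vol_cells r (fun i => (c i : ℕ)) (fun i => (c i).2)]
  congr 1
  ext v
  simp only [mem_ofPred_eq, funext_iff, cellV, cellF_eq]

/-- The volume of a set that is a union of products of cells of level `r`. -/
theorem vol_cellV_set {m : ℕ} (r : ℕ) (T : Finset (Fin m → Fin (2 ^ r))) :
    (volume : Measure (Fin m → I)).real {v | cellV r v ∈ T} = T.card * ((1 / 2) ^ r) ^ m := by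
  have h : {v : Fin m → I | cellV r v ∈ T} = ⋃ c ∈ T, {v | cellV r v = c} := by
    ext v; simp
  rw [h, measureReal_biUnion_finset]
  · rw [Finset.sum_congr rfl (fun c _ => vol_cellV r c)]
    simp
  · intro c _ c' _ hcc'
    rw [Function.onFun, Set.disjoint_left]
    rintro v hv hv'
    exact hcc' (hv.symm.trans hv')
  · intro c _
    exact measurable_cellV r (measurableSet_singleton c)

/-- The volume of the set where the cells of some coordinates are prescribed. -/
theorem vol_cells_on {m : ℕ} (r : ℕ) (s : Finset (Fin m)) (c : Fin m → ℕ)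
    (hc : ∀ i ∈ s, c i < 2 ^ r) :
    (volume : Measure (Fin m → I)).real {v | ∀ i ∈ s, cell r (v i) = c i} =
      ((1 / 2) ^ r) ^ s.card := by
  classical
  have h : {v : Fin m → I | ∀ i ∈ s, cell r (v i) = c i} =
      Set.pi univ fun i => if i ∈ s then {x | cell r x = c i} else univ := by
    ext v
    simp only [mem_ofPred_eq, Set.mem_pi, mem_univ, true_implies]
    constructor
    · intro hv i
      split_ifs with hi
      · exact hv i hi
      · trivial
    · intro hv i hi
      have := hv i
      rw [if_pos hi] at this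
      exact this
  rw [h, measureReal_def, volume_pi_pi, ENNReal.toReal_prod]
  have h2 : ∀ i ∈ (Finset.univ : Finset (Fin m)),
      (volume (if i ∈ s then {x : I | cell r x = c i} else univ)).toReal =
        if i ∈ s then ((1 : ℝ) / 2) ^ r else 1 := by
    intro i _
    split_ifs with hi
    · exact vol_cell r (c i) (hc i hi)
    · simp
  rw [Finset.prod_congr rfl h2, Finset.prod_ite]
  simp

/-- In `I^m` the set where two given coordinates are in the same cell of level `r`. -/
theorem vol_same {m : ℕ} (r : ℕ) (i j : Fin m) (hij : i ≠ j) :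
    (volume : Measure (Fin m → I)).real {v | cell r (v i) = cell r (v j)} = (1 / 2) ^ r := by
  have h : {v : Fin m → I | cell r (v i) = cell r (v j)} =
      ⋃ a ∈ Finset.range (2 ^ r), {v | ∀ l ∈ ({i, j} : Finset (Fin m)), cell r (v l) = a} := by
    ext v
    simp only [mem_ofPred_eq, Finset.mem_range, mem_iUnion, Finset.mem_insert,
      Finset.mem_singleton, forall_eq_or_imp, forall_eq, exists_prop]
    constructor
    · intro hv
      exact ⟨cell r (v i), cell_lt r _, rfl, hv.symm⟩
    · rintro ⟨a, _, h1, h2⟩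
      rw [h1, h2]
  rw [h, measureReal_biUnion_finset]
  · rw [Finset.sum_congr rfl (g := fun _ => (((1 : ℝ) / 2) ^ r) ^ 2)]
    · rw [Finset.sum_const, Finset.card_range, nsmul_eq_mul]
      push_cast
      rw [pow_two, ← mul_assoc, ← mul_pow]
      norm_num
    · intro a ha
      rw [vol_cells_on r {i, j} (fun _ => a) (fun _ _ => Finset.mem_range.1 ha),
        Finset.card_pair hij]
  · intro a _ b _ hab
    rw [Function.onFun, Set.disjoint_left]
    rintro v hv hv'
    exact hab ((hv i (by simp)).symm.trans (hv' i (by simp)))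
  · intro a _
    have : {v : Fin m → I | ∀ l ∈ ({i, j} : Finset (Fin m)), cell r (v l) = a} =
        ⋂ l ∈ ({i, j} : Finset (Fin m)), {v | cell r (v l) = a} := by ext v; simp
    rw [this]
    apply Finset.measurableSet_biInter
    intro l _
    exact measurable_cell_coord r l (measurableSet_singleton a)

/-- Two different coincidences of cells. -/
theorem vol_same_two {m : ℕ} (r : ℕ) (i j k l : Fin m) (hij : i ≠ j) (hkl : k ≠ l)
    (h : ¬ (i = k ∧ j = l)) (h' : ¬ (i = l ∧ j = k)) :
    (volume : Measure (Fin m → I)).real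
      {v | cell r (v i) = cell r (v j) ∧ cell r (v k) = cell r (v l)} ≤ ((1 / 2) ^ r) ^ 2 := by
  classical
  have hq : (2 : ℝ) ^ r * (1 / 2) ^ r = 1 := by rw [← mul_pow]; norm_num
  by_cases hd : i = k ∨ i = l ∨ j = k ∨ j = l
  · -- three coordinates
    have hcard : 3 ≤ ({i, j, k, l} : Finset (Fin m)).card := by
      by_contra hcon
      push Not at hcon
      have h1 : ({i, j, k, l} : Finset (Fin m)).card ≤ 2 := by omega
      have h2 : ({i, j} : Finset (Fin m)) ⊆ {i, j, k, l} := by
        intro x hx; simp at hx ⊢; tauto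
      have h3 : ({i, j} : Finset (Fin m)) = {i, j, k, l} :=
        Finset.eq_of_subset_of_card_le h2 (by rw [Finset.card_pair hij]; exact h1)
      have hk : k ∈ ({i, j} : Finset (Fin m)) := by rw [h3]; simp
      have hl : l ∈ ({i, j} : Finset (Fin m)) := by rw [h3]; simp
      simp only [Finset.mem_insert, Finset.mem_singleton] at hk hl
      rcases hk with rfl | rfl <;> rcases hl with rfl | rfl
      · exact hkl rfl
      · exact h ⟨rfl, rfl⟩
      · exact h' ⟨rfl, rfl⟩
      · exact hkl rfl
    have hsub : {v : Fin m → I | cell r (v i) = cell r (v j) ∧ cell r (v k) = cell r (v l)} ⊆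
        ⋃ a ∈ Finset.range (2 ^ r),
          {v | ∀ u ∈ ({i, j, k, l} : Finset (Fin m)), cell r (v u) = a} := by
      rintro v ⟨h1, h2⟩
      simp only [Finset.mem_range, mem_iUnion, Finset.mem_insert, mem_ofPred_eq,
        Finset.mem_singleton, forall_eq_or_imp, forall_eq, exists_prop]
      refine ⟨cell r (v i), cell_lt r _, rfl, h1.symm, ?_, ?_⟩
      · rcases hd with rfl | rfl | rfl | rfl
        · rfl
        · exact h2
        · exact h1.symm
        · exact h2.trans h1.symm
      · rcases hd with rfl | rfl | rfl | rfl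
        · exact h2.symm
        · rfl
        · exact h2.symm.trans h1.symm
        · exact h1.symm
    refine (measureReal_mono hsub (measure_ne_top _ _)).trans ?_
    refine (measureReal_biUnion_finset_le _ _).trans ?_
    calc ∑ a ∈ Finset.range (2 ^ r), (volume : Measure (Fin m → I)).real
          {v | ∀ u ∈ ({i, j, k, l} : Finset (Fin m)), cell r (v u) = a}
        ≤ ∑ a ∈ Finset.range (2 ^ r), (((1 : ℝ) / 2) ^ r) ^ 3 := by
          apply Finset.sum_le_sum
          intro a ha
          rw [vol_cells_on r {i, j, k, l} (fun _ => a) (fun _ _ => Finset.mem_range.1 ha)]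
          exact pow_le_pow_of_le_one (by positivity) (pow_le_one₀ (by norm_num) (by norm_num)) hcard
      _ = ((1 / 2) ^ r) ^ 2 := by
          rw [Finset.sum_const, Finset.card_range, nsmul_eq_mul]
          push_cast
          linear_combination (((1 : ℝ) / 2) ^ r) ^ 2 * hq
  · push Not at hd
    obtain ⟨hik, hil, hjk, hjl⟩ := hd
    have hcard : ({i, j, k, l} : Finset (Fin m)).card = 4 := by
      rw [Finset.card_insert_of_notMem (by simp [hij, hik, hil]),
        Finset.card_insert_of_notMem (by simp [hjk, hjl]), Finset.card_pair hkl]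
    have hsub : {v : Fin m → I | cell r (v i) = cell r (v j) ∧ cell r (v k) = cell r (v l)} ⊆
        ⋃ a ∈ Finset.range (2 ^ r) ×ˢ Finset.range (2 ^ r),
          {v | ∀ u ∈ ({i, j, k, l} : Finset (Fin m)), cell r (v u) =
            if u = i ∨ u = j then a.1 else a.2} := by
      rintro v ⟨h1, h2⟩
      simp only [Finset.mem_product, Finset.mem_range, mem_iUnion, Finset.mem_insert,
        mem_ofPred_eq, Finset.mem_singleton, forall_eq_or_imp, forall_eq, exists_prop]
      refine ⟨(cell r (v i), cell r (v k)), ⟨cell_lt r _, cell_lt r _⟩, ?_, ?_, ?_, ?_⟩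
      · simp
      · simp [h1]
      · simp [Ne.symm hik, Ne.symm hjk]
      · simp [Ne.symm hil, Ne.symm hjl, h2]
    refine (measureReal_mono hsub (measure_ne_top _ _)).trans ?_
    refine (measureReal_biUnion_finset_le _ _).trans ?_
    calc ∑ a ∈ Finset.range (2 ^ r) ×ˢ Finset.range (2 ^ r), (volume : Measure (Fin m → I)).real
          {v | ∀ u ∈ ({i, j, k, l} : Finset (Fin m)), cell r (v u) =
            if u = i ∨ u = j then a.1 else a.2}
        ≤ ∑ a ∈ Finset.range (2 ^ r) ×ˢ Finset.range (2 ^ r), (((1 : ℝ) / 2) ^ r) ^ 4 := by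
          apply Finset.sum_le_sum
          intro a ha
          rw [Finset.mem_product, Finset.mem_range, Finset.mem_range] at ha
          rw [vol_cells_on r {i, j, k, l} (fun u => if u = i ∨ u = j then a.1 else a.2), hcard]
          intro u _
          try dsimp only
          split_ifs
          · exact ha.1
          · exact ha.2
      _ = ((1 / 2) ^ r) ^ 2 := by
          rw [Finset.sum_const, Finset.card_product, Finset.card_range, nsmul_eq_mul]
          push_cast
          linear_combination (((1 : ℝ) / 2) ^ r) ^ 2 * (2 ^ r * (1 / 2) ^ r + 1) * hq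

end Pool.Agent.MP_a0a8d4_co
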