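import Pool.Agent.MP_a0a8d4_co.GraphonW

set_option autoImplicit false

/-!
# MP_a0a8d4_co: comparison of the energies inside the cells of consecutive levels
-/

namespace Pool.Agent.MP_a0a8d4_co

open MeasureTheory Set
open scoped unitInterval

namespace Chain

/-- Indicator of the pairs in the same cell of level `lev j`. -/
noncomputable def U (j : ℕ) (x y : I) : ℝ := ind (cell (lev j) x = cell (lev j) y)

/-- The tail of the series of `W`. -/
noncomputable def Rf (i : ℕ) (x y : I) : ℝ := ∑' j : ℕ, uw (j + i + 1) * U (j + i + 1) x y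

/-- The tail of the series of the integrals. -/
noncomputable def q (i : ℕ) : ℝ := ∑' j : ℕ, uw (j + i + 1) * (1 / 2) ^ (lev (j + i + 1))

/-- The tail of the series of `Wk`. -/
noncomputable def Sf (i : ℕ) (x y : I) : ℝ := 2 ^ (lev i) * q i * U i x y

/-- The common part. -/
noncomputable def Af (i : ℕ) (x y : I) : ℝ :=
  1 - ∑ j ∈ Finset.range i, uw (j + 1) * U (j + 1) x y

theorem U_nonneg (j : ℕ) (x y : I) : 0 ≤ U j x y := ind_nonneg _

theorem U_le_one (j : ℕ) (x y : I) : U j x y ≤ 1 := ind_le_one _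

theorem uw_pos (j : ℕ) : 0 < uw j := by unfold uw; positivity

theorem uw_succ (j : ℕ) : uw (j + 1) = uw j / 2 := by
  unfold uw
  rw [pow_succ]
  ring

theorem summable_uw (i : ℕ) : Summable fun j : ℕ => uw (j + i + 1) := by
  have h : (fun j : ℕ => uw (j + i + 1)) = fun j : ℕ => uw (i + 1) * (1 / 2) ^ j := by
    funext j
    unfold uw
    rw [show j + i + 1 = (i + 1) + j by ring, pow_add]
    ring
  rw [h]
  exact (summable_geometric_of_lt_one (by norm_num) (by norm_num)).mul_left _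

theorem tsum_uw (i : ℕ) : ∑' j : ℕ, uw (j + i + 1) = (1 / 1000) * (1 / 2) ^ i := by
  have h : (fun j : ℕ => uw (j + i + 1)) = fun j : ℕ => uw (i + 1) * (1 / 2) ^ j := by
    funext j
    unfold uw
    rw [show j + i + 1 = (i + 1) + j by ring, pow_add]
    ring
  rw [h, tsum_mul_left, tsum_geometric_of_lt_one (by norm_num) (by norm_num)]
  unfold uw
  rw [pow_succ]
  ring

theorem summable_uU (i : ℕ) (x y : I) : Summable fun j : ℕ => uw (j + i + 1) * U (j + i + 1) x y :=
  Summable.of_nonneg_of_le (fun j => mul_nonneg (uw_pos _).le (U_nonneg _ _ _))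
    (fun j => mul_le_of_le_one_right (uw_pos _).le (U_le_one _ _ _)) (summable_uw i)

theorem pow_half_le_one (n : ℕ) : ((1 : ℝ) / 2) ^ n ≤ 1 := pow_le_one₀ (by norm_num) (by norm_num)

theorem summable_q (i : ℕ) : Summable fun j : ℕ => uw (j + i + 1) * (1 / 2) ^ (lev (j + i + 1)) :=
  Summable.of_nonneg_of_le (fun j => mul_nonneg (uw_pos _).le (by positivity))
    (fun j => mul_le_of_le_one_right (uw_pos _).le (pow_half_le_one _)) (summable_uw i)

theorem Rf_nonneg (i : ℕ) (x y : I) : 0 ≤ Rf i x y :=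
  tsum_nonneg fun j => mul_nonneg (uw_pos _).le (U_nonneg _ _ _)

theorem Rf_le (i : ℕ) (x y : I) : Rf i x y ≤ (1 / 1000) * (1 / 2) ^ i := by
  rw [← tsum_uw]
  exact (summable_uU i x y).tsum_le_tsum
    (fun j => mul_le_of_le_one_right (uw_pos _).le (U_le_one _ _ _)) (summable_uw i)

theorem q_nonneg (i : ℕ) : 0 ≤ q i := tsum_nonneg fun j => mul_nonneg (uw_pos _).le (by positivity)

theorem Sf_nonneg (i : ℕ) (x y : I) : 0 ≤ Sf i x y :=
  mul_nonneg (mul_nonneg (by positivity) (q_nonneg i)) (U_nonneg _ _ _)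

theorem Sf_le (i : ℕ) (x y : I) : Sf i x y ≤ 2 ^ (lev i) * q i :=
  mul_le_of_le_one_right (mul_nonneg (by positivity) (q_nonneg i)) (U_le_one _ _ _)

theorem Rf_succ (i : ℕ) (x y : I) : Rf i x y = uw (i + 1) * U (i + 1) x y + Rf (i + 1) x y := by
  unfold Rf
  rw [(summable_uU i x y).tsum_eq_zero_add]
  simp only [zero_add]
  congr 1
  apply tsum_congr
  intro j
  rw [show j + 1 + i + 1 = j + (i + 1) + 1 by ring]

theorem q_succ (i : ℕ) : q i = uw (i + 1) * (1 / 2) ^ (lev (i + 1)) + q (i + 1) := by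
  unfold q
  rw [(summable_q i).tsum_eq_zero_add]
  simp only [zero_add]
  congr 1
  apply tsum_congr
  intro j
  rw [show j + 1 + i + 1 = j + (i + 1) + 1 by ring]

theorem lev_mono {i j : ℕ} (h : i ≤ j) : lev i ≤ lev j := by
  unfold lev
  exact Nat.mul_le_mul_left _ (Nat.pow_le_pow_left h 2)

/-- `p (i+1)` dominates the tail. -/
theorem q_le (i : ℕ) : q i ≤ 2 * (uw (i + 1) * (1 / 2) ^ (lev (i + 1))) := by
  have h : ∀ j : ℕ, uw (j + i + 1) * (1 / 2) ^ (lev (j + i + 1)) ≤
      (uw (i + 1) * (1 / 2) ^ (lev (i + 1))) * (1 / 2) ^ j := by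
    intro j
    have h1 : uw (j + i + 1) = uw (i + 1) * (1 / 2) ^ j := by
      unfold uw
      rw [show j + i + 1 = (i + 1) + j by ring, pow_add]
      ring
    rw [h1]
    have h2 : ((1 : ℝ) / 2) ^ (lev (j + i + 1)) ≤ (1 / 2) ^ (lev (i + 1)) :=
      pow_le_pow_of_le_one (by norm_num) (by norm_num) (lev_mono (by omega))
    have h3 : 0 ≤ uw (i + 1) * (1 / 2) ^ j := mul_nonneg (uw_pos _).le (by positivity)
    calc uw (i + 1) * (1 / 2) ^ j * (1 / 2) ^ (lev (j + i + 1)) ≤
          uw (i + 1) * (1 / 2) ^ j * (1 / 2) ^ (lev (i + 1)) := mul_le_mul_of_nonneg_left h2 h3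
      _ = _ := by ring
  have hs : Summable fun j : ℕ => (uw (i + 1) * (1 / 2) ^ (lev (i + 1))) * ((1 : ℝ) / 2) ^ j :=
    (summable_geometric_of_lt_one (by norm_num) (by norm_num)).mul_left _
  calc q i ≤ ∑' j : ℕ, (uw (i + 1) * (1 / 2) ^ (lev (i + 1))) * ((1 : ℝ) / 2) ^ j :=
        (summable_q i).tsum_le_tsum h hs
    _ = _ := by
      rw [tsum_mul_left, tsum_geometric_of_lt_one (by norm_num) (by norm_num)]
      ring

theorem W_eq (i : ℕ) (x y : I) : W x y = Af i x y - Rf i x y := by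
  have h0 := summable_uU 0 x y
  simp only [add_zero] at h0
  have h1 := h0.sum_add_tsum_nat_add i
  have h2 : W x y = 1 - ∑' j : ℕ, uw (j + 1) * U (j + 1) x y := by
    unfold W
    congr 1
    apply tsum_congr
    intro j
    unfold U ind
    split_ifs <;> simp
  rw [h2, ← h1]
  unfold Af Rf
  ring

theorem lev_lt (i j : ℕ) : lev i < lev (j + i + 1) := by
  unfold lev
  have : i ^ 2 < (j + i + 1) ^ 2 := Nat.pow_lt_pow_left (by omega) (by norm_num)
  omega

theorem Wk_eq (i : ℕ) (x y : I) : Wk (lev i) x y = Af i x y - Sf i x y := by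
  have hs : Summable fun j : ℕ => (if lev (j + 1) ≤ lev i then
      (if cell (lev (j + 1)) x = cell (lev (j + 1)) y then uw (j + 1) else 0)
      else (if cell (lev i) x = cell (lev i) y then uw (j + 1) * (1 / 2) ^ (lev (j + 1) - lev i)
        else 0)) := by
    have h0 := summable_uw 0
    simp only [add_zero] at h0
    refine Summable.of_nonneg_of_le (fun j => ?_) (fun j => ?_) h0
    · have := (uw_pos (j + 1)).le
      split_ifs <;> first | exact this | exact le_rfl | positivity
    · have := (uw_pos (j + 1)).le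
      split_ifs <;> first | exact le_rfl | exact this |
        exact mul_le_of_le_one_right this (pow_half_le_one _)
  have h1 := hs.sum_add_tsum_nat_add i
  have h2 : ∑ j ∈ Finset.range i, (if lev (j + 1) ≤ lev i then
      (if cell (lev (j + 1)) x = cell (lev (j + 1)) y then uw (j + 1) else 0)
      else (if cell (lev i) x = cell (lev i) y then uw (j + 1) * (1 / 2) ^ (lev (j + 1) - lev i)
        else 0)) = ∑ j ∈ Finset.range i, uw (j + 1) * U (j + 1) x y := by
    apply Finset.sum_congr rfl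
    intro j hj
    rw [if_pos (lev_mono (by have := Finset.mem_range.1 hj; omega))]
    unfold U ind
    split_ifs <;> simp
  have h3 : ∑' j : ℕ, (if lev (j + i + 1) ≤ lev i then
      (if cell (lev (j + i + 1)) x = cell (lev (j + i + 1)) y then uw (j + i + 1) else 0)
      else (if cell (lev i) x = cell (lev i) y then
        uw (j + i + 1) * (1 / 2) ^ (lev (j + i + 1) - lev i) else 0)) = Sf i x y := by
    unfold Sf q
    rw [← tsum_mul_left, ← tsum_mul_right]
    apply tsum_congr
    intro j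
    have hlt := lev_lt i j
    rw [if_neg (by omega)]
    unfold U ind
    split_ifs with h
    · have h4 : ((1 : ℝ) / 2) ^ (lev (j + i + 1)) =
          (1 / 2) ^ (lev (j + i + 1) - lev i) * (1 / 2) ^ (lev i) := by
        rw [← pow_add]
        congr 1
        omega
      rw [h4]
      have h5 : (2 : ℝ) ^ (lev i) * (1 / 2) ^ (lev i) = 1 := by
        rw [← mul_pow]; norm_num
      calc uw (j + i + 1) * (1 / 2) ^ (lev (j + i + 1) - lev i)
          = uw (j + i + 1) * (1 / 2) ^ (lev (j + i + 1) - lev i) *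
            ((2 : ℝ) ^ (lev i) * (1 / 2) ^ (lev i)) := by rw [h5, mul_one]
        _ = _ := by ring
    · simp
  unfold Wk
  rw [← h1, h2, h3]
  unfold Af
  ring

theorem measurable_U (j : ℕ) : Measurable fun p : I × I => U j p.1 p.2 := by
  have h : MeasurableSet {p : I × I | cell (lev j) p.1 = cell (lev j) p.2} :=
    measurableSet_eq_fun ((measurable_cell _).comp measurable_fst)
      ((measurable_cell _).comp measurable_snd)
  unfold U ind
  exact Measurable.ite h measurable_const measurable_const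

theorem measurable_Rf (i : ℕ) : Measurable fun p : I × I => Rf i p.1 p.2 := by
  have h : (fun p : I × I => Rf i p.1 p.2) = fun p : I × I => Af i p.1 p.2 - W p.1 p.2 := by
    funext p
    rw [W_eq i]
    ring
  rw [h]
  refine Measurable.sub ?_ measurable_W
  unfold Af
  exact measurable_const.sub (Finset.measurable_sum _ fun j _ => (measurable_U _).const_mul _)

theorem measurable_Sf (i : ℕ) : Measurable fun p : I × I => Sf i p.1 p.2 := by
  unfold Sf
  exact (measurable_U _).const_mul _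

/-- Composition with two coordinates. -/
theorem measurable_coord {f : I → I → ℝ} (hf : Measurable fun p : I × I => f p.1 p.2)
    (a b : Fin 4) : Measurable fun v : Fin 4 → I => f (v a) (v b) := by
  have h : Measurable fun v : Fin 4 → I => (v a, v b) :=
    (measurable_pi_apply a).prodMk (measurable_pi_apply b)
  exact hf.comp h

section integrals

variable {P : I → I → I → I → Prop}

/-- The indicator of the crossing set. -/
noncomputable def Gf (P : I → I → I → I → Prop) (v : Fin 4 → I) : ℝ :=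
  ind (P (v 0) (v 1) (v 2) (v 3))

theorem Gf_aesm (hm : NullMeasurableSet (PSet P) volume) :
    AEStronglyMeasurable (Gf P) volume := by
  have h : Gf P = (PSet P).indicator (fun _ => (1 : ℝ)) := by
    funext v
    unfold Gf ind PSet indicator
    simp only [mem_ofPred_eq]
  rw [h]
  exact (aestronglyMeasurable_const).indicator₀ hm

theorem Gf_nonneg (v : Fin 4 → I) : 0 ≤ Gf P v := ind_nonneg _
theorem Gf_le_one (v : Fin 4 → I) : Gf P v ≤ 1 := ind_le_one _

theorem integrable_of {f : (Fin 4 → I) → ℝ} (hf : AEStronglyMeasurable f volume) (C : ℝ)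
    (h0 : ∀ v, 0 ≤ f v) (h1 : ∀ v, f v ≤ C) : Integrable f volume :=
  Integrable.of_bound hf C (Filter.Eventually.of_forall fun v => by
    rw [Real.norm_eq_abs, abs_of_nonneg (h0 v)]; exact h1 v)

/-- Exchange of the two pairs of coordinates. -/
theorem integral_swap (f : (Fin 4 → I) → ℝ) :
    ∫ v : Fin 4 → I, f ![v 2, v 3, v 0, v 1] = ∫ v : Fin 4 → I, f v := by
  let e : Fin 4 ≃ Fin 4 := ⟨![2, 3, 0, 1], ![2, 3, 0, 1], by decide, by decide⟩
  have h := (volume_measurePreserving_piCongrLeft (fun _ : Fin 4 => I) e)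
  have h2 := h.integral_comp (MeasurableEquiv.measurableEmbedding _) f
  rw [← h2]
  apply integral_congr_ae
  refine Filter.Eventually.of_forall fun v => ?_
  simp only
  congr 1
  funext i
  have h3 : ∀ j, (MeasurableEquiv.piCongrLeft (fun _ : Fin 4 => I) e) v (e j) = v j := by
    intro j
    exact Equiv.piCongrLeft_apply_apply (fun _ : Fin 4 => I) e v j
  fin_cases i
  · exact (h3 2).symm
  · exact (h3 3).symm
  · exact (h3 0).symm
  · exact (h3 1).symm

theorem integral_U (j : ℕ) : ∫ v : Fin 4 → I, U j (v 0) (v 1) = (1 / 2) ^ (lev j) := by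
  rw [← vol_same (m := 4) (lev j) 0 1 (by decide)]
  have hms : MeasurableSet {v : Fin 4 → I | cell (lev j) (v 0) = cell (lev j) (v 1)} :=
    measurableSet_eq_fun ((measurable_cell _).comp (measurable_pi_apply 0))
      ((measurable_cell _).comp (measurable_pi_apply 1))
  rw [← integral_indicator_one hms]
  apply integral_congr_ae
  refine Filter.Eventually.of_forall fun v => ?_
  by_cases hv : cell (lev j) (v 0) = cell (lev j) (v 1)
  · have hv' : v ∈ {v : Fin 4 → I | cell (lev j) (v 0) = cell (lev j) (v 1)} := hv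
    simp only [indicator_of_mem hv', Pi.one_apply]
    exact ind_true hv
  · have hv' : v ∉ {v : Fin 4 → I | cell (lev j) (v 0) = cell (lev j) (v 1)} := hv
    simp only [indicator_of_notMem hv']
    exact ind_false hv

theorem integrable_U (j : ℕ) : Integrable (fun v : Fin 4 → I => U j (v 0) (v 1)) volume :=
  integrable_of (measurable_coord (measurable_U j) 0 1).aestronglyMeasurable 1
    (fun v => U_nonneg _ _ _) (fun v => U_le_one _ _ _)

theorem integral_Rf (i : ℕ) : ∫ v : Fin 4 → I, Rf i (v 0) (v 1) = q i := by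
  unfold Rf q
  have hI : ∀ j : ℕ, ∫ v : Fin 4 → I, uw (j + i + 1) * U (j + i + 1) (v 0) (v 1) =
      uw (j + i + 1) * (1 / 2) ^ (lev (j + i + 1)) := by
    intro j
    rw [integral_const_mul, integral_U]
  rw [← integral_tsum_of_summable_integral_norm (fun j => (integrable_U _).const_mul _)]
  · exact tsum_congr hI
  · have : (fun j : ℕ => ∫ v : Fin 4 → I, ‖uw (j + i + 1) * U (j + i + 1) (v 0) (v 1)‖) =
        fun j : ℕ => uw (j + i + 1) * (1 / 2) ^ (lev (j + i + 1)) := by
      funext j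
      rw [← hI j]
      apply integral_congr_ae
      refine Filter.Eventually.of_forall fun v => ?_
      simp only
      rw [Real.norm_eq_abs, abs_of_nonneg (mul_nonneg (uw_pos _).le (U_nonneg _ _ _))]
    rw [this]
    exact summable_q i

theorem W_nonneg (x y : I) : 0 ≤ W x y := isGraphon_W.nonneg x y

theorem aesm_R (hm : NullMeasurableSet (PSet P) volume) {f : I → I → ℝ}
    (hf : Measurable fun p : I × I => f p.1 p.2) (a b c d : Fin 4) :
    AEStronglyMeasurable (fun v : Fin 4 → I => f (v a) (v b) * (W (v c) (v d) * Gf P v)) volume :=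
  (measurable_coord hf a b).aestronglyMeasurable.mul
    ((measurable_coord measurable_W c d).aestronglyMeasurable.mul (Gf_aesm hm))

theorem WG_nonneg (v : Fin 4 → I) (c d : Fin 4) : 0 ≤ W (v c) (v d) * Gf P v :=
  mul_nonneg (W_nonneg _ _) (Gf_nonneg _)

theorem WG_le_one (v : Fin 4 → I) (c d : Fin 4) : W (v c) (v d) * Gf P v ≤ 1 :=
  mul_le_one₀ (W_le_one _ _) (Gf_nonneg _) (Gf_le_one _)

theorem integrable_R (hm : NullMeasurableSet (PSet P) volume) {f : I → I → ℝ}
    (hf : Measurable fun p : I × I => f p.1 p.2) {C : ℝ} (h0 : ∀ x y, 0 ≤ f x y)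
    (hC : ∀ x y, f x y ≤ C) (a b c d : Fin 4) :
    Integrable (fun v : Fin 4 → I => f (v a) (v b) * (W (v c) (v d) * Gf P v)) volume :=
  integrable_of (aesm_R hm hf a b c d) C (fun v => mul_nonneg (h0 _ _) (WG_nonneg v c d))
    (fun v => (mul_le_of_le_one_right (h0 _ _) (WG_le_one v c d)).trans (hC _ _))

theorem integral_sym (hs : PSym P) (f : I → I → ℝ) :
    ∫ v : Fin 4 → I, f (v 2) (v 3) * (W (v 0) (v 1) * Gf P v) =
      ∫ v : Fin 4 → I, f (v 0) (v 1) * (W (v 2) (v 3) * Gf P v) := by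
  rw [← integral_swap]
  apply integral_congr_ae
  refine Filter.Eventually.of_forall fun v => ?_
  change f (v 0) (v 1) * (W (v 2) (v 3) * ind (P (v 2) (v 3) (v 0) (v 1))) =
    f (v 0) (v 1) * (W (v 2) (v 3) * ind (P (v 0) (v 1) (v 2) (v 3)))
  rw [ind_congr (hs.2 (v 2) (v 3) (v 0) (v 1))]

theorem eN_eq (i : ℕ) : ∫ v : Fin 4 → I, U i (v 0) (v 1) * (W (v 2) (v 3) * Gf P v) =
    (1 / 2) ^ (lev i) * eN P i := by
  have h : (2 : ℝ) ^ (lev i) * (1 / 2) ^ (lev i) = 1 := by rw [← mul_pow]; norm_num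
  have h2 : eN P i = 2 ^ (lev i) * ∫ v : Fin 4 → I, U i (v 0) (v 1) * (W (v 2) (v 3) * Gf P v) :=
    rfl
  rw [h2, ← mul_assoc, mul_comm ((1 / 2 : ℝ) ^ (lev i)), h, one_mul]

theorem eN_nonneg (i : ℕ) : 0 ≤ eN P i := by
  have h2 : eN P i = 2 ^ (lev i) * ∫ v : Fin 4 → I, U i (v 0) (v 1) * (W (v 2) (v 3) * Gf P v) :=
    rfl
  rw [h2]
  exact mul_nonneg (by positivity)
    (integral_nonneg fun v => mul_nonneg (U_nonneg _ _ _) (WG_nonneg v 2 3))

theorem integral_Sf (hm : NullMeasurableSet (PSet P) volume) (i : ℕ) :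
    ∫ v : Fin 4 → I, Sf i (v 0) (v 1) * (W (v 2) (v 3) * Gf P v) = q i * eN P i := by
  have h : (2 : ℝ) ^ (lev i) * (1 / 2) ^ (lev i) = 1 := by rw [← mul_pow]; norm_num
  have h1 : (fun v : Fin 4 → I => Sf i (v 0) (v 1) * (W (v 2) (v 3) * Gf P v)) =
      fun v : Fin 4 → I => (2 ^ (lev i) * q i) * (U i (v 0) (v 1) * (W (v 2) (v 3) * Gf P v)) := by
    funext v
    unfold Sf
    ring
  rw [h1, integral_const_mul, eN_eq]
  calc 2 ^ lev i * q i * ((1 / 2) ^ lev i * eN P i) =
      (2 ^ lev i * (1 / 2) ^ lev i) * (q i * eN P i) := by ring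
    _ = _ := by rw [h, one_mul]

theorem integral_S1 (i : ℕ) : ∫ v : Fin 4 → I, Sf i (v 0) (v 1) = q i := by
  have h : (2 : ℝ) ^ (lev i) * (1 / 2) ^ (lev i) = 1 := by rw [← mul_pow]; norm_num
  unfold Sf
  rw [integral_const_mul, integral_U]
  calc 2 ^ lev i * q i * (1 / 2) ^ lev i = (2 ^ lev i * (1 / 2) ^ lev i) * q i := by ring
    _ = _ := by rw [h, one_mul]

theorem integral_Rf_le (hm : NullMeasurableSet (PSet P) volume) (i : ℕ) :
    ∫ v : Fin 4 → I, Rf i (v 0) (v 1) * (W (v 2) (v 3) * Gf P v) ≤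
      uw (i + 1) * (1 / 2) ^ (lev (i + 1)) * eN P (i + 1) + q (i + 1) := by
  have h1 : (fun v : Fin 4 → I => Rf i (v 0) (v 1) * (W (v 2) (v 3) * Gf P v)) =
      fun v : Fin 4 → I => uw (i + 1) * (U (i + 1) (v 0) (v 1) * (W (v 2) (v 3) * Gf P v)) +
        Rf (i + 1) (v 0) (v 1) * (W (v 2) (v 3) * Gf P v) := by
    funext v
    rw [Rf_succ]
    ring
  have hI1 := (integrable_R hm (measurable_U (i + 1)) (C := 1) (U_nonneg _) (U_le_one _)
    0 1 2 3).const_mul (uw (i + 1))
  have hI2 := integrable_R hm (measurable_Rf (i + 1)) (C := (1 / 1000) * (1 / 2) ^ (i + 1))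
    (Rf_nonneg _) (Rf_le _) 0 1 2 3
  rw [h1, integral_add hI1 hI2, integral_const_mul, eN_eq, ← mul_assoc]
  have h2 : ∫ v : Fin 4 → I, Rf (i + 1) (v 0) (v 1) * (W (v 2) (v 3) * Gf P v) ≤ q (i + 1) := by
    rw [← integral_Rf (i + 1)]
    refine integral_mono hI2 ?_ (fun v => mul_le_of_le_one_right (Rf_nonneg _ _ _) (WG_le_one v 2 3))
    exact integrable_of (measurable_coord (measurable_Rf (i + 1)) 0 1).aestronglyMeasurable _
      (fun v => Rf_nonneg _ _ _) (fun v => Rf_le _ _ _)
  linarith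

theorem int_lin {a b c d e f g : (Fin 4 → I) → ℝ} (ha : Integrable a volume)
    (hb : Integrable b volume) (hc : Integrable c volume) (hd : Integrable d volume)
    (he : Integrable e volume) (hf : Integrable f volume) (hg : Integrable g volume) (k l : ℝ) :
    ∫ v : Fin 4 → I, (a v + ((b v - c v) + (d v - e v) + (k * f v + l * g v))) =
      (∫ v : Fin 4 → I, a v) + (((∫ v : Fin 4 → I, b v) - ∫ v : Fin 4 → I, c v) +
        ((∫ v : Fin 4 → I, d v) - ∫ v : Fin 4 → I, e v) +
        (k * (∫ v : Fin 4 → I, f v) + l * ∫ v : Fin 4 → I, g v)) := by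
  have h1 : Integrable (fun v => b v - c v) volume := hb.sub hc
  have h2 : Integrable (fun v => d v - e v) volume := hd.sub he
  have h3 : Integrable (fun v => k * f v) volume := hf.const_mul k
  have h4 : Integrable (fun v => l * g v) volume := hg.const_mul l
  have h34 : Integrable (fun v => k * f v + l * g v) volume := h3.add h4
  have h12 : Integrable (fun v => (b v - c v) + (d v - e v)) volume := h1.add h2
  have h5 : Integrable (fun v => (b v - c v) + (d v - e v) + (k * f v + l * g v)) volume :=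
    h12.add h34
  rw [integral_add ha h5, integral_add h12 h34, integral_add h1 h2, integral_sub hb hc,
    integral_sub hd he, integral_add h3 h4, integral_const_mul, integral_const_mul]

/-- The main inequality for consecutive levels. -/
theorem main_ineq (hs : PSym P) (hm : NullMeasurableSet (PSet P) volume)
    (h : ∀ k, En P ≤ ∫ v : Fin 4 → I, Wk k (v 0) (v 1) * Wk k (v 2) (v 3) *
      ind (P (v 0) (v 1) (v 2) (v 3))) (i : ℕ) :
    2 * (q i * eN P i) ≤ 2 * (uw (i + 1) * (1 / 2) ^ (lev (i + 1)) * eN P (i + 1) + q (i + 1)) +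
      ((1 / 1000) * (1 / 2) ^ i * q i + 2 ^ (lev i) * q i * q i) := by
  set c : ℝ := (1 / 1000) * (1 / 2) ^ i with hc
  set d : ℝ := 2 ^ (lev i) * q i with hd
  have hc0 : 0 ≤ c := by positivity
  have hd0 : 0 ≤ d := mul_nonneg (by positivity) (q_nonneg i)
  have hRint := fun a b c' d' => integrable_R hm (measurable_Rf i) (C := c) (Rf_nonneg i)
    (Rf_le i) a b c' d'
  have hSint := fun a b c' d' => integrable_R hm (measurable_Sf i) (C := d) (Sf_nonneg i)
    (Sf_le i) a b c' d'
  have hR1 : Integrable (fun v : Fin 4 → I => Rf i (v 0) (v 1)) volume :=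
    integrable_of (measurable_coord (measurable_Rf i) 0 1).aestronglyMeasurable _
      (fun v => Rf_nonneg _ _ _) (fun v => Rf_le _ _ _)
  have hS1 : Integrable (fun v : Fin 4 → I => Sf i (v 0) (v 1)) volume :=
    integrable_of (measurable_coord (measurable_Sf i) 0 1).aestronglyMeasurable _
      (fun v => Sf_nonneg _ _ _) (fun v => Sf_le _ _ _)
  -- the pointwise inequality
  have hpt : ∀ v : Fin 4 → I, Wk (lev i) (v 0) (v 1) * Wk (lev i) (v 2) (v 3) *
      ind (P (v 0) (v 1) (v 2) (v 3)) ≤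
      W (v 0) (v 1) * W (v 2) (v 3) * ind (P (v 0) (v 1) (v 2) (v 3)) +
      ((Rf i (v 0) (v 1) * (W (v 2) (v 3) * Gf P v) - Sf i (v 0) (v 1) * (W (v 2) (v 3) * Gf P v)) +
      (Rf i (v 2) (v 3) * (W (v 0) (v 1) * Gf P v) - Sf i (v 2) (v 3) * (W (v 0) (v 1) * Gf P v)) +
      (c * Rf i (v 0) (v 1) + d * Sf i (v 0) (v 1))) := by
    intro v
    have hG0 := Gf_nonneg (P := P) v
    have hG1 := Gf_le_one (P := P) v
    have e1 : ind (P (v 0) (v 1) (v 2) (v 3)) = Gf P v := rfl
    rw [e1, Wk_eq, Wk_eq]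
    have w1 : Af i (v 0) (v 1) = W (v 0) (v 1) + Rf i (v 0) (v 1) := by rw [W_eq i]; ring
    have w2 : Af i (v 2) (v 3) = W (v 2) (v 3) + Rf i (v 2) (v 3) := by rw [W_eq i]; ring
    rw [w1, w2]
    have r0 := Rf_nonneg i (v 0) (v 1)
    have r0' := Rf_nonneg i (v 2) (v 3)
    have r1' := Rf_le i (v 2) (v 3)
    have s0 := Sf_nonneg i (v 0) (v 1)
    have s0' := Sf_nonneg i (v 2) (v 3)
    have s1' := Sf_le i (v 2) (v 3)
    generalize Rf i (v 0) (v 1) = R at *
    generalize Rf i (v 2) (v 3) = R' at *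
    generalize Sf i (v 0) (v 1) = S at *
    generalize Sf i (v 2) (v 3) = S' at *
    generalize W (v 0) (v 1) = w at *
    generalize W (v 2) (v 3) = w' at *
    generalize Gf P v = g at *
    have k1 : (R - S) * (R' - S') ≤ c * R + d * S := by
      have a1 : R * R' ≤ R * c := mul_le_mul_of_nonneg_left r1' r0
      have a2 : S * S' ≤ S * d := mul_le_mul_of_nonneg_left s1' s0
      have a3 : 0 ≤ R * S' := mul_nonneg r0 s0'
      have a4 : 0 ≤ S * R' := mul_nonneg s0 r0'
      nlinarith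
    have k2 : 0 ≤ c * R + d * S := by positivity
    have k3 : (R - S) * (R' - S') * g ≤ c * R + d * S := by
      calc (R - S) * (R' - S') * g ≤ (c * R + d * S) * g := mul_le_mul_of_nonneg_right k1 hG0
        _ ≤ c * R + d * S := mul_le_of_le_one_right k2 hG1
    nlinarith
  have hWW : Integrable (fun v : Fin 4 → I => W (v 0) (v 1) * W (v 2) (v 3) *
      ind (P (v 0) (v 1) (v 2) (v 3))) volume := by
    have := integrable_R hm measurable_W (C := 1) W_nonneg W_le_one 0 1 2 3
    refine this.congr (Filter.Eventually.of_forall fun v => ?_)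
    simp only [Gf]
    ring
  have hKK : Integrable (fun v : Fin 4 → I => Wk (lev i) (v 0) (v 1) * Wk (lev i) (v 2) (v 3) *
      ind (P (v 0) (v 1) (v 2) (v 3))) volume := by
    refine integrable_of ?_ 1 (fun v => ?_) (fun v => ?_)
    · exact (((measurable_coord (measurable_Wk _) 0 1).mul
        (measurable_coord (measurable_Wk _) 2 3)).aestronglyMeasurable).mul (Gf_aesm hm)
    · exact mul_nonneg (mul_nonneg (Wk_nonneg _ _ _) (Wk_nonneg _ _ _)) (ind_nonneg _)
    · exact mul_le_one₀ (mul_le_one₀ (Wk_le_one _ _ _) (Wk_nonneg _ _ _) (Wk_le_one _ _ _))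
        (ind_nonneg _) (ind_le_one _)
  have hI2 := ((hRint 0 1 2 3).sub (hSint 0 1 2 3)).add ((hRint 2 3 0 1).sub (hSint 2 3 0 1))
  have hI3 := (hR1.const_mul c).add (hS1.const_mul d)
  have hint := integral_mono hKK (hWW.add (hI2.add hI3)) hpt
  have hsum : ∫ v : Fin 4 → I, (W (v 0) (v 1) * W (v 2) (v 3) *
      ind (P (v 0) (v 1) (v 2) (v 3)) +
      ((Rf i (v 0) (v 1) * (W (v 2) (v 3) * Gf P v) - Sf i (v 0) (v 1) * (W (v 2) (v 3) * Gf P v)) +
      (Rf i (v 2) (v 3) * (W (v 0) (v 1) * Gf P v) - Sf i (v 2) (v 3) * (W (v 0) (v 1) * Gf P v)) +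
      (c * Rf i (v 0) (v 1) + d * Sf i (v 0) (v 1)))) =
      En P + (((∫ v : Fin 4 → I, Rf i (v 0) (v 1) * (W (v 2) (v 3) * Gf P v)) -
        ∫ v : Fin 4 → I, Sf i (v 0) (v 1) * (W (v 2) (v 3) * Gf P v)) +
        ((∫ v : Fin 4 → I, Rf i (v 2) (v 3) * (W (v 0) (v 1) * Gf P v)) -
        ∫ v : Fin 4 → I, Sf i (v 2) (v 3) * (W (v 0) (v 1) * Gf P v)) +
        (c * (∫ v : Fin 4 → I, Rf i (v 0) (v 1)) + d * ∫ v : Fin 4 → I, Sf i (v 0) (v 1))) := by
    exact int_lin hWW (hRint 0 1 2 3) (hSint 0 1 2 3) (hRint 2 3 0 1) (hSint 2 3 0 1) hR1 hS1 c d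
  have hint' := (h (lev i)).trans (hint.trans hsum.le)
  rw [integral_sym hs, integral_sym hs, integral_Sf hm, integral_Rf, integral_S1] at hint'
  have h5 := integral_Rf_le hm i
  linarith

end integrals

end Chain

open Chain in
theorem chain (P : I → I → I → I → Prop) (hs : PSym P) (hm : NullMeasurableSet (PSet P) volume)
    (h : ∀ k, En P ≤ ∫ v : Fin 4 → I, Wk k (v 0) (v 1) * Wk k (v 2) (v 3) *
      ind (P (v 0) (v 1) (v 2) (v 3))) (n : ℕ) : eN P 0 - 1 / 100 ≤ eN P n := by
  have key : ∀ i : ℕ, eN P i - eN P (i + 1) ≤ (1 / 100) * (1 / 2) ^ (i + 1) := by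
    intro i
    have h1 := main_ineq hs hm h i
    set pi1 : ℝ := uw (i + 1) * (1 / 2) ^ (lev (i + 1)) with hpi1
    have hp1 : 0 < pi1 := mul_pos (uw_pos _) (by positivity)
    have hq := q_succ i
    rw [← hpi1] at hq
    have hqle := q_le i
    rw [← hpi1] at hqle
    have hq1 := q_le (i + 1)
    have he := eN_nonneg (P := P) i
    have hq0 := q_nonneg (i + 1)
    have hqi0 := q_nonneg i
    -- `p (i+2)` is small compared with `p (i+1)`
    have hp2 : uw (i + 1 + 1) * (1 / 2) ^ (lev (i + 1 + 1)) ≤ pi1 * (1 / 2048) * (1 / 2) ^ i := by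
      have e1 : lev (i + 1 + 1) = lev (i + 1) + (20 * i + 30) := by unfold lev; ring
      have e2 : ((1 : ℝ) / 2) ^ (20 * i + 30) ≤ (1 / 2) ^ (i + 10) :=
        pow_le_pow_of_le_one (by norm_num) (by norm_num) (by omega)
      rw [e1, pow_add, uw_succ (i + 1), hpi1]
      have e3 : 0 ≤ uw (i + 1) * (1 / 2) ^ (lev (i + 1)) := hp1.le
      calc uw (i + 1) / 2 * ((1 / 2) ^ lev (i + 1) * (1 / 2) ^ (20 * i + 30)) =
          (uw (i + 1) * (1 / 2) ^ lev (i + 1)) * ((1 / 2) * (1 / 2) ^ (20 * i + 30)) := by ring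
        _ ≤ (uw (i + 1) * (1 / 2) ^ lev (i + 1)) * ((1 / 2) * (1 / 2) ^ (i + 10)) := by
            apply mul_le_mul_of_nonneg_left _ e3
            linarith
        _ = _ := by rw [pow_add]; norm_num; ring
    -- `2 ^ lev i * q i` is small
    have hd : 2 ^ (lev i) * q i ≤ (1 / 1000) * (1 / 2) ^ i := by
      have e1 : lev (i + 1) = lev i + (20 * i + 10) := by unfold lev; ring
      have e2 : (2 : ℝ) ^ (lev i) * (1 / 2) ^ (lev i) = 1 := by rw [← mul_pow]; norm_num
      have e3 : uw (i + 1) = (1 / 1000) * (1 / 2) ^ i * (1 / 2) := by unfold uw; rw [pow_succ]; ring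
      calc 2 ^ (lev i) * q i ≤ 2 ^ (lev i) * (2 * pi1) :=
            mul_le_mul_of_nonneg_left hqle (by positivity)
        _ = (1 / 1000) * (1 / 2) ^ i * ((2 ^ (lev i) * (1 / 2) ^ (lev i)) *
            (1 / 2) ^ (20 * i + 10)) := by rw [hpi1, e1, pow_add, e3]; ring
        _ = (1 / 1000) * (1 / 2) ^ i * (1 / 2) ^ (20 * i + 10) := by rw [e2, one_mul]
        _ ≤ _ := mul_le_of_le_one_right (by positivity) (pow_half_le_one _)
    set t : ℝ := (1 / 2) ^ i with ht
    have ht0 : 0 < t := by positivity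
    have h2 : (2 : ℝ) ^ (lev i) * q i * q i ≤ (1 / 1000) * t * q i :=
      mul_le_mul_of_nonneg_right hd hqi0
    have h3 : (1 / 1000) * t * q i ≤ (1 / 1000) * t * (2 * pi1) :=
      mul_le_mul_of_nonneg_left hqle (by positivity)
    have h4 : 0 ≤ q (i + 1) * eN P i := mul_nonneg hq0 he
    have h5 : pi1 * (eN P i - eN P (i + 1)) ≤ pi1 * ((1 / 100) * (1 / 2) ^ (i + 1)) := by
      rw [pow_succ, ← ht]
      rw [hq] at h1
      have h6 : 0 < pi1 * t := mul_pos hp1 ht0
      rw [hq] at h2 h3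
      nlinarith
    exact le_of_mul_le_mul_left h5 hp1
  have hn : ∀ n : ℕ, eN P 0 - (1 / 100) * (1 - (1 / 2) ^ n) ≤ eN P n := by
    intro n
    induction n with
    | zero => simp
    | succ n ih =>
      have := key n
      rw [pow_succ] at this ⊢
      linarith
  have h1 := hn n
  have h2 : 0 ≤ ((1 : ℝ) / 2) ^ n := by positivity
  linarith

end Pool.Agent.MP_a0a8d4_co
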