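import Pool.Agent.MP_a0a8d4_co.FivePts

set_option autoImplicit false

/-!
# MP_a0a8d4_co: two closed polygons cross evenly

Module PAR2.
-/

namespace Pool.Agent.MP_a0a8d4_co

namespace ClosedEven

open FivePts (rot swp swp')

lemma segs_cc (a b : Pt) (t : List Pt) : segs (a :: b :: t) = (a, b) :: segs (b :: t) := rfl

lemma segs_mem' {l : List Pt} {e : Pt × Pt} (h : e ∈ segs l) : e.1 ∈ l ∧ e.2 ∈ l := by
  unfold segs at h
  obtain ⟨h1, h2⟩ := List.of_mem_zip (a := e.1) (b := e.2) h
  exact ⟨h1, List.mem_of_mem_tail h2⟩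

lemma sum_ends (g : Pt → ℕ) : ∀ (l : List Pt) (p q : Pt), l.head? = some p →
    l.getLast? = some q → ((segs l).map fun e => g e.1 + g e.2).sum % 2 = (g p + g q) % 2
  | [], p, q, h, _ => by simp at h
  | [a], p, q, h, h' => by
      simp at h h'
      subst h; subst h'
      simp [segs]
      omega
  | a :: b :: t, p, q, h, h' => by
      have ih := sum_ends g (b :: t) b q rfl (by simpa using h')
      simp at h
      subst h
      rw [segs_cc, List.map_cons, List.sum_cons]
      simp only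
      omega

lemma sum_mod {α : Type*} (f g : α → ℕ) : ∀ (L : List α), (∀ e ∈ L, f e % 2 = g e % 2) →
    (L.map f).sum % 2 = (L.map g).sum % 2
  | [], _ => rfl
  | a :: L, h => by
      have ih := sum_mod f g L fun e he => h e (List.mem_cons_of_mem _ he)
      have h0 := h a List.mem_cons_self
      rw [List.map_cons, List.map_cons, List.sum_cons, List.sum_cons]
      omega

lemma exists_c (S : Finset Pt) :
    ∃ c : Pt, c ∉ S ∧ ∀ a ∈ S, ∀ b ∈ S, a ≠ b → orient a b c ≠ 0 := by
  classical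
  obtain ⟨c1, hc1⟩ := Infinite.exists_notMem_finset (S.image Prod.fst)
  obtain ⟨c2, hc2⟩ := Infinite.exists_notMem_finset ((S ×ˢ S).image fun e : Pt × Pt =>
    e.1.2 + (e.2.2 - e.1.2) * (c1 - e.1.1) / (e.2.1 - e.1.1))
  refine ⟨(c1, c2), fun h => hc1 (Finset.mem_image.2 ⟨_, h, rfl⟩), ?_⟩
  intro a ha b hb hab h
  have ha1 : c1 ≠ a.1 := fun h' => hc1 (Finset.mem_image.2 ⟨a, ha, h'.symm⟩)
  unfold orient at h
  simp only at h
  by_cases hx : b.1 - a.1 = 0
  · rw [hx, zero_mul, zero_sub, neg_eq_zero, mul_eq_zero] at h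
    rcases h with h | h
    · exact hab (Prod.ext (by linarith) (by linarith))
    · exact ha1 (by linarith)
  · apply hc2
    refine Finset.mem_image.2 ⟨(a, b), Finset.mem_product.2 ⟨ha, hb⟩, ?_⟩
    simp only
    field_simp
    linarith

lemma gp_five {S : Set Pt} (hS : GP S) {a b p q c : Pt} (ha : a ∈ S) (hb : b ∈ S) (hp : p ∈ S)
    (hq : q ∈ S) (hc : ∀ a ∈ S, ∀ b ∈ S, a ≠ b → orient a b c ≠ 0) : GP {a, b, c, p, q} := by
  have key : ∀ u ∈ ({a, b, c, p, q} : Set Pt), u = c ∨ u ∈ S := by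
    intro u hu
    simp only [Set.mem_insert_iff, Set.mem_singleton_iff] at hu
    rcases hu with h | h | h | h | h
    · exact Or.inr (h ▸ ha)
    · exact Or.inr (h ▸ hb)
    · exact Or.inl h
    · exact Or.inr (h ▸ hp)
    · exact Or.inr (h ▸ hq)
  intro u hu v hv w hw huv hvw huw
  rcases key u hu with h1 | h1 <;> rcases key v hv with h2 | h2 <;> rcases key w hw with h3 | h3
  · exact absurd (h1.trans h2.symm) huv
  · exact absurd (h1.trans h2.symm) huv
  · exact absurd (h1.trans h3.symm) huw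
  · rw [h1, ← rot c v w]
    exact hc v h2 w h3 hvw
  · exact absurd (h2.trans h3.symm) hvw
  · rw [h2, swp' u w c]
    exact neg_ne_zero.2 (hc u h1 w h3 huw)
  · rw [h3]
    exact hc u h1 v h2 huv
  · exact hS u h1 v h2 w h3 huv hvw huw

lemma cr_degL (a c d : Pt) : ¬ Cr a a c d := by
  unfold Cr
  have h : orient a a c = 0 := by unfold orient; ring
  rw [h]
  simp

lemma cr_degR (a b c : Pt) : ¬ Cr a b c c := by
  unfold Cr
  have h : orient c c a = 0 := by unfold orient; ring
  rw [h]
  simp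

lemma inside_deg (a c p : Pt) : ¬ Inside a a c p := by
  unfold Inside
  have h : orient a a p = 0 := by unfold orient; ring
  rw [h]
  simp

end ClosedEven

open ClosedEven FivePts in
theorem closed_even (l m : List Pt) (p q : Pt) (hl : l.head? = some p) (hl' : l.getLast? = some p)
    (hm : m.head? = some q) (hm' : m.getLast? = some q) (hgp : GP {a | a ∈ l ∨ a ∈ m})
    (hd : ∀ a ∈ l, a ∉ m) : Even (cnt l m) := by
  classical
  obtain ⟨c, hcS, hc⟩ := exists_c (l.toFinset ∪ m.toFinset)
  have hc' : ∀ a ∈ {a | a ∈ l ∨ a ∈ m}, ∀ b ∈ {a | a ∈ l ∨ a ∈ m}, a ≠ b → orient a b c ≠ 0 := by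
    intro a ha b hb
    exact hc a (by simpa using ha) b (by simpa using hb)
  have hcl : c ∉ l := fun h => hcS (by simp [h])
  have hcm : c ∉ m := fun h => hcS (by simp [h])
  -- one pair of segments
  have one : ∀ a b, a ∈ l → b ∈ l → ∀ f ∈ segs m,
      (indN (Cr a b f.1 f.2) + (indN (Cr a c f.1 f.2) + indN (Cr b c f.1 f.2))) % 2 =
        (indN (Inside a b c f.1) + indN (Inside a b c f.2)) % 2 := by
    intro a b ha hb f hf
    obtain ⟨hf1, hf2⟩ := segs_mem' hf
    have hs : indN (Cr c a f.1 f.2) = indN (Cr a c f.1 f.2) := by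
      rw [propext (cr_swap (a := c) (b := a) (c := f.1) (d := f.2))]
    by_cases hff : f.1 = f.2
    · rw [hff, indN_false (cr_degR _ _ _), indN_false (cr_degR _ _ _), indN_false (cr_degR _ _ _)]
      omega
    by_cases hab : a = b
    · rw [hab, indN_false (cr_degL _ _ _), indN_false (inside_deg _ _ _),
        indN_false (inside_deg _ _ _)]
      omega
    have hn : [a, b, c, f.1, f.2].Nodup := by
      simp only [List.nodup_cons, List.mem_cons, List.not_mem_nil, or_false, not_or,
        List.nodup_nil, and_true, not_false_eq_true]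
      refine ⟨⟨hab, ?_, ?_, ?_⟩, ⟨?_, ?_, ?_⟩, ⟨?_, ?_⟩, hff⟩
      · rintro rfl; exact hcl ha
      · intro h; exact hd a ha (h ▸ hf1)
      · intro h; exact hd a ha (h ▸ hf2)
      · rintro rfl; exact hcl hb
      · intro h; exact hd b hb (h ▸ hf1)
      · intro h; exact hd b hb (h ▸ hf2)
      · intro h; exact hcm (h ▸ hf1)
      · intro h; exact hcm (h ▸ hf2)
    have h5 := tri_seg a b c f.1 f.2
      (gp_five hgp (Or.inl ha) (Or.inl hb) (Or.inr hf1) (Or.inr hf2) hc') hn
    rw [Nat.even_iff, hs] at h5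
    omega
  -- one segment of `l`
  have two : ∀ e ∈ segs l, ((segs m).map fun f => indN (Cr e.1 e.2 f.1 f.2)).sum % 2 =
      (((segs m).map fun f => indN (Cr e.1 c f.1 f.2)).sum +
        ((segs m).map fun f => indN (Cr e.2 c f.1 f.2)).sum) % 2 := by
    intro e he
    obtain ⟨he1, he2⟩ := segs_mem' he
    have h1 := sum_mod (fun f : Pt × Pt => indN (Cr e.1 e.2 f.1 f.2) +
      (indN (Cr e.1 c f.1 f.2) + indN (Cr e.2 c f.1 f.2)))
      (fun f => indN (Inside e.1 e.2 c f.1) + indN (Inside e.1 e.2 c f.2)) (segs m)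
      (one e.1 e.2 he1 he2)
    rw [sum_ends (fun x => indN (Inside e.1 e.2 c x)) m q q hm hm', List.sum_map_add,
      List.sum_map_add] at h1
    omega
  have h3 := sum_mod _ _ (segs l) two
  rw [sum_ends (fun x => ((segs m).map fun f => indN (Cr x c f.1 f.2)).sum) l p p hl hl'] at h3
  unfold cnt
  rw [Nat.even_iff]
  omega

end Pool.Agent.MP_a0a8d4_co
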