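import Pool.Agent.MP_a0a8d4_co.OptBase

set_option autoImplicit false

/-!
# MP_a0a8d4_co: lower bound for the energy of the coincidences of cells
-/

namespace Pool.Agent.MP_a0a8d4_co

open MeasureTheory Set
open scoped unitInterval

namespace CoincLower

open OptBase

/-- The six events. -/
noncomputable def E (r : ℕ) (i j : Fin 4) (v : Fin 4 → I) : ℝ := ind (cell r (v i) = cell r (v j))

theorem measE (r : ℕ) (i j : Fin 4) :
    MeasurableSet {v : Fin 4 → I | cell r (v i) = cell r (v j)} :=
  measurableSet_eq_fun ((measurable_cell _).comp (measurable_pi_apply i))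
    ((measurable_cell _).comp (measurable_pi_apply j))

theorem bonferroni (a b c d e f : Prop) :
    ind a + ind b + ind c + ind d + ind e + ind f -
      (ind (a ∧ b) + ind (a ∧ c) + ind (a ∧ d) + ind (a ∧ e) + ind (a ∧ f) + ind (b ∧ c) +
        ind (b ∧ d) + ind (b ∧ e) + ind (b ∧ f) + ind (c ∧ d) + ind (c ∧ e) + ind (c ∧ f) +
        ind (d ∧ e) + ind (d ∧ f) + ind (e ∧ f)) ≤ ind (a ∨ b ∨ c ∨ d ∨ e ∨ f) := by
  by_cases ha : a <;> by_cases hb : b <;> by_cases hc : c <;> by_cases hd : d <;>
    by_cases he : e <;> by_cases hf : f <;>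
    simp only [ha, hb, hc, hd, he, hf, ind, and_true, true_and, and_false, false_and, or_true,
      true_or, or_false, false_or, if_true, if_false, and_self, or_self] <;> norm_num

theorem not_inj_iff (r : ℕ) (v : Fin 4 → I) : (¬ Function.Injective fun i => cell r (v i)) ↔
    (cell r (v 0) = cell r (v 1) ∨ cell r (v 2) = cell r (v 3) ∨ cell r (v 0) = cell r (v 2) ∨
      cell r (v 0) = cell r (v 3) ∨ cell r (v 1) = cell r (v 2) ∨ cell r (v 1) = cell r (v 3)) := by
  constructor
  · intro h
    by_contra hcon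
    simp only [not_or] at hcon
    obtain ⟨h01, h23, h02, h03, h12, h13⟩ := hcon
    apply h
    intro i j hij
    simp only at hij
    fin_cases i <;> fin_cases j
    all_goals first
      | rfl
      | exact absurd hij h01
      | exact absurd hij h23
      | exact absurd hij h02
      | exact absurd hij h03
      | exact absurd hij h12
      | exact absurd hij h13
      | exact absurd hij.symm h01
      | exact absurd hij.symm h23
      | exact absurd hij.symm h02
      | exact absurd hij.symm h03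
      | exact absurd hij.symm h12
      | exact absurd hij.symm h13
  · rintro (h | h | h | h | h | h) hinj
    · exact absurd (hinj h) (by decide)
    · exact absurd (hinj h) (by decide)
    · exact absurd (hinj h) (by decide)
    · exact absurd (hinj h) (by decide)
    · exact absurd (hinj h) (by decide)
    · exact absurd (hinj h) (by decide)

/-- Permutation of the coordinates. -/
theorem integral_perm (e : Equiv.Perm (Fin 4)) (f : (Fin 4 → I) → ℝ) :
    ∫ v : Fin 4 → I, f (fun i => v (e i)) = ∫ v : Fin 4 → I, f v := by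
  have h := (volume_measurePreserving_piCongrLeft (fun _ : Fin 4 => I) e.symm)
  have h2 := h.integral_comp (MeasurableEquiv.measurableEmbedding _) f
  rw [← h2]
  apply integral_congr_ae
  refine Filter.Eventually.of_forall fun v => ?_
  simp only
  congr 1
  funext i
  have h3 : (MeasurableEquiv.piCongrLeft (fun _ : Fin 4 => I) e.symm) v (e.symm (e i)) = v (e i) :=
    Equiv.piCongrLeft_apply_apply (fun _ : Fin 4 => I) e.symm v (e i)
  rw [Equiv.symm_apply_apply] at h3
  exact h3.symm

theorem int_and_le (r : ℕ) (i j k l : Fin 4) (hij : i ≠ j) (hkl : k ≠ l)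
    (h : ¬ (i = k ∧ j = l)) (h' : ¬ (i = l ∧ j = k)) :
    ∫ v : Fin 4 → I, ind (cell r (v i) = cell r (v j) ∧ cell r (v k) = cell r (v l)) ≤
      ((1 / 2) ^ r) ^ 2 := by
  rw [WkAvg.integral_ind (fun v : Fin 4 → I => cell r (v i) = cell r (v j) ∧
    cell r (v k) = cell r (v l)) ((measE r i j).inter (measE r k l))]
  exact vol_same_two r i j k l hij hkl h h'

theorem int_and (r : ℕ) (i j k l : Fin 4) :
    Integrable (fun v : Fin 4 → I => ind (cell r (v i) = cell r (v j) ∧
      cell r (v k) = cell r (v l))) volume :=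
  integrable_ind₀ (fun v : Fin 4 → I => cell r (v i) = cell r (v j) ∧
    cell r (v k) = cell r (v l)) ((measE r i j).inter (measE r k l)).nullMeasurableSet

variable {P : I → I → I → I → Prop}

theorem EG_integrable (hm : NullMeasurableSet (PSet P) volume) (r : ℕ) (i j : Fin 4) :
    Integrable (fun v : Fin 4 → I => ind (cell r (v i) = cell r (v j)) * Chain.Gf P v) volume :=
  Chain.integrable_of ((aesm_ind₀ (fun v : Fin 4 → I => cell r (v i) = cell r (v j))
    (measE r i j).nullMeasurableSet).mul (Chain.Gf_aesm hm)) 1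
    (fun v => mul_nonneg (ind_nonneg _) (Chain.Gf_nonneg v))
    (fun v => mul_le_one₀ (ind_le_one _) (Chain.Gf_nonneg v) (Chain.Gf_le_one v))

theorem EG_integral (hm : NullMeasurableSet (PSet P) volume) (r : ℕ) :
    ∫ v : Fin 4 → I, ind (cell r (v 0) = cell r (v 2)) * Chain.Gf P v =
      (volume : Measure (Fin 4 → I)).real
        {v | cell r (v 0) = cell r (v 2) ∧ P (v 0) (v 1) (v 2) (v 3)} := by
  rw [← integral_ind₀ (fun v : Fin 4 → I => cell r (v 0) = cell r (v 2) ∧
    P (v 0) (v 1) (v 2) (v 3)) ((measE r 0 2).nullMeasurableSet.inter hm)]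
  apply integral_congr_ae
  refine Filter.Eventually.of_forall fun v => ?_
  exact (WkAvg.ind_and _ _).symm

theorem psym3 (hs : PSym P) (x y z w : I) : P x y z w ↔ P x y w z := by
  rw [hs.2 x y z w, hs.1 z w x y, hs.2 w z x y]

theorem EG_perm (hs : PSym P) (r : ℕ) :
    (∫ v : Fin 4 → I, ind (cell r (v 0) = cell r (v 3)) * Chain.Gf P v =
      ∫ v : Fin 4 → I, ind (cell r (v 0) = cell r (v 2)) * Chain.Gf P v) ∧
    (∫ v : Fin 4 → I, ind (cell r (v 1) = cell r (v 2)) * Chain.Gf P v =
      ∫ v : Fin 4 → I, ind (cell r (v 0) = cell r (v 2)) * Chain.Gf P v) ∧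
    (∫ v : Fin 4 → I, ind (cell r (v 1) = cell r (v 3)) * Chain.Gf P v =
      ∫ v : Fin 4 → I, ind (cell r (v 0) = cell r (v 2)) * Chain.Gf P v) := by
  refine ⟨?_, ?_, ?_⟩
  · rw [← integral_perm (Equiv.swap 2 3)
      (fun v : Fin 4 → I => ind (cell r (v 0) = cell r (v 2)) * Chain.Gf P v)]
    apply integral_congr_ae
    refine Filter.Eventually.of_forall fun v => ?_
    change ind (cell r (v 0) = cell r (v 3)) * ind (P (v 0) (v 1) (v 2) (v 3)) =
      ind (cell r (v 0) = cell r (v 3)) * ind (P (v 0) (v 1) (v 3) (v 2))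
    rw [ind_congr (psym3 hs (v 0) (v 1) (v 2) (v 3))]
  · rw [← integral_perm (Equiv.swap 0 1)
      (fun v : Fin 4 → I => ind (cell r (v 0) = cell r (v 2)) * Chain.Gf P v)]
    apply integral_congr_ae
    refine Filter.Eventually.of_forall fun v => ?_
    change ind (cell r (v 1) = cell r (v 2)) * ind (P (v 0) (v 1) (v 2) (v 3)) =
      ind (cell r (v 1) = cell r (v 2)) * ind (P (v 1) (v 0) (v 2) (v 3))
    rw [ind_congr (hs.1 (v 0) (v 1) (v 2) (v 3))]
  · rw [← integral_perm ((Equiv.swap 0 1) * (Equiv.swap 2 3))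
      (fun v : Fin 4 → I => ind (cell r (v 0) = cell r (v 2)) * Chain.Gf P v)]
    apply integral_congr_ae
    refine Filter.Eventually.of_forall fun v => ?_
    change ind (cell r (v 1) = cell r (v 3)) * ind (P (v 0) (v 1) (v 2) (v 3)) =
      ind (cell r (v 1) = cell r (v 3)) * ind (P (v 1) (v 0) (v 3) (v 2))
    rw [ind_congr ((hs.1 (v 0) (v 1) (v 2) (v 3)).trans (psym3 hs (v 1) (v 0) (v 2) (v 3)))]

/-- The sum of the fifteen pair terms. -/
noncomputable def T15 (r : ℕ) (v : Fin 4 → I) : ℝ :=
  ind (cell r (v 0) = cell r (v 1) ∧ cell r (v 2) = cell r (v 3)) +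
  ind (cell r (v 0) = cell r (v 1) ∧ cell r (v 0) = cell r (v 2)) +
  ind (cell r (v 0) = cell r (v 1) ∧ cell r (v 0) = cell r (v 3)) +
  ind (cell r (v 0) = cell r (v 1) ∧ cell r (v 1) = cell r (v 2)) +
  ind (cell r (v 0) = cell r (v 1) ∧ cell r (v 1) = cell r (v 3)) +
  ind (cell r (v 2) = cell r (v 3) ∧ cell r (v 0) = cell r (v 2)) +
  ind (cell r (v 2) = cell r (v 3) ∧ cell r (v 0) = cell r (v 3)) +
  ind (cell r (v 2) = cell r (v 3) ∧ cell r (v 1) = cell r (v 2)) +
  ind (cell r (v 2) = cell r (v 3) ∧ cell r (v 1) = cell r (v 3)) +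
  ind (cell r (v 0) = cell r (v 2) ∧ cell r (v 0) = cell r (v 3)) +
  ind (cell r (v 0) = cell r (v 2) ∧ cell r (v 1) = cell r (v 2)) +
  ind (cell r (v 0) = cell r (v 2) ∧ cell r (v 1) = cell r (v 3)) +
  ind (cell r (v 0) = cell r (v 3) ∧ cell r (v 1) = cell r (v 2)) +
  ind (cell r (v 0) = cell r (v 3) ∧ cell r (v 1) = cell r (v 3)) +
  ind (cell r (v 1) = cell r (v 2) ∧ cell r (v 1) = cell r (v 3))

theorem T15_int (r : ℕ) : Integrable (T15 r) volume := by
  unfold T15
  exact ((((((((((((((int_and r 0 1 2 3).add (int_and r 0 1 0 2)).add (int_and r 0 1 0 3)).add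
    (int_and r 0 1 1 2)).add (int_and r 0 1 1 3)).add (int_and r 2 3 0 2)).add
    (int_and r 2 3 0 3)).add (int_and r 2 3 1 2)).add (int_and r 2 3 1 3)).add
    (int_and r 0 2 0 3)).add (int_and r 0 2 1 2)).add (int_and r 0 2 1 3)).add
    (int_and r 0 3 1 2)).add (int_and r 0 3 1 3)).add (int_and r 1 2 1 3)

theorem T15_le (r : ℕ) : ∫ v, T15 r v ≤ 15 * ((1 / 2) ^ r) ^ 2 := by
  have key : ∀ (f g : (Fin 4 → I) → ℝ) (a b : ℝ), (Integrable f volume ∧ ∫ v, f v ≤ a) →
      (Integrable g volume ∧ ∫ v, g v ≤ b) →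
      (Integrable (fun v => f v + g v) volume ∧ ∫ v, (f v + g v) ≤ a + b) := by
    rintro f g a b ⟨hf, hf'⟩ ⟨hg, hg'⟩
    refine ⟨hf.add hg, ?_⟩
    rw [integral_add hf hg]
    exact add_le_add hf' hg'
  have base : ∀ (i j k l : Fin 4), i ≠ j → k ≠ l → ¬ (i = k ∧ j = l) → ¬ (i = l ∧ j = k) →
      (Integrable (fun v : Fin 4 → I => ind (cell r (v i) = cell r (v j) ∧
        cell r (v k) = cell r (v l))) volume ∧
      ∫ v : Fin 4 → I, ind (cell r (v i) = cell r (v j) ∧ cell r (v k) = cell r (v l)) ≤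
        ((1 / 2) ^ r) ^ 2) := fun i j k l h1 h2 h3 h4 =>
    ⟨int_and r i j k l, int_and_le r i j k l h1 h2 h3 h4⟩
  have h := key _ _ _ _ (key _ _ _ _ (key _ _ _ _ (key _ _ _ _ (key _ _ _ _ (key _ _ _ _
    (key _ _ _ _ (key _ _ _ _ (key _ _ _ _ (key _ _ _ _ (key _ _ _ _ (key _ _ _ _
    (key _ _ _ _ (key _ _ _ _
    (base 0 1 2 3 (by decide) (by decide) (by decide) (by decide))
    (base 0 1 0 2 (by decide) (by decide) (by decide) (by decide)))
    (base 0 1 0 3 (by decide) (by decide) (by decide) (by decide)))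
    (base 0 1 1 2 (by decide) (by decide) (by decide) (by decide)))
    (base 0 1 1 3 (by decide) (by decide) (by decide) (by decide)))
    (base 2 3 0 2 (by decide) (by decide) (by decide) (by decide)))
    (base 2 3 0 3 (by decide) (by decide) (by decide) (by decide)))
    (base 2 3 1 2 (by decide) (by decide) (by decide) (by decide)))
    (base 2 3 1 3 (by decide) (by decide) (by decide) (by decide)))
    (base 0 2 0 3 (by decide) (by decide) (by decide) (by decide)))
    (base 0 2 1 2 (by decide) (by decide) (by decide) (by decide)))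
    (base 0 2 1 3 (by decide) (by decide) (by decide) (by decide)))
    (base 0 3 1 2 (by decide) (by decide) (by decide) (by decide)))
    (base 0 3 1 3 (by decide) (by decide) (by decide) (by decide)))
    (base 1 2 1 3 (by decide) (by decide) (by decide) (by decide))
  have h2 := h.2
  unfold T15
  linarith

theorem int_lin2 {a b c d e f t : (Fin 4 → I) → ℝ} (ha : Integrable a volume)
    (hb : Integrable b volume) (hc : Integrable c volume) (hd : Integrable d volume)
    (he : Integrable e volume) (hf : Integrable f volume) (ht : Integrable t volume) (k l : ℝ) :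
    ∫ v : Fin 4 → I, (k * a v + k * b v + (l * c v + l * d v + l * e v + l * f v) - t v) =
      k * (∫ v, a v) + k * (∫ v, b v) + (l * (∫ v, c v) + l * (∫ v, d v) + l * (∫ v, e v) +
        l * (∫ v, f v)) - ∫ v, t v := by
  have h1 : Integrable (fun v => k * a v) volume := ha.const_mul k
  have h2 : Integrable (fun v => k * b v) volume := hb.const_mul k
  have h3 : Integrable (fun v => l * c v) volume := hc.const_mul l
  have h4 : Integrable (fun v => l * d v) volume := hd.const_mul l
  have h5 : Integrable (fun v => l * e v) volume := he.const_mul l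
  have h6 : Integrable (fun v => l * f v) volume := hf.const_mul l
  have h12 : Integrable (fun v => k * a v + k * b v) volume := h1.add h2
  have h34 : Integrable (fun v => l * c v + l * d v) volume := h3.add h4
  have h345 : Integrable (fun v => l * c v + l * d v + l * e v) volume := h34.add h5
  have h3456 : Integrable (fun v => l * c v + l * d v + l * e v + l * f v) volume := h345.add h6
  have h7 : Integrable (fun v => k * a v + k * b v + (l * c v + l * d v + l * e v + l * f v))
    volume := h12.add h3456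
  rw [integral_sub h7 ht, integral_add h12 h3456, integral_add h1 h2, integral_add h345 h6,
    integral_add h34 h5, integral_add h3 h4, integral_const_mul, integral_const_mul,
    integral_const_mul, integral_const_mul, integral_const_mul, integral_const_mul]

theorem pt (r : ℕ) (v : Fin 4 → I) :
    0.999 * (ind (cell r (v 0) = cell r (v 1)) * (W (v 2) (v 3) * Chain.Gf P v)) +
    0.999 * (ind (cell r (v 2) = cell r (v 3)) * (W (v 0) (v 1) * Chain.Gf P v)) +
    (0.998 * (ind (cell r (v 0) = cell r (v 2)) * Chain.Gf P v) +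
    0.998 * (ind (cell r (v 0) = cell r (v 3)) * Chain.Gf P v) +
    0.998 * (ind (cell r (v 1) = cell r (v 2)) * Chain.Gf P v) +
    0.998 * (ind (cell r (v 1) = cell r (v 3)) * Chain.Gf P v)) - T15 r v ≤
    ind (¬ Function.Injective fun i => cell r (v i)) *
      (W (v 0) (v 1) * W (v 2) (v 3) * ind (P (v 0) (v 1) (v 2) (v 3))) := by
  have hG0 := Chain.Gf_nonneg (P := P) v
  have hG1 := Chain.Gf_le_one (P := P) v
  have e1 : ind (P (v 0) (v 1) (v 2) (v 3)) = Chain.Gf P v := rfl
  rw [e1, ind_congr (not_inj_iff r v)]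
  have hb := bonferroni (cell r (v 0) = cell r (v 1)) (cell r (v 2) = cell r (v 3))
    (cell r (v 0) = cell r (v 2)) (cell r (v 0) = cell r (v 3)) (cell r (v 1) = cell r (v 2))
    (cell r (v 1) = cell r (v 3))
  have hT0 : 0 ≤ T15 r v := by
    unfold T15
    have := fun p : Prop => ind_nonneg p
    refine add_nonneg (add_nonneg (add_nonneg (add_nonneg (add_nonneg (add_nonneg (add_nonneg
      (add_nonneg (add_nonneg (add_nonneg (add_nonneg (add_nonneg (add_nonneg (add_nonneg ?_ ?_)
      ?_) ?_) ?_) ?_) ?_) ?_) ?_) ?_) ?_) ?_) ?_) ?_) ?_ <;> exact this _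
  have hT : ind (cell r (v 0) = cell r (v 1)) + ind (cell r (v 2) = cell r (v 3)) +
      ind (cell r (v 0) = cell r (v 2)) + ind (cell r (v 0) = cell r (v 3)) +
      ind (cell r (v 1) = cell r (v 2)) + ind (cell r (v 1) = cell r (v 3)) - T15 r v ≤
      ind (cell r (v 0) = cell r (v 1) ∨ cell r (v 2) = cell r (v 3) ∨ cell r (v 0) = cell r (v 2) ∨
      cell r (v 0) = cell r (v 3) ∨ cell r (v 1) = cell r (v 2) ∨ cell r (v 1) = cell r (v 3)) := by
    unfold T15
    exact hb
  have w0 := W_ge (v 0) (v 1)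
  have w0' := W_ge (v 2) (v 3)
  have w1 := W_le_one (v 0) (v 1)
  have w1' := W_le_one (v 2) (v 3)
  have a0 := ind_nonneg (cell r (v 0) = cell r (v 1))
  have b0 := ind_nonneg (cell r (v 2) = cell r (v 3))
  have c0 := ind_nonneg (cell r (v 0) = cell r (v 2))
  have d0 := ind_nonneg (cell r (v 0) = cell r (v 3))
  have f0 := ind_nonneg (cell r (v 1) = cell r (v 2))
  have g0 := ind_nonneg (cell r (v 1) = cell r (v 3))
  generalize ind (cell r (v 0) = cell r (v 1) ∨ cell r (v 2) = cell r (v 3) ∨
    cell r (v 0) = cell r (v 2) ∨ cell r (v 0) = cell r (v 3) ∨ cell r (v 1) = cell r (v 2) ∨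
    cell r (v 1) = cell r (v 3)) = z at *
  generalize T15 r v = t at *
  generalize ind (cell r (v 0) = cell r (v 1)) = a at *
  generalize ind (cell r (v 2) = cell r (v 3)) = b at *
  generalize ind (cell r (v 0) = cell r (v 2)) = c at *
  generalize ind (cell r (v 0) = cell r (v 3)) = d at *
  generalize ind (cell r (v 1) = cell r (v 2)) = f at *
  generalize ind (cell r (v 1) = cell r (v 3)) = g at *
  generalize Chain.Gf P v = G at *
  generalize W (v 0) (v 1) = w at *
  generalize W (v 2) (v 3) = w' at *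
  -- `y = w w' G` is in `[0,1]`
  have hww0 : 0.998 ≤ w * w' := by nlinarith
  have hww1 : w * w' ≤ 1 := by nlinarith
  have hy0 : 0 ≤ w * w' * G := mul_nonneg (by linarith) hG0
  have hy1 : w * w' * G ≤ 1 := mul_le_one₀ hww1 hG0 hG1
  have k1 : (a + b + c + d + f + g - t) * (w * w' * G) ≤ z * (w * w' * G) :=
    mul_le_mul_of_nonneg_right hT hy0
  have k2 : t * (w * w' * G) ≤ t := mul_le_of_le_one_right hT0 hy1
  have k3 : 0.999 * (a * (w' * G)) ≤ a * (w * w' * G) := by
    have : a * (w * w' * G) = w * (a * (w' * G)) := by ring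
    rw [this]
    exact mul_le_mul_of_nonneg_right w0 (mul_nonneg a0 (mul_nonneg (by linarith) hG0))
  have k4 : 0.999 * (b * (w * G)) ≤ b * (w * w' * G) := by
    have : b * (w * w' * G) = w' * (b * (w * G)) := by ring
    rw [this]
    exact mul_le_mul_of_nonneg_right w0' (mul_nonneg b0 (mul_nonneg (by linarith) hG0))
  have k5 : ∀ s : ℝ, 0 ≤ s → 0.998 * (s * G) ≤ s * (w * w' * G) := by
    intro s hs
    have : s * (w * w' * G) = (w * w') * (s * G) := by ring
    rw [this]
    exact mul_le_mul_of_nonneg_right hww0 (mul_nonneg hs hG0)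
  have k6 := k5 c c0
  have k7 := k5 d d0
  have k8 := k5 f f0
  have k9 := k5 g g0
  linarith

end CoincLower

open OptBase CoincLower in
theorem coinc_lower (P : I → I → I → I → Prop) (hs : PSym P)
    (hm : NullMeasurableSet (PSet P) volume) (n : ℕ) :
    2 * 0.999 * (1 / 2) ^ (lev n) * eN P n +
      4 * 0.998 * (volume : Measure (Fin 4 → I)).real
        {v | cell (lev n) (v 0) = cell (lev n) (v 2) ∧ P (v 0) (v 1) (v 2) (v 3)} -
      15 * ((1 / 2) ^ (lev n)) ^ 2 ≤
    ∫ v : Fin 4 → I, ind (¬ Function.Injective fun i => cell (lev n) (v i)) *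
      (W (v 0) (v 1) * W (v 2) (v 3) * ind (P (v 0) (v 1) (v 2) (v 3))) := by
  have hi01 : Integrable (fun v : Fin 4 → I => 0.999 * (ind (cell (lev n) (v 0) =
      cell (lev n) (v 1)) * (W (v 2) (v 3) * Chain.Gf P v))) volume :=
    (Chain.integrable_R hm (Chain.measurable_U n) (C := 1) (Chain.U_nonneg _) (Chain.U_le_one _)
      0 1 2 3).const_mul _
  have hi23 : Integrable (fun v : Fin 4 → I => 0.999 * (ind (cell (lev n) (v 2) =
      cell (lev n) (v 3)) * (W (v 0) (v 1) * Chain.Gf P v))) volume :=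
    (Chain.integrable_R hm (Chain.measurable_U n) (C := 1) (Chain.U_nonneg _) (Chain.U_le_one _)
      2 3 0 1).const_mul _
  have hE := fun i j => (EG_integrable hm (lev n) i j).const_mul (0.998 : ℝ)
  have hi4 : Integrable (fun v : Fin 4 → I =>
      0.998 * (ind (cell (lev n) (v 0) = cell (lev n) (v 2)) * Chain.Gf P v) +
      0.998 * (ind (cell (lev n) (v 0) = cell (lev n) (v 3)) * Chain.Gf P v) +
      0.998 * (ind (cell (lev n) (v 1) = cell (lev n) (v 2)) * Chain.Gf P v) +
      0.998 * (ind (cell (lev n) (v 1) = cell (lev n) (v 3)) * Chain.Gf P v)) volume :=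
    (((hE 0 2).add (hE 0 3)).add (hE 1 2)).add (hE 1 3)
  have hi12 : Integrable (fun v : Fin 4 → I =>
      0.999 * (ind (cell (lev n) (v 0) = cell (lev n) (v 1)) * (W (v 2) (v 3) * Chain.Gf P v)) +
      0.999 * (ind (cell (lev n) (v 2) = cell (lev n) (v 3)) * (W (v 0) (v 1) * Chain.Gf P v)))
      volume := hi01.add hi23
  have hR : Integrable (fun v : Fin 4 → I => ind (¬ Function.Injective fun i =>
      cell (lev n) (v i)) * (W (v 0) (v 1) * W (v 2) (v 3) *
        ind (P (v 0) (v 1) (v 2) (v 3)))) volume := by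
    refine Chain.integrable_of ?_ 1 (fun v => ?_) (fun v => ?_)
    · refine (aesm_ind₀ (fun v : Fin 4 → I => ¬ Function.Injective fun i => cell (lev n) (v i))
        ?_).mul (((Chain.measurable_coord measurable_W 0 1).mul
        (Chain.measurable_coord measurable_W 2 3)).aestronglyMeasurable.mul (Chain.Gf_aesm hm))
      have : {v : Fin 4 → I | ¬ Function.Injective fun i => cell (lev n) (v i)} =
          {v : Fin 4 → I | cell (lev n) (v 0) = cell (lev n) (v 1) ∨
            cell (lev n) (v 2) = cell (lev n) (v 3) ∨ cell (lev n) (v 0) = cell (lev n) (v 2) ∨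
            cell (lev n) (v 0) = cell (lev n) (v 3) ∨ cell (lev n) (v 1) = cell (lev n) (v 2) ∨
            cell (lev n) (v 1) = cell (lev n) (v 3)} := by
        ext v
        exact not_inj_iff (lev n) v
      rw [this]
      exact (((measE _ 0 1).union ((measE _ 2 3).union ((measE _ 0 2).union ((measE _ 0 3).union
        ((measE _ 1 2).union (measE _ 1 3))))))).nullMeasurableSet
    · exact mul_nonneg (ind_nonneg _) (mul_nonneg (mul_nonneg (Chain.W_nonneg _ _)
        (Chain.W_nonneg _ _)) (ind_nonneg _))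
    · exact mul_le_one₀ (ind_le_one _) (mul_nonneg (mul_nonneg (Chain.W_nonneg _ _)
        (Chain.W_nonneg _ _)) (ind_nonneg _)) (mul_le_one₀ (mul_le_one₀ (W_le_one _ _)
        (Chain.W_nonneg _ _) (W_le_one _ _)) (ind_nonneg _) (ind_le_one _))
  have hmain := integral_mono ((hi12.add hi4).sub (T15_int (lev n))) hR
    (fun v => pt (P := P) (lev n) v)
  have hcalc : ∫ v : Fin 4 → I,
      (0.999 * (ind (cell (lev n) (v 0) = cell (lev n) (v 1)) * (W (v 2) (v 3) * Chain.Gf P v)) +
      0.999 * (ind (cell (lev n) (v 2) = cell (lev n) (v 3)) * (W (v 0) (v 1) * Chain.Gf P v)) +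
      (0.998 * (ind (cell (lev n) (v 0) = cell (lev n) (v 2)) * Chain.Gf P v) +
      0.998 * (ind (cell (lev n) (v 0) = cell (lev n) (v 3)) * Chain.Gf P v) +
      0.998 * (ind (cell (lev n) (v 1) = cell (lev n) (v 2)) * Chain.Gf P v) +
      0.998 * (ind (cell (lev n) (v 1) = cell (lev n) (v 3)) * Chain.Gf P v)) - T15 (lev n) v) =
      2 * 0.999 * (1 / 2) ^ (lev n) * eN P n + 4 * 0.998 * (volume : Measure (Fin 4 → I)).real
        {v | cell (lev n) (v 0) = cell (lev n) (v 2) ∧ P (v 0) (v 1) (v 2) (v 3)} -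
        ∫ v, T15 (lev n) v := by
    obtain ⟨p1, p2, p3⟩ := EG_perm hs (lev n)
    have q1 : ∫ v : Fin 4 → I, ind (cell (lev n) (v 0) = cell (lev n) (v 1)) *
        (W (v 2) (v 3) * Chain.Gf P v) = (1 / 2) ^ (lev n) * eN P n := Chain.eN_eq n
    have q2 : ∫ v : Fin 4 → I, ind (cell (lev n) (v 2) = cell (lev n) (v 3)) *
        (W (v 0) (v 1) * Chain.Gf P v) = (1 / 2) ^ (lev n) * eN P n := by
      rw [← q1]
      exact Chain.integral_sym hs (Chain.U n)
    have k1 := int_lin2 (Chain.integrable_R hm (Chain.measurable_U n) (C := 1) (Chain.U_nonneg _)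
      (Chain.U_le_one _) 0 1 2 3) (Chain.integrable_R hm (Chain.measurable_U n) (C := 1)
      (Chain.U_nonneg _) (Chain.U_le_one _) 2 3 0 1) (EG_integrable hm (lev n) 0 2)
      (EG_integrable hm (lev n) 0 3) (EG_integrable hm (lev n) 1 2) (EG_integrable hm (lev n) 1 3)
      (T15_int (lev n)) 0.999 0.998
    refine k1.trans ?_
    have q1' : ∫ v : Fin 4 → I, Chain.U n (v 0) (v 1) * (W (v 2) (v 3) * Chain.Gf P v) =
      (1 / 2) ^ (lev n) * eN P n := q1
    have q2' : ∫ v : Fin 4 → I, Chain.U n (v 2) (v 3) * (W (v 0) (v 1) * Chain.Gf P v) =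
      (1 / 2) ^ (lev n) * eN P n := q2
    rw [p1, p2, p3, EG_integral hm, q1', q2']
    ring
  have h15 := T15_le (lev n)
  have := hcalc.symm.le.trans hmain
  linarith

end Pool.Agent.MP_a0a8d4_co
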