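import Pool.Agent.MP_a0a8d4_co.Basic

set_option autoImplicit false

/-!
# MP_a0a8d4_co: the curve along a simple polyline

Module RZ1.
-/

namespace Pool.Agent.MP_a0a8d4_co

open MeasureTheory Set Filter
open scoped unitInterval Topology

namespace Curve

lemma car_cons (a b : Pt) (l : List Pt) : Car (a :: b :: l) = segment ℝ a b ∪ Car (b :: l) := by
  have h : segs (a :: b :: l) = (a, b) :: segs (b :: l) := rfl
  ext p
  simp [Car, h]

/-- The straight path. -/
noncomputable def line (a b : Pt) : Path a b where
  toFun t := AffineMap.lineMap a b (t : ℝ)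
  continuous_toFun := by
    exact AffineMap.lineMap_continuous.comp continuous_subtype_val
  source' := by simp
  target' := by simp

lemma line_range (a b : Pt) : range (line a b) = segment ℝ a b := by
  rw [segment_eq_image_lineMap]
  ext p
  constructor
  · rintro ⟨t, rfl⟩
    exact ⟨t, t.2, rfl⟩
  · rintro ⟨t, ht, rfl⟩
    exact ⟨⟨t, ht⟩, rfl⟩

lemma line_inj {a b : Pt} (h : a ≠ b) : Function.Injective (line a b) := by
  intro s t hst
  have h1 : AffineMap.lineMap a b (s : ℝ) = AffineMap.lineMap a b (t : ℝ) := hst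
  exact Subtype.ext (AffineMap.lineMap_injective ℝ h h1)

lemma trans_inj {x y z : Pt} (γ : Path x y) (γ' : Path y z) (h1 : Function.Injective γ)
    (h2 : Function.Injective γ') (h : ∀ s t, γ s = γ' t → γ s = y) :
    Function.Injective (γ.trans γ') := by
  have key : ∀ s t : I, (s : ℝ) ≤ 1 / 2 → ¬ (t : ℝ) ≤ 1 / 2 →
      (γ.trans γ') s = (γ.trans γ') t → False := by
    intro s t hs ht hst
    rw [Path.trans_apply, Path.trans_apply, dif_pos hs, dif_neg ht] at hst
    have h3 := h _ _ hst
    have h4 : γ' ⟨2 * (t : ℝ) - 1, unitInterval.two_mul_sub_one_mem_iff.2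
        ⟨(not_le.1 ht).le, t.2.2⟩⟩ = γ' 0 := by
      rw [← hst, h3, γ'.source]
    have h5 := congrArg Subtype.val (h2 h4)
    simp only [Icc.coe_zero] at h5
    apply ht
    linarith
  intro s t hst
  by_cases hs : (s : ℝ) ≤ 1 / 2 <;> by_cases ht : (t : ℝ) ≤ 1 / 2
  · rw [Path.trans_apply, Path.trans_apply, dif_pos hs, dif_pos ht] at hst
    have h5 := congrArg Subtype.val (h1 hst)
    exact Subtype.ext (by simpa using h5)
  · exact (key s t hs ht hst).elim
  · exact (key t s ht hs hst.symm).elim
  · rw [Path.trans_apply, Path.trans_apply, dif_neg hs, dif_neg ht] at hst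
    have h5 := congrArg Subtype.val (h2 hst)
    exact Subtype.ext (by simpa using h5)

lemma simple_tail {a b : Pt} {l : List Pt} (h : SimpleL (a :: b :: l)) : SimpleL (b :: l) := by
  refine ⟨(List.nodup_cons.1 h.1).2, ?_⟩
  intro e he f hf
  exact h.2 e (List.mem_cons_of_mem _ he) f (List.mem_cons_of_mem _ hf)

lemma simple_meet {a b : Pt} {l : List Pt} (h : SimpleL (a :: b :: l)) {p : Pt}
    (h1 : p ∈ segment ℝ a b) (h2 : p ∈ Car (b :: l)) : p = b := by
  obtain ⟨f, hf, hp⟩ := h2
  have ha : a ∉ b :: l := (List.nodup_cons.1 h.1).1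
  have hf' := segs_mem hf
  have he : ((a, b) : Pt × Pt) ∈ segs (a :: b :: l) := List.mem_cons_self
  rcases h.2 (a, b) he f (List.mem_cons_of_mem _ hf) p h1 hp with h3 | h3 | h3
  · exact (ha (by rw [← h3] at hf'; exact hf'.1)).elim
  · exact h3.2
  · exact (ha (by rw [← show f.2 = a from h3.1]; exact hf'.2)).elim

lemma exists_path : ∀ (l : List Pt) (a b q : Pt), (a :: b :: l).getLast? = some q →
    SimpleL (a :: b :: l) →
    ∃ γ : Path a q, Function.Injective γ ∧ range γ = Car (a :: b :: l)
  | [], a, b, q, hq, hs => by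
      simp at hq
      subst hq
      have hab : a ≠ b := by
        have := hs.1
        simp at this
        exact this
      refine ⟨line a b, line_inj hab, ?_⟩
      rw [line_range]
      ext p
      simp [Car, segs]
  | c :: t, a, b, q, hq, hs => by
      have hab : a ≠ b := by
        have := (List.nodup_cons.1 hs.1).1
        intro h
        exact this (by simp [h])
      obtain ⟨γ, h1, h2⟩ := exists_path t b c q (by simpa using hq) (simple_tail hs)
      refine ⟨(line a b).trans γ, trans_inj _ _ (line_inj hab) h1 ?_, ?_⟩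
      · intro s u hsu
        refine simple_meet hs (p := (line a b) s) ?_ ?_
        · rw [← line_range]; exact ⟨s, rfl⟩
        · rw [← h2, hsu]; exact ⟨u, rfl⟩
      · rw [Path.trans_range, line_range, h2, ← car_cons]

end Curve

open Curve in
theorem exists_curve (l : List Pt) (p q : Pt) (hp : l.head? = some p) (hq : l.getLast? = some q)
    (hpq : p ≠ q) (hs : SimpleL l) :
    ∃ c : I → Pt, Continuous c ∧ Function.Injective c ∧ c 0 = p ∧ c 1 = q ∧ range c = Car l := by
  match l, hp, hq, hs with
  | [], hp, _, _ => simp at hp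
  | [a], hp, hq, _ =>
    simp at hp hq
    exact absurd (hp.symm.trans hq) hpq
  | a :: b :: t, hp, hq, hs =>
    simp at hp
    subst hp
    obtain ⟨γ, h1, h2⟩ := exists_path t a b q hq hs
    exact ⟨γ, γ.continuous, h1, γ.source, γ.target, h2⟩

end Pool.Agent.MP_a0a8d4_co
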