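import Mathlib

set_option autoImplicit false

/-!
# MP_a0a8d4_co: definitions

The objects of the problem: curves in the plane, simple graphon drawings, the crossing density
`cd W D` of a drawing, and the special graphon `W` for which the infimum is not attained.
-/

namespace Pool.Agent.MP_a0a8d4_co

open MeasureTheory Set
open scoped unitInterval

/-- The plane. -/
abbrev Pt := ℝ × ℝ

/-- A curve of the class `C`: a continuous map from `[0,1]` to the plane which is injective or
constant. -/
def IsCurve (c : I → Pt) : Prop :=
  Continuous c ∧ (Function.Injective c ∨ ∃ p, ∀ t, c t = p)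

/-- A simple drawing of the complete graph with vertex set `V` (`V = [0,1]` for a simple graphon
drawing, `V` finite for a finite drawing). The curve `D x y` joins the position of `x` to the
position of `y`; `σ t = 1 - t`. -/
structure IsSimpleDrawing {V : Type*} (D : V → V → I → Pt) : Prop where
  /-- every `D x y` is an injective or constant curve -/
  curve : ∀ x y, IsCurve (D x y)
  /-- condition 1: `D x y` and `D y x` are reverse to each other -/
  symm : ∀ x y t, D x y t = D y x (σ t)
  /-- condition 2: `D x x` is constant -/
  diag : ∀ x, ∃ p, ∀ t, D x x t = p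
  /-- condition 3: `D x y` starts at the position of `x` -/
  start : ∀ x y, D x y 0 = D x x 0
  /-- condition 4: different images share at most one point -/
  cross : ∀ x₁ y₁ x₂ y₂, range (D x₁ y₁) ≠ range (D x₂ y₂) →
    (range (D x₁ y₁) ∩ range (D x₂ y₂)).Subsingleton

/-- The images of `D x y` and `D z w` intersect. -/
def Meets {V : Type*} (D : V → V → I → Pt) (x y z w : V) : Prop :=
  (range (D x y) ∩ range (D z w)).Nonempty

/-- The set of all `(x₁,x₂,x₃,x₄)` in `[0,1]^4` such that the images of `D x₁ x₂` and `D x₃ x₄`
intersect: the function `I_D` is its indicator function. -/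
def crossSet (D : I → I → I → Pt) : Set (Fin 4 → I) :=
  {v | Meets D (v 0) (v 1) (v 2) (v 3)}

/-- A graphon: a symmetric measurable function `W : [0,1]² → [0,1]`. -/
structure IsGraphon (W : I → I → ℝ) : Prop where
  symm : ∀ x y, W x y = W y x
  nonneg : ∀ x y, 0 ≤ W x y
  le_one : ∀ x y, W x y ≤ 1
  meas : Measurable fun p : I × I => W p.1 p.2

/-- The crossing density of the drawing `D` with respect to the graphon `W`; the integral is over
`[0,1]^4` with Lebesgue measure. -/
noncomputable def cd (W : I → I → ℝ) (D : I → I → I → Pt) : ℝ :=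
  (1 / 8) * ∫ v : Fin 4 → I,
    W (v 0) (v 1) * W (v 2) (v 3) * (crossSet D).indicator (fun _ => (1 : ℝ)) v

/-! ## The special graphon -/

/-- The index of the dyadic cell of level `r` that contains `x` (the last cell is closed). -/
noncomputable def cell (r : ℕ) (x : I) : ℕ := min ⌊(2 : ℝ) ^ r * (x : ℝ)⌋₊ (2 ^ r - 1)

lemma cell_lt (r : ℕ) (x : I) : cell r x < 2 ^ r := by
  have h : 0 < 2 ^ r := by positivity
  unfold cell
  omega

/-- The cell of level `r` that contains `x` as an element of `Fin (2 ^ r)`. -/
noncomputable def cellF (r : ℕ) (x : I) : Fin (2 ^ r) := ⟨cell r x, cell_lt r x⟩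

/-- The levels `0, 10, 40, 90, ...`. -/
def lev (i : ℕ) : ℕ := 10 * i ^ 2

/-- The weights `1/2000, 1/4000, ...` (used for `i ≥ 1`). -/
noncomputable def uw (i : ℕ) : ℝ := (1 / 1000) * (1 / 2) ^ i

/-- The special graphon: `1` minus the sum of the weights `uw i`, `i ≥ 1`, over all `i` such that
`x` and `y` are in the same dyadic cell of level `lev i`. -/
noncomputable def W (x y : I) : ℝ :=
  1 - ∑' i : ℕ, if cell (lev (i + 1)) x = cell (lev (i + 1)) y then uw (i + 1) else 0

end Pool.Agent.MP_a0a8d4_co
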