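import Pool.Agent.MP_a0a8d4_co.Defs

set_option autoImplicit false

/-!
# MP_a0a8d4_co: auxiliary definitions

Plane geometry (orientation, crossing of segments, polylines, nice drawings) and the statement of
the main inequality `OPT` that an optimal drawing satisfies.
-/

namespace Pool.Agent.MP_a0a8d4_co

open MeasureTheory Set
open scoped unitInterval

/-! ## Indicators -/

open Classical in
/-- Real indicator of a proposition. -/
noncomputable def ind (p : Prop) : ℝ := if p then 1 else 0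

open Classical in
/-- Natural indicator of a proposition. -/
noncomputable def indN (p : Prop) : ℕ := if p then 1 else 0

lemma ind_true {p : Prop} (h : p) : ind p = 1 := by simp [ind, h]
lemma ind_false {p : Prop} (h : ¬ p) : ind p = 0 := by simp [ind, h]
lemma ind_nonneg (p : Prop) : 0 ≤ ind p := by unfold ind; split_ifs <;> norm_num
lemma ind_le_one (p : Prop) : ind p ≤ 1 := by unfold ind; split_ifs <;> norm_num
lemma indN_true {p : Prop} (h : p) : indN p = 1 := by simp [indN, h]
lemma indN_false {p : Prop} (h : ¬ p) : indN p = 0 := by simp [indN, h]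
lemma ind_mono {p q : Prop} (h : p → q) : ind p ≤ ind q := by
  by_cases hp : p
  · rw [ind_true hp, ind_true (h hp)]
  · rw [ind_false hp]; exact ind_nonneg q
lemma ind_congr {p q : Prop} (h : p ↔ q) : ind p = ind q := by rw [propext h]

/-! ## The parity relation -/

/-- If `x` and `y` cross the edges of the triangle `z₁ z₂ z₃` in the same way (from the `zᵢ` and
from a further vertex `o`), then the stars of `x` and `y` to `z₁, z₂, z₃` cross an odd number of
times. -/
def RelAt {X : Type*} (P : X → X → X → X → Prop) (x y o z₁ z₂ z₃ : X) : Prop :=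
  (P x z₁ z₂ z₃ ↔ P y z₁ z₂ z₃) → (P x z₂ z₁ z₃ ↔ P y z₂ z₁ z₃) →
  (P x z₃ z₁ z₂ ↔ P y z₃ z₁ z₂) →
  (P x o z₁ z₂ ↔ P y o z₁ z₂) → (P x o z₁ z₃ ↔ P y o z₁ z₃) → (P x o z₂ z₃ ↔ P y o z₂ z₃) →
  Odd (indN (P x z₁ y z₂) + indN (P x z₂ y z₁) + indN (P x z₁ y z₃) + indN (P x z₃ y z₁) +
    indN (P x z₂ y z₃) + indN (P x z₃ y z₂))

/-- Among five distinct points there is a crossing. -/
def FiveAt {X : Type*} (P : X → X → X → X → Prop) (x₀ x₁ x₂ x₃ x₄ : X) : Prop :=
  ∃ a b c d, [a, b, c, d].Nodup ∧ (∀ u ∈ [a, b, c, d], u ∈ [x₀, x₁, x₂, x₃, x₄]) ∧ P a b c d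

/-! ## Plane geometry -/

/-- Twice the signed area of the triangle `a b c`. -/
def orient (a b c : Pt) : ℝ := (b.1 - a.1) * (c.2 - a.2) - (b.2 - a.2) * (c.1 - a.1)

/-- The determinant of two vectors. -/
def det2 (a b : Pt) : ℝ := a.1 * b.2 - a.2 * b.1

/-- The segments `[a,b]` and `[c,d]` cross properly. -/
def Cr (a b c d : Pt) : Prop :=
  orient a b c * orient a b d < 0 ∧ orient c d a * orient c d b < 0

/-- The list of consecutive pairs of a list of points. -/
def segs (l : List Pt) : List (Pt × Pt) := l.zip l.tail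

/-- The point set of a polyline. -/
def Car (l : List Pt) : Set Pt := {p | ∃ e ∈ segs l, p ∈ segment ℝ e.1 e.2}

/-- A set of points in general position: any three distinct points are not collinear. -/
def GP (S : Set Pt) : Prop :=
  ∀ a ∈ S, ∀ b ∈ S, ∀ c ∈ S, a ≠ b → b ≠ c → a ≠ c → orient a b c ≠ 0

/-- A polyline without self-intersections. -/
def SimpleL (l : List Pt) : Prop :=
  l.Nodup ∧ ∀ e ∈ segs l, ∀ f ∈ segs l, ∀ p, p ∈ segment ℝ e.1 e.2 → p ∈ segment ℝ f.1 f.2 →
    e = f ∨ (e.2 = f.1 ∧ p = e.2) ∨ (f.2 = e.1 ∧ p = e.1)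

/-- A nice drawing of the complete graph on `V`: polylines with all vertices and bends in general
position, each edge simple, adjacent edges do not cross, independent edges cross at most once. -/
structure Nice (V : Type) where
  pos : V → Pt
  path : V → V → List Pt
  pos_inj : Function.Injective pos
  head : ∀ x y, x ≠ y → (path x y).head? = some (pos x)
  last : ∀ x y, x ≠ y → (path x y).getLast? = some (pos y)
  rev : ∀ x y, path y x = (path x y).reverse
  nodup : ∀ x y, x ≠ y → (path x y).Nodup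
  share : ∀ x y z w, x ≠ y → z ≠ w → ¬ (x = z ∧ y = w) → ¬ (x = w ∧ y = z) →
    ∀ a ∈ path x y, a ∈ path z w → ∃ u, a = pos u ∧ (u = x ∨ u = y) ∧ (u = z ∨ u = w)
  gp : GP {a | ∃ x y, x ≠ y ∧ a ∈ path x y}
  self : ∀ x y, x ≠ y → ∀ e ∈ segs (path x y), ∀ f ∈ segs (path x y), ¬ Cr e.1 e.2 f.1 f.2
  adj : ∀ x y z, x ≠ y → x ≠ z → y ≠ z →
    ∀ e ∈ segs (path x y), ∀ f ∈ segs (path x z), ¬ Cr e.1 e.2 f.1 f.2
  indep : ∀ x y z w, [x, y, z, w].Nodup →
    ∀ e ∈ segs (path x y), ∀ f ∈ segs (path z w), ∀ e' ∈ segs (path x y), ∀ f' ∈ segs (path z w),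
      Cr e.1 e.2 f.1 f.2 → Cr e'.1 e'.2 f'.1 f'.2 → e = e' ∧ f = f'

/-- The edges `x y` and `z w` of a nice drawing cross. -/
def Nice.cr {V : Type} (N : Nice V) (x y z w : V) : Prop :=
  ∃ e ∈ segs (N.path x y), ∃ f ∈ segs (N.path z w), Cr e.1 e.2 f.1 f.2

/-- The set of all vertices and bends of a nice drawing. -/
def Nice.pts {V : Type} (N : Nice V) : Set Pt := {a | ∃ x y, x ≠ y ∧ a ∈ N.path x y}

/-- A robust drawing: polylines, not necessarily in general position, with the closed segments of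
different edges disjoint up to common vertices and up to one pair of segments for each pair of
independent edges. -/
structure Robust (V : Type) where
  pos : V → Pt
  path : V → V → List Pt
  pos_inj : Function.Injective pos
  head : ∀ x y, x ≠ y → (path x y).head? = some (pos x)
  last : ∀ x y, x ≠ y → (path x y).getLast? = some (pos y)
  rev : ∀ x y, path y x = (path x y).reverse
  simple : ∀ x y, x ≠ y → SimpleL (path x y)
  share : ∀ x y z w, x ≠ y → z ≠ w → ¬ (x = z ∧ y = w) → ¬ (x = w ∧ y = z) →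
    ∀ a ∈ path x y, a ∈ path z w → ∃ u, a = pos u ∧ (u = x ∨ u = y) ∧ (u = z ∨ u = w)
  adj : ∀ x y z, x ≠ y → x ≠ z → y ≠ z →
    ∀ e ∈ segs (path x y), ∀ f ∈ segs (path x z), ∀ p, p ∈ segment ℝ e.1 e.2 →
      p ∈ segment ℝ f.1 f.2 → p = pos x
  indep : ∀ x y z w, [x, y, z, w].Nodup →
    ∀ e ∈ segs (path x y), ∀ f ∈ segs (path z w), ∀ e' ∈ segs (path x y), ∀ f' ∈ segs (path z w),
      (segment ℝ e.1 e.2 ∩ segment ℝ f.1 f.2).Nonempty →
      (segment ℝ e'.1 e'.2 ∩ segment ℝ f'.1 f'.2).Nonempty → e = e' ∧ f = f'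

/-- A drawing by simple polylines in which different edges may pass through common points of a
set `C` (these are bends of the polylines). -/
structure Semi (V : Type) (C : Set Pt) where
  pos : V → Pt
  path : V → V → List Pt
  pos_inj : Function.Injective pos
  pos_not : ∀ x, pos x ∉ C
  head : ∀ x y, x ≠ y → (path x y).head? = some (pos x)
  last : ∀ x y, x ≠ y → (path x y).getLast? = some (pos y)
  rev : ∀ x y, path y x = (path x y).reverse
  simple : ∀ x y, x ≠ y → SimpleL (path x y)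
  meet : ∀ x y z w, x ≠ y → z ≠ w → ¬ (x = z ∧ y = w) → ¬ (x = w ∧ y = z) →
    ∀ p ∈ Car (path x y), p ∈ Car (path z w) →
      p ∈ path x y ∧ p ∈ path z w ∧ (p ∈ C ∨ ∃ u, p = pos u)
  vert : ∀ x y z, x ≠ y → pos z ∈ Car (path x y) → z = x ∨ z = y
  adj : ∀ x y z, x ≠ y → x ≠ z → y ≠ z → ∀ p ∈ Car (path x y), p ∈ Car (path x z) → p = pos x
  indep : ∀ x y z w, [x, y, z, w].Nodup → (Car (path x y) ∩ Car (path z w)).Subsingleton

/-- The polyline `p, l, q` runs inside `Ω` except for its end points. -/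
def PolyIn (Ω : Set Pt) (p q : Pt) (l : List Pt) : Prop :=
  l ≠ [] ∧ (∀ a ∈ l, a ∈ Ω) ∧ ∀ e ∈ segs (p :: (l ++ [q])), openSegment ℝ e.1 e.2 ⊆ Ω

/-- Near `p` the set `Ω` is a cone with apex `p`. -/
def ConeAt (Ω : Set Pt) (p : Pt) : Prop :=
  ∃ ρ > 0, ∀ y ∈ Ω, dist y p < ρ → ∀ t : ℝ, 0 < t → t ≤ 1 → p + t • (y - p) ∈ Ω

/-- The point `p` is inside the triangle `a b c`. -/
def Inside (a b c p : Pt) : Prop :=
  (0 < orient a b p ∧ 0 < orient b c p ∧ 0 < orient c a p) ∨
    (orient a b p < 0 ∧ orient b c p < 0 ∧ orient c a p < 0)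

/-- The number of crossings of two polylines. -/
noncomputable def cnt (l m : List Pt) : ℕ :=
  ((segs l).map fun e => ((segs m).map fun f => indN (Cr e.1 e.2 f.1 f.2)).sum).sum

/-! ## The discrete form of the graphon and the main inequality -/

/-- The value of `W` on the product of two different cells `a`, `b` of level `r`. -/
noncomputable def Wd (r a b : ℕ) : ℝ :=
  1 - ∑' i : ℕ,
    if lev (i + 1) ≤ r ∧ a / 2 ^ (r - lev (i + 1)) = b / 2 ^ (r - lev (i + 1)) then uw (i + 1)
    else 0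

/-- The average of `W` over the product of the cells of level `k` containing `x` and `y`. -/
noncomputable def Wk (k : ℕ) (x y : I) : ℝ :=
  1 - ∑' i : ℕ,
    if lev (i + 1) ≤ k then (if cell (lev (i + 1)) x = cell (lev (i + 1)) y then uw (i + 1) else 0)
    else (if cell k x = cell k y then uw (i + 1) * (1 / 2) ^ (lev (i + 1) - k) else 0)

/-- The map of `I` to the vertices of a blow-up with `256` vertices in every cell of level `r`. -/
noncomputable def kap (r : ℕ) (x : I) : Fin (2 ^ r) × Fin 256 :=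
  (cellF r x, ⟨cell (r + 8) x % 256, Nat.mod_lt _ (by norm_num)⟩)

/-- `8` times the crossing density: the integral of `W W` over the set where `P` holds. -/
noncomputable def En (P : I → I → I → I → Prop) : ℝ :=
  ∫ v : Fin 4 → I, W (v 0) (v 1) * W (v 2) (v 3) * ind (P (v 0) (v 1) (v 2) (v 3))

/-- The discrete energy of a crossing relation on the cells of level `r`. -/
noncomputable def EnD (r : ℕ) (cr : Fin (2 ^ r) → Fin (2 ^ r) → Fin (2 ^ r) → Fin (2 ^ r) → Prop) :
    ℝ :=
  ((1 / 2 : ℝ) ^ r) ^ 4 * ∑ e : Fin 4 → Fin (2 ^ r),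
    ind (Function.Injective e) * (Wd r (e 0) (e 1) * Wd r (e 2) (e 3) *
      ind (cr (e 0) (e 1) (e 2) (e 3)))

/-- `2 ^ lev i` times the weight of the crossings of the edges inside the cells of level `lev i`. -/
noncomputable def eN (P : I → I → I → I → Prop) (i : ℕ) : ℝ :=
  2 ^ (lev i) * ∫ v : Fin 4 → I, ind (cell (lev i) (v 0) = cell (lev i) (v 1)) *
    (W (v 2) (v 3) * ind (P (v 0) (v 1) (v 2) (v 3)))

/-- The crossing set of a relation. -/
def PSet (P : I → I → I → I → Prop) : Set (Fin 4 → I) := {v | P (v 0) (v 1) (v 2) (v 3)}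

/-- The symmetries of the relation `Meets D`. -/
def PSym (P : I → I → I → I → Prop) : Prop :=
  (∀ x y z w, P x y z w ↔ P y x z w) ∧ (∀ x y z w, P x y z w ↔ P z w x y)

/-- The main inequality for an optimal drawing `D` (with `P = Meets D`): for every choice `ξ` of
positions for the cells of level `r` there is a drawing of the complete graph on the cells, with
crossings only where `D` has crossings, which satisfies the parity relations and whose discrete
energy, plus the energy of a blow-up near the diagonal, is at least the energy of `D`. -/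
def OPT (P : I → I → I → I → Prop) : Prop :=
  ∀ (r : ℕ) (ξ : Fin (2 ^ r) → I),
    ∃ cr : Fin (2 ^ r) → Fin (2 ^ r) → Fin (2 ^ r) → Fin (2 ^ r) → Prop,
      (∀ a b c d, [a, b, c, d].Nodup → cr a b c d → P (ξ a) (ξ b) (ξ c) (ξ d)) ∧
      (∀ x y o z₁ z₂ z₃, [x, y, o, z₁, z₂, z₃].Nodup → RelAt cr x y o z₁ z₂ z₃) ∧
      (∀ x₀ x₁ x₂ x₃ x₄, [x₀, x₁, x₂, x₃, x₄].Nodup → FiveAt cr x₀ x₁ x₂ x₃ x₄) ∧
      En P ≤ EnD r cr + (1 / 2) ^ r * (1 + 1 / 64) + 8 * ((1 / 2) ^ r) ^ 2

end Pool.Agent.MP_a0a8d4_co
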