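import Pool.Agent.MP_a0a8d4_co.Defs2

set_option autoImplicit false

/-!
# MP_a0a8d4_co: basic facts about simple drawings
-/

namespace Pool.Agent.MP_a0a8d4_co

open MeasureTheory Set Filter
open scoped unitInterval Topology

theorem IsSimpleDrawing.end_eq {V : Type} {D : V → V → I → Pt} (hD : IsSimpleDrawing D) (x y : V) :
    D x y 1 = D y y 0 := by
  rw [hD.symm x y 1, unitInterval.symm_one, hD.start y x]

theorem IsSimpleDrawing.range_symm {V : Type} {D : V → V → I → Pt} (hD : IsSimpleDrawing D)
    (x y : V) : range (D x y) = range (D y x) := by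
  ext p
  constructor
  · rintro ⟨t, rfl⟩
    exact ⟨unitInterval.symm t, (hD.symm x y t).symm⟩
  · rintro ⟨t, rfl⟩
    exact ⟨unitInterval.symm t, (hD.symm y x t).symm⟩

theorem IsSimpleDrawing.range_const {V : Type} {D : V → V → I → Pt} (hD : IsSimpleDrawing D)
    (x y : V) (h : D x x 0 = D y y 0) : range (D x y) = {D x x 0} := by
  rcases (hD.curve x y).2 with hi | ⟨p, hp⟩
  · have h1 : D x y 0 = D x y 1 := by rw [hD.start, hD.end_eq, h]
    exact absurd (hi h1) (by simp)
  · have h0 := hp 0
    rw [hD.start] at h0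
    ext q
    constructor
    · rintro ⟨t, rfl⟩
      rw [hp t, h0]; rfl
    · rintro rfl
      exact ⟨0, hD.start x y⟩

theorem IsSimpleDrawing.inj {V : Type} {D : V → V → I → Pt} (hD : IsSimpleDrawing D)
    (x y : V) (h : D x x 0 ≠ D y y 0) : Function.Injective (D x y) := by
  rcases (hD.curve x y).2 with hi | ⟨p, hp⟩
  · exact hi
  · exfalso
    apply h
    rw [← hD.start x y, ← hD.end_eq x y, hp 0, hp 1]

theorem IsSimpleDrawing.left_mem {V : Type} {D : V → V → I → Pt} (hD : IsSimpleDrawing D)
    (x y : V) : D x x 0 ∈ range (D x y) := ⟨0, hD.start x y⟩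

theorem IsSimpleDrawing.right_mem {V : Type} {D : V → V → I → Pt} (hD : IsSimpleDrawing D)
    (x y : V) : D y y 0 ∈ range (D x y) := ⟨1, hD.end_eq x y⟩

/-- Curves with the same end positions have the same image. -/
theorem IsSimpleDrawing.range_eq {V : Type} {D : V → V → I → Pt} (hD : IsSimpleDrawing D)
    (x y x' y' : V) (hx : D x x 0 = D x' x' 0) (hy : D y y 0 = D y' y' 0) :
    range (D x y) = range (D x' y') := by
  by_cases h : D x x 0 = D y y 0
  · rw [hD.range_const x y h, hD.range_const x' y' (by rw [← hx, ← hy, h]), hx]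
  · by_contra hne
    have := hD.cross x y x' y' hne
    apply h
    apply this
    · exact ⟨hD.left_mem x y, by rw [hx]; exact hD.left_mem x' y'⟩
    · exact ⟨hD.right_mem x y, by rw [hy]; exact hD.right_mem x' y'⟩

/-- A continuous bijective self-map of `I` fixes or exchanges the end points. -/
theorem ends_of_inj {f : I → I} (hc : Continuous f) (hi : Function.Injective f)
    (hs : Function.Surjective f) : (f 0 = 0 ∧ f 1 = 1) ∨ (f 0 = 1 ∧ f 1 = 0) := by
  obtain ⟨a, ha⟩ := hs 0
  obtain ⟨b, hb⟩ := hs 1
  rcases hc.strictMono_of_inj_boundedOrder' hi with h | h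
  · left
    have h1 : f 0 ≤ f a := h.monotone unitInterval.nonneg'
    have h2 : f b ≤ f 1 := h.monotone unitInterval.le_one'
    rw [ha] at h1
    rw [hb] at h2
    exact ⟨le_antisymm h1 unitInterval.nonneg', le_antisymm unitInterval.le_one' h2⟩
  · right
    have h1 : f b ≤ f 0 := h.antitone unitInterval.nonneg'
    have h2 : f 1 ≤ f a := h.antitone unitInterval.le_one'
    rw [ha] at h2
    rw [hb] at h1
    exact ⟨le_antisymm unitInterval.le_one' h1, le_antisymm h2 unitInterval.nonneg'⟩

/-- Two injective curves with the same image have the same pair of end points. -/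
theorem ends_of_range {c d : I → Pt} (hc : Continuous c) (hci : Function.Injective c)
    (hd : Continuous d) (hdi : Function.Injective d) (h : range c = range d) :
    (c 0 = d 0 ∧ c 1 = d 1) ∨ (c 0 = d 1 ∧ c 1 = d 0) := by
  have hex : ∀ t : I, ∃ s : I, d s = c t := by
    intro t
    have : c t ∈ range d := by rw [← h]; exact ⟨t, rfl⟩
    exact this
  choose f hf using hex
  have hemb : Topology.IsClosedEmbedding d := hd.isClosedEmbedding hdi
  have hfc : Continuous f := by
    rw [hemb.isEmbedding.continuous_iff]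
    have : d ∘ f = c := funext hf
    rw [this]; exact hc
  have hfi : Function.Injective f := by
    intro a b hab
    apply hci
    rw [← hf a, ← hf b, hab]
  have hfs : Function.Surjective f := by
    intro s
    have : d s ∈ range c := by rw [h]; exact ⟨s, rfl⟩
    obtain ⟨t, ht⟩ := this
    refine ⟨t, hdi ?_⟩
    rw [hf t, ht]
  rcases ends_of_inj hfc hfi hfs with ⟨h0, h1⟩ | ⟨h0, h1⟩
  · left
    rw [← hf 0, ← hf 1, h0, h1]
    exact ⟨rfl, rfl⟩
  · right
    rw [← hf 0, ← hf 1, h0, h1]
    exact ⟨rfl, rfl⟩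

/-- Curves with the same image have the same pair of end positions. -/
theorem IsSimpleDrawing.ends_eq {V : Type} {D : V → V → I → Pt} (hD : IsSimpleDrawing D)
    (x y z w : V) (h : D x x 0 ≠ D y y 0) (hr : range (D x y) = range (D z w)) :
    (D x x 0 = D z z 0 ∧ D y y 0 = D w w 0) ∨ (D x x 0 = D w w 0 ∧ D y y 0 = D z z 0) := by
  have hzw : D z z 0 ≠ D w w 0 := by
    intro hzw
    rw [hD.range_const z w hzw] at hr
    apply h
    have h1 : D x x 0 ∈ ({D z z 0} : Set Pt) := by rw [← hr]; exact hD.left_mem x y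
    have h2 : D y y 0 ∈ ({D z z 0} : Set Pt) := by rw [← hr]; exact hD.right_mem x y
    rw [mem_singleton_iff] at h1 h2
    rw [h1, h2]
  have := ends_of_range (hD.curve x y).1 (hD.inj x y h) (hD.curve z w).1 (hD.inj z w hzw) hr
  rwa [hD.start x y, hD.start z w, hD.end_eq x y, hD.end_eq z w] at this

/-- No other vertex is on an edge. -/
theorem IsSimpleDrawing.vert {V : Type} {D : V → V → I → Pt} (hD : IsSimpleDrawing D)
    (x y z : V) (h : D z z 0 ∈ range (D x y)) : D z z 0 = D x x 0 ∨ D z z 0 = D y y 0 := by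
  by_contra hcon
  push Not at hcon
  obtain ⟨h1, h2⟩ := hcon
  have hxy : D x x 0 ≠ D y y 0 := by
    intro hxy
    rw [hD.range_const x y hxy, mem_singleton_iff] at h
    exact h1 h
  by_cases hr : range (D x y) = range (D x z)
  · rcases hD.ends_eq x y x z hxy hr with ⟨_, h3⟩ | ⟨h3, _⟩
    · exact h2 h3.symm
    · exact h1 h3.symm
  · have := hD.cross x y x z hr
    apply h1
    exact this ⟨h, hD.right_mem x z⟩ ⟨hD.left_mem x y, hD.left_mem x z⟩

/-- The pull-back of a simple drawing. -/
theorem IsSimpleDrawing.comap {V V' : Type*} {D : V → V → I → Pt} (hD : IsSimpleDrawing D)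
    (f : V' → V) : IsSimpleDrawing fun x y => D (f x) (f y) where
  curve _ _ := hD.curve _ _
  symm _ _ _ := hD.symm _ _ _
  diag _ := hD.diag _
  start _ _ := hD.start _ _
  cross _ _ _ _ := hD.cross _ _ _ _

theorem IsSimpleDrawing.psym {V : Type*} {D : V → V → I → Pt} (hD : IsSimpleDrawing D) :
    (∀ x y z w, Meets D x y z w ↔ Meets D y x z w) ∧
      (∀ x y z w, Meets D x y z w ↔ Meets D z w x y) := by
  have hr : ∀ x y, range (D x y) = range (D y x) := by
    intro x y
    ext p
    constructor
    · rintro ⟨t, rfl⟩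
      exact ⟨unitInterval.symm t, (hD.symm x y t).symm⟩
    · rintro ⟨t, rfl⟩
      exact ⟨unitInterval.symm t, (hD.symm y x t).symm⟩
  constructor
  · intro x y z w
    unfold Meets
    rw [hr x y]
  · intro x y z w
    unfold Meets
    rw [inter_comm]

/-- Two curves with a common end position meet. -/
theorem IsSimpleDrawing.meets_of_left {V : Type} {D : V → V → I → Pt} (hD : IsSimpleDrawing D)
    (x y z w : V) (h : D x x 0 = D z z 0) : Meets D x y z w :=
  ⟨D x x 0, hD.left_mem x y, by rw [h]; exact hD.left_mem z w⟩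

/-- Whether two curves meet depends only on the end positions. -/
theorem IsSimpleDrawing.meets_congr {V : Type} {D : V → V → I → Pt} (hD : IsSimpleDrawing D)
    {x y z w x' y' z' w' : V} (hx : D x x 0 = D x' x' 0) (hy : D y y 0 = D y' y' 0)
    (hz : D z z 0 = D z' z' 0) (hw : D w w 0 = D w' w' 0) :
    Meets D x y z w ↔ Meets D x' y' z' w' := by
  unfold Meets
  rw [hD.range_eq x y x' y' hx hy, hD.range_eq z w z' w' hz hw]

end Pool.Agent.MP_a0a8d4_co
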