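import Pool.Agent.MP_a0a8d4_co.Basic

set_option autoImplicit false

/-!
# MP_a0a8d4_co: module OFF, side vectors along the edges at a vertex
-/

namespace Pool.Agent.MP_a0a8d4_co

open MeasureTheory Set Filter
open scoped unitInterval Topology

namespace OffAux

theorem mem_segs_iff {l : List Pt} {e : Pt × Pt} :
    e ∈ segs l ↔ ∃ (i : ℕ) (h : i + 1 < l.length), e = (l[i], l[i + 1]) := by
  unfold segs
  rw [List.mem_iff_getElem]
  constructor
  · rintro ⟨i, hi, rfl⟩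
    rw [List.length_zip, List.length_tail] at hi
    refine ⟨i, by omega, ?_⟩
    rw [List.getElem_zip, List.getElem_tail]
  · rintro ⟨i, hi, rfl⟩
    refine ⟨i, ?_, ?_⟩
    · rw [List.length_zip, List.length_tail]; omega
    · rw [List.getElem_zip, List.getElem_tail]

theorem segs_fst_inj {l : List Pt} (hl : l.Nodup) {e f : Pt × Pt} (he : e ∈ segs l)
    (hf : f ∈ segs l) (h : e.1 = f.1) : e = f := by
  obtain ⟨i, hi, rfl⟩ := mem_segs_iff.1 he
  obtain ⟨j, hj, rfl⟩ := mem_segs_iff.1 hf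
  have h1 : i = j := (hl.getElem_inj_iff).1 h
  subst h1
  rfl

theorem segs_snd_inj {l : List Pt} (hl : l.Nodup) {e f : Pt × Pt} (he : e ∈ segs l)
    (hf : f ∈ segs l) (h : e.2 = f.2) : e = f := by
  obtain ⟨i, hi, rfl⟩ := mem_segs_iff.1 he
  obtain ⟨j, hj, rfl⟩ := mem_segs_iff.1 hf
  have h1 : i + 1 = j + 1 := (hl.getElem_inj_iff).1 h
  have h2 : i = j := by omega
  subst h2
  rfl

theorem segs_snd_ne_head {l : List Pt} (hl : l.Nodup) {p : Pt} (hp : l.head? = some p)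
    {e : Pt × Pt} (he : e ∈ segs l) : e.2 ≠ p := by
  obtain ⟨i, hi, rfl⟩ := mem_segs_iff.1 he
  have h0 : l[0] = p := by
    rw [List.head?_eq_getElem?, List.getElem?_eq_getElem (by omega)] at hp
    exact Option.some.inj hp
  rw [← h0]
  intro h
  have := (hl.getElem_inj_iff).1 h
  omega

theorem segs_fst_ne_last {l : List Pt} (hl : l.Nodup) {p : Pt} (hp : l.getLast? = some p)
    {e : Pt × Pt} (he : e ∈ segs l) : e.1 ≠ p := by
  obtain ⟨i, hi, rfl⟩ := mem_segs_iff.1 he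
  have h0 : l[l.length - 1] = p := by
    rw [List.getLast?_eq_getElem?, List.getElem?_eq_getElem (by omega)] at hp
    exact Option.some.inj hp
  rw [← h0]
  intro h
  have := (hl.getElem_inj_iff).1 h
  omega

theorem segs_consec_ne {l : List Pt} (hl : l.Nodup) {e f : Pt × Pt} (he : e ∈ segs l)
    (hf : f ∈ segs l) (h : e.2 = f.1) : e.1 ≠ f.2 := by
  obtain ⟨i, hi, rfl⟩ := mem_segs_iff.1 he
  obtain ⟨j, hj, rfl⟩ := mem_segs_iff.1 hf
  have h1 : i + 1 = j := (hl.getElem_inj_iff).1 h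
  intro h2
  have := (hl.getElem_inj_iff).1 h2
  omega

theorem exists_seg_snd {l : List Pt} {p a : Pt} (hp : l.head? = some p) (ha : a ∈ l) (hap : a ≠ p) :
    ∃ e ∈ segs l, e.2 = a := by
  obtain ⟨i, hi, rfl⟩ := List.mem_iff_getElem.1 ha
  have h0 : l[0] = p := by
    rw [List.head?_eq_getElem?, List.getElem?_eq_getElem (by omega)] at hp
    exact Option.some.inj hp
  have hi0 : i ≠ 0 := by
    rintro rfl
    exact hap h0
  obtain ⟨j, rfl⟩ := Nat.exists_eq_succ_of_ne_zero hi0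
  exact ⟨_, mem_segs_iff.2 ⟨j, hi, rfl⟩, rfl⟩

theorem exists_seg_fst {l : List Pt} {p a : Pt} (hp : l.getLast? = some p) (ha : a ∈ l)
    (hap : a ≠ p) : ∃ e ∈ segs l, e.1 = a := by
  obtain ⟨i, hi, rfl⟩ := List.mem_iff_getElem.1 ha
  have h0 : l[l.length - 1] = p := by
    rw [List.getLast?_eq_getElem?, List.getElem?_eq_getElem (by omega)] at hp
    exact Option.some.inj hp
  have hi0 : i + 1 < l.length := by
    by_contra h
    have : i = l.length - 1 := by omega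
    subst this
    exact hap h0
  exact ⟨_, mem_segs_iff.2 ⟨i, hi0, rfl⟩, rfl⟩

theorem pts_finite {V : Type} [Finite V] (N : Nice V) : N.pts.Finite := by
  have h : N.pts ⊆ ⋃ x, ⋃ y, {a | a ∈ N.path x y} := by
    rintro a ⟨x, y, _, ha⟩
    exact mem_iUnion.2 ⟨x, mem_iUnion.2 ⟨y, ha⟩⟩
  exact (finite_iUnion fun x => finite_iUnion fun y => List.finite_toSet _).subset h

/-- A vector in an open cone off finitely many lines. -/
theorem exists_cone (d₁ d₂ : Pt) (hd : det2 d₁ d₂ ≠ 0) (s : ℝ) (hs : s = 1 ∨ s = -1) (F : Set Pt)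
    (hF : F.Finite) (hF0 : ∀ b ∈ F, b ≠ 0) :
    ∃ u : Pt, 0 < s * det2 d₁ u ∧ 0 < s * det2 d₂ u ∧ ∀ b ∈ F, det2 b u ≠ 0 := by
  obtain ⟨t, ht, ht'⟩ : ∃ t ∈ Ioi (0 : ℝ), t ∉ (fun b => det2 b d₁ / det2 b d₂) '' F := by
    by_contra hcon
    push Not at hcon
    exact (Ioi_infinite (0 : ℝ)) ((hF.image _).subset hcon)
  have hs2 : s * s = 1 := by rcases hs with h | h <;> rw [h] <;> norm_num
  have hΔ : 0 < det2 d₁ d₂ * det2 d₁ d₂ := mul_self_pos.2 hd
  refine ⟨(s * (-(det2 d₁ d₂) * d₁.1 + t * det2 d₁ d₂ * d₂.1),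
    s * (-(det2 d₁ d₂) * d₁.2 + t * det2 d₁ d₂ * d₂.2)), ?_, ?_, ?_⟩
  · have h1 : s * det2 d₁ (s * (-(det2 d₁ d₂) * d₁.1 + t * det2 d₁ d₂ * d₂.1),
        s * (-(det2 d₁ d₂) * d₁.2 + t * det2 d₁ d₂ * d₂.2)) =
        (s * s) * (t * (det2 d₁ d₂ * det2 d₁ d₂)) := by
      unfold det2; ring
    rw [h1, hs2, one_mul]
    exact mul_pos ht hΔ
  · have h1 : s * det2 d₂ (s * (-(det2 d₁ d₂) * d₁.1 + t * det2 d₁ d₂ * d₂.1),
        s * (-(det2 d₁ d₂) * d₁.2 + t * det2 d₁ d₂ * d₂.2)) =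
        (s * s) * (det2 d₁ d₂ * det2 d₁ d₂) := by
      unfold det2; ring
    rw [h1, hs2, one_mul]
    exact hΔ
  · intro b hb h0
    have h1 : det2 b (s * (-(det2 d₁ d₂) * d₁.1 + t * det2 d₁ d₂ * d₂.1),
        s * (-(det2 d₁ d₂) * d₁.2 + t * det2 d₁ d₂ * d₂.2)) =
        s * det2 d₁ d₂ * (t * det2 b d₂ - det2 b d₁) := by
      unfold det2; ring
    rw [h1] at h0
    have hs0 : s ≠ 0 := by rcases hs with h | h <;> rw [h] <;> norm_num
    have h2 : t * det2 b d₂ - det2 b d₁ = 0 := by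
      rcases mul_eq_zero.1 h0 with h | h
      · exact absurd h (mul_ne_zero hs0 hd)
      · exact h
    by_cases h3 : det2 b d₂ = 0
    · have h4 : det2 b d₁ = 0 := by rw [h3] at h2; linarith
      apply hF0 b hb
      have h5 : b.1 * det2 d₁ d₂ = 0 := by
        have : b.1 * det2 d₁ d₂ = d₁.1 * det2 b d₂ - d₂.1 * det2 b d₁ := by unfold det2; ring
        rw [this, h3, h4]; ring
      have h6 : b.2 * det2 d₁ d₂ = 0 := by
        have : b.2 * det2 d₁ d₂ = d₁.2 * det2 b d₂ - d₂.2 * det2 b d₁ := by unfold det2; ring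
        rw [this, h3, h4]; ring
      exact Prod.ext ((mul_eq_zero.1 h5).resolve_right hd) ((mul_eq_zero.1 h6).resolve_right hd)
    · apply ht'
      refine ⟨b, hb, ?_⟩
      show det2 b d₁ / det2 b d₂ = t
      rw [div_eq_iff h3]
      linarith

end OffAux

open OffAux

theorem Nice.offset {V : Type} [Finite V] (N : Nice V) (x : V) (v : Pt)
    (hv : ∀ a ∈ N.pts, a ≠ N.pos x → det2 (a - N.pos x) v ≠ 0) :
    ∃ (u : Pt → Pt) (s : V → ℝ), u (N.pos x) = v ∧ (∀ z, z ≠ x → u (N.pos z) = 0) ∧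
      (∀ z, z ≠ x → s z = 1 ∨ s z = -1) ∧
      (∀ z, z ≠ x → ∀ e ∈ segs (N.path x z), 0 < s z * det2 (e.2 - e.1) (u e.1) ∧
        (e.2 = N.pos z ∨ 0 < s z * det2 (e.2 - e.1) (u e.2))) ∧
      (∀ z, z ≠ x → ∀ a ∈ N.path x z, a ≠ N.pos z → ∀ b ∈ N.pts, b ≠ a →
        det2 (b - a) (u a) ≠ 0) := by
  classical
  have hnd : ∀ z, z ≠ x → (N.path x z).Nodup := fun z hz => N.nodup x z (Ne.symm hz)
  have hhead : ∀ z, z ≠ x → (N.path x z).head? = some (N.pos x) := fun z hz =>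
    N.head x z (Ne.symm hz)
  have hlast : ∀ z, z ≠ x → (N.path x z).getLast? = some (N.pos z) := fun z hz =>
    N.last x z (Ne.symm hz)
  have hpts : ∀ z, z ≠ x → ∀ a ∈ N.path x z, a ∈ N.pts := fun z hz a ha =>
    ⟨x, z, Ne.symm hz, ha⟩
  have hlast_mem : ∀ z, z ≠ x → N.pos z ∈ N.path x z := fun z hz =>
    List.mem_of_getLast? (hlast z hz)
  -- a bend belongs to a single edge
  have huniq : ∀ z, z ≠ x → ∀ z', z' ≠ x → ∀ a, a ∈ N.path x z → a ∈ N.path x z' →
      a ≠ N.pos x → z = z' := by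
    intro z hz z' hz' a ha ha' hax
    by_contra hne
    obtain ⟨w, hw, h1, h2⟩ := N.share x z x z' (Ne.symm hz) (Ne.symm hz') (fun h => hne h.2)
      (fun h => hz' h.1.symm) a ha ha'
    rcases h1 with rfl | rfl
    · exact hax hw
    · rcases h2 with rfl | rfl
      · exact hz rfl
      · exact hne rfl
  let s : V → ℝ := fun z =>
    if ∃ e ∈ segs (N.path x z), e.1 = N.pos x ∧ 0 < det2 (e.2 - N.pos x) v then 1 else -1
  have hs : ∀ z, s z = 1 ∨ s z = -1 := by
    intro z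
    by_cases h : ∃ e ∈ segs (N.path x z), e.1 = N.pos x ∧ 0 < det2 (e.2 - N.pos x) v
    · exact Or.inl (if_pos h)
    · exact Or.inr (if_neg h)
  -- existence of the side vectors
  have hex : ∀ a, ∃ u' : Pt, ∀ z, z ≠ x → a ∈ N.path x z → a ≠ N.pos x → a ≠ N.pos z →
      (∀ e ∈ segs (N.path x z), (e.1 = a → 0 < s z * det2 (e.2 - e.1) u') ∧
        (e.2 = a → 0 < s z * det2 (e.2 - e.1) u')) ∧
      ∀ b ∈ N.pts, b ≠ a → det2 (b - a) u' ≠ 0 := by
    intro a
    by_cases h : ∃ z, z ≠ x ∧ a ∈ N.path x z ∧ a ≠ N.pos x ∧ a ≠ N.pos z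
    · obtain ⟨z, hz, ha, hax, haz⟩ := h
      obtain ⟨e, he, hea⟩ := exists_seg_snd (hhead z hz) ha hax
      obtain ⟨f, hf, hfa⟩ := exists_seg_fst (hlast z hz) ha haz
      have hef : e.1 ≠ f.2 := segs_consec_ne (hnd z hz) he hf (hea.trans hfa.symm)
      have hae : e.1 ≠ a := by
        rw [← hea]; exact segs_ne (hnd z hz) he
      have haf : a ≠ f.2 := by
        rw [← hfa]; exact segs_ne (hnd z hz) hf
      have hor : orient e.1 a f.2 ≠ 0 :=
        N.gp _ (hpts z hz _ (segs_mem he).1) _ (hpts z hz _ ha) _ (hpts z hz _ (segs_mem hf).2)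
          hae haf hef
      have hdet : det2 (e.2 - e.1) (f.2 - f.1) ≠ 0 := by
        rw [hea, hfa]
        intro h0
        apply hor
        rw [← h0]
        simp only [orient, det2, Prod.fst_sub, Prod.snd_sub]
        ring
      obtain ⟨u', h1, h2, h3⟩ := exists_cone (e.2 - e.1) (f.2 - f.1) hdet (s z) (hs z)
        ((fun b => b - a) '' (N.pts \ {a})) (((pts_finite N).subset sdiff_subset).image _) (by
          rintro _ ⟨b, hb, rfl⟩
          exact sub_ne_zero.2 fun h => hb.2 h)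
      refine ⟨u', fun z' hz' ha' _ _ => ?_⟩
      obtain rfl := huniq z hz z' hz' a ha ha' hax
      refine ⟨fun e' he' => ⟨fun h4 => ?_, fun h4 => ?_⟩, fun b hb hba => ?_⟩
      · rw [segs_fst_inj (hnd z hz) he' hf (h4.trans hfa.symm)]
        exact h2
      · rw [segs_snd_inj (hnd z hz) he' he (h4.trans hea.symm)]
        exact h1
      · exact h3 _ ⟨b, ⟨hb, hba⟩, rfl⟩
    · refine ⟨0, fun z hz ha hax haz => absurd ⟨z, hz, ha, hax, haz⟩ h⟩
  choose u₀ hu₀ using hex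
  let u : Pt → Pt := fun a =>
    if a = N.pos x then v else if ∃ z, z ≠ x ∧ a = N.pos z then 0 else u₀ a
  have hux : u (N.pos x) = v := if_pos rfl
  have huz : ∀ z, z ≠ x → u (N.pos z) = 0 := by
    intro z hz
    have h1 : N.pos z ≠ N.pos x := fun h => hz (N.pos_inj h)
    show (if N.pos z = N.pos x then v else if ∃ z', z' ≠ x ∧ N.pos z = N.pos z' then 0
      else u₀ (N.pos z)) = 0
    rw [if_neg h1, if_pos ⟨z, hz, rfl⟩]
  have hub : ∀ z, z ≠ x → ∀ a ∈ N.path x z, a ≠ N.pos x → a ≠ N.pos z → u a = u₀ a := by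
    intro z hz a ha hax haz
    have h1 : ¬ ∃ z', z' ≠ x ∧ a = N.pos z' := by
      rintro ⟨z', hz', rfl⟩
      obtain rfl := huniq z hz z' hz' _ ha (hlast_mem z' hz') hax
      exact haz rfl
    show (if a = N.pos x then v else if ∃ z', z' ≠ x ∧ a = N.pos z' then 0 else u₀ a) = u₀ a
    rw [if_neg hax, if_neg h1]
  refine ⟨u, s, hux, huz, fun z _ => hs z, ?_, ?_⟩
  · intro z hz e he
    constructor
    · by_cases h1 : e.1 = N.pos x
      · rw [h1, hux]
        have h2 : det2 (e.2 - N.pos x) v ≠ 0 := by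
          refine hv _ (hpts z hz _ (segs_mem he).2) ?_
          rw [← h1]
          exact (segs_ne (hnd z hz) he).symm
        by_cases h3 : 0 < det2 (e.2 - N.pos x) v
        · have : s z = 1 := if_pos ⟨e, he, h1, h3⟩
          rw [this, one_mul]; exact h3
        · have : s z = -1 := by
            refine if_neg ?_
            rintro ⟨f, hf, hf1, hf2⟩
            rw [segs_fst_inj (hnd z hz) hf he (hf1.trans h1.symm)] at hf2
            exact h3 hf2
          rw [this]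
          have : det2 (e.2 - N.pos x) v < 0 := lt_of_le_of_ne (not_lt.1 h3) h2
          linarith
      · have h2 : e.1 ≠ N.pos z := segs_fst_ne_last (hnd z hz) (hlast z hz) he
        rw [hub z hz e.1 (segs_mem he).1 h1 h2]
        exact ((hu₀ e.1 z hz (segs_mem he).1 h1 h2).1 e he).1 rfl
    · by_cases h1 : e.2 = N.pos z
      · exact Or.inl h1
      · right
        have h2 : e.2 ≠ N.pos x := segs_snd_ne_head (hnd z hz) (hhead z hz) he
        rw [hub z hz e.2 (segs_mem he).2 h2 h1]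
        exact ((hu₀ e.2 z hz (segs_mem he).2 h2 h1).1 e he).2 rfl
  · intro z hz a ha haz b hb hba
    by_cases h1 : a = N.pos x
    · rw [h1, hux]
      exact hv b hb (h1 ▸ hba)
    · rw [hub z hz a ha h1 haz]
      exact (hu₀ a z hz ha h1 haz).2 b hb hba

end Pool.Agent.MP_a0a8d4_co
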