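import Pool.Agent.MP_a0a8d4_co.DupC
import Pool.Agent.MP_a0a8d4_co.Balance
import Pool.Agent.MP_a0a8d4_co.Offset

set_option autoImplicit false

/-!
# MP_a0a8d4_co: the one-twin lemma
-/

namespace Pool.Agent.MP_a0a8d4_co

open MeasureTheory Set Filter
open scoped unitInterval Topology

namespace Dup

theorem sign_pair : ∀ a b c : SignType, a ≠ 0 → b ≠ 0 → c ≠ 0 →
    (if a = c ∧ b = c then (1 : ℤ) else 0) + (if b = -c ∧ a = -c then (1 : ℤ) else 0)
      = if a = b then 1 else 0 := by decide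

theorem sign_val : ∀ a b : SignType, a ≠ 0 → b ≠ 0 →
    2 * (if a = b then (1 : ℤ) else 0) = 1 + (a : ℤ) * (b : ℤ) := by decide

end Dup

open Dup in
theorem Nice.dup {V : Type} [Fintype V] (N : Nice V) (x : V) (ω : V → ℝ) (M : ℝ) (hM : 0 ≤ M)
    (hω0 : ∀ z, 0 ≤ ω z) (hω : ∀ z, ω z ≤ M) :
    ∃ N' : Nice (Option V),
      (∀ a b c d, [a, b, c, d].Nodup →
        (N'.cr (some a) (some b) (some c) (some d) ↔ N.cr a b c d)) ∧
      (∀ a b c, [x, a, b, c].Nodup →
        (N'.cr none (some a) (some b) (some c) ↔ N.cr x a b c)) ∧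
      (∀ b c, [x, b, c].Nodup → ¬ N'.cr none (some x) (some b) (some c)) ∧
      4 * ∑ z, ∑ w, ind (z ≠ x ∧ w ≠ x ∧ z ≠ w) *
        (ω z * ω w * ind (N'.cr none (some z) (some x) (some w)))
          ≤ (∑ z, ind (z ≠ x) * ω z) ^ 2 + M ^ 2 := by
  classical
  have hfirst : ∀ z : {z : V // z ≠ x}, ∃ b, (N.pos x, b) ∈ segs (N.path x z) := fun z =>
    exists_first (N.head x z (Ne.symm z.2)) (N.last x z (Ne.symm z.2))
      (fun h => z.2 (N.pos_inj h).symm)
  choose b hb using hfirst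
  have hbX : ∀ z : {z : V // z ≠ x}, b z ≠ N.pos x := fun z =>
    segs_head_ne (N.nodup x z (Ne.symm z.2)) (N.head x z (Ne.symm z.2)) (hb z)
  have hbm : ∀ z : {z : V // z ≠ x}, b z ∈ N.path x z := fun z => (segs_mem (hb z)).2
  have hbp : ∀ z : {z : V // z ≠ x}, b z ∈ N.pts := fun z => ⟨x, z, Ne.symm z.2, hbm z⟩
  have hbb : ∀ z w : {z : V // z ≠ x}, z ≠ w → b z ≠ b w := by
    intro z w hzw h
    have h1 := hbm w
    rw [← h] at h1
    have hzw' : (z : V) ≠ w := fun h => hzw (Subtype.ext h)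
    rcases DD.common z.2 (Ne.symm w.2) (hbm z) h1 (fun h => hzw' h.2)
      (fun h => w.2 h.1.symm) with h2 | h2
    · exact hbX z h2.1
    · rcases h2.2 with h3 | h3
      · exact z.2 h3
      · exact hzw' h3
  set d : {z : V // z ≠ x} → Pt := fun z => b z - N.pos x with hd
  have hd0 : ∀ i, d i ≠ 0 := fun i => sub_ne_zero.2 (hbX i)
  have hdd : ∀ i j, i ≠ j → det2 (d i) (d j) ≠ 0 := by
    intro i j hij
    have := N.gp (N.pos x) (DD.X_pts i.2) (b i) (hbp i) (b j) (hbp j) (hbX i).symm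
      (hbb i j hij) (hbX j).symm
    exact this
  set F : Finset Pt := insert ((1, 0) : Pt)
    (((pts_finite N).toFinset.filter (fun a => a ≠ N.pos x)).image (fun a => a - N.pos x)) with hF
  have hFne : ∀ u ∈ F, u ≠ 0 := by
    intro u hu
    rw [hF, Finset.mem_insert, Finset.mem_image] at hu
    rcases hu with h | ⟨a, ha, rfl⟩
    · rw [h]
      intro h0
      have := congrArg Prod.fst h0
      simp at this
    · rw [Finset.mem_filter] at ha
      exact sub_ne_zero.2 ha.2
  obtain ⟨v, hv1, hv2, hv3⟩ := balance d hd0 hdd (fun i => ω i) M hM (fun i => hω0 i)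
    (fun i => hω i) F hFne
  have hv0 : v ≠ 0 := by
    intro h
    have h1 := hv2 (1, 0) (by rw [hF]; exact Finset.mem_insert_self _ _)
    rw [h] at h1
    simp [det2] at h1
  obtain ⟨u, s, hu, huz, hs, hseg, hgen⟩ := N.offset x v (by
    intro a ha hne
    apply hv2
    rw [hF]
    apply Finset.mem_insert_of_mem
    rw [Finset.mem_image]
    refine ⟨a, ?_, rfl⟩
    rw [Finset.mem_filter]
    exact ⟨(pts_finite N).mem_toFinset.2 ha, hne⟩)
  have hfin : N.pts.Finite := Dup.pts_finite N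
  obtain ⟨τ, ⟨hE1, hE2, hE3⟩, hτ⟩ := (((ev_E1 N.pts hfin N.gp u).and
    ((ev_E2 N.pts hfin u).and (ev_E3 N.pts hfin u))).and self_mem_nhdsWithin).exists
  let D : DD N x :=
    { u := u
      s := s
      τ := τ
      hτ := hτ
      hv := by rw [hu]; exact hv0
      huz := huz
      hseg := hseg
      hgen := hgen
      E1 := hE1
      E2 := hE2
      E3 := hE3 }
  have hDu : D.u (N.pos x) = v := hu
  refine ⟨D.drawing, fun a b c d _ => Iff.rfl, ?_, ?_, ?_⟩
  · intro a b' c h
    simp only [List.nodup_cons, List.mem_cons, List.not_mem_nil, or_false, not_or,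
      List.nodup_nil, and_true, not_false_eq_true] at h
    obtain ⟨⟨hxa, hxb, hxc⟩, ⟨hab, hac⟩, hbc⟩ := h
    have hax : a ≠ x := Ne.symm hxa
    constructor
    · rintro ⟨e, he, f, hf, hc⟩
      obtain ⟨p, q, hpq, rfl⟩ := D.seg_star hax he
      exact ⟨(p, q), hpq, f, hf, D.cr_star_old hax hbc (Ne.symm hxb) (Ne.symm hxc) hpq
        (show (f.1, f.2) ∈ segs (N.path b' c) from hf) hc⟩
    · rintro ⟨⟨p, q⟩, hpq, f, hf, hc⟩
      have hp := (segs_mem hpq).1
      have hq := (segs_mem hpq).2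
      obtain ⟨h1, h2, h3, h4, h5, h6⟩ := DD.cr_ne hc
      refine ⟨(D.phi p, D.phi q), ?_, f, hf, ?_⟩
      · show _ ∈ segs (D.star a)
        rw [D.star_ne hax, segs_map, List.mem_map]
        exact ⟨(p, q), hpq, rfl⟩
      · exact (D.crT (D.B_new hax hp) (D.B_new hax hq)
          (D.B_old (DD.mem_pts' hbc (segs_mem hf).1)) (D.B_old (DD.mem_pts' hbc (segs_mem hf).2))
          h1 h2 h3 h4 h5 h6).2 hc
  · intro b' c h
    simp only [List.nodup_cons, List.mem_cons, List.not_mem_nil, or_false, not_or,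
      List.nodup_nil, and_true, not_false_eq_true] at h
    rintro ⟨e, he, f, hf, hc⟩
    exact D.noCr_x b' c h.2 e he f hf hc
  · -- the count
    set sg : {z : V // z ≠ x} → SignType := fun z => SignType.sign (det2 (d z) v) with hsg
    set κ : {z : V // z ≠ x} → {z : V // z ≠ x} → SignType :=
      fun z w => SignType.sign (det2 (d z) (d w)) with hκ
    have hsg0 : ∀ z, sg z ≠ 0 := fun z => by
      rw [hsg, ne_eq, sign_eq_zero_iff]; exact hv1 z
    have hκ0 : ∀ z w, z ≠ w → κ z w ≠ 0 := fun z w h => by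
      rw [hκ, ne_eq, sign_eq_zero_iff]; exact hdd z w h
    have hκs : ∀ z w, κ w z = -κ z w := by
      intro z w
      simp only [hκ]
      rw [← Left.sign_neg]
      congr 1
      unfold det2
      ring
    have hcr : ∀ z w : {z : V // z ≠ x}, z ≠ w →
        (D.drawing.cr none (some z) (some x) (some w) ↔ sg z = κ z w ∧ sg w = κ z w) := by
      intro z w hzw
      have hzw' : (z : V) ≠ w := fun h => hzw (Subtype.ext h)
      have hcrit := D.crit z.2 w.2 hzw' (hb z) (hb w)
      rw [hDu] at hcrit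
      constructor
      · rintro ⟨e, he, f, hf, hc⟩
        obtain ⟨b1, d1, hb1, hd1, rfl, rfl⟩ := D.first_only z.2 w.2 hzw' he hf hc
        have h1 := segs_right_unique (N.nodup x z (Ne.symm z.2)) hb1 (hb z)
        have h2 := segs_right_unique (N.nodup x w (Ne.symm w.2)) hd1 (hb w)
        rw [h1, h2] at hc
        exact hcrit.1 hc
      · intro h
        refine ⟨(D.phi (N.pos x), D.phi (b z)), ?_, (N.pos x, b w), hb w, hcrit.2 h⟩
        show _ ∈ segs (D.star z)
        rw [D.star_ne z.2, segs_map, List.mem_map]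
        exact ⟨_, hb z, rfl⟩
    -- real valued data on `V`
    set t : V → ℝ := fun z => if h : z ≠ x then ((sg ⟨z, h⟩ : ℤ) : ℝ) else 0 with ht
    set ω' : V → ℝ := fun z => ind (z ≠ x) * ω z with hω'
    set T : V → V → ℝ := fun z w => ind (z ≠ x ∧ w ≠ x ∧ z ≠ w) *
        (ω z * ω w * ind (D.drawing.cr none (some z) (some x) (some w))) with hT
    have hpair : ∀ z w, 2 * (T z w + T w z) ≤ ω' z * ω' w + (ω' z * t z) * (ω' w * t w) := by
      intro z w
      by_cases hz : z ≠ x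
      swap
      · have h1 : T z w = 0 := by
          simp only [hT]
          rw [ind_false (fun h => hz h.1), zero_mul]
        have h2 : T w z = 0 := by
          simp only [hT]
          rw [ind_false (fun h => hz h.2.1), zero_mul]
        have h3 : ω' z = 0 := by
          simp only [hω']
          rw [ind_false hz, zero_mul]
        rw [h1, h2, h3]
        simp
      by_cases hw : w ≠ x
      swap
      · have h1 : T z w = 0 := by
          simp only [hT]
          rw [ind_false (fun h => hw h.2.1), zero_mul]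
        have h2 : T w z = 0 := by
          simp only [hT]
          rw [ind_false (fun h => hw h.1), zero_mul]
        have h3 : ω' w = 0 := by
          simp only [hω']
          rw [ind_false hw, zero_mul]
        rw [h1, h2, h3]
        simp
      have w1 : ω' z = ω z := by simp only [hω']; rw [ind_true hz, one_mul]
      have w2 : ω' w = ω w := by simp only [hω']; rw [ind_true hw, one_mul]
      by_cases hzw : z = w
      · subst hzw
        have h1 : T z z = 0 := by
          simp only [hT]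
          rw [ind_false (fun h => h.2.2 rfl), zero_mul]
        rw [h1]
        have h2 : 0 ≤ (ω' z * t z) * (ω' z * t z) := mul_self_nonneg _
        have h3 : 0 ≤ ω' z * ω' z := mul_self_nonneg _
        linarith
      have hne : (⟨z, hz⟩ : {z : V // z ≠ x}) ≠ ⟨w, hw⟩ := fun h => hzw (congrArg Subtype.val h)
      have c1 := hcr ⟨z, hz⟩ ⟨w, hw⟩ hne
      have c2 := hcr ⟨w, hw⟩ ⟨z, hz⟩ hne.symm
      simp only at c1 c2
      rw [hκs ⟨z, hz⟩ ⟨w, hw⟩] at c2
      have t1 : t z = ((sg ⟨z, hz⟩ : ℤ) : ℝ) := by simp only [ht]; rw [dif_pos hz]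
      have t2 : t w = ((sg ⟨w, hw⟩ : ℤ) : ℝ) := by simp only [ht]; rw [dif_pos hw]
      have hT1 : T z w = ω z * ω w *
          ((if sg ⟨z, hz⟩ = κ ⟨z, hz⟩ ⟨w, hw⟩ ∧ sg ⟨w, hw⟩ = κ ⟨z, hz⟩ ⟨w, hw⟩ then (1 : ℤ)
            else 0 : ℤ) : ℝ) := by
        simp only [hT]
        rw [ind_true ⟨hz, hw, hzw⟩, one_mul, ind_congr c1]
        congr 1
        unfold ind
        split_ifs <;> simp
      have hT2 : T w z = ω z * ω w *
          ((if sg ⟨w, hw⟩ = -κ ⟨z, hz⟩ ⟨w, hw⟩ ∧ sg ⟨z, hz⟩ = -κ ⟨z, hz⟩ ⟨w, hw⟩ then (1 : ℤ)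
            else 0 : ℤ) : ℝ) := by
        simp only [hT]
        rw [ind_true ⟨hw, hz, Ne.symm hzw⟩, one_mul, ind_congr c2, mul_comm (ω w) (ω z)]
        congr 1
        unfold ind
        split_ifs <;> simp
      have s1 := sign_pair (sg ⟨z, hz⟩) (sg ⟨w, hw⟩) (κ ⟨z, hz⟩ ⟨w, hw⟩) (hsg0 _) (hsg0 _)
        (hκ0 _ _ hne)
      have s2 := sign_val (sg ⟨z, hz⟩) (sg ⟨w, hw⟩) (hsg0 _) (hsg0 _)
      have s3 : (2 : ℝ) * (((if sg ⟨z, hz⟩ = κ ⟨z, hz⟩ ⟨w, hw⟩ ∧ sg ⟨w, hw⟩ = κ ⟨z, hz⟩ ⟨w, hw⟩ then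
            (1 : ℤ) else 0 : ℤ) : ℝ) +
          ((if sg ⟨w, hw⟩ = -κ ⟨z, hz⟩ ⟨w, hw⟩ ∧ sg ⟨z, hz⟩ = -κ ⟨z, hz⟩ ⟨w, hw⟩ then (1 : ℤ)
            else 0 : ℤ) : ℝ)) = 1 + ((sg ⟨z, hz⟩ : ℤ) : ℝ) * ((sg ⟨w, hw⟩ : ℤ) : ℝ) := by
        rw [← s1] at s2
        exact_mod_cast s2
      rw [w1, w2, t1, t2, hT1, hT2]
      apply le_of_eq
      linear_combination (ω z * ω w) * s3
    have hsum : 2 * (∑ z, ∑ w, (T z w + T w z)) ≤
        (∑ z, ω' z) ^ 2 + (∑ z, ω' z * t z) ^ 2 := by
      have e1 : (∑ z, ω' z) ^ 2 = ∑ z, ∑ w, ω' z * ω' w := by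
        rw [sq, Finset.sum_mul_sum]
      have e2 : (∑ z, ω' z * t z) ^ 2 = ∑ z, ∑ w, (ω' z * t z) * (ω' w * t w) := by
        rw [sq, Finset.sum_mul_sum]
      rw [e1, e2, ← Finset.sum_add_distrib, Finset.mul_sum]
      refine Finset.sum_le_sum fun z _ => ?_
      rw [← Finset.sum_add_distrib, Finset.mul_sum]
      exact Finset.sum_le_sum fun w _ => hpair z w
    have hsym : ∑ z, ∑ w, (T z w + T w z) = 2 * ∑ z, ∑ w, T z w := by
      have : ∑ z, ∑ w, T w z = ∑ z, ∑ w, T z w := Finset.sum_comm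
      simp only [Finset.sum_add_distrib]
      rw [this]
      ring
    have hbal : |∑ z, ω' z * t z| ≤ M := by
      have e : ∑ z, ω' z * t z = ∑ i : {z : V // z ≠ x},
          ω i * ((SignType.sign (det2 (d i) v) : SignType) : ℝ) := by
        rw [Fintype.sum_eq_add_sum_subtype_ne _ x]
        have h0 : ω' x * t x = 0 := by
          simp only [hω']
          rw [ind_false (fun h => h rfl)]
          ring
        rw [h0, zero_add]
        refine Finset.sum_congr rfl fun i _ => ?_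
        have h1 : ω' i = ω i := by simp only [hω']; rw [ind_true i.2, one_mul]
        have h2 : t i = ((sg i : ℤ) : ℝ) := by
          simp only [ht]
          rw [dif_pos i.2]
        rw [h1, h2]
        congr 1
        simp only [hsg]
        exact SignType.intCast_cast _
      rw [e]
      exact hv3
    have hb2 : (∑ z, ω' z * t z) ^ 2 ≤ M ^ 2 := by
      rw [← sq_abs]
      exact pow_le_pow_left₀ (abs_nonneg _) hbal 2
    rw [hsym] at hsum
    linarith

end Pool.Agent.MP_a0a8d4_co
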