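import Pool.Agent.MP_a0a8d4_co.Basic

set_option autoImplicit false

/-!
# MP_a0a8d4_co: the one-twin lemma, part A: perturbation
-/

namespace Pool.Agent.MP_a0a8d4_co

open MeasureTheory Set Filter
open scoped unitInterval Topology

namespace Dup

/-- The perturbed point. -/
noncomputable def psi (u : Pt → Pt) (τ : ℝ) (α : Bool) (p : Pt) : Pt :=
  (p.1 + (if α then τ else 0) * (u p).1, p.2 + (if α then τ else 0) * (u p).2)

theorem psi_false (u : Pt → Pt) (τ : ℝ) (p : Pt) : psi u τ false p = p := by
  simp [psi]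

theorem psi_zero (u : Pt → Pt) (α : Bool) (p : Pt) : psi u 0 α p = p := by
  simp [psi]

theorem psi_fix (u : Pt → Pt) (τ : ℝ) (α : Bool) (p : Pt) (h : u p = 0) : psi u τ α p = p := by
  simp [psi, h]

theorem psi_cont1 (u : Pt → Pt) (α : Bool) (p : Pt) : Continuous fun τ => (psi u τ α p).1 := by
  unfold psi
  cases α
  · simp only [Bool.false_eq_true, if_false, zero_mul, add_zero]
    exact continuous_const
  · simp only [if_true]
    fun_prop

theorem psi_cont2 (u : Pt → Pt) (α : Bool) (p : Pt) : Continuous fun τ => (psi u τ α p).2 := by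
  unfold psi
  cases α
  · simp only [Bool.false_eq_true, if_false, zero_mul, add_zero]
    exact continuous_const
  · simp only [if_true]
    fun_prop

theorem ev_sign {f : ℝ → ℝ} (hf : Continuous f) (h0 : f 0 ≠ 0) :
    ∀ᶠ τ in 𝓝[>] (0 : ℝ), SignType.sign (f τ) = SignType.sign (f 0) := by
  have h : ∀ᶠ τ in 𝓝 (0 : ℝ), SignType.sign (f τ) = SignType.sign (f 0) := by
    rcases lt_or_gt_of_ne h0 with h | h
    · have : ∀ᶠ τ in 𝓝 (0 : ℝ), f τ < 0 := hf.continuousAt.eventually_lt_const h
      filter_upwards [this] with τ hτ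
      rw [sign_neg hτ, sign_neg h]
    · have : ∀ᶠ τ in 𝓝 (0 : ℝ), 0 < f τ := hf.continuousAt.eventually_const_lt h
      filter_upwards [this] with τ hτ
      rw [sign_pos hτ, sign_pos h]
  exact h.filter_mono nhdsWithin_le_nhds

theorem ev_E1 (T : Set Pt) (hT : T.Finite) (hgp : GP T) (u : Pt → Pt) :
    ∀ᶠ τ in 𝓝[>] (0 : ℝ), ∀ p ∈ T, ∀ q ∈ T, ∀ r ∈ T, p ≠ q → q ≠ r → p ≠ r →
      ∀ α β γ : Bool, SignType.sign (orient (psi u τ α p) (psi u τ β q) (psi u τ γ r)) =
        SignType.sign (orient p q r) := by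
  rw [eventually_all_finite hT]
  intro p hp
  rw [eventually_all_finite hT]
  intro q hq
  rw [eventually_all_finite hT]
  intro r hr
  by_cases h : p ≠ q ∧ q ≠ r ∧ p ≠ r
  · have h1 : ∀ᶠ τ in 𝓝[>] (0 : ℝ), ∀ α β γ : Bool,
        SignType.sign (orient (psi u τ α p) (psi u τ β q) (psi u τ γ r)) =
        SignType.sign (orient p q r) := by
      rw [eventually_all]
      intro α
      rw [eventually_all]
      intro β
      rw [eventually_all]
      intro γ
      have hc : Continuous fun τ => orient (psi u τ α p) (psi u τ β q) (psi u τ γ r) := by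
        unfold orient
        exact (((psi_cont1 u β q).sub (psi_cont1 u α p)).mul
          ((psi_cont2 u γ r).sub (psi_cont2 u α p))).sub
          (((psi_cont2 u β q).sub (psi_cont2 u α p)).mul
          ((psi_cont1 u γ r).sub (psi_cont1 u α p)))
      have h0 := hgp p hp q hq r hr h.1 h.2.1 h.2.2
      have := ev_sign hc (by rw [psi_zero, psi_zero, psi_zero]; exact h0)
      rw [psi_zero, psi_zero, psi_zero] at this
      exact this
    exact h1.mono fun τ hτ _ _ _ => hτ
  · refine Eventually.of_forall fun τ h1 h2 h3 => absurd ⟨h1, h2, h3⟩ h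

theorem ev_E2 (T : Set Pt) (hT : T.Finite) (u : Pt → Pt) :
    ∀ᶠ τ in 𝓝[>] (0 : ℝ), ∀ p ∈ T, ∀ r ∈ T, det2 (r - p) (u p) ≠ 0 →
      ∀ α β : Bool, SignType.sign (det2 (psi u τ α r - psi u τ β p) (u p)) =
        SignType.sign (det2 (r - p) (u p)) := by
  rw [eventually_all_finite hT]
  intro p hp
  rw [eventually_all_finite hT]
  intro r hr
  by_cases h : det2 (r - p) (u p) ≠ 0
  · have h1 : ∀ᶠ τ in 𝓝[>] (0 : ℝ), ∀ α β : Bool,
        SignType.sign (det2 (psi u τ α r - psi u τ β p) (u p)) =
        SignType.sign (det2 (r - p) (u p)) := by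
      rw [eventually_all]
      intro α
      rw [eventually_all]
      intro β
      have hc : Continuous fun τ => det2 (psi u τ α r - psi u τ β p) (u p) := by
        unfold det2
        simp only [Prod.fst_sub, Prod.snd_sub]
        exact (((psi_cont1 u α r).sub (psi_cont1 u β p)).mul continuous_const).sub
          (((psi_cont2 u α r).sub (psi_cont2 u β p)).mul continuous_const)
      have := ev_sign hc (by rw [psi_zero, psi_zero]; exact h)
      rw [psi_zero, psi_zero] at this
      exact this
    exact h1.mono fun τ hτ _ => hτ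
  · exact Eventually.of_forall fun τ h1 => absurd h1 h

theorem ev_E3 (T : Set Pt) (hT : T.Finite) (u : Pt → Pt) :
    ∀ᶠ τ in 𝓝[>] (0 : ℝ), ∀ p ∈ T, ∀ q ∈ T, p ≠ q →
      ∀ α β : Bool, psi u τ α p ≠ psi u τ β q := by
  rw [eventually_all_finite hT]
  intro p hp
  rw [eventually_all_finite hT]
  intro q hq
  by_cases h : p ≠ q
  · have h1 : ∀ᶠ τ in 𝓝[>] (0 : ℝ), ∀ α β : Bool, psi u τ α p ≠ psi u τ β q := by
      rw [eventually_all]
      intro α
      rw [eventually_all]
      intro β
      have hc : Continuous fun τ => ((psi u τ α p).1 - (psi u τ β q).1) ^ 2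
          + ((psi u τ α p).2 - (psi u τ β q).2) ^ 2 :=
        (((psi_cont1 u α p).sub (psi_cont1 u β q)).pow 2).add
          (((psi_cont2 u α p).sub (psi_cont2 u β q)).pow 2)
      have h0 : (p.1 - q.1) ^ 2 + (p.2 - q.2) ^ 2 ≠ 0 := by
        intro h0
        apply h
        have h2 : (p.1 - q.1) ^ 2 = 0 := by nlinarith [sq_nonneg (p.1 - q.1), sq_nonneg (p.2 - q.2)]
        have h3 : (p.2 - q.2) ^ 2 = 0 := by nlinarith [sq_nonneg (p.1 - q.1), sq_nonneg (p.2 - q.2)]
        have h4 := pow_eq_zero_iff (two_ne_zero) |>.mp h2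
        have h5 := pow_eq_zero_iff (two_ne_zero) |>.mp h3
        ext
        · linarith
        · linarith
      have := ev_sign hc (by rw [psi_zero, psi_zero]; exact h0)
      filter_upwards [this] with τ hτ heq
      rw [heq] at hτ
      simp only [sub_self, ne_eq, OfNat.ofNat_ne_zero, not_false_eq_true, zero_pow, add_zero,
        sign_zero] at hτ
      rw [psi_zero, psi_zero] at hτ
      exact h0 (sign_eq_zero_iff.mp hτ.symm)
    exact h1.mono fun τ hτ _ => hτ
  · exact Eventually.of_forall fun τ h1 => absurd h1 h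

theorem pts_finite {V : Type} [Finite V] (N : Nice V) : N.pts.Finite := by
  have : N.pts ⊆ ⋃ x : V, ⋃ y : V, {a | a ∈ N.path x y} := by
    rintro a ⟨x, y, _, ha⟩
    simp only [mem_iUnion]
    exact ⟨x, y, ha⟩
  refine Set.Finite.subset ?_ this
  refine Set.finite_iUnion fun x => Set.finite_iUnion fun y => ?_
  exact List.finite_toSet _

/-! ### Lists -/

theorem segs_head_ne {l : List Pt} (hl : l.Nodup) {X : Pt} (hX : l.head? = some X)
    {e : Pt × Pt} (he : e ∈ segs l) : e.2 ≠ X := by
  cases l with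
  | nil => simp at hX
  | cons a l =>
    simp only [List.head?_cons, Option.some.injEq] at hX
    subst hX
    cases l with
    | nil => simp [segs] at he
    | cons b l =>
      intro h
      rw [segs_cons_cons, List.mem_cons] at he
      rcases he with rfl | he
      · simp only at h
        exact (List.nodup_cons.1 hl).1 (by rw [← h]; simp)
      · exact (List.nodup_cons.1 hl).1 (by rw [← h]; exact (segs_mem he).2)

theorem segs_right_unique {l : List Pt} (hl : l.Nodup) {a b d : Pt} (h1 : (a, b) ∈ segs l)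
    (h2 : (a, d) ∈ segs l) : b = d := by
  induction l with
  | nil => simp [segs] at h1
  | cons c l ih =>
    cases l with
    | nil => simp [segs] at h1
    | cons c' l =>
      rw [segs_cons_cons, List.mem_cons] at h1 h2
      have hc := (List.nodup_cons.1 hl).1
      rcases h1 with h1 | h1 <;> rcases h2 with h2 | h2
      · simp only [Prod.mk.injEq] at h1 h2
        rw [h1.2, h2.2]
      · simp only [Prod.mk.injEq] at h1
        exact absurd (segs_mem h2).1 (by rw [h1.1]; exact hc)
      · simp only [Prod.mk.injEq] at h2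
        exact absurd (segs_mem h1).1 (by rw [h2.1]; exact hc)
      · exact ih (List.nodup_cons.1 hl).2 h1 h2

theorem segs_left_unique {l : List Pt} (hl : l.Nodup) {a b c : Pt} (h1 : (a, b) ∈ segs l)
    (h2 : (c, b) ∈ segs l) : a = c := by
  have h1' : (b, a) ∈ segs l.reverse := segs_reverse.2 h1
  have h2' : (b, c) ∈ segs l.reverse := segs_reverse.2 h2
  exact segs_right_unique (List.nodup_reverse.2 hl) h1' h2'

theorem segs_last_ne {l : List Pt} (hl : l.Nodup) {Z : Pt} (hZ : l.getLast? = some Z)
    {e : Pt × Pt} (he : e ∈ segs l) : e.1 ≠ Z := by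
  have h1 : (e.2, e.1) ∈ segs l.reverse := segs_reverse.2 he
  have h2 : l.reverse.head? = some Z := by rw [List.head?_reverse]; exact hZ
  exact segs_head_ne (List.nodup_reverse.2 hl) h2 h1

theorem exists_first {l : List Pt} {X Z : Pt} (hX : l.head? = some X)
    (hZ : l.getLast? = some Z) (hXZ : X ≠ Z) : ∃ b, (X, b) ∈ segs l := by
  cases l with
  | nil => simp at hX
  | cons a l =>
    simp only [List.head?_cons, Option.some.injEq] at hX
    subst hX
    cases l with
    | nil =>
      simp only [List.getLast?_singleton, Option.some.injEq] at hZ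
      exact absurd hZ hXZ
    | cons b l => exact ⟨b, by rw [segs_cons_cons]; simp⟩

theorem mem_head {l : List Pt} {X : Pt} (hX : l.head? = some X) : X ∈ l := by
  cases l with
  | nil => simp at hX
  | cons a l =>
    simp only [List.head?_cons, Option.some.injEq] at hX
    subst hX
    simp

theorem mem_last {l : List Pt} {X : Pt} (hX : l.getLast? = some X) : X ∈ l :=
  List.mem_of_getLast? hX

/-! ### Crossing relations between polylines -/

/-- no crossing -/
def NoCr (l m : List Pt) : Prop := ∀ e ∈ segs l, ∀ f ∈ segs m, ¬ Cr e.1 e.2 f.1 f.2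

/-- at most one crossing -/
def AtMost (l m : List Pt) : Prop :=
  ∀ e ∈ segs l, ∀ f ∈ segs m, ∀ e' ∈ segs l, ∀ f' ∈ segs m,
      Cr e.1 e.2 f.1 f.2 → Cr e'.1 e'.2 f'.1 f'.2 → e = e' ∧ f = f'

theorem NoCr.comm {l m : List Pt} (h : NoCr l m) : NoCr m l :=
  fun e he f hf hc => h f hf e he (Cr_comm.1 hc)

theorem NoCr.rev_left {l m : List Pt} (h : NoCr l m) : NoCr l.reverse m := by
  rintro ⟨a, b⟩ he f hf hc
  exact h (b, a) (segs_reverse.1 he) f hf (Cr_swap_left.1 hc)

theorem NoCr.rev_right {l m : List Pt} (h : NoCr l m) : NoCr l m.reverse :=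
  h.comm.rev_left.comm

theorem NoCr.atMost {l m : List Pt} (h : NoCr l m) : AtMost l m :=
  fun e he f hf _ _ _ _ hc _ => absurd hc (h e he f hf)

theorem AtMost.comm {l m : List Pt} (h : AtMost l m) : AtMost m l :=
  fun e he f hf e' he' f' hf' hc hc' =>
    (h f hf e he f' hf' e' he' (Cr_comm.1 hc) (Cr_comm.1 hc')).symm

theorem AtMost.rev_left {l m : List Pt} (h : AtMost l m) : AtMost l.reverse m := by
  rintro ⟨a, b⟩ he f hf ⟨a', b'⟩ he' f' hf' hc hc'
  have := h (b, a) (segs_reverse.1 he) f hf (b', a') (segs_reverse.1 he') f' hf'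
    (Cr_swap_left.1 hc) (Cr_swap_left.1 hc')
  simp only [Prod.mk.injEq] at this ⊢
  exact ⟨⟨this.1.2, this.1.1⟩, this.2⟩

theorem AtMost.rev_right {l m : List Pt} (h : AtMost l m) : AtMost l m.reverse :=
  h.comm.rev_left.comm

theorem Cr_iff_sign (a b c d : Pt) : Cr a b c d ↔
    SignType.sign (orient a b c) * SignType.sign (orient a b d) = -1 ∧
      SignType.sign (orient c d a) * SignType.sign (orient c d b) = -1 := by
  unfold Cr
  rw [← sign_mul, ← sign_mul, sign_eq_neg_one_iff, sign_eq_neg_one_iff]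

end Dup

end Pool.Agent.MP_a0a8d4_co
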