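import Pool.Agent.MP_a0a8d4_co.Dup

set_option autoImplicit false

/-!
# MP_a0a8d4_co: module DUPALL, replacing all vertices by several twins
-/

namespace Pool.Agent.MP_a0a8d4_co

open MeasureTheory Set Filter
open scoped unitInterval Topology

namespace DupAllAux

/-- The pull-back of a nice drawing along an injective map. -/
def comap {V V' : Type} (N : Nice V) (g : V' → V) (hg : Function.Injective g) : Nice V' where
  pos a := N.pos (g a)
  path a b := N.path (g a) (g b)
  pos_inj := N.pos_inj.comp hg
  head x y h := N.head _ _ (hg.ne h)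
  last x y h := N.last _ _ (hg.ne h)
  rev x y := N.rev _ _
  nodup x y h := N.nodup _ _ (hg.ne h)
  share x y z w hxy hzw h1 h2 a ha ha' := by
    obtain ⟨u, hu, h3, h4⟩ := N.share (g x) (g y) (g z) (g w) (hg.ne hxy) (hg.ne hzw)
      (fun h => h1 ⟨hg h.1, hg h.2⟩) (fun h => h2 ⟨hg h.1, hg h.2⟩) a ha ha'
    rcases h3 with rfl | rfl
    · exact ⟨x, hu, Or.inl rfl, h4.imp (fun h => hg h) (fun h => hg h)⟩
    · exact ⟨y, hu, Or.inr rfl, h4.imp (fun h => hg h) (fun h => hg h)⟩
  gp := by
    intro a ha b hb c hc
    have key : ∀ a, (∃ x y : V', x ≠ y ∧ a ∈ N.path (g x) (g y)) →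
        a ∈ {a | ∃ x y, x ≠ y ∧ a ∈ N.path x y} := by
      rintro a ⟨x, y, h, h'⟩
      exact ⟨g x, g y, hg.ne h, h'⟩
    exact N.gp a (key a ha) b (key b hb) c (key c hc)
  self x y h := N.self _ _ (hg.ne h)
  adj x y z h h' h'' := N.adj _ _ _ (hg.ne h) (hg.ne h') (hg.ne h'')
  indep x y z w h := N.indep _ _ _ _ (by simpa using h.map hg)

theorem comap_cr {V V' : Type} (N : Nice V) (g : V' → V) (hg : Function.Injective g)
    (a b c d : V') : (comap N g hg).cr a b c d ↔ N.cr (g a) (g b) (g c) (g d) := Iff.rfl

/-- The conclusion of the theorem. -/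
def DA {V V' : Type} [Fintype V] [Fintype V'] (N : Nice V) (f : V' → V) (lam : V' → ℝ) : Prop :=
  ∃ N' : Nice V',
    (∀ a b c d, [f a, f b, f c, f d].Nodup → (N'.cr a b c d ↔ N.cr (f a) (f b) (f c) (f d))) ∧
    (∀ a b c d, [a, b, c, d].Nodup → f a = f b → f c ≠ f a → f d ≠ f a → ¬ N'.cr a b c d) ∧
    (∀ a b, a ≠ b → f a = f b →
      4 * ∑ z, ∑ w, ind (f z ≠ f a ∧ f w ≠ f a ∧ f z ≠ f w) *
        (lam z * lam w * ind (N'.cr a z b w)) ≤ (Fintype.card V : ℝ) ^ 2 + 1)

theorem DA_inj {V V' : Type} [Fintype V] [Fintype V'] (N : Nice V) (f : V' → V) (lam : V' → ℝ)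
    (hf : Function.Injective f) : DA N f lam := by
  refine ⟨comap N f hf, fun a b c d _ => comap_cr N f hf a b c d, fun a b c d h h' => ?_,
    fun a b h h' => absurd (hf h') h⟩
  obtain rfl := hf h'
  simp at h

theorem DA_equiv {V V' V₂ : Type} [Fintype V] [Fintype V'] [Fintype V₂] (N : Nice V)
    (e : V₂ ≃ V') (f : V' → V) (lam : V' → ℝ)
    (h : DA N (fun a => f (e a)) (fun a => lam (e a))) : DA N f lam := by
  obtain ⟨N', h1, h2, h3⟩ := h
  refine ⟨comap N' e.symm e.symm.injective, fun a b c d hn => ?_, fun a b c d hn ha hc hd => ?_,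
    fun a b hab hf => ?_⟩
  · rw [comap_cr, h1 _ _ _ _ (by simpa using hn)]
    simp
  · rw [comap_cr]
    exact h2 _ _ _ _ (by simpa using hn.map e.symm.injective) (by simpa using ha)
      (by simpa using hc) (by simpa using hd)
  · have h4 := h3 (e.symm a) (e.symm b) (e.symm.injective.ne hab) (by simpa using hf)
    refine le_trans (le_of_eq ?_) h4
    congr 1
    rw [← e.sum_comp]
    refine Finset.sum_congr rfl fun z _ => ?_
    rw [← e.sum_comp]
    refine Finset.sum_congr rfl fun w _ => ?_
    simp [comap_cr]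

theorem nd4 {α : Type*} {p q s t : α} : [p, q, s, t].Nodup ↔
    (p ≠ q ∧ p ≠ s ∧ p ≠ t ∧ q ≠ s ∧ q ≠ t ∧ s ≠ t) := by
  simp only [List.nodup_cons, List.mem_cons, List.not_mem_nil, or_false, not_or, List.nodup_nil,
    and_true, not_false_eq_true, ne_eq]
  tauto

theorem nd3 {α : Type*} {p q s : α} : [p, q, s].Nodup ↔ (p ≠ q ∧ p ≠ s ∧ q ≠ s) := by
  simp only [List.nodup_cons, List.mem_cons, List.not_mem_nil, or_false, not_or, List.nodup_nil,
    and_true, not_false_eq_true, ne_eq]
  tauto

/-- Push-forward of the weights. -/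
noncomputable def push {W : Type} (x : W) (lam : Option W → ℝ) (y : W) : ℝ :=
  lam (some y) + ind (y = x) * lam none

theorem sum_push {W : Type} [Fintype W] (x : W) (lam : Option W → ℝ) (h : W → ℝ) :
    ∑ o : Option W, lam o * h (o.getD x) = ∑ y, push x lam y * h y := by
  classical
  rw [Fintype.sum_option]
  have h1 : ∀ y, push x lam y * h y = lam (some y) * h y + (if y = x then lam none * h y else 0) := by
    intro y
    unfold push
    by_cases hy : y = x
    · rw [ind_true hy, if_pos hy]; ring
    · rw [ind_false hy, if_neg hy]; ring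
  rw [Finset.sum_congr rfl fun y _ => h1 y, Finset.sum_add_distrib, Finset.sum_ite_eq']
  simp [add_comm]

theorem step {V W : Type} [Fintype V] [Fintype W] (N : Nice V) (f : W → V) (x : W)
    (lam : Option W → ℝ) (h0 : ∀ a, 0 ≤ lam a)
    (h1 : ∀ v, ∑ a : Option W, ind (f (a.getD x) = v) * lam a = 1) (IH : DA N f (push x lam)) :
    DA N (fun o : Option W => f (o.getD x)) lam := by
  classical
  obtain ⟨N2, i2, ii2, iii2⟩ := IH
  have hp0 : ∀ y, 0 ≤ push x lam y := fun y =>
    add_nonneg (h0 _) (mul_nonneg (ind_nonneg _) (h0 _))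
  have hsum : ∀ v, ∑ y, ind (f y = v) * push x lam y = 1 := by
    intro v
    rw [← h1 v]
    have := sum_push x lam fun y => ind (f y = v)
    rw [Finset.sum_congr rfl fun y _ => mul_comm (ind (f y = v)) (push x lam y), ← this]
    exact Finset.sum_congr rfl fun y _ => mul_comm _ _
  have hp1 : ∀ z, push x lam z ≤ 1 := by
    intro z
    rw [← hsum (f z)]
    have h2 : ind (f z = f z) * push x lam z ≤ ∑ y, ind (f y = f z) * push x lam y :=
      Finset.single_le_sum (f := fun y => ind (f y = f z) * push x lam y)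
        (fun y _ => mul_nonneg (ind_nonneg _) (hp0 y)) (Finset.mem_univ z)
    rwa [ind_true rfl, one_mul] at h2
  obtain ⟨N3, d1, d2, d3, d4⟩ := N2.dup x (fun z => ind (f z ≠ f x) * push x lam z) 1 zero_le_one
    (fun z => mul_nonneg (ind_nonneg _) (hp0 z))
    (fun z => by
      calc ind (f z ≠ f x) * push x lam z ≤ 1 * 1 :=
            mul_le_mul (ind_le_one _) (hp1 z) (hp0 z) zero_le_one
        _ = 1 := one_mul 1)
  have L : ∀ p q s t : Option W, [p.getD x, q.getD x, s.getD x, t.getD x].Nodup →
      (N3.cr p q s t ↔ N2.cr (p.getD x) (q.getD x) (s.getD x) (t.getD x)) := by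
    rintro (_ | p) (_ | q) (_ | s) (_ | t) h <;>
      simp only [Option.getD_none, Option.getD_some, nd4] at h ⊢
    all_goals obtain ⟨n1, n2, n3, n4, n5, n6⟩ := h
    all_goals first
      | exact absurd rfl n1
      | exact absurd rfl n2
      | exact absurd rfl n3
      | exact absurd rfl n4
      | exact absurd rfl n5
      | exact absurd rfl n6
      | skip
    · exact d2 _ _ _ (nd4.2 ⟨n1, n2, n3, n4, n5, n6⟩)
    · rw [N3.cr_swap_left, N2.cr_swap_left]
      exact d2 _ _ _ (nd4.2 ⟨n1.symm, n4, n5, n2, n3, n6⟩)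
    · rw [N3.cr_comm, N2.cr_comm]
      exact d2 _ _ _ (nd4.2 ⟨n6, n2.symm, n4.symm, n3.symm, n5.symm, n1⟩)
    · rw [N3.cr_comm, N2.cr_comm, N3.cr_swap_left, N2.cr_swap_left]
      exact d2 _ _ _ (nd4.2 ⟨n6.symm, n3.symm, n5.symm, n2.symm, n4.symm, n1⟩)
    · exact d1 _ _ _ _ (nd4.2 ⟨n1, n2, n3, n4, n5, n6⟩)
  refine ⟨N3, ?_, ?_, ?_⟩
  · intro a b c d hn
    have h2 : [a.getD x, b.getD x, c.getD x, d.getD x].Nodup := by
      refine List.Nodup.of_map f ?_
      simpa using hn
    rw [L a b c d h2]
    exact i2 _ _ _ _ hn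
  · intro p q s t hn hpq hs ht
    by_cases hn2 : [p.getD x, q.getD x, s.getD x, t.getD x].Nodup
    · rw [L p q s t hn2]
      exact ii2 _ _ _ _ hn2 hpq hs ht
    · rw [nd4] at hn hn2
      revert hn hpq hs ht hn2
      rcases p with _ | p <;> rcases q with _ | q <;> rcases s with _ | s <;> rcases t with _ | t <;>
        simp only [Option.getD_none, Option.getD_some] <;> intro hn hpq hs ht hn2 <;>
        obtain ⟨n1, n2, n3, n4, n5, n6⟩ := hn
      all_goals first
        | exact absurd rfl n1
        | exact absurd rfl n2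
        | exact absurd rfl n3
        | exact absurd rfl n4
        | exact absurd rfl n5
        | exact absurd rfl n6
        | exact absurd rfl hs
        | exact absurd rfl ht
        | skip
      · have e1 : s ≠ x := fun h => hs (by rw [h])
        have e2 : t ≠ x := fun h => ht (by rw [h])
        have e3 : q ≠ s := fun h => n4 (by rw [h])
        have e4 : q ≠ t := fun h => n5 (by rw [h])
        have e5 : s ≠ t := fun h => n6 (by rw [h])
        have e6 : x = q := by
          by_contra h
          exact hn2 ⟨h, e1.symm, e2.symm, e3, e4, e5⟩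
        subst e6
        exact d3 _ _ (nd3.2 ⟨e1.symm, e2.symm, e5⟩)
      · have e1 : s ≠ x := fun h => hs (by rw [h, hpq])
        have e2 : t ≠ x := fun h => ht (by rw [h, hpq])
        have e3 : p ≠ s := fun h => n2 (by rw [h])
        have e4 : p ≠ t := fun h => n3 (by rw [h])
        have e5 : s ≠ t := fun h => n6 (by rw [h])
        have e6 : x = p := by
          by_contra h
          exact hn2 ⟨Ne.symm h, e3, e4, e1.symm, e2.symm, e5⟩
        subst e6
        rw [N3.cr_swap_left]
        exact d3 _ _ (nd3.2 ⟨e1.symm, e2.symm, e5⟩)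
      · have e1 : p ≠ x := fun h => hs (by rw [h])
        have e2 : q ≠ x := fun h => hs (by rw [hpq, h])
        have e3 : p ≠ q := fun h => n1 (by rw [h])
        have e4 : p ≠ t := fun h => n3 (by rw [h])
        have e5 : q ≠ t := fun h => n5 (by rw [h])
        have e6 : x = t := by
          by_contra h
          exact hn2 ⟨e3, e1, e4, e2, e5, h⟩
        subst e6
        rw [N3.cr_comm]
        exact d3 _ _ (nd3.2 ⟨e1.symm, e2.symm, e3⟩)
      · have e1 : p ≠ x := fun h => ht (by rw [h])
        have e2 : q ≠ x := fun h => ht (by rw [hpq, h])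
        have e3 : p ≠ q := fun h => n1 (by rw [h])
        have e4 : p ≠ s := fun h => n2 (by rw [h])
        have e5 : q ≠ s := fun h => n4 (by rw [h])
        have e6 : x = s := by
          by_contra h
          exact hn2 ⟨e3, e4, e1, e5, e2, Ne.symm h⟩
        subst e6
        rw [N3.cr_comm, N3.cr_swap_left]
        exact d3 _ _ (nd3.2 ⟨e1.symm, e2.symm, e3⟩)
      · exact absurd ⟨fun h => n1 (by rw [h]), fun h => n2 (by rw [h]), fun h => n3 (by rw [h]),
          fun h => n4 (by rw [h]), fun h => n5 (by rw [h]), fun h => n6 (by rw [h])⟩ hn2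
  · -- the main estimate for the pair `none`, `some x`
    have hB : 4 * ∑ z : Option W, ∑ w : Option W,
        ind (f (z.getD x) ≠ f x ∧ f (w.getD x) ≠ f x ∧ f (z.getD x) ≠ f (w.getD x)) *
          (lam z * lam w * ind (N3.cr none z (some x) w)) ≤ (Fintype.card V : ℝ) ^ 2 + 1 := by
      have hle : ∑ z : Option W, ∑ w : Option W,
          ind (f (z.getD x) ≠ f x ∧ f (w.getD x) ≠ f x ∧ f (z.getD x) ≠ f (w.getD x)) *
            (lam z * lam w * ind (N3.cr none z (some x) w)) ≤
          ∑ z, ∑ w, ind (z ≠ x ∧ w ≠ x ∧ z ≠ w) *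
            (ind (f z ≠ f x) * push x lam z * (ind (f w ≠ f x) * push x lam w) *
              ind (N3.cr none (some z) (some x) (some w))) := by
        rw [Fintype.sum_option]
        have hz0 : ∑ w : Option W, ind (f ((none : Option W).getD x) ≠ f x ∧ f (w.getD x) ≠ f x ∧
            f ((none : Option W).getD x) ≠ f (w.getD x)) *
            (lam none * lam w * ind (N3.cr none none (some x) w)) = 0 := by
          refine Finset.sum_eq_zero fun w _ => ?_
          rw [ind_false (fun h => h.1 rfl), zero_mul]
        rw [hz0, zero_add]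
        refine Finset.sum_le_sum fun z _ => ?_
        rw [Fintype.sum_option]
        rw [ind_false (p := f ((some z).getD x) ≠ f x ∧ f ((none : Option W).getD x) ≠ f x ∧
          f ((some z).getD x) ≠ f ((none : Option W).getD x)) (fun h => h.2.1 rfl), zero_mul, zero_add]
        refine Finset.sum_le_sum fun w _ => ?_
        simp only [Option.getD_some]
        by_cases hc : f z ≠ f x ∧ f w ≠ f x ∧ f z ≠ f w
        · have hzx : z ≠ x := fun h => hc.1 (by rw [h])
          have hwx : w ≠ x := fun h => hc.2.1 (by rw [h])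
          have hzw : z ≠ w := fun h => hc.2.2 (by rw [h])
          rw [ind_true hc, ind_true (p := z ≠ x ∧ w ≠ x ∧ z ≠ w) ⟨hzx, hwx, hzw⟩, ind_true hc.1,
            ind_true hc.2.1]
          unfold push
          rw [ind_false hzx, ind_false hwx]
          simp
        · rw [ind_false hc, zero_mul]
          exact mul_nonneg (ind_nonneg _) (mul_nonneg (mul_nonneg
            (mul_nonneg (ind_nonneg _) (hp0 z)) (mul_nonneg (ind_nonneg _) (hp0 w)))
            (ind_nonneg _))
      have htot : ∑ z, push x lam z = Fintype.card V := by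
        have h3 : ∑ v, ∑ z, ind (f z = v) * push x lam z = ∑ z, push x lam z := by
          rw [Finset.sum_comm]
          refine Finset.sum_congr rfl fun z _ => ?_
          rw [← Finset.sum_mul]
          have : ∑ v, ind (f z = v) = 1 := by
            rw [Finset.sum_eq_single (f z)]
            · exact ind_true rfl
            · intro b _ hb
              exact ind_false (Ne.symm hb)
            · intro h; exact absurd (Finset.mem_univ _) h
          rw [this, one_mul]
        rw [← h3, Finset.sum_congr rfl fun v _ => hsum v]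
        simp
      have hS0 : 0 ≤ ∑ z, ind (z ≠ x) * (ind (f z ≠ f x) * push x lam z) :=
        Finset.sum_nonneg fun z _ => mul_nonneg (ind_nonneg _)
          (mul_nonneg (ind_nonneg _) (hp0 z))
      have hS1 : ∑ z, ind (z ≠ x) * (ind (f z ≠ f x) * push x lam z) ≤ Fintype.card V := by
        rw [← htot]
        refine Finset.sum_le_sum fun z _ => ?_
        calc ind (z ≠ x) * (ind (f z ≠ f x) * push x lam z)
            ≤ 1 * (1 * push x lam z) :=
              mul_le_mul (ind_le_one _) (mul_le_mul_of_nonneg_right (ind_le_one _) (hp0 z))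
                (mul_nonneg (ind_nonneg _) (hp0 z)) zero_le_one
          _ = push x lam z := by ring
      nlinarith [d4, hle, hS0, hS1]
    intro p q hpq hf
    show 4 * ∑ z : Option W, ∑ w : Option W, ind (f (z.getD x) ≠ f (p.getD x) ∧
      f (w.getD x) ≠ f (p.getD x) ∧ f (z.getD x) ≠ f (w.getD x)) *
        (lam z * lam w * ind (N3.cr p z q w)) ≤ (Fintype.card V : ℝ) ^ 2 + 1
    change f (p.getD x) = f (q.getD x) at hf
    by_cases hr : p.getD x = q.getD x
    · rcases p with _ | p <;> rcases q with _ | q
      · exact absurd rfl hpq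
      · simp only [Option.getD_none, Option.getD_some] at hr
        subst hr
        exact hB
      · simp only [Option.getD_none, Option.getD_some] at hr
        subst hr
        refine le_trans (le_of_eq ?_) hB
        congr 1
        rw [Finset.sum_comm]
        refine Finset.sum_congr rfl fun z _ => Finset.sum_congr rfl fun w _ => ?_
        rw [ind_congr (N3.cr_comm (some p) w none z)]
        have hc : (f (w.getD p) ≠ f p ∧ f (z.getD p) ≠ f p ∧ f (w.getD p) ≠ f (z.getD p)) ↔
            (f (z.getD p) ≠ f p ∧ f (w.getD p) ≠ f p ∧ f (z.getD p) ≠ f (w.getD p)) :=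
          ⟨fun h => ⟨h.2.1, h.1, h.2.2.symm⟩, fun h => ⟨h.2.1, h.1, h.2.2.symm⟩⟩
        have hc' := ind_congr hc
        simp only [Option.getD_some] at hc' ⊢
        rw [hc']
        ring
      · simp only [Option.getD_some] at hr
        exact absurd (by rw [hr]) hpq
    · refine le_trans (le_of_eq ?_) (iii2 (p.getD x) (q.getD x) hr hf)
      congr 1
      let S : W → W → ℝ := fun y y' => ind (f y ≠ f (p.getD x) ∧ f y' ≠ f (p.getD x) ∧ f y ≠ f y') *
        ind (N2.cr (p.getD x) y (q.getD x) y')
      have e1 : ∀ z w : Option W, ind (f (z.getD x) ≠ f (p.getD x) ∧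
          f (w.getD x) ≠ f (p.getD x) ∧ f (z.getD x) ≠ f (w.getD x)) *
          (lam z * lam w * ind (N3.cr p z q w)) = lam z * (lam w * S (z.getD x) (w.getD x)) := by
        intro z w
        by_cases hc : f (z.getD x) ≠ f (p.getD x) ∧ f (w.getD x) ≠ f (p.getD x) ∧
          f (z.getD x) ≠ f (w.getD x)
        · have hnd : [p.getD x, z.getD x, q.getD x, w.getD x].Nodup := by
            rw [nd4]
            refine ⟨fun h => hc.1 (by rw [h]), hr, fun h => hc.2.1 (by rw [h]),
              fun h => hc.1 (by rw [hf, h]), fun h => hc.2.2 (by rw [h]),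
              fun h => hc.2.1 (by rw [hf, h])⟩
          rw [ind_congr (L p z q w hnd)]
          show _ = lam z * (lam w * (ind _ * ind _))
          ring
        · rw [ind_false hc, zero_mul]
          show _ = lam z * (lam w * (ind _ * ind _))
          rw [ind_false hc]
          ring
      have e2 : ∀ y y' : W, ind (f y ≠ f (p.getD x) ∧ f y' ≠ f (p.getD x) ∧ f y ≠ f y') *
          (push x lam y * push x lam y' * ind (N2.cr (p.getD x) y (q.getD x) y')) =
          push x lam y * (push x lam y' * S y y') := by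
        intro y y'
        show _ = push x lam y * (push x lam y' * (ind _ * ind _))
        ring
      simp only [e1, e2]
      simp only [← Finset.mul_sum]
      have e3 : ∀ y : W, ∑ w : Option W, lam w * S y (w.getD x) = ∑ y', push x lam y' * S y y' :=
        fun y => sum_push x lam fun y' => S y y'
      simp only [e3]
      exact sum_push x lam fun y => ∑ y', push x lam y' * S y y'

theorem main {V : Type} [Fintype V] (N : Nice V) (n : ℕ) : ∀ (V' : Type) [Fintype V'] (f : V' → V)
    (lam : V' → ℝ), Fintype.card V' = n → (∀ a, 0 ≤ lam a) →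
    (∀ x, ∑ a, ind (f a = x) * lam a = 1) → DA N f lam := by
  classical
  induction n with
  | zero =>
    intro V' _ f lam hc h0 h1
    have : IsEmpty V' := Fintype.card_eq_zero_iff.1 hc
    exact DA_inj N f lam (Function.injective_of_subsingleton f)
  | succ n ih =>
    intro V' _ f lam hc h0 h1
    by_cases hf : Function.Injective f
    · exact DA_inj N f lam hf
    · obtain ⟨b, a, hab, hne⟩ : ∃ b a, f b = f a ∧ b ≠ a := by
        simpa [Function.Injective] using hf
      let e : Option {c // c ≠ b} ≃ V' := Equiv.optionSubtypeNe b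
      have e0 : e none = b := Equiv.optionSubtypeNe_none b
      have e1 : ∀ c : {c // c ≠ b}, e (some c) = c := fun c => Equiv.optionSubtypeNe_some b c
      let x : {c // c ≠ b} := ⟨a, hne.symm⟩
      have hfe : ∀ o, f (e o) = f ((o.getD x : {c // c ≠ b}) : V') := by
        rintro (_ | c)
        · rw [e0]; exact hab
        · rw [e1]; rfl
      refine DA_equiv N e f lam ?_
      have hfe' : (fun o => f (e o)) = fun o : Option {c // c ≠ b} =>
          (fun c : {c // c ≠ b} => f c) (o.getD x) := funext hfe
      rw [hfe']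
      have h0' : ∀ o, 0 ≤ lam (e o) := fun o => h0 _
      have h1' : ∀ v, ∑ o : Option {c // c ≠ b},
          ind ((fun c : {c // c ≠ b} => f c) (o.getD x) = v) * lam (e o) = 1 := by
        intro v
        rw [← h1 v, ← e.sum_comp]
        refine Finset.sum_congr rfl fun o _ => ?_
        show ind (f ((o.getD x : {c // c ≠ b}) : V') = v) * lam (e o) = _
        rw [← hfe o]
      have hcard : Fintype.card {c // c ≠ b} = n := by
        have h3 : Fintype.card (Option {c // c ≠ b}) = Fintype.card V' := Fintype.card_congr e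
        rw [Fintype.card_option] at h3
        omega
      refine step N (fun c : {c // c ≠ b} => f c) x (fun o => lam (e o)) h0' h1' ?_
      refine ih _ _ _ hcard (fun y => add_nonneg (h0' _) (mul_nonneg (ind_nonneg _) (h0' _))) ?_
      intro v
      rw [← h1' v]
      have := sum_push x (fun o => lam (e o)) fun y => ind (f y = v)
      exact (Finset.sum_congr rfl fun y _ => mul_comm _ _).trans
        (this.symm.trans (Finset.sum_congr rfl fun y _ => mul_comm _ _))

end DupAllAux

open DupAllAux

theorem Nice.dupAll {V V' : Type} [Fintype V] [Fintype V'] (N : Nice V) (f : V' → V)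
    (hf : Function.Surjective f) (lam : V' → ℝ) (h0 : ∀ a, 0 ≤ lam a)
    (h1 : ∀ x, ∑ a, ind (f a = x) * lam a = 1) :
    ∃ N' : Nice V',
      (∀ a b c d, [f a, f b, f c, f d].Nodup → (N'.cr a b c d ↔ N.cr (f a) (f b) (f c) (f d))) ∧
      (∀ a b c d, [a, b, c, d].Nodup → f a = f b → f c ≠ f a → f d ≠ f a → ¬ N'.cr a b c d) ∧
      (∀ a b, a ≠ b → f a = f b →
        4 * ∑ z, ∑ w, ind (f z ≠ f a ∧ f w ≠ f a ∧ f z ≠ f w) *
          (lam z * lam w * ind (N'.cr a z b w)) ≤ (Fintype.card V : ℝ) ^ 2 + 1) :=
  main N (Fintype.card V') V' f lam rfl h0 h1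

end Pool.Agent.MP_a0a8d4_co
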