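import Pool.Agent.MP_a0a8d4_co.DupA

set_option autoImplicit false

/-!
# MP_a0a8d4_co: the one-twin lemma, part B: the perturbed star
-/

namespace Pool.Agent.MP_a0a8d4_co

open MeasureTheory Set Filter
open scoped unitInterval Topology

namespace Dup

/-- The data of the perturbation at the vertex `x`. -/
structure DD {V : Type} (N : Nice V) (x : V) where
  u : Pt → Pt
  s : V → ℝ
  τ : ℝ
  hτ : 0 < τ
  hv : u (N.pos x) ≠ 0
  huz : ∀ z, z ≠ x → u (N.pos z) = 0
  hseg : ∀ z, z ≠ x → ∀ e ∈ segs (N.path x z), 0 < s z * det2 (e.2 - e.1) (u e.1) ∧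
        (e.2 = N.pos z ∨ 0 < s z * det2 (e.2 - e.1) (u e.2))
  hgen : ∀ z, z ≠ x → ∀ a ∈ N.path x z, a ≠ N.pos z → ∀ b ∈ N.pts, b ≠ a →
        det2 (b - a) (u a) ≠ 0
  E1 : ∀ p ∈ N.pts, ∀ q ∈ N.pts, ∀ r ∈ N.pts, p ≠ q → q ≠ r → p ≠ r →
      ∀ α β γ : Bool, SignType.sign (orient (psi u τ α p) (psi u τ β q) (psi u τ γ r)) =
        SignType.sign (orient p q r)
  E2 : ∀ p ∈ N.pts, ∀ r ∈ N.pts, det2 (r - p) (u p) ≠ 0 →
      ∀ α β : Bool, SignType.sign (det2 (psi u τ α r - psi u τ β p) (u p)) =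
        SignType.sign (det2 (r - p) (u p))
  E3 : ∀ p ∈ N.pts, ∀ q ∈ N.pts, p ≠ q → ∀ α β : Bool, psi u τ α p ≠ psi u τ β q

namespace DD

variable {V : Type} {N : Nice V} {x : V} (D : DD N x)

/-- The moved point. -/
noncomputable def phi (p : Pt) : Pt := psi D.u D.τ true p

theorem phi_def (p : Pt) : D.phi p = (p.1 + D.τ * (D.u p).1, p.2 + D.τ * (D.u p).2) := by
  simp [phi, psi]

theorem phi_eq_self {p : Pt} (h : D.phi p = p) : D.u p = 0 := by
  rw [phi_def] at h
  have h1 := congrArg Prod.fst h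
  have h2 := congrArg Prod.snd h
  simp only at h1 h2
  have h3 : D.τ * (D.u p).1 = 0 := by linarith
  have h4 : D.τ * (D.u p).2 = 0 := by linarith
  have hτ := D.hτ.ne'
  ext
  · simpa [hτ] using h3
  · simpa [hτ] using h4

theorem phi_pos {z : V} (hz : z ≠ x) : D.phi (N.pos z) = N.pos z :=
  psi_fix _ _ _ _ (D.huz z hz)

theorem phi_X_ne : D.phi (N.pos x) ≠ N.pos x := fun h => D.hv (D.phi_eq_self h)

theorem mem_pts {z : V} (hz : z ≠ x) {p : Pt} (hp : p ∈ N.path x z) : p ∈ N.pts :=
  ⟨x, z, hz.symm, hp⟩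

theorem mem_pts' {a b : V} (hab : a ≠ b) {p : Pt} (hp : p ∈ N.path a b) : p ∈ N.pts :=
  ⟨a, b, hab, hp⟩

/-- `a` is the point `p` or its moved copy. -/
def B (p a : Pt) : Prop :=
  p ∈ N.pts ∧ (a = p ∨ (a = D.phi p ∧ ∃ z, z ≠ x ∧ p ∈ N.path x z))

theorem B_old {p : Pt} (hp : p ∈ N.pts) : D.B p p := ⟨hp, Or.inl rfl⟩

theorem B_new {p : Pt} {z : V} (hz : z ≠ x) (hp : p ∈ N.path x z) : D.B p (D.phi p) :=
  ⟨mem_pts hz hp, Or.inr ⟨rfl, z, hz, hp⟩⟩

theorem B_psi {p a : Pt} (h : D.B p a) : ∃ α, a = psi D.u D.τ α p := by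
  rcases h.2 with h | h
  · exact ⟨false, by rw [psi_false]; exact h⟩
  · exact ⟨true, h.1⟩

theorem sgn {p q r a b c : Pt} (ha : D.B p a) (hb : D.B q b) (hc : D.B r c) (h1 : p ≠ q)
    (h2 : q ≠ r) (h3 : p ≠ r) :
    SignType.sign (orient a b c) = SignType.sign (orient p q r) := by
  obtain ⟨α, rfl⟩ := D.B_psi ha
  obtain ⟨β, rfl⟩ := D.B_psi hb
  obtain ⟨γ, rfl⟩ := D.B_psi hc
  exact D.E1 p ha.1 q hb.1 r hc.1 h1 h2 h3 α β γ

theorem B_ne {p q a b : Pt} (ha : D.B p a) (hb : D.B q b) (h : p ≠ q) : a ≠ b := by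
  obtain ⟨α, rfl⟩ := D.B_psi ha
  obtain ⟨β, rfl⟩ := D.B_psi hb
  exact D.E3 p ha.1 q hb.1 h α β

theorem crT {p q r t a b c d : Pt} (ha : D.B p a) (hb : D.B q b) (hc : D.B r c) (hd : D.B t d)
    (h1 : p ≠ q) (h2 : p ≠ r) (h3 : p ≠ t) (h4 : q ≠ r) (h5 : q ≠ t) (h6 : r ≠ t) :
    Cr a b c d ↔ Cr p q r t := by
  rw [Cr_iff_sign, Cr_iff_sign, D.sgn ha hb hc h1 h4 h2, D.sgn ha hb hd h1 h5 h3,
    D.sgn hc hd ha h6 h3.symm h2.symm, D.sgn hc hd hb h6 h5.symm h4.symm]

theorem pos_mem {z p q : V} (hpq : p ≠ q) (h : N.pos z ∈ N.path p q) : z = p ∨ z = q := by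
  by_contra hcon
  push Not at hcon
  obtain ⟨h1, h2⟩ := hcon
  have h3 : N.pos z ∈ N.path z p := mem_head (N.head z p h1)
  obtain ⟨w, hw, hw1, hw2⟩ := N.share z p p q h1 hpq (fun h => h1 h.1) (fun h => h2 h.1)
    (N.pos z) h3 h
  have := N.pos_inj hw
  subst this
  rcases hw2 with h | h
  · exact h1 h
  · exact h2 h

/-- A point of a star path which is not its end has a nonzero vector. -/
theorem u_ne {z : V} (hz : z ≠ x) {p : Pt} (hp : p ∈ N.path x z) (hpz : p ≠ N.pos z) :
    D.u p ≠ 0 := by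
  intro h0
  have h1 : N.pos z ∈ N.pts := ⟨x, z, hz.symm, mem_last (N.last x z hz.symm)⟩
  apply D.hgen z hz p hp hpz (N.pos z) h1 hpz.symm
  rw [h0]
  simp [det2]

/-- The new star. -/
noncomputable def star (z : V) : List Pt :=
  open Classical in if z = x then [D.phi (N.pos x), N.pos x] else (N.path x z).map D.phi

theorem star_x : D.star x = [D.phi (N.pos x), N.pos x] := by simp [star]

theorem star_ne {z : V} (hz : z ≠ x) : D.star z = (N.path x z).map D.phi := by simp [star, hz]

theorem seg_star {z : V} (hz : z ≠ x) {e : Pt × Pt} (he : e ∈ segs (D.star z)) :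
    ∃ a b, (a, b) ∈ segs (N.path x z) ∧ e = (D.phi a, D.phi b) := by
  rw [D.star_ne hz, segs_map, List.mem_map] at he
  obtain ⟨⟨a, b⟩, hab, rfl⟩ := he
  exact ⟨a, b, hab, rfl⟩

theorem seg_star_x {e : Pt × Pt} (he : e ∈ segs (D.star x)) :
    e = (D.phi (N.pos x), N.pos x) := by
  rw [star_x, segs_cons_cons, segs_single] at he
  simpa using he

theorem X_pts {z : V} (hz : z ≠ x) : N.pos x ∈ N.pts :=
  ⟨x, z, hz.symm, mem_head (N.head x z hz.symm)⟩

theorem BX {z : V} (hz : z ≠ x) : D.B (N.pos x) (N.pos x) := D.B_old (X_pts hz)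

theorem BX' {z : V} (hz : z ≠ x) : D.B (N.pos x) (D.phi (N.pos x)) :=
  D.B_new hz (mem_head (N.head x z hz.symm))

/-- distinctness from a crossing -/
theorem cr_ne {a b c d : Pt} (h : Cr a b c d) :
    a ≠ b ∧ a ≠ c ∧ a ≠ d ∧ b ≠ c ∧ b ≠ d ∧ c ≠ d := by
  have := Cr_nodup h
  simp only [List.nodup_cons, List.mem_cons, List.not_mem_nil, or_false, not_or,
    List.nodup_nil, and_true, not_false_eq_true] at this
  exact ⟨this.1.1, this.1.2.1, this.1.2.2, this.2.1.1, this.2.1.2, this.2.2⟩

/-- Nothing separates `X` from its moved copy. -/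
theorem no_short {z : V} (hz : z ≠ x) {p q a b : Pt} (ha : D.B p a) (hb : D.B q b) (hpq : p ≠ q)
    (haX : p ≠ N.pos x) (hbX : q ≠ N.pos x) : ¬ Cr (D.phi (N.pos x)) (N.pos x) a b := by
  rw [Cr_iff_sign]
  rintro ⟨-, h⟩
  rw [D.sgn ha hb (D.BX' hz) hpq hbX haX, D.sgn ha hb (D.BX hz) hpq hbX haX] at h
  revert h
  generalize SignType.sign (orient p q (N.pos x)) = s
  revert s
  decide

theorem short_any {e : Pt × Pt} (he : e ∈ segs (D.star x)) {a b : V} (hab : a ≠ b)
    {f : Pt × Pt} (hf : f ∈ segs (N.path a b)) : ¬ Cr e.1 e.2 f.1 f.2 := by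
  intro hc
  have hx : ∃ z, z ≠ x := by
    by_cases h : a = x
    · exact ⟨b, fun h' => hab (h.trans h'.symm)⟩
    · exact ⟨a, h⟩
  obtain ⟨z, hz⟩ := hx
  rw [D.seg_star_x he] at hc
  simp only at hc
  obtain ⟨h1, h2, h3, h4, h5, h6⟩ := cr_ne hc
  exact D.no_short hz (D.B_old (mem_pts' hab (segs_mem hf).1))
    (D.B_old (mem_pts' hab (segs_mem hf).2)) h6 h4.symm h5.symm hc

theorem noCr_x (a b : V) (hab : a ≠ b) : NoCr (D.star x) (N.path a b) :=
  fun _ he _ hf => D.short_any he hab hf

theorem noCr_xx : NoCr (D.star x) (D.star x) := by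
  intro e he f hf hc
  rw [D.seg_star_x he, D.seg_star_x hf] at hc
  exact (cr_ne hc).2.1 rfl

theorem noCr_xz {z : V} (hz : z ≠ x) : NoCr (D.star x) (D.star z) := by
  intro e he f hf hc
  rw [D.seg_star_x he] at hc
  obtain ⟨a, b, hab, rfl⟩ := D.seg_star hz hf
  simp only at hc
  obtain ⟨h1, h2, h3, h4, h5, h6⟩ := cr_ne hc
  have ha := (segs_mem hab).1
  have hb := (segs_mem hab).2
  refine D.no_short hz (D.B_new hz ha) (D.B_new hz hb) (fun h => h6 (congrArg D.phi h))
    (fun h => h2 (congrArg D.phi h.symm)) (fun h => h3 (congrArg D.phi h.symm)) hc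

/-- Transfer of crossings between moved star paths. -/
theorem cr_star_star {a b c d : Pt} {z w : V} (hz : z ≠ x) (hw : w ≠ x)
    (hab : (a, b) ∈ segs (N.path x z)) (hcd : (c, d) ∈ segs (N.path x w))
    (hc : Cr (D.phi a) (D.phi b) (D.phi c) (D.phi d)) : Cr a b c d := by
  obtain ⟨h1, h2, h3, h4, h5, h6⟩ := cr_ne hc
  have ha := (segs_mem hab).1
  have hb := (segs_mem hab).2
  have hc' := (segs_mem hcd).1
  have hd := (segs_mem hcd).2
  exact (D.crT (D.B_new hz ha) (D.B_new hz hb) (D.B_new hw hc') (D.B_new hw hd)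
    (fun h => h1 (congrArg D.phi h)) (fun h => h2 (congrArg D.phi h)) (fun h => h3 (congrArg D.phi h))
    (fun h => h4 (congrArg D.phi h)) (fun h => h5 (congrArg D.phi h)) (fun h => h6 (congrArg D.phi h))).1 hc

theorem noCr_zz {z : V} (hz : z ≠ x) : NoCr (D.star z) (D.star z) := by
  intro e he f hf hc
  obtain ⟨a, b, hab, rfl⟩ := D.seg_star hz he
  obtain ⟨c, d, hcd, rfl⟩ := D.seg_star hz hf
  exact N.self x z hz.symm _ hab _ hcd (D.cr_star_star hz hz hab hcd hc)

theorem noCr_zw {z w : V} (hz : z ≠ x) (hw : w ≠ x) (hzw : z ≠ w) :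
    NoCr (D.star z) (D.star w) := by
  intro e he f hf hc
  obtain ⟨a, b, hab, rfl⟩ := D.seg_star hz he
  obtain ⟨c, d, hcd, rfl⟩ := D.seg_star hw hf
  exact N.adj x z w hz.symm hw.symm hzw _ hab _ hcd (D.cr_star_star hz hw hab hcd hc)

theorem noCr_star {z w : V} (hzw : z ≠ w) : NoCr (D.star z) (D.star w) := by
  by_cases hz : z = x
  · subst hz
    exact D.noCr_xz hzw.symm
  · by_cases hw : w = x
    · subst hw
      exact (D.noCr_xz hzw).comm
    · exact D.noCr_zw hz hw hzw

theorem noCr_self (z : V) : NoCr (D.star z) (D.star z) := by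
  by_cases hz : z = x
  · subst hz
    exact D.noCr_xx
  · exact D.noCr_zz hz

/-- A common point of a star path and another path (not the same edge). -/
theorem common {z p q : V} (hz : z ≠ x) (hpq : p ≠ q) {a : Pt} (ha : a ∈ N.path x z)
    (ha' : a ∈ N.path p q) (h1 : ¬ (x = p ∧ z = q)) (h2 : ¬ (x = q ∧ z = p)) :
    (a = N.pos x ∧ (x = p ∨ x = q)) ∨ (a = N.pos z ∧ (z = p ∨ z = q)) := by
  obtain ⟨w, hw, hw1, hw2⟩ := N.share x z p q hz.symm hpq h1 h2 a ha ha'
  rcases hw1 with h | h
  · left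
    rw [h] at hw hw2
    exact ⟨hw, hw2⟩
  · right
    rw [h] at hw hw2
    exact ⟨hw, hw2⟩

/-- Crossings of a moved star path with a path not through `x`, except at the common end. -/
theorem cr_star_old {a b c d : Pt} {z p q : V} (hz : z ≠ x) (hpq : p ≠ q) (hp : p ≠ x)
    (hq : q ≠ x) (hab : (a, b) ∈ segs (N.path x z)) (hcd : (c, d) ∈ segs (N.path p q)) :
    Cr (D.phi a) (D.phi b) c d → Cr a b c d := by
  intro hc
  obtain ⟨h1, h2, h3, h4, h5, h6⟩ := cr_ne hc
  have ha := (segs_mem hab).1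
  have hb := (segs_mem hab).2
  have hc' := (segs_mem hcd).1
  have hd := (segs_mem hcd).2
  have key : ∀ t y, t ∈ N.path x z → y ∈ N.path p q → D.phi t ≠ y → t ≠ y := by
    intro t y ht hy hne heq
    subst heq
    rcases common hz hpq ht hy (fun h => hp h.1.symm) (fun h => hq h.1.symm) with h | h
    · rcases h.2 with h' | h'
      · exact hp h'.symm
      · exact hq h'.symm
    · apply hne
      rw [h.1]
      exact D.phi_pos hz
  exact (D.crT (D.B_new hz ha) (D.B_new hz hb) (D.B_old (mem_pts' hpq hc'))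
    (D.B_old (mem_pts' hpq hd)) (fun h => h1 (congrArg D.phi h)) (key a c ha hc' h2)
    (key a d ha hd h3) (key b c hb hc' h4) (key b d hb hd h5) h6).1 hc

theorem orient_phi_right (a b p : Pt) (h : p = a ∨ p = b) :
    orient a b (D.phi p) = D.τ * det2 (b - a) (D.u p) := by
  rw [phi_def]
  rcases h with rfl | rfl
  · unfold orient det2
    simp only [Prod.fst_sub, Prod.snd_sub]
    ring
  · unfold orient det2
    simp only [Prod.fst_sub, Prod.snd_sub]
    ring

theorem orient_phi_left (a b p : Pt) (h : p = a ∨ p = b) :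
    orient (D.phi a) (D.phi b) p = -(D.τ * det2 (D.phi b - D.phi a) (D.u p)) := by
  rw [phi_def, phi_def]
  rcases h with rfl | rfl
  · unfold orient det2
    simp only [Prod.fst_sub, Prod.snd_sub]
    ring
  · unfold orient det2
    simp only [Prod.fst_sub, Prod.snd_sub]
    ring

theorem four (A B C E : ℝ) (h1 : A * B < 0) (h2 : C * E < 0) (h3 : A * E < 0) (h4 : 0 < B * C) :
    False := by
  have h5 : 0 < (A * B) * (C * E) := mul_pos_of_neg_of_neg h1 h2
  have h6 : (A * E) * (B * C) < 0 := mul_neg_of_neg_of_pos h3 h4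
  have : (A * B) * (C * E) = (A * E) * (B * C) := by ring
  linarith

theorem pos_of_sign_eq {a b : ℝ} (h : SignType.sign a = SignType.sign b) (hb : b ≠ 0) :
    0 < a * b := by
  rcases lt_or_gt_of_ne hb with h' | h'
  · rw [sign_neg h'] at h
    exact mul_pos_of_neg_of_neg (sign_eq_neg_one_iff.1 h) h'
  · rw [sign_pos h'] at h
    exact mul_pos (sign_eq_one_iff.1 h) h'

/-- The moved path does not cross the old one. -/
theorem noCr_core {z : V} (hz : z ≠ x) : NoCr (D.star z) (N.path x z) := by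
  intro e he f hf hc
  obtain ⟨a, b, hab, rfl⟩ := D.seg_star hz he
  obtain ⟨c, d⟩ := f
  simp only at hc
  have hnd := N.nodup x z hz.symm
  have hlast := N.last x z hz.symm
  have hhead := N.head x z hz.symm
  obtain ⟨h1, h2, h3, h4, h5, h6⟩ := cr_ne hc
  have ha := (segs_mem hab).1
  have hb := (segs_mem hab).2
  have hc' := (segs_mem hf).1
  have hd := (segs_mem hf).2
  simp only at ha hb hc' hd
  have hab' : a ≠ b := segs_ne hnd hab
  have hτ := D.hτ
  by_cases hac : a = c
  · subst hac
    have hbd : b = d := segs_right_unique hnd hab hf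
    subst hbd
    have e1 := D.orient_phi_right a b a (Or.inl rfl)
    have e2 := D.orient_phi_right a b b (Or.inr rfl)
    obtain ⟨k1, k2⟩ := D.hseg z hz _ hab
    simp only at k1 k2
    have h := hc.2
    rw [e1, e2] at h
    rcases k2 with k2 | k2
    · rw [k2, D.huz z hz] at h
      simp [det2] at h
    · have hm : 0 < (D.s z * det2 (b - a) (D.u a)) * (D.s z * det2 (b - a) (D.u b)) :=
        mul_pos k1 k2
      have hm2 : (D.s z * det2 (b - a) (D.u a)) * (D.s z * det2 (b - a) (D.u b))
          = D.s z ^ 2 * (det2 (b - a) (D.u a) * det2 (b - a) (D.u b)) := by ring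
      rw [hm2] at hm
      have hm3 : 0 < det2 (b - a) (D.u a) * det2 (b - a) (D.u b) :=
        pos_of_mul_pos_right hm (sq_nonneg _)
      have hm4 : D.τ * det2 (b - a) (D.u a) * (D.τ * det2 (b - a) (D.u b))
          = D.τ ^ 2 * (det2 (b - a) (D.u a) * det2 (b - a) (D.u b)) := by ring
      rw [hm4] at h
      have : 0 < D.τ ^ 2 * (det2 (b - a) (D.u a) * det2 (b - a) (D.u b)) := by positivity
      linarith
  have hbd : b ≠ d := by
    intro hbd
    subst hbd
    exact hac (segs_left_unique hnd hab hf)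
  by_cases hbc : b = c
  · subst hbc
    -- consecutive segments `(a,b)`, `(b,d)`
    have hbz : b ≠ N.pos z := segs_last_ne hnd hlast hf
    obtain ⟨-, k2⟩ := D.hseg z hz _ hab
    obtain ⟨k1, -⟩ := D.hseg z hz _ hf
    simp only at k1 k2
    have k2' : 0 < D.s z * det2 (b - a) (D.u b) := by
      rcases k2 with h | h
      · exact absurd h hbz
      · exact h
    have had : a ≠ d := by
      intro had
      subst had
      -- `(a,b)` and `(b,a)` are both segments: then `Cr (phi a) (phi b) b a`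
      have e1 := D.orient_phi_right b a b (Or.inl rfl)
      have e2 := D.orient_phi_right b a a (Or.inr rfl)
      -- crossing of `(b,a)` with `(a,b)` in a simple list is impossible
      have : ∀ (l : List Pt), l.Nodup → (a, b) ∈ segs l → (b, a) ∈ segs l → False := by
        intro l
        induction l with
        | nil => intro _ h; simp [segs] at h
        | cons p l ih =>
          intro hl h1 h2
          cases l with
          | nil => simp [segs] at h1
          | cons q l =>
            rw [segs_cons_cons, List.mem_cons] at h1 h2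
            have hp := (List.nodup_cons.1 hl).1
            rcases h1 with h1 | h1 <;> rcases h2 with h2 | h2
            · simp only [Prod.mk.injEq] at h1 h2
              exact hab' (h1.1.trans h2.1.symm)
            · simp only [Prod.mk.injEq] at h1
              exact hp (by rw [← h1.1]; exact (segs_mem h2).2)
            · simp only [Prod.mk.injEq] at h2
              exact hp (by rw [← h2.1]; exact (segs_mem h1).2)
            · exact ih (List.nodup_cons.1 hl).2 h1 h2
      exact this _ hnd hab hf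
    have e1 := D.orient_phi_left a b b (Or.inr rfl)
    have e2 := D.orient_phi_right b d b (Or.inl rfl)
    have g1 : SignType.sign (orient (D.phi a) (D.phi b) d) = SignType.sign (orient a b d) :=
      D.sgn (D.B_new hz ha) (D.B_new hz hb) (D.B_old (mem_pts hz hd)) hab' hbd had
    have g2 : SignType.sign (orient b d (D.phi a)) = SignType.sign (orient b d a) :=
      D.sgn (D.B_old (mem_pts hz hb)) (D.B_old (mem_pts hz hd)) (D.B_new hz ha) hbd had.symm
        hab'.symm
    have hne : orient a b d ≠ 0 := N.gp a (mem_pts hz ha) b (mem_pts hz hb) d (mem_pts hz hd)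
      hab' hbd had
    have g3 : 0 < orient (D.phi a) (D.phi b) d * orient a b d := pos_of_sign_eq g1 hne
    have hrot : orient b d a = orient a b d := orient_rot a b d
    rw [hrot] at g2
    have g4 : 0 < orient b d (D.phi a) * orient a b d := pos_of_sign_eq g2 hne
    have g5 : 0 < orient (D.phi a) (D.phi b) d * orient b d (D.phi a) := by
      have h7 := mul_pos g3 g4
      have h8 : orient (D.phi a) (D.phi b) d * orient a b d * (orient b d (D.phi a) * orient a b d)
        = orient a b d ^ 2 * (orient (D.phi a) (D.phi b) d * orient b d (D.phi a)) := by ring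
      rw [h8] at h7
      exact pos_of_mul_pos_right h7 (sq_nonneg _)
    -- the sign of the determinant for the moved segment
    have hdet : det2 (a - b) (D.u b) ≠ 0 := by
      have : det2 (a - b) (D.u b) = -det2 (b - a) (D.u b) := by
        unfold det2; simp only [Prod.fst_sub, Prod.snd_sub]; ring
      rw [this]
      intro h0
      have h0' : det2 (b - a) (D.u b) = 0 := by linarith
      rw [h0'] at k2'
      simp at k2'
    have g6 := D.E2 b (mem_pts hz hb) a (mem_pts hz ha) hdet true true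
    have g7 : 0 < det2 (D.phi a - D.phi b) (D.u b) * det2 (a - b) (D.u b) :=
      pos_of_sign_eq g6 hdet
    have i1 : det2 (D.phi a - D.phi b) (D.u b) = -det2 (D.phi b - D.phi a) (D.u b) := by
      unfold det2; simp only [Prod.fst_sub, Prod.snd_sub]; ring
    have i2 : det2 (a - b) (D.u b) = -det2 (b - a) (D.u b) := by
      unfold det2; simp only [Prod.fst_sub, Prod.snd_sub]; ring
    rw [i1, i2, neg_mul_neg] at g7
    have g8 : 0 < det2 (D.phi b - D.phi a) (D.u b) * det2 (d - b) (D.u b) := by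
      have h7 := mul_pos g7 (mul_pos k2' k1)
      have h8 : det2 (D.phi b - D.phi a) (D.u b) * det2 (b - a) (D.u b) *
          (D.s z * det2 (b - a) (D.u b) * (D.s z * det2 (d - b) (D.u b)))
          = (D.s z * det2 (b - a) (D.u b)) ^ 2 *
            (det2 (D.phi b - D.phi a) (D.u b) * det2 (d - b) (D.u b)) := by ring
      rw [h8] at h7
      exact pos_of_mul_pos_right h7 (sq_nonneg _)
    have g9 : orient (D.phi a) (D.phi b) b * orient b d (D.phi b) < 0 := by
      rw [e1, e2]
      have : -(D.τ * det2 (D.phi b - D.phi a) (D.u b)) * (D.τ * det2 (d - b) (D.u b))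
          = -(D.τ ^ 2 * (det2 (D.phi b - D.phi a) (D.u b) * det2 (d - b) (D.u b))) := by ring
      rw [this]
      have : 0 < D.τ ^ 2 * (det2 (D.phi b - D.phi a) (D.u b) * det2 (d - b) (D.u b)) := by
        positivity
      linarith
    exact four _ _ _ _ hc.1 hc.2 g9 g5
  by_cases had : a = d
  · subst had
    -- consecutive segments `(c,a)`, `(a,b)`
    have haz : a ≠ N.pos z := segs_last_ne hnd hlast hab
    obtain ⟨k1, -⟩ := D.hseg z hz _ hab
    obtain ⟨-, k2⟩ := D.hseg z hz _ hf
    simp only at k1 k2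
    have k2' : 0 < D.s z * det2 (a - c) (D.u a) := by
      rcases k2 with h | h
      · exact absurd h haz
      · exact h
    have e1 := D.orient_phi_left a b a (Or.inl rfl)
    have e2 := D.orient_phi_right c a a (Or.inr rfl)
    have g1 : SignType.sign (orient (D.phi a) (D.phi b) c) = SignType.sign (orient a b c) :=
      D.sgn (D.B_new hz ha) (D.B_new hz hb) (D.B_old (mem_pts hz hc')) hab' hbc hac
    have g2 : SignType.sign (orient c a (D.phi b)) = SignType.sign (orient c a b) :=
      D.sgn (D.B_old (mem_pts hz hc')) (D.B_old (mem_pts hz ha)) (D.B_new hz hb) (Ne.symm hac)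
        hab' (Ne.symm hbc)
    have hne : orient a b c ≠ 0 := N.gp a (mem_pts hz ha) b (mem_pts hz hb) c (mem_pts hz hc')
      hab' hbc hac
    have g3 : 0 < orient (D.phi a) (D.phi b) c * orient a b c := pos_of_sign_eq g1 hne
    have hrot : orient c a b = orient a b c := by unfold orient; ring
    rw [hrot] at g2
    have g4 : 0 < orient c a (D.phi b) * orient a b c := pos_of_sign_eq g2 hne
    have g5 : 0 < orient (D.phi a) (D.phi b) c * orient c a (D.phi b) := by
      have h7 := mul_pos g3 g4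
      have h8 : orient (D.phi a) (D.phi b) c * orient a b c * (orient c a (D.phi b) * orient a b c)
        = orient a b c ^ 2 * (orient (D.phi a) (D.phi b) c * orient c a (D.phi b)) := by ring
      rw [h8] at h7
      exact pos_of_mul_pos_right h7 (sq_nonneg _)
    have hdet : det2 (b - a) (D.u a) ≠ 0 := by
      intro h0
      rw [h0] at k1
      simp at k1
    have g6 := D.E2 a (mem_pts hz ha) b (mem_pts hz hb) hdet true true
    have g7 : 0 < det2 (D.phi b - D.phi a) (D.u a) * det2 (b - a) (D.u a) :=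
      pos_of_sign_eq g6 hdet
    have g8 : 0 < det2 (D.phi b - D.phi a) (D.u a) * det2 (a - c) (D.u a) := by
      have h7 := mul_pos g7 (mul_pos k1 k2')
      have h8 : det2 (D.phi b - D.phi a) (D.u a) * det2 (b - a) (D.u a) *
          (D.s z * det2 (b - a) (D.u a) * (D.s z * det2 (a - c) (D.u a)))
          = (D.s z * det2 (b - a) (D.u a)) ^ 2 *
            (det2 (D.phi b - D.phi a) (D.u a) * det2 (a - c) (D.u a)) := by ring
      rw [h8] at h7
      exact pos_of_mul_pos_right h7 (sq_nonneg _)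
    have g9 : orient (D.phi a) (D.phi b) a * orient c a (D.phi a) < 0 := by
      rw [e1, e2]
      have : -(D.τ * det2 (D.phi b - D.phi a) (D.u a)) * (D.τ * det2 (a - c) (D.u a))
          = -(D.τ ^ 2 * (det2 (D.phi b - D.phi a) (D.u a) * det2 (a - c) (D.u a))) := by ring
      rw [this]
      have : 0 < D.τ ^ 2 * (det2 (D.phi b - D.phi a) (D.u a) * det2 (a - c) (D.u a)) := by
        positivity
      linarith
    have c1 := hc.1
    have c2 := hc.2
    rw [mul_comm] at c1 c2
    exact four _ _ _ _ c1 c2 g9 g5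
  · -- four different base points
    have : Cr a b c d := (D.crT (D.B_new hz ha) (D.B_new hz hb) (D.B_old (mem_pts hz hc'))
      (D.B_old (mem_pts hz hd)) hab' hac had hbc hbd (segs_ne hnd hf)).1 hc
    exact N.self x z hz.symm _ hab _ hf this

end DD

end Dup

end Pool.Agent.MP_a0a8d4_co
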