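import Pool.Agent.MP_a0a8d4_co.DupB

set_option autoImplicit false

/-!
# MP_a0a8d4_co: the one-twin lemma, part C: the new drawing
-/

namespace Pool.Agent.MP_a0a8d4_co

open MeasureTheory Set Filter
open scoped unitInterval Topology

namespace Dup

namespace DD

variable {V : Type} {N : Nice V} {x : V} (D : DD N x)

/-- Crossings of the stars of the twins: only first segments. -/
theorem first_only {z w : V} (hz : z ≠ x) (hw : w ≠ x) (hzw : z ≠ w) {e f : Pt × Pt}
    (he : e ∈ segs (D.star z)) (hf : f ∈ segs (N.path x w)) (hc : Cr e.1 e.2 f.1 f.2) :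
    ∃ b d, (N.pos x, b) ∈ segs (N.path x z) ∧ (N.pos x, d) ∈ segs (N.path x w) ∧
      e = (D.phi (N.pos x), D.phi b) ∧ f = (N.pos x, d) := by
  obtain ⟨a, b, hab, rfl⟩ := D.seg_star hz he
  obtain ⟨c, d⟩ := f
  simp only at hc
  have hnd := N.nodup x z hz.symm
  have hnd' := N.nodup x w hw.symm
  obtain ⟨h1, h2, h3, h4, h5, h6⟩ := cr_ne hc
  have ha := (segs_mem hab).1
  have hb := (segs_mem hab).2
  have hc' := (segs_mem hf).1
  have hd := (segs_mem hf).2
  simp only at ha hb hc' hd
  have hab' : a ≠ b := segs_ne hnd hab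
  have hbX : b ≠ N.pos x := segs_head_ne hnd (N.head x z hz.symm) hab
  have hdX : d ≠ N.pos x := segs_head_ne hnd' (N.head x w hw.symm) hf
  have key : ∀ t, t ∈ N.path x z → t ∈ N.path x w → t = N.pos x := by
    intro t ht ht'
    rcases common hz hw.symm ht ht' (fun h => hzw h.2) (fun h => hw h.1.symm) with h | h
    · exact h.1
    · rcases h.2 with h' | h'
      · exact absurd h' hz
      · exact absurd h' hzw
  by_cases hac : a = c
  · have haX : a = N.pos x := key a ha (by rw [hac]; exact hc')
    subst hac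
    subst haX
    exact ⟨b, d, hab, hf, rfl, rfl⟩
  · exfalso
    have : Cr a b c d := by
      refine (D.crT (D.B_new hz ha) (D.B_new hz hb) (D.B_old (mem_pts hw hc'))
        (D.B_old (mem_pts hw hd)) hab' hac ?_ ?_ ?_ h6).1 hc
      · intro h
        exact hdX (key d (by rw [← h]; exact ha) hd)
      · intro h
        exact hbX (key b hb (by rw [h]; exact hc'))
      · intro h
        exact hbX (key b hb (by rw [h]; exact hd))
    exact N.adj x z w hz.symm hw.symm hzw _ hab _ hf this

theorem sign_dec : ∀ a b c : SignType, a ≠ 0 → b ≠ 0 → c ≠ 0 →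
    ((-a) * c = -1 ∧ b * (-c) = -1 ↔ a = c ∧ b = c) := by decide

/-- The crossing criterion for the first segments. -/
theorem crit {z w : V} (hz : z ≠ x) (hw : w ≠ x) (hzw : z ≠ w) {b d : Pt}
    (hb : (N.pos x, b) ∈ segs (N.path x z)) (hd : (N.pos x, d) ∈ segs (N.path x w)) :
    Cr (D.phi (N.pos x)) (D.phi b) (N.pos x) d ↔
      SignType.sign (det2 (b - N.pos x) (D.u (N.pos x)))
        = SignType.sign (det2 (b - N.pos x) (d - N.pos x)) ∧
      SignType.sign (det2 (d - N.pos x) (D.u (N.pos x)))
        = SignType.sign (det2 (b - N.pos x) (d - N.pos x)) := by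
  have hnd := N.nodup x z hz.symm
  have hnd' := N.nodup x w hw.symm
  have hbm := (segs_mem hb).2
  have hdm := (segs_mem hd).2
  simp only at hbm hdm
  have hbX : b ≠ N.pos x := segs_head_ne hnd (N.head x z hz.symm) hb
  have hdX : d ≠ N.pos x := segs_head_ne hnd' (N.head x w hw.symm) hd
  have hbd : b ≠ d := by
    intro h
    subst h
    rcases common hz hw.symm hbm hdm (fun h => hzw h.2) (fun h => hw h.1.symm) with h | h
    · exact hbX h.1
    · rcases h.2 with h' | h'
      · exact hz h'
      · exact hzw h'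
  have hX := X_pts (N := N) hz
  have e1 := D.orient_phi_left (N.pos x) b (N.pos x) (Or.inl rfl)
  have e2 := D.orient_phi_right (N.pos x) d (N.pos x) (Or.inl rfl)
  have hdb : det2 (b - N.pos x) (D.u (N.pos x)) ≠ 0 := by
    have := (D.hseg z hz _ hb).1
    intro h0
    simp only at this
    rw [h0] at this
    simp at this
  have hdd : det2 (d - N.pos x) (D.u (N.pos x)) ≠ 0 := by
    have := (D.hseg w hw _ hd).1
    intro h0
    simp only at this
    rw [h0] at this
    simp at this
  have g0 : SignType.sign (det2 (D.phi b - D.phi (N.pos x)) (D.u (N.pos x)))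
      = SignType.sign (det2 (b - N.pos x) (D.u (N.pos x))) :=
    D.E2 (N.pos x) hX b (mem_pts hz hbm) hdb true true
  have g1 : SignType.sign (orient (D.phi (N.pos x)) (D.phi b) (N.pos x))
      = -SignType.sign (det2 (b - N.pos x) (D.u (N.pos x))) := by
    rw [e1, Left.sign_neg, sign_mul, sign_pos D.hτ, one_mul, g0]
  have g2 : SignType.sign (orient (D.phi (N.pos x)) (D.phi b) d)
      = SignType.sign (det2 (b - N.pos x) (d - N.pos x)) := by
    rw [D.sgn (D.BX' hz) (D.B_new hz hbm) (D.B_old (mem_pts hw hdm)) hbX.symm hbd hdX.symm]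
    congr 1
  have g3 : SignType.sign (orient (N.pos x) d (D.phi (N.pos x)))
      = SignType.sign (det2 (d - N.pos x) (D.u (N.pos x))) := by
    rw [e2, sign_mul, sign_pos D.hτ, one_mul]
  have g4 : SignType.sign (orient (N.pos x) d (D.phi b))
      = -SignType.sign (det2 (b - N.pos x) (d - N.pos x)) := by
    rw [D.sgn (D.B_old hX) (D.B_old (mem_pts hw hdm)) (D.B_new hz hbm) hdX.symm hbd.symm
      hbX.symm, ← Left.sign_neg]
    congr 1
    unfold orient det2
    simp only [Prod.fst_sub, Prod.snd_sub]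
    ring
  have hκ : det2 (b - N.pos x) (d - N.pos x) ≠ 0 := by
    have := N.gp (N.pos x) hX b (mem_pts hz hbm) d (mem_pts hw hdm) hbX.symm hbd hdX.symm
    intro h0
    apply this
    rw [← h0]
    rfl
  rw [Cr_iff_sign, g1, g2, g3, g4]
  exact sign_dec _ _ _ (by rwa [ne_eq, sign_eq_zero_iff]) (by rwa [ne_eq, sign_eq_zero_iff])
    (by rwa [ne_eq, sign_eq_zero_iff])

theorem noCr_star_path {a b : V} (hab : a ≠ b) : NoCr (D.star a) (N.path a b) := by
  by_cases ha : a = x
  · subst ha
    exact D.noCr_x a b hab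
  · by_cases hb : b = x
    · rw [hb, N.rev x a]
      exact (D.noCr_core ha).rev_right
    · intro e he f hf hc
      obtain ⟨c, d, hcd, rfl⟩ := D.seg_star ha he
      have := D.cr_star_old ha hab ha hb hcd (d := f.2) (c := f.1) (by simpa using hf) hc
      -- the paths `x a` and `a b` are adjacent at `a`
      have h1 := (N.adj a x b ha hab (fun h => hb h.symm))
      have h2 : (d, c) ∈ segs (N.path a x) := by
        rw [N.rev x a]
        exact segs_reverse.2 hcd
      exact h1 _ h2 _ hf (Cr_swap_left.1 this)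

theorem atMost_star_path {z a b : V} (h : [z, a, b].Nodup) : AtMost (D.star z) (N.path a b) := by
  simp only [List.nodup_cons, List.mem_cons, List.not_mem_nil, or_false, not_or,
    List.nodup_nil, and_true, not_false_eq_true] at h
  obtain ⟨⟨hza, hzb⟩, hab⟩ := h
  have twin : ∀ w, w ≠ x → z ≠ x → z ≠ w → AtMost (D.star z) (N.path x w) := by
    intro w hw hz hzw e he f hf e' he' f' hf' hc hc'
    obtain ⟨b1, d1, hb1, hd1, rfl, rfl⟩ := D.first_only hz hw hzw he hf hc
    obtain ⟨b2, d2, hb2, hd2, rfl, rfl⟩ := D.first_only hz hw hzw he' hf' hc'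
    have h1 := segs_right_unique (N.nodup x z hz.symm) hb1 hb2
    have h2 := segs_right_unique (N.nodup x w hw.symm) hd1 hd2
    rw [h1, h2]
    exact ⟨rfl, rfl⟩
  by_cases hz : z = x
  · rw [hz]
    exact (D.noCr_x a b hab).atMost
  by_cases ha : a = x
  · rw [ha]
    exact twin b (fun h => hab (ha.trans h.symm)) hz hzb
  by_cases hb : b = x
  · rw [hb, N.rev x a]
    exact (twin a ha hz hza).rev_right
  intro e he f hf e' he' f' hf' hc hc'
  obtain ⟨c, d, hcd, rfl⟩ := D.seg_star hz he
  obtain ⟨c', d', hcd', rfl⟩ := D.seg_star hz he'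
  have h1 := D.cr_star_old hz hab ha hb hcd (d := f.2) (c := f.1) (by simpa using hf) hc
  have h2 := D.cr_star_old hz hab ha hb hcd' (d := f'.2) (c := f'.1) (by simpa using hf') hc'
  have h3 := N.indep x z a b (by
    simp only [List.nodup_cons, List.mem_cons, List.not_mem_nil, or_false, not_or,
      List.nodup_nil, and_true, not_false_eq_true]
    exact ⟨⟨Ne.symm hz, Ne.symm ha, Ne.symm hb⟩, ⟨hza, hzb⟩, hab⟩)
    (c, d) hcd f hf (c', d') hcd' f' hf' h1 h2
  refine ⟨?_, h3.2⟩
  have h4 := h3.1
  simp only [Prod.mk.injEq] at h4 ⊢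
  rw [h4.1, h4.2]
  exact ⟨rfl, rfl⟩

/-! ### Shared points -/

theorem phi_old {z : V} (hz : z ≠ x) {p : Pt} (hp : p ∈ N.path x z) (h : D.phi p ∈ N.pts) :
    p = N.pos z := by
  by_contra hcon
  have h1 : D.phi p ≠ p := fun h' => D.u_ne hz hp hcon (D.phi_eq_self h')
  have h2 := D.E3 p (mem_pts hz hp) (D.phi p) h h1.symm true false
  rw [psi_false] at h2
  exact h2 rfl

theorem phi_inj {z w : V} (hz : z ≠ x) (hw : w ≠ x) {p q : Pt} (hp : p ∈ N.path x z)
    (hq : q ∈ N.path x w) (h : D.phi p = D.phi q) : p = q := by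
  by_contra hcon
  exact D.E3 p (mem_pts hz hp) q (mem_pts hw hq) hcon true true h

theorem mem_star {z : V} {a : Pt} (ha : a ∈ D.star z) :
    (z = x ∧ (a = D.phi (N.pos x) ∨ a = N.pos x)) ∨
      (z ≠ x ∧ ∃ p ∈ N.path x z, a = D.phi p) := by
  by_cases hz : z = x
  · left
    refine ⟨hz, ?_⟩
    rw [hz, star_x] at ha
    simpa using ha
  · right
    refine ⟨hz, ?_⟩
    rw [D.star_ne hz, List.mem_map] at ha
    obtain ⟨p, hp, rfl⟩ := ha
    exact ⟨p, hp, rfl⟩

theorem star_pts {z p q : V} (hpq : p ≠ q) {a : Pt} (ha : a ∈ D.star z)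
    (ha' : a ∈ N.path p q) : a = N.pos z ∧ (z = p ∨ z = q) := by
  have hT : a ∈ N.pts := mem_pts' hpq ha'
  rcases D.mem_star ha with ⟨hz, h | h⟩ | ⟨hz, p0, hp0, h⟩
  · exfalso
    have hx : ∃ z, z ≠ x := by
      by_cases h : p = x
      · exact ⟨q, fun h' => hpq (h.trans h'.symm)⟩
      · exact ⟨p, h⟩
    obtain ⟨y, hy⟩ := hx
    have h1 := D.phi_old hy (mem_head (N.head x y hy.symm)) (by rw [← h]; exact hT)
    exact hy (N.pos_inj h1).symm
  · subst hz
    rw [h] at ha' ⊢
    exact ⟨rfl, pos_mem hpq ha'⟩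
  · have h1 := D.phi_old hz hp0 (by rw [← h]; exact hT)
    have h2 : a = N.pos z := by rw [h, h1]; exact D.phi_pos hz
    refine ⟨h2, ?_⟩
    rw [h2] at ha'
    exact pos_mem hpq ha'

theorem star_star {z w : V} (hzw : z ≠ w) {a : Pt} (ha : a ∈ D.star z) (ha' : a ∈ D.star w) :
    a = D.phi (N.pos x) := by
  have one : ∀ w, w ≠ x → a ∈ D.star w → a ≠ N.pos x := by
    intro w hw h h'
    obtain ⟨h1, -⟩ | ⟨-, q, hq, h2⟩ := D.mem_star h
    · exact hw h1
    · have h3 := D.phi_old hw hq (by rw [← h2, h']; exact X_pts hw)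
      rw [h2, h3, D.phi_pos hw] at h'
      exact hw (N.pos_inj h')
  rcases D.mem_star ha with ⟨hz, h | h⟩ | ⟨hz, p, hp, h⟩
  · exact h
  · exact absurd h (one w (fun h' => hzw (hz.trans h'.symm)) ha')
  · rcases D.mem_star ha' with ⟨hw, h' | h'⟩ | ⟨hw, q, hq, h'⟩
    · exact h'
    · exact absurd h' (one z hz ha)
    · have hpq := D.phi_inj hz hw hp hq (by rw [← h, ← h'])
      subst hpq
      rcases common hz hw.symm hp hq (fun h => hzw h.2) (fun h => hw h.1.symm) with h3 | h3
      · rw [h, h3.1]
      · rcases h3.2 with h4 | h4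
        · exact absurd h4 hz
        · exact absurd h4 hzw

theorem star_B {z : V} (hx : ∃ y, y ≠ x) {a : Pt} (ha : a ∈ D.star z) : ∃ p, D.B p a := by
  obtain ⟨y, hy⟩ := hx
  rcases D.mem_star ha with ⟨hz, h | h⟩ | ⟨hz, p, hp, h⟩
  · rw [h]; exact ⟨_, D.BX' hy⟩
  · rw [h]; exact ⟨_, D.BX hy⟩
  · rw [h]; exact ⟨_, D.B_new hz hp⟩

theorem gp2 {p r c : Pt} (hp : D.B p (D.phi p)) (hne : D.phi p ≠ p) (hr : D.B r c)
    (h1 : c ≠ p) (h2 : c ≠ D.phi p) : orient p (D.phi p) c ≠ 0 := by
  have hrp : r ≠ p := by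
    intro h
    subst h
    rcases hr.2 with h | h
    · exact h1 h
    · exact h2 h.1
  obtain ⟨-, h | ⟨-, z, hz, hpz⟩⟩ := hp
  · exact absurd h hne
  have hpz' : p ≠ N.pos z := by
    intro h
    apply hne
    rw [h]
    exact D.phi_pos hz
  have hdet := D.hgen z hz p hpz hpz' r hr.1 hrp
  obtain ⟨γ, rfl⟩ := D.B_psi hr
  have hE := D.E2 p (mem_pts hz hpz) r hr.1 hdet γ false
  rw [psi_false] at hE
  have e : orient p (D.phi p) (psi D.u D.τ γ r)
      = -(D.τ * det2 (psi D.u D.τ γ r - p) (D.u p)) := by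
    rw [phi_def]
    unfold orient det2
    simp only [Prod.fst_sub, Prod.snd_sub]
    ring
  rw [e]
  have : det2 (psi D.u D.τ γ r - p) (D.u p) ≠ 0 := by
    intro h0
    rw [h0, sign_zero] at hE
    exact hdet (sign_eq_zero_iff.1 hE.symm)
  have hτ := D.hτ.ne'
  simp [this, hτ]

theorem gp2' {p a b r c : Pt} (ha : D.B p a) (hb : D.B p b) (hab : a ≠ b) (hr : D.B r c)
    (h1 : c ≠ a) (h2 : c ≠ b) : orient a b c ≠ 0 := by
  have ha2 := ha.2
  have hb2 := hb.2
  rcases ha2 with h | ⟨h, hx⟩ <;> rcases hb2 with h' | ⟨h', hx'⟩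
  · exact absurd (h.trans h'.symm) hab
  · subst h
    subst h'
    exact D.gp2 hb hab.symm hr h1 h2
  · subst h'
    subst h
    rw [orient_swap]
    exact neg_ne_zero.2 (D.gp2 ha hab hr h2 h1)
  · exact absurd (h.trans h'.symm) hab

theorem gpB {p q r a b c : Pt} (ha : D.B p a) (hb : D.B q b) (hc : D.B r c) (hab : a ≠ b)
    (hbc : b ≠ c) (hac : a ≠ c) : orient a b c ≠ 0 := by
  by_cases h1 : p = q
  · subst h1
    exact D.gp2' ha hb hab hc hac.symm hbc.symm
  by_cases h2 : q = r
  · subst h2
    rw [← orient_rot]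
    exact D.gp2' hb hc hbc ha hab hac
  by_cases h3 : p = r
  · subst h3
    have : orient a b c = -orient a c b := by unfold orient; ring
    rw [this]
    exact neg_ne_zero.2 (D.gp2' ha hc hac hb hab.symm hbc)
  have h := D.sgn ha hb hc h1 h2 h3
  have h4 := N.gp p ha.1 q hb.1 r hc.1 h1 h2 h3
  intro h0
  rw [h0, sign_zero] at h
  exact h4 (sign_eq_zero_iff.1 h.symm)

/-! ### The drawing -/

theorem star_head (z : V) : (D.star z).head? = some (D.phi (N.pos x)) := by
  by_cases hz : z = x
  · rw [hz, star_x]; rfl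
  · rw [D.star_ne hz, List.head?_map, N.head x z (Ne.symm hz)]
    rfl

theorem star_last (z : V) : (D.star z).getLast? = some (N.pos z) := by
  by_cases hz : z = x
  · rw [hz, star_x]; rfl
  · rw [D.star_ne hz, List.getLast?_map, N.last x z (Ne.symm hz), Option.map_some, D.phi_pos hz]

theorem star_nodup (z : V) : (D.star z).Nodup := by
  by_cases hz : z = x
  · rw [hz, star_x]
    simp [D.phi_X_ne]
  · rw [D.star_ne hz]
    refine List.Nodup.map_on ?_ (N.nodup x z (Ne.symm hz))
    intro p hp q hq h
    exact D.phi_inj hz hz hp hq h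

theorem star_ne_pos (z : V) : D.phi (N.pos x) ≠ N.pos z := by
  by_cases hz : z = x
  · rw [hz]
    exact D.phi_X_ne
  · exact D.B_ne (D.BX' hz) (D.B_old (mem_pts hz (mem_last (N.last x z (Ne.symm hz)))))
      (fun h => hz (N.pos_inj h).symm)

/-- The positions. -/
noncomputable def pos' : Option V → Pt
  | none => D.phi (N.pos x)
  | some a => N.pos a

/-- The paths. -/
noncomputable def path' : Option V → Option V → List Pt
  | some a, some b => N.path a b
  | none, some z => D.star z
  | some z, none => (D.star z).reverse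
  | none, none => []

/-- The new nice drawing. -/
noncomputable def drawing : Nice (Option V) where
  pos := D.pos'
  path := D.path'
  pos_inj := by
    rintro (_ | a) (_ | b) h
    · rfl
    · exact absurd h (D.star_ne_pos b)
    · exact absurd h.symm (D.star_ne_pos a)
    · rw [N.pos_inj h]
  head := by
    rintro (_ | a) (_ | b) h
    · exact absurd rfl h
    · exact D.star_head b
    · show ((D.star a).reverse).head? = _
      rw [List.head?_reverse]
      exact D.star_last a
    · exact N.head a b (fun h' => h (by rw [h']))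
  last := by
    rintro (_ | a) (_ | b) h
    · exact absurd rfl h
    · exact D.star_last b
    · show ((D.star a).reverse).getLast? = _
      rw [List.getLast?_reverse]
      exact D.star_head a
    · exact N.last a b (fun h' => h (by rw [h']))
  rev := by
    rintro (_ | a) (_ | b)
    · rfl
    · rfl
    · show D.star a = ((D.star a).reverse).reverse
      rw [List.reverse_reverse]
    · exact N.rev a b
  nodup := by
    rintro (_ | a) (_ | b) h
    · exact absurd rfl h
    · exact D.star_nodup b
    · exact List.nodup_reverse.2 (D.star_nodup a)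
    · exact N.nodup a b (fun h' => h (by rw [h']))
  share := by
    -- the two basic situations
    have S1 : ∀ z p q : V, p ≠ q → ∀ a, a ∈ D.star z → a ∈ N.path p q →
        a = D.pos' (some z) ∧ (z = p ∨ z = q) := fun z p q hpq a h h' => D.star_pts hpq h h'
    have S2 : ∀ z w : V, z ≠ w → ∀ a, a ∈ D.star z → a ∈ D.star w → a = D.pos' none :=
      fun z w hzw a h h' => D.star_star hzw h h'
    have R : ∀ z a, a ∈ (D.star z).reverse → a ∈ D.star z := fun z a h => List.mem_reverse.1 h
    rintro (_ | x1) (_ | y1) (_ | z1) (_ | w1) h1 h2 h3 h4 a ha ha'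
    · exact absurd rfl h1
    · exact absurd rfl h1
    · exact absurd rfl h1
    · exact absurd rfl h1
    · exact absurd rfl h2
    · -- none y1, none w1
      have hne : y1 ≠ w1 := fun h => h3 ⟨rfl, by rw [h]⟩
      exact ⟨none, S2 y1 w1 hne a ha ha', Or.inl rfl, Or.inl rfl⟩
    · -- none y1, z1 none
      have hne : y1 ≠ z1 := fun h => h4 ⟨rfl, by rw [h]⟩
      exact ⟨none, S2 y1 z1 hne a ha (R _ _ ha'), Or.inl rfl, Or.inr rfl⟩
    · -- none y1, z1 w1
      have hzw : z1 ≠ w1 := fun h => h2 (by rw [h])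
      obtain ⟨h5, h6⟩ := S1 y1 z1 w1 hzw a ha ha'
      exact ⟨some y1, h5, Or.inr rfl, by rcases h6 with h | h <;> simp [h]⟩
    · exact absurd rfl h2
    · -- x1 none, none w1
      have hne : x1 ≠ w1 := fun h => h4 ⟨by rw [h], rfl⟩
      exact ⟨none, S2 x1 w1 hne a (R _ _ ha) ha', Or.inr rfl, Or.inl rfl⟩
    · -- x1 none, z1 none
      have hne : x1 ≠ z1 := fun h => h3 ⟨by rw [h], rfl⟩
      exact ⟨none, S2 x1 z1 hne a (R _ _ ha) (R _ _ ha'), Or.inr rfl, Or.inr rfl⟩
    · -- x1 none, z1 w1
      have hzw : z1 ≠ w1 := fun h => h2 (by rw [h])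
      obtain ⟨h5, h6⟩ := S1 x1 z1 w1 hzw a (R _ _ ha) ha'
      exact ⟨some x1, h5, Or.inl rfl, by rcases h6 with h | h <;> simp [h]⟩
    · exact absurd rfl h2
    · -- x1 y1, none w1
      have hxy : x1 ≠ y1 := fun h => h1 (by rw [h])
      obtain ⟨h5, h6⟩ := S1 w1 x1 y1 hxy a ha' ha
      exact ⟨some w1, h5, by rcases h6 with h | h <;> simp [h], Or.inr rfl⟩
    · -- x1 y1, z1 none
      have hxy : x1 ≠ y1 := fun h => h1 (by rw [h])
      obtain ⟨h5, h6⟩ := S1 z1 x1 y1 hxy a (R _ _ ha') ha
      exact ⟨some z1, h5, by rcases h6 with h | h <;> simp [h], Or.inl rfl⟩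
    · -- all old
      obtain ⟨u, h5, h6, h7⟩ := N.share x1 y1 z1 w1 (fun h => h1 (by rw [h]))
        (fun h => h2 (by rw [h])) (fun h => h3 ⟨by rw [h.1], by rw [h.2]⟩)
        (fun h => h4 ⟨by rw [h.1], by rw [h.2]⟩) a ha ha'
      refine ⟨some u, h5, ?_, ?_⟩
      · rcases h6 with h | h <;> simp [h]
      · rcases h7 with h | h <;> simp [h]
  gp := by
    -- if there is only one old vertex, there are only two points
    by_cases hx : ∃ y, y ≠ x
    · have hB : ∀ a, (∃ y z, y ≠ z ∧ a ∈ D.path' y z) → ∃ p, D.B p a := by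
        rintro a ⟨_ | y, _ | z, hne, h⟩
        · exact absurd rfl hne
        · exact D.star_B hx h
        · exact D.star_B hx (List.mem_reverse.1 h)
        · exact ⟨a, D.B_old (mem_pts' (fun h' => hne (by rw [h'])) h)⟩
      intro a ha b hb c hc hab hbc hac
      obtain ⟨p, hp⟩ := hB a ha
      obtain ⟨q, hq⟩ := hB b hb
      obtain ⟨r, hr⟩ := hB c hc
      exact D.gpB hp hq hr hab hbc hac
    · push Not at hx
      have h2 : ∀ a, (∃ y z, y ≠ z ∧ a ∈ D.path' y z) → a = D.phi (N.pos x) ∨ a = N.pos x := by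
        rintro a ⟨_ | y, _ | z, hne, h⟩
        · exact absurd rfl hne
        · have hh : a ∈ D.star z := h
          rw [hx z, star_x] at hh
          simpa using hh
        · have hh : a ∈ D.star y := List.mem_reverse.1 h
          rw [hx y, star_x] at hh
          simpa using hh
        · exact absurd (by rw [hx y, hx z]) hne
      intro a ha b hb c hc hab hbc hac
      exfalso
      rcases h2 a ha with h | h <;> rcases h2 b hb with h' | h' <;> rcases h2 c hc with h'' | h''
      · exact hab (h.trans h'.symm)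
      · exact hab (h.trans h'.symm)
      · exact hac (h.trans h''.symm)
      · exact hbc (h'.trans h''.symm)
      · exact hbc (h'.trans h''.symm)
      · exact hac (h.trans h''.symm)
      · exact hab (h.trans h'.symm)
      · exact hab (h.trans h'.symm)
  self := by
    have key : ∀ a b : Option V, a ≠ b → NoCr (D.path' a b) (D.path' a b) := by
      rintro (_ | a) (_ | b) h
      · exact absurd rfl h
      · exact D.noCr_self b
      · exact (D.noCr_self a).rev_left.rev_right
      · exact N.self a b (fun h' => h (by rw [h']))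
    exact key
  adj := by
    have key : ∀ a b c : Option V, a ≠ b → a ≠ c → b ≠ c → NoCr (D.path' a b) (D.path' a c) := by
      rintro (_ | a) (_ | b) (_ | c) h1 h2 h3
      · exact absurd rfl h1
      · exact absurd rfl h1
      · exact absurd rfl h2
      · exact D.noCr_star (fun h => h3 (by rw [h]))
      · exact absurd rfl h3
      · exact (D.noCr_star_path (fun h => h2 (by rw [h]))).rev_left
      · exact (D.noCr_star_path (fun h => h1 (by rw [h]))).rev_left.comm
      · exact N.adj a b c (fun h => h1 (by rw [h])) (fun h => h2 (by rw [h]))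
          (fun h => h3 (by rw [h]))
    exact key
  indep := by
    have key : ∀ a b c d : Option V, [a, b, c, d].Nodup →
        AtMost (D.path' a b) (D.path' c d) := by
      intro a b c d h
      simp only [List.nodup_cons, List.mem_cons, List.not_mem_nil, or_false, not_or,
        List.nodup_nil, and_true, not_false_eq_true] at h
      obtain ⟨⟨h1, h2, h3⟩, ⟨h4, h5⟩, h6⟩ := h
      have nd : ∀ p q r : V, some p ≠ some q → some p ≠ some r → some q ≠ some r →
          [p, q, r].Nodup := by
        intro p q r k1 k2 k3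
        simp only [List.nodup_cons, List.mem_cons, List.not_mem_nil, or_false, not_or,
          List.nodup_nil, and_true, not_false_eq_true]
        exact ⟨⟨fun h => k1 (by rw [h]), fun h => k2 (by rw [h])⟩, fun h => k3 (by rw [h])⟩
      rcases a with _ | a <;> rcases b with _ | b <;> rcases c with _ | c <;>
        rcases d with _ | d
      · exact absurd rfl h1
      · exact absurd rfl h1
      · exact absurd rfl h1
      · exact absurd rfl h1
      · exact absurd rfl h6
      · exact absurd rfl h2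
      · exact absurd rfl h3
      · exact D.atMost_star_path (nd _ _ _ h4 h5 h6)
      · exact absurd rfl h6
      · exact absurd rfl h4
      · exact absurd rfl h5
      · exact (D.atMost_star_path (nd _ _ _ h2 h3 h6)).rev_left
      · exact absurd rfl h6
      · exact (D.atMost_star_path (nd _ _ _ (Ne.symm h3) (Ne.symm h5) h1)).comm
      · exact (D.atMost_star_path (nd _ _ _ (Ne.symm h2) (Ne.symm h4) h1)).rev_left.comm
      · refine N.indep a b c d ?_
        simp only [List.nodup_cons, List.mem_cons, List.not_mem_nil, or_false, not_or,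
          List.nodup_nil, and_true, not_false_eq_true]
        exact ⟨⟨fun h => h1 (by rw [h]), fun h => h2 (by rw [h]), fun h => h3 (by rw [h])⟩,
          ⟨fun h => h4 (by rw [h]), fun h => h5 (by rw [h])⟩, fun h => h6 (by rw [h])⟩
    exact key

end DD

end Dup

end Pool.Agent.MP_a0a8d4_co
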