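import Pool.Agent.MP_a0a8d4_co.JoinL

set_option autoImplicit false

/-!
# MP_a0a8d4_co: Euclidean norm, trimmed segments and chords
-/

namespace Pool.Agent.MP_a0a8d4_co

open MeasureTheory Set Filter
open scoped unitInterval Topology

/-- The Euclidean norm. -/
noncomputable def NE (u : Pt) : ℝ := ‖Complex.equivRealProdCLM.symm u‖

theorem NE_nonneg (u : Pt) : 0 ≤ NE u := norm_nonneg _

theorem NE_pos {u : Pt} (h : u ≠ 0) : 0 < NE u := by
  unfold NE
  rw [norm_pos_iff]
  simpa using h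

theorem NE_smul (t : ℝ) (u : Pt) : NE (t • u) = |t| * NE u := by
  unfold NE
  rw [map_smul, norm_smul, Real.norm_eq_abs]

theorem NE_add_le (u v : Pt) : NE (u + v) ≤ NE u + NE v := by
  unfold NE
  rw [map_add]
  exact norm_add_le _ _

theorem NE_neg (u : Pt) : NE (-u) = NE u := by
  unfold NE
  rw [map_neg, norm_neg]

theorem NE_sub_comm (u v : Pt) : NE (u - v) = NE (v - u) := by
  rw [← NE_neg, neg_sub]

theorem NE_zero : NE 0 = 0 := by unfold NE; simp

theorem NE_continuous : Continuous NE := by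
  unfold NE
  exact continuous_norm.comp Complex.equivRealProdCLM.symm.continuous

theorem NE_triangle (a b c : Pt) : NE (a - c) ≤ NE (a - b) + NE (b - c) := by
  have := NE_add_le (a - b) (b - c)
  rwa [sub_add_sub_cancel] at this

/-- Chords of a circle. -/
theorem chord_le {c u v p : Pt} {r : ℝ} (hu : NE (u - c) = r) (hv : NE (v - c) = r)
    (hp : p ∈ segment ℝ u v) : NE (p - c) ≤ r ∧ (NE (p - c) = r → p = u ∨ p = v) := by
  set E := Complex.equivRealProdCLM.symm with hE
  have hEu : E u ∈ Metric.closedBall (E c) r := by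
    rw [Metric.mem_closedBall, dist_eq_norm, ← map_sub]; exact hu.le
  have hEv : E v ∈ Metric.closedBall (E c) r := by
    rw [Metric.mem_closedBall, dist_eq_norm, ← map_sub]; exact hv.le
  have hEp : E p ∈ segment ℝ (E u) (E v) := by
    rw [segment_eq_image'] at hp ⊢
    obtain ⟨t, ht, rfl⟩ := hp
    refine ⟨t, ht, ?_⟩
    simp only [map_add, map_smul, map_sub]
  constructor
  · have := (convex_closedBall (E c) r).segment_subset hEu hEv hEp
    rw [Metric.mem_closedBall, dist_eq_norm, ← map_sub] at this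
    exact this
  · intro hpr
    by_contra hcon
    push Not at hcon
    have hne : E u ≠ E v := by
      intro h
      rw [h, segment_same, mem_singleton_iff, ← h] at hEp
      exact hcon.1 (E.injective hEp)
    have hopen : E p ∈ openSegment ℝ (E u) (E v) := by
      apply mem_openSegment_of_ne_left_right _ _ hEp
      · intro h; exact hcon.1 (E.injective h).symm
      · intro h; exact hcon.2 (E.injective h).symm
    have := openSegment_subset_ball_of_ne hEu hEv hne hopen
    rw [Metric.mem_ball, dist_eq_norm, ← map_sub] at this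
    exact this.ne hpr

/-- The point at distance `r` from `c` in the direction of `a`. -/
noncomputable def dirpt (r : ℝ) (c a : Pt) : Pt := c + (r / NE (a - c)) • (a - c)

theorem dirpt_dist {r : ℝ} {c a : Pt} (hr : 0 ≤ r) (h : a ≠ c) : NE (dirpt r c a - c) = r := by
  have h1 : 0 < NE (a - c) := NE_pos (sub_ne_zero.2 h)
  unfold dirpt
  rw [add_sub_cancel_left, NE_smul, abs_of_nonneg (by positivity), div_mul_cancel₀ _ h1.ne']

theorem mem_seg_param {a b p : Pt} : p ∈ segment ℝ a b ↔ ∃ t : ℝ, 0 ≤ t ∧ t ≤ 1 ∧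
    p = a + t • (b - a) := by
  rw [segment_eq_image']
  constructor
  · rintro ⟨t, ⟨h0, h1⟩, rfl⟩
    exact ⟨t, h0, h1, rfl⟩
  · rintro ⟨t, h0, h1, rfl⟩
    exact ⟨t, ⟨h0, h1⟩, rfl⟩

theorem dirpt_mem {r : ℝ} {c a : Pt} (hr : 0 ≤ r) (h : r < NE (a - c)) :
    dirpt r c a ∈ segment ℝ c a := by
  have h1 : 0 < NE (a - c) := lt_of_le_of_lt hr h
  rw [mem_seg_param]
  exact ⟨r / NE (a - c), by positivity, by rw [div_le_one h1]; exact h.le, rfl⟩

/-- A point of a segment is determined by its distance from the first end point. -/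
theorem eq_dirpt {r : ℝ} {c a p : Pt} (hp : p ∈ segment ℝ c a) (h : a ≠ c)
    (hr : NE (p - c) = r) : p = dirpt r c a := by
  obtain ⟨t, h0, h1, rfl⟩ := mem_seg_param.1 hp
  have h2 : 0 < NE (a - c) := NE_pos (sub_ne_zero.2 h)
  rw [add_sub_cancel_left, NE_smul, abs_of_nonneg h0] at hr
  unfold dirpt
  rw [← hr, mul_div_assoc, div_self h2.ne', mul_one]

open Classical in
/-- The trimmed segment. -/
noncomputable def tr (C : Set Pt) (r : ℝ) (e : Pt × Pt) : Pt × Pt :=
  (if e.1 ∈ C then dirpt r e.1 e.2 else e.1, if e.2 ∈ C then dirpt r e.2 e.1 else e.2)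

theorem tr_swap (C : Set Pt) (r : ℝ) (a b : Pt) : tr C r (a, b) = ((tr C r (b, a)).2, (tr C r (b, a)).1) := rfl

theorem tr_mem {C : Set Pt} {r : ℝ} {a b : Pt} (hr : 0 < r) (h : 2 * r < NE (a - b)) {x : Pt}
    (hx : x ∈ segment ℝ (tr C r (a, b)).1 (tr C r (a, b)).2) :
    x ∈ segment ℝ a b ∧ (a ∈ C → r ≤ NE (x - a)) ∧ (b ∈ C → r ≤ NE (x - b)) := by
  have hD : 0 < NE (b - a) := by rw [NE_sub_comm]; linarith
  have hab : NE (a - b) = NE (b - a) := NE_sub_comm _ _
  set D := NE (b - a) with hDdef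
  have hrD : 0 < r / D ∧ r / D < 1 / 2 := by
    constructor
    · positivity
    · rw [div_lt_iff₀ hD]; linarith
  obtain ⟨s, hs0, hs1, hs2, hs3⟩ : ∃ s : ℝ, 0 ≤ s ∧ s < 1 / 2 ∧ (a ∈ C → s = r / D) ∧
      (tr C r (a, b)).1 = a + s • (b - a) := by
    by_cases ha : a ∈ C
    · exact ⟨r / D, hrD.1.le, hrD.2, fun _ => rfl, by simp [tr, ha, dirpt, hDdef]⟩
    · exact ⟨0, le_refl _, by norm_num, fun h => absurd h ha, by simp [tr, ha]⟩
  obtain ⟨s', hs0', hs1', hs2', hs3'⟩ : ∃ s : ℝ, 0 ≤ s ∧ s < 1 / 2 ∧ (b ∈ C → s = r / D) ∧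
      (tr C r (a, b)).2 = b + s • (a - b) := by
    by_cases hb : b ∈ C
    · exact ⟨r / D, hrD.1.le, hrD.2, fun _ => rfl, by simp [tr, hb, dirpt, hDdef, hab]⟩
    · exact ⟨0, le_refl _, by norm_num, fun h => absurd h hb, by simp [tr, hb]⟩
  obtain ⟨u, hu0, hu1, hu⟩ := mem_seg_param.1 hx
  rw [hs3, hs3'] at hu
  set w := s + u * (1 - s' - s) with hw
  have hxw : x = a + w • (b - a) := by
    rw [hu, hw]
    ext
    · simp only [Prod.fst_add, Prod.smul_fst, Prod.fst_sub, smul_eq_mul]; ring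
    · simp only [Prod.snd_add, Prod.smul_snd, Prod.snd_sub, smul_eq_mul]; ring
  have h1 : 0 ≤ 1 - s' - s := by linarith
  have hws : s ≤ w := by rw [hw]; nlinarith
  have hws' : w ≤ 1 - s' := by rw [hw]; nlinarith
  have hw0 : 0 ≤ w := hs0.trans hws
  have hw1 : w ≤ 1 := by linarith
  have hxa : NE (x - a) = w * D := by
    rw [hxw, add_sub_cancel_left, NE_smul, abs_of_nonneg hw0]
  have hxb : NE (x - b) = (1 - w) * D := by
    have : x - b = (1 - w) • (a - b) := by
      rw [hxw]
      ext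
      · simp only [Prod.fst_add, Prod.smul_fst, Prod.fst_sub, smul_eq_mul]; ring
      · simp only [Prod.snd_add, Prod.smul_snd, Prod.snd_sub, smul_eq_mul]; ring
    rw [this, NE_smul, abs_of_nonneg (by linarith), hab]
  refine ⟨mem_seg_param.2 ⟨w, hw0, hw1, hxw⟩, ?_, ?_⟩
  · intro ha
    rw [hxa]
    have h3 := hs2 ha
    have h2 : s * D = r := by rw [h3, div_mul_cancel₀ _ hD.ne']
    nlinarith
  · intro hb
    rw [hxb]
    have h3 := hs2' hb
    have h2 : s' * D = r := by rw [h3, div_mul_cancel₀ _ hD.ne']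
    nlinarith

/-- The ends of a trimmed segment are different. -/
theorem tr_ne {C : Set Pt} {r : ℝ} {a b : Pt} (hr : 0 < r) (h : 2 * r < NE (a - b)) :
    (tr C r (a, b)).1 ≠ (tr C r (a, b)).2 := by
  have hab : a ≠ b := by rintro rfl; rw [sub_self, NE_zero] at h; linarith
  have h1 : NE ((tr C r (a, b)).1 - a) ≤ r := by
    by_cases ha : a ∈ C
    · have : (tr C r (a, b)).1 = dirpt r a b := by simp [tr, ha]
      rw [this, dirpt_dist hr.le (Ne.symm hab)]
    · have : (tr C r (a, b)).1 = a := by simp [tr, ha]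
      rw [this, sub_self, NE_zero]; exact hr.le
  have h2 : NE ((tr C r (a, b)).2 - b) ≤ r := by
    by_cases hb : b ∈ C
    · have : (tr C r (a, b)).2 = dirpt r b a := by simp [tr, hb]
      rw [this, dirpt_dist hr.le hab]
    · have : (tr C r (a, b)).2 = b := by simp [tr, hb]
      rw [this, sub_self, NE_zero]; exact hr.le
  intro heq
  rw [heq] at h1
  have h3 := NE_triangle a (tr C r (a, b)).2 b
  rw [NE_sub_comm a (tr C r (a, b)).2] at h3
  linarith

end Pool.Agent.MP_a0a8d4_co
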