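import Pool.Agent.MP_a0a8d4_co.Basic
import Pool.Agent.MP_a0a8d4_co.Balance

/-!
Module RN of MP_a0a8d4_co: perturbation of a robust drawing to general position.
-/

set_option autoImplicit false

namespace Pool.Agent.MP_a0a8d4_co

open Set

namespace RNAux

theorem isCompact_seg (a b : Pt) : IsCompact (segment ℝ a b) := by
  rw [segment_eq_image_lineMap]
  exact isCompact_Icc.image (AffineMap.lineMap_continuous)

theorem seg_close {a b a' b' p : Pt} {ε : ℝ} (ha : dist a' a < ε) (hb : dist b' b < ε)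
    (hp : p ∈ segment ℝ a' b') : ∃ q ∈ segment ℝ a b, dist p q < ε := by
  obtain ⟨s, t, hs, ht, hst, rfl⟩ := hp
  refine ⟨s • a + t • b, ⟨s, t, hs, ht, hst, rfl⟩, ?_⟩
  rw [dist_eq_norm] at ha hb ⊢
  have e : s • a' + t • b' - (s • a + t • b) = s • (a' - a) + t • (b' - b) := by
    rw [smul_sub, smul_sub]; abel
  rw [e]
  have h1 : ‖s • (a' - a) + t • (b' - b)‖ ≤ s * ‖a' - a‖ + t * ‖b' - b‖ := by
    refine (norm_add_le _ _).trans ?_
    rw [norm_smul, norm_smul, Real.norm_eq_abs, Real.norm_eq_abs, abs_of_nonneg hs,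
      abs_of_nonneg ht]
  have h2 : s * ‖a' - a‖ + t * ‖b' - b‖ < ε := by
    rcases eq_or_lt_of_le hs with h0 | h0
    · rw [← h0] at hst ⊢
      have : t = 1 := by linarith
      rw [this]; linarith
    · have h3 : s * ‖a' - a‖ < s * ε := mul_lt_mul_of_pos_left ha h0
      have h4 : t * ‖b' - b‖ ≤ t * ε := mul_le_mul_of_nonneg_left hb.le ht
      have h5 : s * ε + t * ε = ε := by rw [← add_mul, hst, one_mul]
      linarith
  linarith

theorem stab (a b c d : Pt) (h : Disjoint (segment ℝ a b) (segment ℝ c d)) :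
    ∃ ε : ℝ, 0 < ε ∧ ∀ a' b' c' d' : Pt, dist a' a < ε → dist b' b < ε → dist c' c < ε →
      dist d' d < ε → Disjoint (segment ℝ a' b') (segment ℝ c' d') := by
  obtain ⟨r, hr, h1⟩ := Metric.exists_pos_forall_lt_edist (isCompact_seg a b)
    (isCompact_seg c d).isClosed h
  refine ⟨r / 2, by positivity, fun a' b' c' d' ha hb hc hd => ?_⟩
  rw [Set.disjoint_left]
  intro p hp hp'
  obtain ⟨q, hq, hq'⟩ := seg_close ha hb hp
  obtain ⟨q2, hq2, hq2'⟩ := seg_close hc hd hp'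
  have h2 := h1 q hq q2 hq2
  have h3 : dist q q2 < r := by
    have := dist_triangle q p q2
    rw [dist_comm q p] at this
    linarith
  rw [edist_dist] at h2
  have h4 : ENNReal.ofReal (dist q q2) < ENNReal.ofReal r := by
    apply (ENNReal.ofReal_lt_ofReal_iff (by exact_mod_cast hr)).mpr h3
  rw [ENNReal.ofReal_coe_nnreal] at h4
  exact absurd (h2.trans h4) (lt_irrefl _)

theorem stab_fin (T : Finset Pt) : ∃ ε : ℝ, 0 < ε ∧ ∀ a ∈ T, ∀ b ∈ T, ∀ c ∈ T, ∀ d ∈ T,
    Disjoint (segment ℝ a b) (segment ℝ c d) → ∀ a' b' c' d' : Pt, dist a' a < ε →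
      dist b' b < ε → dist c' c < ε → dist d' d < ε →
      Disjoint (segment ℝ a' b') (segment ℝ c' d') := by
  classical
  have hch : ∀ q : Pt × Pt × Pt × Pt, ∃ ε : ℝ, 0 < ε ∧
      (Disjoint (segment ℝ q.1 q.2.1) (segment ℝ q.2.2.1 q.2.2.2) →
      ∀ a' b' c' d' : Pt, dist a' q.1 < ε → dist b' q.2.1 < ε → dist c' q.2.2.1 < ε →
      dist d' q.2.2.2 < ε → Disjoint (segment ℝ a' b') (segment ℝ c' d')) := by
    intro q
    by_cases h : Disjoint (segment ℝ q.1 q.2.1) (segment ℝ q.2.2.1 q.2.2.2)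
    · obtain ⟨ε, h1, h2⟩ := stab _ _ _ _ h
      exact ⟨ε, h1, fun _ => h2⟩
    · exact ⟨1, one_pos, fun h' => absurd h' h⟩
  choose ε hε0 hε using hch
  rcases (T ×ˢ T ×ˢ T ×ˢ T).eq_empty_or_nonempty with he | hne
  · refine ⟨1, one_pos, fun a ha b hb c hc d hd => ?_⟩
    have : (a, b, c, d) ∈ T ×ˢ T ×ˢ T ×ˢ T := by
      simp only [Finset.mem_product]
      exact ⟨ha, hb, hc, hd⟩
    rw [he] at this
    exact absurd this (Finset.notMem_empty _)
  · obtain ⟨q0, hq0, hmin⟩ := Finset.exists_min_image _ ε hne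
    refine ⟨ε q0, hε0 q0, fun a ha b hb c hc d hd hdis a' b' c' d' h1 h2 h3 h4 => ?_⟩
    have hmem : (a, b, c, d) ∈ T ×ˢ T ×ˢ T ×ˢ T := by
      simp only [Finset.mem_product]
      exact ⟨ha, hb, hc, hd⟩
    have hle := hmin _ hmem
    exact hε (a, b, c, d) hdis a' b' c' d' (by simp only; linarith) (by simp only; linarith)
      (by simp only; linarith) (by simp only; linarith)

/-- a point close to `a0` in general position with respect to a finite set -/
theorem exists_pt (S : Set Pt) (hS : S.Finite) (a0 : Pt) {ε : ℝ} (hε : 0 < ε) :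
    ∃ p : Pt, dist p a0 < ε ∧ p ∉ S ∧ ∀ b ∈ S, ∀ c ∈ S, b ≠ c → orient b c p ≠ 0 := by
  classical
  set D : Set Pt := (fun q : Pt × Pt => q.2 - q.1) '' {q : Pt × Pt | q.1 ∈ S ∧ q.2 ∈ S ∧ q.1 ≠ q.2} with hD
  have hfin : {q : Pt × Pt | q.1 ∈ S ∧ q.2 ∈ S ∧ q.1 ≠ q.2}.Finite :=
    (hS.prod hS).subset (fun q hq => ⟨hq.1, hq.2.1⟩)
  have hDfin : D.Finite := hfin.image _
  obtain ⟨k, hk⟩ := BalAux.exists_slope D hDfin (by
    rintro a ⟨q, hq, rfl⟩
    exact sub_ne_zero.mpr hq.2.2.symm)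
  set Z1 : Finset ℝ := hS.toFinset.image (fun b => b.1 - a0.1) with hZ1
  set Z2 : Finset ℝ := hfin.toFinset.image
    (fun q => - orient q.1 q.2 a0 / det2 (q.2 - q.1) (1, k)) with hZ2
  have hpos : 0 < ε / (1 + |k|) := by positivity
  obtain ⟨s, hs, hsZ⟩ := ((Set.Ioo_infinite hpos).sdiff (Z1 ∪ Z2).finite_toSet).nonempty
  refine ⟨(a0.1 + s, a0.2 + s * k), ?_, ?_, ?_⟩
  · rw [dist_eq_norm, Prod.norm_def]
    simp only [Prod.fst_sub, Prod.snd_sub, add_sub_cancel_left, Real.norm_eq_abs]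
    have h1 : s * (1 + |k|) < ε := by
      rw [← lt_div_iff₀ (by positivity)]
      exact hs.2
    have h0 := abs_nonneg k
    have hs0 := hs.1
    apply max_lt
    · rw [abs_of_pos hs0]; nlinarith
    · rw [abs_mul, abs_of_pos hs0]; nlinarith
  · intro hmem
    apply hsZ
    rw [Finset.mem_coe, Finset.mem_union]
    left
    rw [hZ1, Finset.mem_image]
    exact ⟨_, hS.mem_toFinset.mpr hmem, by simp⟩
  · intro b hb c hc hbc h0
    apply hsZ
    rw [Finset.mem_coe, Finset.mem_union]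
    right
    rw [hZ2, Finset.mem_image]
    have hq : ((b, c) : Pt × Pt) ∈ {q : Pt × Pt | q.1 ∈ S ∧ q.2 ∈ S ∧ q.1 ≠ q.2} := ⟨hb, hc, hbc⟩
    refine ⟨(b, c), hfin.mem_toFinset.mpr hq, ?_⟩
    have hkk : det2 (c - b) (1, k) ≠ 0 := hk _ ⟨(b, c), hq, rfl⟩
    simp only
    rw [div_eq_iff hkk]
    unfold orient det2 at *
    simp only [Prod.fst_sub, Prod.snd_sub] at *
    linear_combination -h0

theorem GP_insert {S : Set Pt} {p : Pt} (hS : GP S) (hp : p ∉ S)
    (h : ∀ b ∈ S, ∀ c ∈ S, b ≠ c → orient b c p ≠ 0) : GP (insert p S) := by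
  rintro a (rfl | ha) b (rfl | hb) c (rfl | hc) hab hbc hac
  · exact absurd rfl hab
  · exact absurd rfl hab
  · exact absurd rfl hac
  · rw [← orient_rot]
    exact h b hb c hc hbc
  · exact absurd rfl hbc
  · rw [orient_swap', neg_ne_zero]
    exact h a ha c hc hac
  · exact h a ha b hb hab
  · exact hS a ha b hb c hc hab hbc hac

theorem exists_phi (T : Finset Pt) {ε : ℝ} (hε : 0 < ε) : ∃ φ : Pt → Pt,
    (∀ a ∈ T, dist (φ a) a < ε) ∧ Set.InjOn φ T ∧ GP (φ '' T) := by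
  classical
  induction T using Finset.induction_on with
  | empty =>
    refine ⟨id, by simp, by simp, ?_⟩
    simp [GP]
  | insert a0 T ha0 ih =>
    obtain ⟨φ, h1, h2, h3⟩ := ih
    obtain ⟨p, hp1, hp2, hp3⟩ := exists_pt (φ '' T) (T.finite_toSet.image φ) a0 hε
    have hupd : ∀ a ∈ T, Function.update φ a0 p a = φ a := by
      intro a ha
      exact Function.update_of_ne (by rintro rfl; exact ha0 ha) _ _
    have himg : Function.update φ a0 p '' (T : Set Pt) = φ '' T :=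
      Set.image_congr (fun a ha => hupd a (Finset.mem_coe.mp ha))
    refine ⟨Function.update φ a0 p, ?_, ?_, ?_⟩
    · intro a ha
      rcases Finset.mem_insert.mp ha with rfl | ha
      · rw [Function.update_self]; exact hp1
      · rw [hupd a ha]; exact h1 a ha
    · rw [Finset.coe_insert, Set.injOn_insert (by exact_mod_cast ha0)]
      constructor
      · intro a ha b hb hab
        rw [hupd a ha, hupd b hb] at hab
        exact h2 ha hb hab
      · rw [himg, Function.update_self]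
        exact hp2
    · rw [Finset.coe_insert, Set.image_insert_eq, himg, Function.update_self]
      exact GP_insert h3 hp2 hp3

/-- a head of a simple polyline that lies on a segment is an end of the segment -/
theorem head_end {l : List Pt} {p : Pt} (hl : SimpleL l) (hh : l.head? = some p)
    {e : Pt × Pt} (he : e ∈ segs l) (hp : p ∈ segment ℝ e.1 e.2) : p = e.1 ∨ p = e.2 := by
  cases l with
  | nil => simp at hh
  | cons a l =>
    have hap : a = p := by simpa using hh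
    subst hap
    cases l with
    | nil => simp [segs] at he
    | cons b l =>
      have hf : ((a, b) : Pt × Pt) ∈ segs (a :: b :: l) := by
        rw [segs_cons_cons]; simp
      rcases hl.2 e he (a, b) hf a hp (left_mem_segment ℝ _ _) with h | ⟨-, h⟩ | ⟨-, h⟩
      · left; rw [h]
      · right; exact h
      · left; exact h

end RNAux

open RNAux in
theorem Robust.toNice {V : Type} [Finite V] (R : Robust V) :
    ∃ N : Nice V, ∀ x y z w, [x, y, z, w].Nodup → N.cr x y z w →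
      (Car (R.path x y) ∩ Car (R.path z w)).Nonempty := by
  classical
  have hTfin : ({a | ∃ x y, a ∈ R.path x y} ∪ range R.pos : Set Pt).Finite := by
    apply Set.Finite.union _ (Set.finite_range _)
    have : {a | ∃ x y, a ∈ R.path x y} = ⋃ x, ⋃ y, {a | a ∈ R.path x y} := by
      ext a; simp
    rw [this]
    apply Set.finite_iUnion
    intro x
    apply Set.finite_iUnion
    intro y
    exact (R.path x y).finite_toSet
  set T : Finset Pt := hTfin.toFinset with hT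
  have memT : ∀ x y, ∀ a ∈ R.path x y, a ∈ T := fun x y a ha =>
    hTfin.mem_toFinset.mpr (Or.inl ⟨x, y, ha⟩)
  have posT : ∀ x, R.pos x ∈ T := fun x => hTfin.mem_toFinset.mpr (Or.inr ⟨x, rfl⟩)
  obtain ⟨ε, hε, hstab⟩ := stab_fin T
  obtain ⟨φ, h1, h2, h3⟩ := exists_phi T hε
  have hinj : ∀ a ∈ T, ∀ b ∈ T, φ a = φ b → a = b := fun a ha b hb hab =>
    h2 (Finset.mem_coe.mpr ha) (Finset.mem_coe.mpr hb) hab
  -- crossing of images
  have hK : ∀ x y z w, ∀ e ∈ segs (R.path x y), ∀ f ∈ segs (R.path z w),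
      Cr (φ e.1) (φ e.2) (φ f.1) (φ f.2) →
      ∃ p, p ∈ segment ℝ e.1 e.2 ∧ p ∈ segment ℝ f.1 f.2 := by
    intro x y z w e he f hf hcr
    by_contra hcon
    push Not at hcon
    have hd : Disjoint (segment ℝ e.1 e.2) (segment ℝ f.1 f.2) := Set.disjoint_left.mpr hcon
    have m1 := memT x y _ (segs_mem he).1
    have m2 := memT x y _ (segs_mem he).2
    have m3 := memT z w _ (segs_mem hf).1
    have m4 := memT z w _ (segs_mem hf).2
    have hd' := hstab _ m1 _ m2 _ m3 _ m4 hd _ _ _ _ (h1 _ m1) (h1 _ m2) (h1 _ m3) (h1 _ m4)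
    obtain ⟨p, hp, -, -⟩ := Cr_inter hcr
    have hpp : p ∈ segment ℝ (φ e.1) (φ e.2) ∩ segment ℝ (φ f.1) (φ f.2) := by
      rw [hp]; exact mem_singleton p
    exact Set.disjoint_left.mp hd' hpp.1 hpp.2
  have hseg : ∀ x y, ∀ e ∈ segs ((R.path x y).map φ), ∃ e0 ∈ segs (R.path x y),
      e = (φ e0.1, φ e0.2) := by
    intro x y e he
    rw [segs_map, List.mem_map] at he
    obtain ⟨e0, h0, rfl⟩ := he
    exact ⟨e0, h0, rfl⟩
  refine ⟨⟨fun x => φ (R.pos x), fun x y => (R.path x y).map φ, ?_, ?_, ?_, ?_, ?_, ?_, ?_, ?_, ?_,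
    ?_⟩, ?_⟩
  · intro x y hxy
    exact R.pos_inj (hinj _ (posT x) _ (posT y) hxy)
  · intro x y hxy
    rw [List.head?_map, R.head x y hxy]
    rfl
  · intro x y hxy
    rw [List.getLast?_map, R.last x y hxy]
    rfl
  · intro x y
    rw [R.rev x y, List.map_reverse]
  · intro x y hxy
    apply List.Nodup.map_on _ (R.simple x y hxy).1
    intro a ha b hb hab
    exact hinj a (memT x y a ha) b (memT x y b hb) hab
  · intro x y z w hxy hzw n1 n2 a ha hb
    rw [List.mem_map] at ha hb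
    obtain ⟨a0, ha0, rfl⟩ := ha
    obtain ⟨b0, hb0, hab⟩ := hb
    have := hinj b0 (memT z w b0 hb0) a0 (memT x y a0 ha0) hab
    subst this
    obtain ⟨u, hu, hu2, hu3⟩ := R.share x y z w hxy hzw n1 n2 _ ha0 hb0
    exact ⟨u, by rw [hu], hu2, hu3⟩
  · have hsub : {a | ∃ x y, x ≠ y ∧ a ∈ (R.path x y).map φ} ⊆ φ '' T := by
      rintro a ⟨x, y, -, ha⟩
      rw [List.mem_map] at ha
      obtain ⟨a0, ha0, rfl⟩ := ha
      exact ⟨a0, Finset.mem_coe.mpr (memT x y a0 ha0), rfl⟩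
    intro a ha b hb c hc
    exact h3 a (hsub ha) b (hsub hb) c (hsub hc)
  · intro x y hxy e he f hf hcr
    obtain ⟨e0, he0, rfl⟩ := hseg x y e he
    obtain ⟨f0, hf0, rfl⟩ := hseg x y f hf
    obtain ⟨p, hp1, hp2⟩ := hK x y x y e0 he0 f0 hf0 hcr
    have hnd := Cr_nodup hcr
    rcases (R.simple x y hxy).2 e0 he0 f0 hf0 p hp1 hp2 with h | ⟨h, -⟩ | ⟨h, -⟩
    · rw [h] at hnd; simp at hnd
    · simp [h] at hnd
    · simp [h] at hnd
  · intro x y z hxy hxz hyz e he f hf hcr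
    obtain ⟨e0, he0, rfl⟩ := hseg x y e he
    obtain ⟨f0, hf0, rfl⟩ := hseg x z f hf
    obtain ⟨p, hp1, hp2⟩ := hK x y x z e0 he0 f0 hf0 hcr
    have hnd := Cr_nodup hcr
    have hpx := R.adj x y z hxy hxz hyz e0 he0 f0 hf0 p hp1 hp2
    subst hpx
    rcases head_end (R.simple x y hxy) (R.head x y hxy) he0 hp1 with h | h <;>
      rcases head_end (R.simple x z hxz) (R.head x z hxz) hf0 hp2 with h' | h' <;>
      · rw [h] at h'
        simp [h'] at hnd
  · intro x y z w hn e he f hf e' he' f' hf' hcr hcr'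
    obtain ⟨e0, he0, rfl⟩ := hseg x y e he
    obtain ⟨f0, hf0, rfl⟩ := hseg z w f hf
    obtain ⟨e1, he1, rfl⟩ := hseg x y e' he'
    obtain ⟨f1, hf1, rfl⟩ := hseg z w f' hf'
    obtain ⟨p, hp1, hp2⟩ := hK x y z w e0 he0 f0 hf0 hcr
    obtain ⟨q, hq1, hq2⟩ := hK x y z w e1 he1 f1 hf1 hcr'
    obtain ⟨k1, k2⟩ := R.indep x y z w hn e0 he0 f0 hf0 e1 he1 f1 hf1 ⟨p, hp1, hp2⟩ ⟨q, hq1, hq2⟩
    rw [k1, k2]
    exact ⟨rfl, rfl⟩
  · rintro x y z w - ⟨e, he, f, hf, hcr⟩
    obtain ⟨e0, he0, rfl⟩ := hseg x y e he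
    obtain ⟨f0, hf0, rfl⟩ := hseg z w f hf
    obtain ⟨p, hp1, hp2⟩ := hK x y z w e0 he0 f0 hf0 hcr
    exact ⟨p, ⟨e0, he0, hp1⟩, ⟨f0, hf0, hp2⟩⟩

end Pool.Agent.MP_a0a8d4_co
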