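import Pool.Agent.MP_a0a8d4_co.EucNorm

set_option autoImplicit false

/-!
# MP_a0a8d4_co: cutting the corners at the crossing points
-/

namespace Pool.Agent.MP_a0a8d4_co

open MeasureTheory Set Filter
open scoped unitInterval Topology

/-! ## Facts on simple polylines -/

theorem exists_seg_of_mem {l : List Pt} {a : Pt} (ha : a ∈ l) {e : Pt × Pt} (he : e ∈ segs l) :
    ∃ g ∈ segs l, a = g.1 ∨ a = g.2 := by
  induction l generalizing e with
  | nil => simp at ha
  | cons b l ih =>
    cases l with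
    | nil => simp [segs_single] at he
    | cons c l =>
      rcases List.mem_cons.1 ha with rfl | ha'
      · exact ⟨(a, c), by rw [segs_cons_cons]; simp, Or.inl rfl⟩
      · cases l with
        | nil =>
          simp only [List.mem_cons, List.not_mem_nil, or_false] at ha'
          subst ha'
          exact ⟨(b, a), by rw [segs_cons_cons]; simp, Or.inr rfl⟩
        | cons d l =>
          obtain ⟨g, hg, hg'⟩ := ih ha' (e := (c, d)) (by rw [segs_cons_cons]; simp)
          exact ⟨g, by rw [segs_cons_cons]; exact List.mem_cons_of_mem _ hg, hg'⟩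

/-- A bend that lies on a segment is an end point of it. -/
theorem SimpleL.end_of_mem {l : List Pt} (h : SimpleL l) {a : Pt} (ha : a ∈ l) {e : Pt × Pt}
    (he : e ∈ segs l) (hae : a ∈ segment ℝ e.1 e.2) : a = e.1 ∨ a = e.2 := by
  obtain ⟨g, hg, hg'⟩ := exists_seg_of_mem ha he
  have hag : a ∈ segment ℝ g.1 g.2 := by
    rcases hg' with h | h <;> rw [h]
    · exact left_mem_segment ℝ _ _
    · exact right_mem_segment ℝ _ _
  rcases h.2 e he g hg a hae hag with h1 | h1 | h1
  · rw [h1]; exact hg'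
  · exact Or.inr h1.2
  · exact Or.inl h1.2

theorem SimpleL.left_unique {l : List Pt} (h : SimpleL l) {a a' c : Pt} (h1 : (a, c) ∈ segs l)
    (h2 : (a', c) ∈ segs l) : a = a' := by
  rcases h.2 _ h1 _ h2 c (right_mem_segment ℝ _ _) (right_mem_segment ℝ _ _) with h3 | h3 | h3
  · exact (Prod.mk.injEq _ _ _ _ ▸ h3).1
  · exact absurd h3.1.symm (segs_ne h.1 h2)
  · exact absurd h3.1.symm (segs_ne h.1 h1)

theorem SimpleL.right_unique {l : List Pt} (h : SimpleL l) {b b' c : Pt} (h1 : (c, b) ∈ segs l)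
    (h2 : (c, b') ∈ segs l) : b = b' := by
  rcases h.2 _ h1 _ h2 c (left_mem_segment ℝ _ _) (left_mem_segment ℝ _ _) with h3 | h3 | h3
  · exact (Prod.mk.injEq _ _ _ _ ▸ h3).2
  · exact absurd h3.1.symm (segs_ne h.1 h1)
  · exact absurd h3.1.symm (segs_ne h.1 h2)

/-! ## The smoothed polyline -/

open Classical in
/-- Cut the corners at the points of `C`. -/
noncomputable def sm (C : Set Pt) (r : ℝ) : List Pt → List Pt
  | [] => []
  | [a] => [a]
  | [a, b] => [(tr C r (a, b)).1, (tr C r (a, b)).2]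
  | a :: c :: b :: l =>
    if c ∈ C then (tr C r (a, c)).1 :: (tr C r (a, c)).2 :: sm C r (c :: b :: l)
    else (tr C r (a, c)).1 :: sm C r (c :: b :: l)

theorem sm_head (C : Set Pt) (r : ℝ) (c b : Pt) (l : List Pt) :
    ∃ m, sm C r (c :: b :: l) = (tr C r (c, b)).1 :: m := by
  cases l with
  | nil => exact ⟨_, rfl⟩
  | cons d l =>
    by_cases hb : b ∈ C
    · exact ⟨_, by simp [sm, hb]; rfl⟩
    · exact ⟨_, by simp [sm, hb]; rfl⟩

/-- The properties of the smoothed polyline. -/
structure SmOf (C : Set Pt) (r : ℝ) (l m : List Pt) : Prop where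
  segs' : ∀ e ∈ segs m, (∃ f ∈ segs l, e = tr C r f) ∨
    ∃ a c b, c ∈ C ∧ (a, c) ∈ segs l ∧ (c, b) ∈ segs l ∧ e = (dirpt r c a, dirpt r c b)
  mem' : ∀ x ∈ m, (x ∈ l ∧ x ∉ C) ∨ ∃ e ∈ segs l,
    (e.1 ∈ C ∧ x = dirpt r e.1 e.2) ∨ (e.2 ∈ C ∧ x = dirpt r e.2 e.1)

theorem sm_spec (C : Set Pt) (r : ℝ) (a b : Pt) (l : List Pt) :
    SmOf C r (a :: b :: l) (sm C r (a :: b :: l)) := by
  induction l generalizing a b with
  | nil =>
    refine ⟨?_, ?_⟩
    · intro e he
      simp only [sm, segs_cons_cons, segs_single, List.mem_cons, List.not_mem_nil, or_false] at he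
      exact Or.inl ⟨(a, b), by simp [segs_cons_cons], he⟩
    · intro x hx
      simp only [sm, List.mem_cons, List.not_mem_nil, or_false] at hx
      rcases hx with hx | hx
      · by_cases ha : a ∈ C
        · right
          exact ⟨(a, b), by simp [segs_cons_cons], Or.inl ⟨ha, by rw [hx]; simp [tr, ha]⟩⟩
        · left
          have : x = a := by rw [hx]; simp [tr, ha]
          rw [this]; exact ⟨by simp, ha⟩
      · by_cases hb : b ∈ C
        · right
          exact ⟨(a, b), by simp [segs_cons_cons], Or.inr ⟨hb, by rw [hx]; simp [tr, hb]⟩⟩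
        · left
          have : x = b := by rw [hx]; simp [tr, hb]
          rw [this]; exact ⟨by simp, hb⟩
  | cons d l ih =>
    have hIH := ih b d
    obtain ⟨m, hm⟩ := sm_head C r b d l
    have hsub : ∀ e ∈ segs (b :: d :: l), e ∈ segs (a :: b :: d :: l) := by
      intro e he; rw [segs_cons_cons]; exact List.mem_cons_of_mem _ he
    have hfirst : (a, b) ∈ segs (a :: b :: d :: l) := by rw [segs_cons_cons]; simp
    have hsecond : (b, d) ∈ segs (a :: b :: d :: l) := hsub _ (by rw [segs_cons_cons]; simp)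
    have lift_segs : ∀ e ∈ segs (sm C r (b :: d :: l)),
        (∃ f ∈ segs (a :: b :: d :: l), e = tr C r f) ∨
        ∃ u c v, c ∈ C ∧ (u, c) ∈ segs (a :: b :: d :: l) ∧ (c, v) ∈ segs (a :: b :: d :: l) ∧
          e = (dirpt r c u, dirpt r c v) := by
      intro e he
      rcases hIH.segs' e he with ⟨f, hf, h⟩ | ⟨u, c, v, h1, h2, h3, h4⟩
      · exact Or.inl ⟨f, hsub f hf, h⟩
      · exact Or.inr ⟨u, c, v, h1, hsub _ h2, hsub _ h3, h4⟩
    have lift_mem : ∀ x ∈ sm C r (b :: d :: l), (x ∈ a :: b :: d :: l ∧ x ∉ C) ∨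
        ∃ e ∈ segs (a :: b :: d :: l),
        (e.1 ∈ C ∧ x = dirpt r e.1 e.2) ∨ (e.2 ∈ C ∧ x = dirpt r e.2 e.1) := by
      intro x hx
      rcases hIH.mem' x hx with ⟨h1, h2⟩ | ⟨e, he, h⟩
      · exact Or.inl ⟨List.mem_cons_of_mem _ h1, h2⟩
      · exact Or.inr ⟨e, hsub e he, h⟩
    have mem_first : (((tr C r (a, b)).1 ∈ a :: b :: d :: l ∧ (tr C r (a, b)).1 ∉ C) ∨
        ∃ e ∈ segs (a :: b :: d :: l), (e.1 ∈ C ∧ (tr C r (a, b)).1 = dirpt r e.1 e.2) ∨
          (e.2 ∈ C ∧ (tr C r (a, b)).1 = dirpt r e.2 e.1)) := by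
      by_cases ha : a ∈ C
      · right
        exact ⟨(a, b), hfirst, Or.inl ⟨ha, by simp [tr, ha]⟩⟩
      · left
        have : (tr C r (a, b)).1 = a := by simp [tr, ha]
        rw [this]; exact ⟨by simp, ha⟩
    by_cases hb : b ∈ C
    · have hsm : sm C r (a :: b :: d :: l) =
          (tr C r (a, b)).1 :: (tr C r (a, b)).2 :: sm C r (b :: d :: l) := by simp [sm, hb]
      have h2 : (tr C r (a, b)).2 = dirpt r b a := by simp [tr, hb]
      have h3 : (tr C r (b, d)).1 = dirpt r b d := by simp [tr, hb]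
      refine ⟨?_, ?_⟩
      · intro e he
        rw [hsm, hm, segs_cons_cons, segs_cons_cons, ← hm] at he
        rcases List.mem_cons.1 he with rfl | he
        · exact Or.inl ⟨(a, b), hfirst, rfl⟩
        · rcases List.mem_cons.1 he with rfl | he
          · exact Or.inr ⟨a, b, d, hb, hfirst, hsecond, by rw [h2, h3]⟩
          · exact lift_segs e he
      · intro x hx
        rw [hsm] at hx
        rcases List.mem_cons.1 hx with rfl | hx
        · exact mem_first
        · rcases List.mem_cons.1 hx with rfl | hx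
          · exact Or.inr ⟨(a, b), hfirst, Or.inr ⟨hb, h2⟩⟩
          · exact lift_mem x hx
    · have hsm : sm C r (a :: b :: d :: l) =
          (tr C r (a, b)).1 :: sm C r (b :: d :: l) := by simp [sm, hb]
      have h2 : (tr C r (a, b)).2 = b := by simp [tr, hb]
      have h3 : (tr C r (b, d)).1 = b := by simp [tr, hb]
      refine ⟨?_, ?_⟩
      · intro e he
        rw [hsm, hm, segs_cons_cons, ← hm] at he
        rcases List.mem_cons.1 he with rfl | he
        · exact Or.inl ⟨(a, b), hfirst, by rw [h3]; exact Prod.ext rfl h2.symm⟩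
        · exact lift_segs e he
      · intro x hx
        rw [hsm] at hx
        rcases List.mem_cons.1 hx with rfl | hx
        · exact mem_first
        · exact lift_mem x hx

theorem sm_first (C : Set Pt) (r : ℝ) (a b : Pt) (l : List Pt) (ha : a ∉ C) :
    (sm C r (a :: b :: l)).head? = some a := by
  obtain ⟨m, hm⟩ := sm_head C r a b l
  rw [hm]; simp [tr, ha]

theorem sm_last (C : Set Pt) (r : ℝ) (a b : Pt) (l : List Pt) (z : Pt)
    (h : (a :: b :: l).getLast? = some z) (hz : z ∉ C) :
    (sm C r (a :: b :: l)).getLast? = some z := by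
  induction l generalizing a b with
  | nil =>
    simp only [List.getLast?_cons_cons, List.getLast?_singleton, Option.some.injEq] at h
    subst h
    simp [sm, tr, hz]
  | cons d l ih =>
    have := ih b d (by simpa using h)
    by_cases hb : b ∈ C
    · simp only [sm, hb, if_true]
      rw [List.getLast?_cons, List.getLast?_cons, this]
      rfl
    · simp only [sm, hb, if_false]
      rw [List.getLast?_cons, this]
      rfl

/-- The smallness conditions on the radius. -/
structure Small (r : ℝ) (A : Set Pt) (G : Set (Pt × Pt)) : Prop where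
  pos : 0 < r
  pts : ∀ a ∈ A, ∀ b ∈ A, a ≠ b → 2 * r < NE (a - b)
  far : ∀ c ∈ A, ∀ e ∈ G, c ∉ segment ℝ e.1 e.2 → ∀ p ∈ segment ℝ e.1 e.2, r < NE (p - c)

theorem exists_small {A : Set Pt} {G : Set (Pt × Pt)} (hA : A.Finite) (hG : G.Finite) :
    ∃ r, Small r A G := by
  have h1 : ∀ᶠ r : ℝ in 𝓝[>] 0, 0 < r := self_mem_nhdsWithin
  have h2 : ∀ᶠ r : ℝ in 𝓝[>] 0, ∀ q ∈ A ×ˢ A, q.1 ≠ q.2 → 2 * r < NE (q.1 - q.2) := by
    rw [Filter.eventually_all_finite (hA.prod hA)]
    intro q _
    by_cases hq : q.1 = q.2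
    · exact Filter.Eventually.of_forall fun r h => absurd hq h
    · have hpos : 0 < NE (q.1 - q.2) := NE_pos (sub_ne_zero.2 hq)
      have : ∀ᶠ r : ℝ in 𝓝[>] 0, r < NE (q.1 - q.2) / 2 :=
        mem_nhdsWithin_of_mem_nhds (Iio_mem_nhds (by linarith))
      filter_upwards [this] with r hr _
      linarith
  have h3 : ∀ᶠ r : ℝ in 𝓝[>] 0, ∀ q ∈ A ×ˢ G, q.1 ∉ segment ℝ q.2.1 q.2.2 →
      ∀ p ∈ segment ℝ q.2.1 q.2.2, r < NE (p - q.1) := by
    rw [Filter.eventually_all_finite (hA.prod hG)]
    intro q _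
    by_cases hq : q.1 ∈ segment ℝ q.2.1 q.2.2
    · exact Filter.Eventually.of_forall fun r h => absurd hq h
    · have hcomp : IsCompact (segment ℝ q.2.1 q.2.2) := by
        rw [segment_eq_image']
        exact isCompact_Icc.image (by fun_prop)
      have hcont : ContinuousOn (fun p => NE (p - q.1)) (segment ℝ q.2.1 q.2.2) :=
        (NE_continuous.comp (continuous_id.sub continuous_const)).continuousOn
      obtain ⟨p₀, hp₀, hmin⟩ := hcomp.exists_isMinOn ⟨q.2.1, left_mem_segment ℝ _ _⟩ hcont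
      have hpos : 0 < NE (p₀ - q.1) := NE_pos (sub_ne_zero.2 (by rintro rfl; exact hq hp₀))
      have : ∀ᶠ r : ℝ in 𝓝[>] 0, r < NE (p₀ - q.1) :=
        mem_nhdsWithin_of_mem_nhds (Iio_mem_nhds hpos)
      filter_upwards [this] with r hr _ p hp
      exact lt_of_lt_of_le hr (hmin hp)
  obtain ⟨r, hr1, hr2, hr3⟩ := (h1.and (h2.and h3)).exists
  exact ⟨r, hr1, fun a ha b hb hab => hr2 (a, b) ⟨ha, hb⟩ hab,
    fun c hc e he hce p hp => hr3 (c, e) ⟨hc, he⟩ hce p hp⟩

/-! ## Separation facts -/

section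
variable {C : Set Pt} {r : ℝ} {A : Set Pt} {G : Set (Pt × Pt)}

theorem Small.dirpt_ne (h : Small r A G) {c u a : Pt} (hc : c ∈ A) (ha : a ∈ A) (hu : u ≠ c) :
    dirpt r c u ≠ a := by
  intro heq
  have h1 := dirpt_dist (a := u) (c := c) h.pos.le hu
  rw [heq] at h1
  by_cases hac : a = c
  · rw [hac, sub_self, NE_zero] at h1
    exact h.pos.ne h1
  · have := h.pts a ha c hc hac
    have := h.pos
    linarith

theorem Small.dirpt_ne' (h : Small r A G) {c u c' u' : Pt} (hc : c ∈ A) (hc' : c' ∈ A)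
    (hcc : c ≠ c') (hu : u ≠ c) (hu' : u' ≠ c') : dirpt r c u ≠ dirpt r c' u' := by
  intro heq
  have h1 := dirpt_dist (a := u) (c := c) h.pos.le hu
  have h2 := dirpt_dist (a := u') (c := c') h.pos.le hu'
  have h3 := h.pts c hc c' hc' hcc
  have h4 := NE_triangle c (dirpt r c u) c'
  rw [NE_sub_comm c (dirpt r c u), h1, heq, h2] at h4
  linarith

theorem Small.not_both (h : Small r A G) {c c' p : Pt} (hc : c ∈ A) (hc' : c' ∈ A) (hcc : c ≠ c')
    (h1 : NE (p - c) ≤ r) (h2 : NE (p - c') ≤ r) : False := by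
  have h3 := h.pts c hc c' hc' hcc
  have h4 := NE_triangle c p c'
  rw [NE_sub_comm c p] at h4
  linarith

theorem dirpt_mem_seg (h : Small r A G) {c u : Pt} (hc : c ∈ A) (hu : u ∈ A) (huc : u ≠ c) :
    dirpt r c u ∈ segment ℝ c u := by
  apply dirpt_mem h.pos.le
  have := h.pts u hu c hc huc
  have := h.pos
  linarith

/-- Points of trimmed segments are not close to points of `C`. -/
theorem far_tr (h : Small r A G) {l : List Pt} (hl : SimpleL l) (hA : ∀ a ∈ l, a ∈ A)
    (hG : ∀ e ∈ segs l, e ∈ G) {c : Pt} (hc : c ∈ l) (hcC : c ∈ C) {f : Pt × Pt}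
    (hf : f ∈ segs l) {p : Pt} (hp : p ∈ segment ℝ (tr C r f).1 (tr C r f).2) :
    r ≤ NE (p - c) := by
  have hf1 := hA _ (segs_mem hf).1
  have hf2 := hA _ (segs_mem hf).2
  have h1 := tr_mem (C := C) h.pos (h.pts f.1 hf1 f.2 hf2 (segs_ne hl.1 hf)) hp
  by_cases hcf : c ∈ segment ℝ f.1 f.2
  · rcases hl.end_of_mem hc hf hcf with h2 | h2
    · rw [h2] at hcC ⊢
      exact h1.2.1 hcC
    · rw [h2] at hcC ⊢
      exact h1.2.2 hcC
  · exact (h.far c (hA c hc) f (hG f hf) hcf p h1.1).le

theorem tr_sub (h : Small r A G) {l : List Pt} (hl : SimpleL l) (hA : ∀ a ∈ l, a ∈ A)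
    {f : Pt × Pt} (hf : f ∈ segs l) {p : Pt} (hp : p ∈ segment ℝ (tr C r f).1 (tr C r f).2) :
    p ∈ segment ℝ f.1 f.2 :=
  (tr_mem (C := C) h.pos (h.pts f.1 (hA _ (segs_mem hf).1) f.2 (hA _ (segs_mem hf).2)
    (segs_ne hl.1 hf)) hp).1

/-- A point on a chord and on a trimmed segment. -/
theorem chord_tr (h : Small r A G) {l : List Pt} (hl : SimpleL l) (hA : ∀ a ∈ l, a ∈ A)
    (hG : ∀ e ∈ segs l, e ∈ G) {c : Pt} (hc : c ∈ l) (hcC : c ∈ C) {f : Pt × Pt}
    (hf : f ∈ segs l) {p : Pt} (hp : p ∈ segment ℝ (tr C r f).1 (tr C r f).2)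
    (hp' : NE (p - c) ≤ r) :
    (c = f.1 ∧ p = dirpt r c f.2) ∨ (c = f.2 ∧ p = dirpt r c f.1) := by
  have h1 := far_tr h hl hA hG hc hcC hf hp
  have h2 : NE (p - c) = r := le_antisymm hp' h1
  have h3 := tr_sub h hl hA hf hp
  have hne := segs_ne hl.1 hf
  by_cases hcf : c ∈ segment ℝ f.1 f.2
  · rcases hl.end_of_mem hc hf hcf with h4 | h4
    · left
      refine ⟨h4, ?_⟩
      rw [h4] at h2 ⊢
      exact eq_dirpt h3 hne.symm h2
    · right
      refine ⟨h4, ?_⟩
      rw [h4] at h2 ⊢
      rw [segment_symm] at h3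
      exact eq_dirpt h3 hne h2
  · exact absurd h2 (h.far c (hA c hc) f (hG f hf) hcf p h3).ne'

theorem SmOf.seg_cond (h : Small r A G) {l m : List Pt} (hm : SmOf C r l m) (hl : SimpleL l)
    (hA : ∀ a ∈ l, a ∈ A) (hG : ∀ e ∈ segs l, e ∈ G) :
    ∀ e ∈ segs m, ∀ f ∈ segs m, ∀ p, p ∈ segment ℝ e.1 e.2 → p ∈ segment ℝ f.1 f.2 →
      e = f ∨ (e.2 = f.1 ∧ p = e.2) ∨ (f.2 = e.1 ∧ p = e.1) := by
  -- one chord and one trimmed segment
  have ct : ∀ a c b, c ∈ C → (a, c) ∈ segs l → (c, b) ∈ segs l → ∀ f ∈ segs l, ∀ p,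
      p ∈ segment ℝ (dirpt r c a) (dirpt r c b) → p ∈ segment ℝ (tr C r f).1 (tr C r f).2 →
      (dirpt r c b = (tr C r f).1 ∧ p = dirpt r c b) ∨
        ((tr C r f).2 = dirpt r c a ∧ p = dirpt r c a) := by
    intro a c b hcC hac hcb f hf p hp hq
    have hne1 : a ≠ c := segs_ne hl.1 hac
    have hne2 : c ≠ b := segs_ne hl.1 hcb
    have h1 := (chord_le (dirpt_dist h.pos.le hne1) (dirpt_dist h.pos.le hne2.symm) hp).1
    rcases chord_tr (c := c) h hl hA hG (segs_mem hcb).1 hcC hf hq h1 with ⟨h2, h3⟩ | ⟨h2, h3⟩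
    · left
      have hf' : (c, f.2) ∈ segs l := by rw [h2]; exact hf
      have hb : f.2 = b := hl.right_unique hf' hcb
      rw [hb] at h3
      have hC' : f.1 ∈ C := by rw [← h2]; exact hcC
      refine ⟨?_, h3⟩
      simp only [tr, hC', if_true]
      rw [← h2, hb]
    · right
      have hf' : (f.1, c) ∈ segs l := by rw [h2]; exact hf
      have hb : f.1 = a := hl.left_unique hf' hac
      rw [hb] at h3
      have hC' : f.2 ∈ C := by rw [← h2]; exact hcC
      refine ⟨?_, h3⟩
      simp only [tr, hC', if_true]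
      rw [← h2, hb]
  intro e he f hf p hp hq
  rcases hm.segs' e he with ⟨e0, he0, rfl⟩ | ⟨a, c, b, hcC, hac, hcb, rfl⟩
  · rcases hm.segs' f hf with ⟨f0, hf0, rfl⟩ | ⟨a', c', b', hcC', hac', hcb', rfl⟩
    · have hp1 := tr_sub h hl hA he0 hp
      have hq1 := tr_sub h hl hA hf0 hq
      rcases hl.2 e0 he0 f0 hf0 p hp1 hq1 with h1 | ⟨h1, h2⟩ | ⟨h1, h2⟩
      · exact Or.inl (by rw [h1])
      · by_cases hC : e0.2 ∈ C
        · have := far_tr h hl hA hG (segs_mem he0).2 hC he0 hp
          rw [h2, sub_self, NE_zero] at this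
          exact absurd h.pos (not_lt.2 this)
        · right; left
          have hC' : f0.1 ∉ C := by rw [← h1]; exact hC
          simp only [tr, hC, hC', if_false]
          exact ⟨h1, h2⟩
      · by_cases hC : e0.1 ∈ C
        · have := far_tr h hl hA hG (segs_mem he0).1 hC he0 hp
          rw [h2, sub_self, NE_zero] at this
          exact absurd h.pos (not_lt.2 this)
        · right; right
          have hC' : f0.2 ∉ C := by rw [h1]; exact hC
          simp only [tr, hC, hC', if_false]
          exact ⟨h1, h2⟩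
    · rcases ct a' c' b' hcC' hac' hcb' e0 he0 p hq hp with ⟨h1, h2⟩ | ⟨h1, h2⟩
      · exact Or.inr (Or.inr ⟨h1, by rw [h2]; exact h1⟩)
      · exact Or.inr (Or.inl ⟨h1, by rw [h2]; exact h1.symm⟩)
  · rcases hm.segs' f hf with ⟨f0, hf0, rfl⟩ | ⟨a', c', b', hcC', hac', hcb', rfl⟩
    · rcases ct a c b hcC hac hcb f0 hf0 p hp hq with ⟨h1, h2⟩ | ⟨h1, h2⟩
      · exact Or.inr (Or.inl ⟨h1, h2⟩)
      · exact Or.inr (Or.inr ⟨h1, h2⟩)
    · by_cases hcc : c = c'
      · subst hcc
        left
        rw [hl.left_unique hac hac', hl.right_unique hcb hcb']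
      · exfalso
        have h1 := (chord_le (dirpt_dist h.pos.le (segs_ne hl.1 hac))
          (dirpt_dist h.pos.le (segs_ne hl.1 hcb).symm) hp).1
        have h2 := (chord_le (dirpt_dist h.pos.le (segs_ne hl.1 hac'))
          (dirpt_dist h.pos.le (segs_ne hl.1 hcb').symm) hq).1
        exact h.not_both (hA _ (segs_mem hcb).1) (hA _ (segs_mem hcb').1) hcc h1 h2

theorem segs_snd_mem {b : Pt} {m : List Pt} {e : Pt × Pt} (h : e ∈ segs (b :: m)) : e.2 ∈ m := by
  unfold segs at h
  have h' : (e.1, e.2) ∈ (b :: m).zip m := h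
  exact (List.of_mem_zip h').2

theorem SimpleL.tail {a : Pt} {l : List Pt} (h : SimpleL (a :: l)) : SimpleL l := by
  refine ⟨(List.nodup_cons.1 h.1).2, ?_⟩
  have hsub : ∀ e ∈ segs l, e ∈ segs (a :: l) := by
    intro e he
    cases l with
    | nil => simp [segs_nil] at he
    | cons b l => rw [segs_cons_cons]; exact List.mem_cons_of_mem _ he
  intro e he f hf
  exact h.2 e (hsub e he) f (hsub f hf)

theorem sm_nodup (h : Small r A G) : ∀ l : List Pt, SimpleL l → (∀ a ∈ l, a ∈ A) →
    (sm C r l).Nodup := by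
  intro l
  induction l with
  | nil => intro _ _; simp [sm]
  | cons a l ih =>
    intro hl hA
    cases l with
    | nil => simp [sm]
    | cons b l =>
      have hab : (a, b) ∈ segs (a :: b :: l) := by rw [segs_cons_cons]; simp
      have hne : a ≠ b := segs_ne hl.1 hab
      have haA : a ∈ A := hA a (by simp)
      have hbA : b ∈ A := hA b (by simp)
      have htr : (tr C r (a, b)).1 ≠ (tr C r (a, b)).2 := tr_ne h.pos (h.pts a haA b hbA hne)
      cases l with
      | nil =>
        simp only [sm, List.nodup_cons, List.mem_cons, List.not_mem_nil, or_false,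
          not_false_eq_true, List.nodup_nil, and_true]
        exact htr
      | cons d l =>
        have hl' := hl.tail
        have hA' : ∀ x ∈ b :: d :: l, x ∈ A := fun x hx => hA x (List.mem_cons_of_mem _ hx)
        have hIH := ih hl' hA'
        have hspec := sm_spec C r b d l
        have hanot : a ∉ b :: d :: l := (List.nodup_cons.1 hl.1).1
        have key0 : (tr C r (a, b)).1 ∉ sm C r (b :: d :: l) := by
          intro hmem
          by_cases haC : a ∈ C
          · have e1 : (tr C r (a, b)).1 = dirpt r a b := by simp [tr, haC]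
            rw [e1] at hmem
            rcases hspec.mem' _ hmem with ⟨h1, _⟩ | ⟨e, he, ⟨_, h1⟩ | ⟨_, h1⟩⟩
            · exact h.dirpt_ne haA (hA' _ h1) hne.symm rfl
            · have hene := segs_ne hl'.1 he
              exact h.dirpt_ne' haA (hA' _ (segs_mem he).1)
                (fun h' => hanot (by rw [h']; exact (segs_mem he).1)) hne.symm hene.symm h1
            · have hene := segs_ne hl'.1 he
              exact h.dirpt_ne' haA (hA' _ (segs_mem he).2)
                (fun h' => hanot (by rw [h']; exact (segs_mem he).2)) hne.symm hene h1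
          · have e1 : (tr C r (a, b)).1 = a := by simp [tr, haC]
            rw [e1] at hmem
            rcases hspec.mem' _ hmem with ⟨h1, _⟩ | ⟨e, he, ⟨_, h1⟩ | ⟨_, h1⟩⟩
            · exact hanot h1
            · have hene := segs_ne hl'.1 he
              exact h.dirpt_ne (hA' _ (segs_mem he).1) haA hene.symm h1.symm
            · have hene := segs_ne hl'.1 he
              exact h.dirpt_ne (hA' _ (segs_mem he).2) haA hene h1.symm
        by_cases hb : b ∈ C
        · have hsm : sm C r (a :: b :: d :: l) =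
              (tr C r (a, b)).1 :: (tr C r (a, b)).2 :: sm C r (b :: d :: l) := by simp [sm, hb]
          have e2 : (tr C r (a, b)).2 = dirpt r b a := by simp [tr, hb]
          rw [hsm, List.nodup_cons, List.nodup_cons, List.mem_cons, not_or]
          refine ⟨⟨htr, key0⟩, ?_, hIH⟩
          rw [e2]
          intro hmem
          rcases hspec.mem' _ hmem with ⟨h1, _⟩ | ⟨e, he, ⟨_, h1⟩ | ⟨_, h1⟩⟩
          · exact h.dirpt_ne hbA (hA' _ h1) hne rfl
          · have hene := segs_ne hl'.1 he
            by_cases hbe : b = e.1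
            · -- the same circle
              have he' : (b, e.2) ∈ segs (a :: b :: d :: l) := by
                have heq : (b, e.2) = e := by rw [hbe]
                rw [heq, segs_cons_cons]
                exact List.mem_cons_of_mem _ he
              rw [← hbe] at h1 hene
              have p1 : dirpt r b a ∈ segment ℝ a b := by
                rw [segment_symm]; exact dirpt_mem_seg h hbA haA hne
              have p2 : dirpt r b a ∈ segment ℝ b e.2 := by
                rw [h1]; exact dirpt_mem_seg h hbA (hA' _ (segs_mem he).2) hene.symm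
              rcases hl.2 _ hab _ he' _ p1 p2 with h3 | ⟨_, h3⟩ | ⟨_, h3⟩
              · exact hne (Prod.mk.injEq _ _ _ _ ▸ h3).1
              · exact h.dirpt_ne hbA hbA hne h3
              · exact h.dirpt_ne hbA haA hne h3
            · exact h.dirpt_ne' hbA (hA' _ (segs_mem he).1) hbe hne hene.symm h1
          · have hene := segs_ne hl'.1 he
            have hbe : b ≠ e.2 := by
              intro h'
              have := segs_snd_mem he
              rw [← h'] at this
              exact (List.nodup_cons.1 hl'.1).1 this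
            exact h.dirpt_ne' hbA (hA' _ (segs_mem he).2) hbe hne hene h1
        · have hsm : sm C r (a :: b :: d :: l) =
              (tr C r (a, b)).1 :: sm C r (b :: d :: l) := by simp [sm, hb]
          rw [hsm, List.nodup_cons]
          exact ⟨key0, hIH⟩

theorem sm_simple (h : Small r A G) (a b : Pt) (l : List Pt) (hl : SimpleL (a :: b :: l))
    (hA : ∀ x ∈ a :: b :: l, x ∈ A) (hG : ∀ e ∈ segs (a :: b :: l), e ∈ G) :
    SimpleL (sm C r (a :: b :: l)) :=
  ⟨sm_nodup h _ hl hA, (sm_spec C r a b l).seg_cond h hl hA hG⟩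

end

theorem SmOf.reverse {C : Set Pt} {r : ℝ} {l m : List Pt} (h : SmOf C r l m) :
    SmOf C r l.reverse m.reverse := by
  refine ⟨?_, ?_⟩
  · rintro ⟨u, v⟩ he
    rcases h.segs' _ (segs_reverse.1 he) with ⟨⟨a, b⟩, hf, h1⟩ | ⟨a, c, b, h1, h2, h3, h4⟩
    · left
      refine ⟨(b, a), segs_reverse.2 hf, ?_⟩
      rw [tr_swap, ← h1]
    · right
      refine ⟨b, c, a, h1, segs_reverse.2 h3, segs_reverse.2 h2, ?_⟩
      rw [Prod.mk.injEq] at h4 ⊢
      exact ⟨h4.2, h4.1⟩
  · intro x hx
    rcases h.mem' x (List.mem_reverse.1 hx) with ⟨h1, h2⟩ | ⟨⟨a, b⟩, he, h1⟩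
    · exact Or.inl ⟨List.mem_reverse.2 h1, h2⟩
    · right
      refine ⟨(b, a), segs_reverse.2 he, ?_⟩
      rcases h1 with h1 | h1
      · exact Or.inr h1
      · exact Or.inl h1

theorem Semi.toRobust {V : Type} [Finite V] {C : Set Pt} (R : Semi V C) :
    ∃ R' : Robust V, ∀ x y z w, [x, y, z, w].Nodup →
      (Car (R'.path x y) ∩ Car (R'.path z w)).Nonempty →
        (Car (R.path x y) ∩ Car (R.path z w)).Nonempty := by
  classical
  let _ : LinearOrder V := linearOrderOfSTO WellOrderingRel
  let A : Set Pt := {a | ∃ x y, x ≠ y ∧ a ∈ R.path x y}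
  let G : Set (Pt × Pt) := {e | ∃ x y, x ≠ y ∧ e ∈ segs (R.path x y)}
  have hAfin : A.Finite := by
    have : A ⊆ ⋃ q : V × V, {a | a ∈ R.path q.1 q.2} := by
      rintro a ⟨x, y, _, ha⟩
      exact mem_iUnion.2 ⟨(x, y), ha⟩
    exact (Set.finite_iUnion fun q => List.finite_toSet _).subset this
  have hGfin : G.Finite := by
    have : G ⊆ ⋃ q : V × V, {e | e ∈ segs (R.path q.1 q.2)} := by
      rintro e ⟨x, y, _, he⟩
      exact mem_iUnion.2 ⟨(x, y), he⟩
    exact (Set.finite_iUnion fun q => List.finite_toSet _).subset this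
  obtain ⟨r, hr⟩ := exists_small hAfin hGfin
  have hA : ∀ x y, x ≠ y → ∀ a ∈ R.path x y, a ∈ A := fun x y hxy a ha => ⟨x, y, hxy, ha⟩
  have hG : ∀ x y, x ≠ y → ∀ e ∈ segs (R.path x y), e ∈ G := fun x y hxy e he => ⟨x, y, hxy, he⟩
  have hshape : ∀ x y, x ≠ y → ∃ b l, R.path x y = R.pos x :: b :: l := by
    intro x y hxy
    obtain ⟨l, hl⟩ := List.head?_eq_some_iff.1 (R.head x y hxy)
    cases l with
    | nil =>
      exfalso
      have h1 := R.last x y hxy
      rw [hl] at h1
      simp only [List.getLast?_singleton, Option.some.injEq] at h1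
      exact hxy (R.pos_inj h1)
    | cons b l => exact ⟨b, l, hl⟩
  let path : V → V → List Pt := fun x y =>
    if x < y then sm C r (R.path x y) else if y < x then (sm C r (R.path y x)).reverse else []
  have path_lt : ∀ x y, x < y → path x y = sm C r (R.path x y) := by
    intro x y h; simp only [path, if_pos h]
  have path_gt : ∀ x y, y < x → path x y = (sm C r (R.path y x)).reverse := by
    intro x y h; simp only [path, if_neg (lt_asymm h), if_pos h]
  have hsm : ∀ x y, x ≠ y → (sm C r (R.path x y)).head? = some (R.pos x) ∧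
      (sm C r (R.path x y)).getLast? = some (R.pos y) ∧ SimpleL (sm C r (R.path x y)) ∧
      SmOf C r (R.path x y) (sm C r (R.path x y)) := by
    intro x y hxy
    obtain ⟨b, l, hl⟩ := hshape x y hxy
    have h1 := R.last x y hxy
    have h2 := R.simple x y hxy
    have h3 := hA x y hxy
    have h4 := hG x y hxy
    rw [hl] at h1 h2 h3 h4 ⊢
    exact ⟨sm_first C r _ _ _ (R.pos_not x), sm_last C r _ _ _ _ h1 (R.pos_not y),
      sm_simple hr _ _ _ h2 h3 h4, sm_spec C r _ _ _⟩
  have hP : ∀ x y, x ≠ y → (path x y).head? = some (R.pos x) ∧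
      (path x y).getLast? = some (R.pos y) ∧ SimpleL (path x y) ∧
      SmOf C r (R.path x y) (path x y) := by
    intro x y hxy
    rcases lt_or_gt_of_ne hxy with h | h
    · rw [path_lt x y h]; exact hsm x y hxy
    · rw [path_gt x y h]
      obtain ⟨h1, h2, h3, h4⟩ := hsm y x hxy.symm
      refine ⟨?_, ?_, h3.reverse, ?_⟩
      · rw [List.head?_reverse, h2]
      · rw [List.getLast?_reverse, h1]
      · rw [R.rev y x]; exact h4.reverse
  have segCar : ∀ {l : List Pt} {e : Pt × Pt} {p : Pt}, e ∈ segs l → p ∈ segment ℝ e.1 e.2 →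
      p ∈ Car l := fun he hp => ⟨_, he, hp⟩
  -- a chord and a trimmed segment of different edges do not meet
  have ct : ∀ x y z w, x ≠ y → z ≠ w → ¬ (x = z ∧ y = w) → ¬ (x = w ∧ y = z) →
      ∀ a c b, c ∈ C → (a, c) ∈ segs (R.path x y) → (c, b) ∈ segs (R.path x y) →
      ∀ f ∈ segs (R.path z w), ∀ p, p ∈ segment ℝ (dirpt r c a) (dirpt r c b) →
      p ∈ segment ℝ (tr C r f).1 (tr C r f).2 → False := by
    intro x y z w hxy hzw h1 h2 a c b hcC hac hcb f hf p hp hq
    have hne1 : a ≠ c := segs_ne (R.simple x y hxy).1 hac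
    have hne2 : c ≠ b := segs_ne (R.simple x y hxy).1 hcb
    have hcA : c ∈ A := hA x y hxy c (segs_mem hcb).1
    have haA : a ∈ A := hA x y hxy a (segs_mem hac).1
    have hbA : b ∈ A := hA x y hxy b (segs_mem hcb).2
    have hch := chord_le (dirpt_dist hr.pos.le hne1) (dirpt_dist hr.pos.le hne2.symm) hp
    have hq0 : p ∈ segment ℝ f.1 f.2 := tr_sub hr (R.simple z w hzw) (hA z w hzw) hf hq
    by_cases hcf : c ∈ segment ℝ f.1 f.2
    · have hcc : c ∈ Car (R.path x y) := segCar hcb (left_mem_segment ℝ _ _)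
      have hcl : c ∈ R.path z w := (R.meet x y z w hxy hzw h1 h2 c hcc (segCar hf hcf)).2.1
      have hfar := far_tr hr (R.simple z w hzw) (hA z w hzw) (hG z w hzw) hcl hcC hf hq
      have hpx : p ∈ Car (R.path x y) ∧ p ∉ A := by
        rcases hch.2 (le_antisymm hch.1 hfar) with h3 | h3
        · rw [h3]
          refine ⟨segCar hac ?_, fun h => hr.dirpt_ne hcA h hne1 rfl⟩
          have := dirpt_mem_seg hr hcA haA hne1
          rwa [segment_symm] at this
        · rw [h3]
          exact ⟨segCar hcb (dirpt_mem_seg hr hcA hbA hne2.symm),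
            fun h => hr.dirpt_ne hcA h hne2.symm rfl⟩
      exact hpx.2 (hA x y hxy p (R.meet x y z w hxy hzw h1 h2 p hpx.1 (segCar hf hq0)).1)
    · exact absurd (hr.far c hcA f (hG z w hzw f hf) hcf p hq0) (not_lt.2 hch.1)
  -- the key claim
  have key : ∀ x y z w, x ≠ y → z ≠ w → ¬ (x = z ∧ y = w) → ¬ (x = w ∧ y = z) →
      ∀ e ∈ segs (path x y), ∀ f ∈ segs (path z w), ∀ p, p ∈ segment ℝ e.1 e.2 →
      p ∈ segment ℝ f.1 f.2 →
      (p ∈ Car (R.path x y) ∧ p ∈ Car (R.path z w) ∧ ∃ u, p = R.pos u) ∨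
      ∃ c a b a' b', c ∈ C ∧ (a, c) ∈ segs (R.path x y) ∧ (c, b) ∈ segs (R.path x y) ∧
        (a', c) ∈ segs (R.path z w) ∧ (c, b') ∈ segs (R.path z w) ∧
        e = (dirpt r c a, dirpt r c b) ∧ f = (dirpt r c a', dirpt r c b') := by
    intro x y z w hxy hzw h1 h2 e he f hf p hp hq
    rcases (hP x y hxy).2.2.2.segs' e he with ⟨e0, he0, rfl⟩ | ⟨a, c, b, hcC, hac, hcb, rfl⟩
    · rcases (hP z w hzw).2.2.2.segs' f hf with ⟨f0, hf0, rfl⟩ | ⟨a', c', b', hcC', hac', hcb', rfl⟩
      · left
        have hp0 := tr_sub hr (R.simple x y hxy) (hA x y hxy) he0 hp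
        have hq0 := tr_sub hr (R.simple z w hzw) (hA z w hzw) hf0 hq
        have hm := R.meet x y z w hxy hzw h1 h2 p (segCar he0 hp0) (segCar hf0 hq0)
        refine ⟨segCar he0 hp0, segCar hf0 hq0, ?_⟩
        rcases hm.2.2 with h3 | h3
        · exfalso
          have := far_tr hr (R.simple x y hxy) (hA x y hxy) (hG x y hxy) hm.1 h3 he0 hp
          rw [sub_self, NE_zero] at this
          exact absurd hr.pos (not_lt.2 this)
        · exact h3
      · exfalso
        exact ct z w x y hzw hxy (fun h => h1 ⟨h.1.symm, h.2.symm⟩)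
          (fun h => h2 ⟨h.2.symm, h.1.symm⟩) a' c' b' hcC' hac' hcb' e0 he0 p hq hp
    · rcases (hP z w hzw).2.2.2.segs' f hf with ⟨f0, hf0, rfl⟩ | ⟨a', c', b', hcC', hac', hcb', rfl⟩
      · exfalso
        exact ct x y z w hxy hzw h1 h2 a c b hcC hac hcb f0 hf0 p hp hq
      · by_cases hcc : c = c'
        · subst hcc
          right
          exact ⟨c, a, b, a', b', hcC, hac, hcb, hac', hcb', rfl, rfl⟩
        · exfalso
          have e1 := segs_ne (R.simple x y hxy).1 hac
          have e2 := segs_ne (R.simple x y hxy).1 hcb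
          have e3 := segs_ne (R.simple z w hzw).1 hac'
          have e4 := segs_ne (R.simple z w hzw).1 hcb'
          have h3 := (chord_le (dirpt_dist hr.pos.le e1) (dirpt_dist hr.pos.le e2.symm) hp).1
          have h4 := (chord_le (dirpt_dist hr.pos.le e3) (dirpt_dist hr.pos.le e4.symm) hq).1
          exact hr.not_both (hA x y hxy c (segs_mem hcb).1) (hA z w hzw c' (segs_mem hcb').1) hcc
            h3 h4
  -- a new bend is not on any other edge
  have hnew : ∀ x y z w, x ≠ y → z ≠ w → ¬ (x = z ∧ y = w) → ¬ (x = w ∧ y = z) →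
      ∀ e ∈ segs (R.path x y), ((e.1 ∈ C ∧ dirpt r e.1 e.2 ∈ Car (R.path z w)) → False) ∧
        ((e.2 ∈ C ∧ dirpt r e.2 e.1 ∈ Car (R.path z w)) → False) := by
    intro x y z w hxy hzw h1 h2 e he
    have hne := segs_ne (R.simple x y hxy).1 he
    have h1A := hA x y hxy _ (segs_mem he).1
    have h2A := hA x y hxy _ (segs_mem he).2
    constructor
    · rintro ⟨_, h4⟩
      have h5 : dirpt r e.1 e.2 ∈ Car (R.path x y) := segCar he (dirpt_mem_seg hr h1A h2A hne.symm)
      exact hr.dirpt_ne h1A (hA x y hxy _ (R.meet x y z w hxy hzw h1 h2 _ h5 h4).1) hne.symm rfl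
    · rintro ⟨_, h4⟩
      have h5 : dirpt r e.2 e.1 ∈ Car (R.path x y) := by
        apply segCar he
        rw [segment_symm]
        exact dirpt_mem_seg hr h2A h1A hne
      exact hr.dirpt_ne h2A (hA x y hxy _ (R.meet x y z w hxy hzw h1 h2 _ h5 h4).1) hne rfl
  have hexseg : ∀ x y, x ≠ y → ∃ e, e ∈ segs (R.path x y) := by
    intro x y hxy
    obtain ⟨b, l, hl⟩ := hshape x y hxy
    exact ⟨(R.pos x, b), by rw [hl, segs_cons_cons]; simp⟩
  have memCar : ∀ x y, x ≠ y → ∀ a ∈ R.path x y, a ∈ Car (R.path x y) := by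
    intro x y hxy a ha
    obtain ⟨e, he⟩ := hexseg x y hxy
    obtain ⟨g, hg, hg'⟩ := exists_seg_of_mem ha he
    rcases hg' with h | h
    · rw [h]; exact segCar hg (left_mem_segment ℝ _ _)
    · rw [h]; exact segCar hg (right_mem_segment ℝ _ _)
  let R' : Robust V :=
    { pos := R.pos
      path := path
      pos_inj := R.pos_inj
      head := fun x y hxy => (hP x y hxy).1
      last := fun x y hxy => (hP x y hxy).2.1
      rev := by
        intro x y
        rcases lt_trichotomy x y with h | h | h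
        · rw [path_lt x y h, path_gt y x h]
        · subst h
          simp [path]
        · rw [path_gt x y h, path_lt y x h, List.reverse_reverse]
      simple := fun x y hxy => (hP x y hxy).2.2.1
      share := by
        intro x y z w hxy hzw h1 h2 a ha ha'
        rcases (hP x y hxy).2.2.2.mem' a ha with ⟨h3, h3'⟩ | ⟨e, he, h3⟩
        · rcases (hP z w hzw).2.2.2.mem' a ha' with ⟨h4, h4'⟩ | ⟨f, hf, h4⟩
          · have c1 := memCar x y hxy a h3
            have c2 := memCar z w hzw a h4
            rcases (R.meet x y z w hxy hzw h1 h2 a c1 c2).2.2 with h5 | ⟨u, rfl⟩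
            · exact absurd h5 h3'
            · exact ⟨u, rfl, R.vert x y u hxy c1, R.vert z w u hzw c2⟩
          · exfalso
            have hne := segs_ne (R.simple z w hzw).1 hf
            rcases h4 with ⟨_, h5⟩ | ⟨_, h5⟩
            · exact hr.dirpt_ne (hA z w hzw _ (segs_mem hf).1) (hA x y hxy a h3) hne.symm h5.symm
            · exact hr.dirpt_ne (hA z w hzw _ (segs_mem hf).2) (hA x y hxy a h3) hne h5.symm
        · exfalso
          have hne := segs_ne (R.simple x y hxy).1 he
          have hcar : a ∈ Car (R.path z w) := by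
            rcases (hP z w hzw).2.2.2.mem' a ha' with ⟨h4, h4'⟩ | ⟨f, hf, h4⟩
            · exact memCar z w hzw a h4
            · have hnf := segs_ne (R.simple z w hzw).1 hf
              have f1A := hA z w hzw _ (segs_mem hf).1
              have f2A := hA z w hzw _ (segs_mem hf).2
              rcases h4 with ⟨_, h5⟩ | ⟨_, h5⟩
              · rw [h5]; exact segCar hf (dirpt_mem_seg hr f1A f2A hnf.symm)
              · rw [h5]
                apply segCar hf
                rw [segment_symm]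
                exact dirpt_mem_seg hr f2A f1A hnf
          have := hnew x y z w hxy hzw h1 h2 e he
          rcases h3 with ⟨h5, h6⟩ | ⟨h5, h6⟩
          · rw [h6] at hcar
            exact this.1 ⟨h5, hcar⟩
          · rw [h6] at hcar
            exact this.2 ⟨h5, hcar⟩
      adj := by
        intro x y z hxy hxz hyz e he f hf p hp hq
        rcases key x y x z hxy hxz (fun h => hyz h.2) (fun h => hxz h.1) e he f hf p hp hq with
          ⟨h1, h2, _⟩ | ⟨c, a, b, a', b', hcC, hac, hcb, hac', hcb', _, _⟩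
        · exact R.adj x y z hxy hxz hyz p h1 h2
        · exfalso
          have := R.adj x y z hxy hxz hyz c (segCar hcb (left_mem_segment ℝ _ _))
            (segCar hcb' (left_mem_segment ℝ _ _))
          rw [this] at hcC
          exact R.pos_not x hcC
      indep := by
        intro x y z w hn e he f hf e' he' f' hf' hne hne'
        have hn' := hn
        simp only [List.nodup_cons, List.mem_cons, List.not_mem_nil, or_false, not_or,
          List.nodup_nil, and_true, not_false_eq_true] at hn'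
        obtain ⟨⟨hxy, hxz, hxw⟩, ⟨hyz, hyw⟩, hzw⟩ := hn'
        have h1 : ¬ (x = z ∧ y = w) := fun h => hxz h.1
        have h2 : ¬ (x = w ∧ y = z) := fun h => hxw h.1
        have hvert : ∀ p, p ∈ Car (R.path x y) → p ∈ Car (R.path z w) → ∀ u, p ≠ R.pos u := by
          rintro p hp hq u rfl
          rcases R.vert x y u hxy hp with rfl | rfl
          · rcases R.vert z w u hzw hq with h | h
            · exact hxz h
            · exact hxw h
          · rcases R.vert z w u hzw hq with h | h
            · exact hyz h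
            · exact hyw h
        obtain ⟨p, hp, hq⟩ := hne
        obtain ⟨p', hp', hq'⟩ := hne'
        rcases key x y z w hxy hzw h1 h2 e he f hf p hp hq with
          ⟨h3, h4, u, h5⟩ | ⟨c, a, b, a', b', hcC, hac, hcb, hac', hcb', rfl, rfl⟩
        · exact absurd h5 (hvert p h3 h4 u)
        · rcases key x y z w hxy hzw h1 h2 e' he' f' hf' p' hp' hq' with
            ⟨h3, h4, u, h5⟩ | ⟨d, k, j, k', j', hdC, hkd, hdj, hkd', hdj', rfl, rfl⟩
          · exact absurd h5 (hvert p' h3 h4 u)
          · have hcd : c = d := R.indep x y z w hn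
              ⟨segCar hcb (left_mem_segment ℝ _ _), segCar hcb' (left_mem_segment ℝ _ _)⟩
              ⟨segCar hdj (left_mem_segment ℝ _ _), segCar hdj' (left_mem_segment ℝ _ _)⟩
            subst hcd
            rw [(R.simple x y hxy).left_unique hac hkd, (R.simple x y hxy).right_unique hcb hdj,
              (R.simple z w hzw).left_unique hac' hkd', (R.simple z w hzw).right_unique hcb' hdj']
            exact ⟨rfl, rfl⟩ }
  refine ⟨R', ?_⟩
  intro x y z w hn hne
  simp only [List.nodup_cons, List.mem_cons, List.not_mem_nil, or_false, not_or,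
    List.nodup_nil, and_true, not_false_eq_true] at hn
  obtain ⟨⟨hxy, hxz, hxw⟩, ⟨hyz, hyw⟩, hzw⟩ := hn
  obtain ⟨p, ⟨e, he, hp⟩, ⟨f, hf, hq⟩⟩ := hne
  rcases key x y z w hxy hzw (fun h => hxz h.1) (fun h => hxw h.1) e he f hf p hp hq with
    ⟨h3, h4, _⟩ | ⟨c, a, b, a', b', hcC, hac, hcb, hac', hcb', _, _⟩
  · exact ⟨p, h3, h4⟩
  · exact ⟨c, segCar hcb (left_mem_segment ℝ _ _), segCar hcb' (left_mem_segment ℝ _ _)⟩

end Pool.Agent.MP_a0a8d4_co
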