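import Pool.Agent.MP_a0a8d4_co.SemiExists
import Pool.Agent.MP_a0a8d4_co.SemiRobust
import Pool.Agent.MP_a0a8d4_co.RobustNice
import Pool.Agent.MP_a0a8d4_co.DupAll

set_option autoImplicit false

/-!
# MP_a0a8d4_co: every finite simple drawing can be replaced by a nice drawing
-/

namespace Pool.Agent.MP_a0a8d4_co

open MeasureTheory Set Filter
open scoped unitInterval Topology

theorem exists_nice_inj {V : Type} [Finite V] (D : V → V → I → Pt) (hD : IsSimpleDrawing D)
    (hpos : Function.Injective fun x => D x x 0) :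
    ∃ N : Nice V, ∀ x y z w, [x, y, z, w].Nodup → N.cr x y z w → Meets D x y z w := by
  obtain ⟨C, R, hR⟩ := exists_semi D hD hpos
  obtain ⟨R', hR'⟩ := R.toRobust
  obtain ⟨N, hN⟩ := R'.toNice
  exact ⟨N, fun x y z w h hc => hR x y z w h (hR' x y z w h (hN x y z w h hc))⟩

theorem exists_nice {V : Type} [Finite V] (D : V → V → I → Pt) (hD : IsSimpleDrawing D) :
    ∃ N : Nice V, ∀ x y z w, [x, y, z, w].Nodup → N.cr x y z w → Meets D x y z w := by
  classical
  have := Fintype.ofFinite V
  let pos : V → Pt := fun x => D x x 0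
  let V₀ : Type := Set.range pos
  have : Finite V₀ := Set.Finite.to_subtype (Set.finite_range pos)
  have := Fintype.ofFinite V₀
  have hex : ∀ p : V₀, ∃ x, pos x = p.1 := fun p => p.2
  choose rep hrep using hex
  let f : V → V₀ := fun x => ⟨pos x, x, rfl⟩
  have hf : Function.Surjective f := by
    intro p
    exact ⟨rep p, Subtype.ext (hrep p)⟩
  have hrf : ∀ x, pos (rep (f x)) = pos x := fun x => hrep (f x)
  obtain ⟨N₀, hN₀⟩ := exists_nice_inj (fun a b => D (rep a) (rep b)) (hD.comap rep) (by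
    intro a b hab
    have h : pos (rep a) = pos (rep b) := hab
    rw [hrep, hrep] at h
    exact Subtype.ext h)
  let lam : V → ℝ := fun a => 1 / ((Finset.univ.filter fun b => f b = f a).card : ℝ)
  have h0 : ∀ a, 0 ≤ lam a := fun a => by positivity
  have h1 : ∀ x, ∑ a, ind (f a = x) * lam a = 1 := by
    intro x
    have h2 : ∀ a ∈ (Finset.univ : Finset V), ind (f a = x) * lam a =
        if f a = x then 1 / ((Finset.univ.filter fun b => f b = x).card : ℝ) else 0 := by
      intro a _
      by_cases h : f a = x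
      · rw [ind_true h, one_mul, if_pos h]
        simp only [lam, h]
      · rw [ind_false h, zero_mul, if_neg h]
    rw [Finset.sum_congr rfl h2, ← Finset.sum_filter, Finset.sum_const, nsmul_eq_mul]
    have hpos : 0 < (Finset.univ.filter fun b => f b = x).card := by
      obtain ⟨a, ha⟩ := hf x
      exact Finset.card_pos.2 ⟨a, by simp [ha]⟩
    have : ((Finset.univ.filter fun b => f b = x).card : ℝ) ≠ 0 := by
      exact_mod_cast hpos.ne'
    field_simp
  obtain ⟨N, hi, hii, _⟩ := N₀.dupAll f hf lam h0 h1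
  refine ⟨N, ?_⟩
  intro x y z w hn hcr
  have hn' := hn
  simp only [List.nodup_cons, List.mem_cons, List.not_mem_nil, or_false, not_or,
    List.nodup_nil, and_true, not_false_eq_true] at hn'
  obtain ⟨⟨hxy, hxz, hxw⟩, ⟨hyz, hyw⟩, hzw⟩ := hn'
  have hpeq : ∀ a b, f a = f b → D a a 0 = D b b 0 := fun a b h => congrArg Subtype.val h
  by_cases c1 : f x = f z
  · exact hD.meets_of_left x y z w (hpeq _ _ c1)
  by_cases c2 : f x = f w
  · rw [hD.psym.2, hD.psym.1, hD.psym.2]
    exact hD.meets_of_left x y w z (hpeq _ _ c2)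
  by_cases c3 : f y = f z
  · rw [hD.psym.1]
    exact hD.meets_of_left y x z w (hpeq _ _ c3)
  by_cases c4 : f y = f w
  · rw [hD.psym.1, hD.psym.2, hD.psym.1, hD.psym.2]
    exact hD.meets_of_left y x w z (hpeq _ _ c4)
  by_cases c5 : f x = f y
  · exact absurd hcr (hii x y z w hn c5 (Ne.symm c1) (Ne.symm c2))
  by_cases c6 : f z = f w
  · rw [N.cr_comm] at hcr
    have hn2 : [z, w, x, y].Nodup := by
      simp only [List.nodup_cons, List.mem_cons, List.not_mem_nil, or_false, not_or,
        List.nodup_nil, and_true, not_false_eq_true]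
      exact ⟨⟨hzw, Ne.symm hxz, Ne.symm hyz⟩, ⟨Ne.symm hxw, Ne.symm hyw⟩, hxy⟩
    exact absurd hcr (hii z w x y hn2 c6 c1 c3)
  have hn3 : [f x, f y, f z, f w].Nodup := by
    simp only [List.nodup_cons, List.mem_cons, List.not_mem_nil, or_false, not_or,
      List.nodup_nil, and_true, not_false_eq_true]
    exact ⟨⟨c5, c1, c2⟩, ⟨c3, c4⟩, c6⟩
  have h3 := hN₀ _ _ _ _ hn3 ((hi x y z w hn3).1 hcr)
  have h4 : Meets D (rep (f x)) (rep (f y)) (rep (f z)) (rep (f w)) := h3
  exact (hD.meets_congr (hrf x) (hrf y) (hrf z) (hrf w)).1 h4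

end Pool.Agent.MP_a0a8d4_co
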