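import Pool.Agent.MP_a0a8d4_co.L1Cont

/-!
Module ND of MP_a0a8d4_co: the parity relation near the diagonal.
-/

set_option autoImplicit false

namespace Pool.Agent.MP_a0a8d4_co

open MeasureTheory Set Filter
open scoped unitInterval Topology

namespace NDAux

theorem sq_int {A U : Type*} [MeasurableSpace A] [MeasurableSpace U] (ν : Measure A)
    (μ : Measure U) [IsProbabilityMeasure ν] [IsProbabilityMeasure μ] (f : A × U → ℝ)
    (hf : AEStronglyMeasurable f (ν.prod μ)) (hb : ∀ p, |f p| ≤ 1) :
    0 ≤ ∫ p : A × (A × U), f (p.1, p.2.2) * f p.2 ∂(ν.prod (ν.prod μ)) := by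
  have m1 : AEStronglyMeasurable (fun p : A × (A × U) => f (p.1, p.2.2)) (ν.prod (ν.prod μ)) := by
    have hmp : MeasurePreserving (Prod.map id Prod.snd : A × (A × U) → A × U) (ν.prod (ν.prod μ))
        (ν.prod μ) := (MeasurePreserving.id ν).prod measurePreserving_snd
    exact hf.comp_measurePreserving hmp
  have m2 : AEStronglyMeasurable (fun p : A × (A × U) => f p.2) (ν.prod (ν.prod μ)) :=
    hf.comp_measurePreserving measurePreserving_snd
  have hint : Integrable (fun p : A × (A × U) => f (p.1, p.2.2) * f p.2) (ν.prod (ν.prod μ)) := by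
    apply Integrable.of_bound (m1.mul m2) 1
    filter_upwards with p
    change ‖f (p.1, p.2.2) * f p.2‖ ≤ 1
    rw [Real.norm_eq_abs, abs_mul]
    exact mul_le_one₀ (hb _) (abs_nonneg _) (hb _)
  rw [integral_prod_symm _ hint]
  have hint2 := hint.integral_prod_right
  have e1 : (fun q : A × U => ∫ a, f (a, q.2) * f q ∂ν) = fun q => (∫ a, f (a, q.2) ∂ν) * f q := by
    funext q
    exact integral_mul_const _ _
  have hint3 : Integrable (fun q : A × U => (∫ a, f (a, q.2) ∂ν) * f q) (ν.prod μ) := by
    rw [← e1]; exact hint2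
  have e2 : ∫ q : A × U, ∫ a, f (a, q.2) * f q ∂ν ∂(ν.prod μ) =
      ∫ q : A × U, (∫ a, f (a, q.2) ∂ν) * f q ∂(ν.prod μ) := by
    rw [e1]
  rw [show (∫ y : A × U, ∫ x, f ((x, y).1, (x, y).2.2) * f (x, y).2 ∂ν ∂(ν.prod μ)) = _ from e2,
    integral_prod_symm _ hint3]
  apply integral_nonneg
  intro u
  change 0 ≤ ∫ b, (∫ a, f (a, u) ∂ν) * f (b, u) ∂ν
  rw [integral_const_mul]
  exact mul_self_nonneg _

theorem pos56 (F : (Fin 5 → I) → ℝ) (hF : AEStronglyMeasurable F volume) (hb : ∀ w, |F w| ≤ 1) :
    0 ≤ ∫ v : Fin 6 → I, F (fun k => v ((3 : Fin 6).succAbove k)) *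
      F (fun k => v ((4 : Fin 6).succAbove k)) := by
  set e3 := MeasurableEquiv.piFinSuccAbove (fun _ : Fin 5 => I) 3 with he3
  have mp3 : MeasurePreserving e3 volume (volume.prod volume) :=
    volume_preserving_piFinSuccAbove (fun _ : Fin 5 => I) 3
  have mp4 : MeasurePreserving (MeasurableEquiv.piFinSuccAbove (fun _ : Fin 6 => I) 4) volume
      (volume.prod volume) := volume_preserving_piFinSuccAbove (fun _ : Fin 6 => I) 4
  set f : I × (Fin 4 → I) → ℝ := fun p => F (e3.symm p) with hf
  have hfm : AEStronglyMeasurable f (volume.prod volume) :=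
    hF.comp_measurePreserving mp3.symm
  have key := sq_int (volume : Measure I) (volume : Measure (Fin 4 → I)) f hfm (fun p => hb _)
  have mpid : MeasurePreserving (Prod.map id e3 : I × (Fin 5 → I) → I × (I × (Fin 4 → I)))
      (volume.prod volume) (volume.prod (volume.prod volume)) :=
    (MeasurePreserving.id volume).prod mp3
  have h2 : ∫ p : I × (Fin 5 → I), f (p.1, (e3 p.2).2) * f (e3 p.2) ∂(volume.prod volume) =
      ∫ p : I × (I × (Fin 4 → I)), f (p.1, p.2.2) * f p.2 ∂(volume.prod (volume.prod volume)) := by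
    have := mpid.integral_comp
      (((MeasurableEquiv.refl I).prodCongr e3).measurableEmbedding)
      (fun p : I × (I × (Fin 4 → I)) => f (p.1, p.2.2) * f p.2)
    exact this
  have h1 : ∫ v : Fin 6 → I, F (fun k => v ((3 : Fin 6).succAbove k)) *
      F (fun k => v ((4 : Fin 6).succAbove k)) =
      ∫ p : I × (Fin 5 → I), f (p.1, (e3 p.2).2) * f (e3 p.2) ∂(volume.prod volume) := by
    rw [← mp4.integral_comp' (fun p : I × (Fin 5 → I) => f (p.1, (e3 p.2).2) * f (e3 p.2))]
    congr 1
    funext v
    have a1 : f (e3 (MeasurableEquiv.piFinSuccAbove (fun _ : Fin 6 => I) 4 v).2) =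
        F (fun k => v ((4 : Fin 6).succAbove k)) := by
      simp only [hf, MeasurableEquiv.symm_apply_apply]
      rfl
    have a2 : f ((MeasurableEquiv.piFinSuccAbove (fun _ : Fin 6 => I) 4 v).1,
        (e3 (MeasurableEquiv.piFinSuccAbove (fun _ : Fin 6 => I) 4 v).2).2) =
        F (fun k => v ((3 : Fin 6).succAbove k)) := by
      simp only [hf]
      congr 1
      rw [MeasurableEquiv.symm_apply_eq]
      refine Prod.ext rfl ?_
      funext k
      fin_cases k <;> rfl
    rw [a1, a2]
  rw [h1, h2]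
  exact key

/-- the sign of a pair of crossing indicators -/
noncomputable def sg (p q : Prop) : ℝ := (1 - 2 * ind p) * (1 - 2 * ind q)

theorem one_sub_ind (p : Prop) : 1 - 2 * ind p = (-1) ^ indN p := by
  by_cases h : p
  · rw [ind_true h, indN_true h]; norm_num
  · rw [ind_false h, indN_false h]; norm_num

theorem sg_cases (p q : Prop) : sg p q = 1 ∨ sg p q = -1 := by
  unfold sg
  by_cases h : p <;> by_cases h' : q
  · left; rw [ind_true h, ind_true h']; norm_num
  · right; rw [ind_true h, ind_false h']; norm_num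
  · right; rw [ind_false h, ind_true h']; norm_num
  · left; rw [ind_false h, ind_false h']; norm_num

theorem sg_abs (p q : Prop) : |sg p q| = 1 := by
  rcases sg_cases p q with h | h <;> rw [h] <;> norm_num

theorem sg_ge (p q : Prop) : 1 - 2 * ind p - 2 * ind q ≤ sg p q := by
  have h1 := ind_nonneg p
  have h2 := ind_nonneg q
  unfold sg
  nlinarith [mul_nonneg h1 h2]

theorem sg_odd (a b c d e f : Prop)
    (h : Odd (indN a + indN b + indN c + indN d + indN e + indN f)) :
    sg a b * sg c d * sg e f = -1 := by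
  unfold sg
  simp only [one_sub_ind]
  have : (-1 : ℝ) ^ indN a * (-1) ^ indN b * ((-1) ^ indN c * (-1) ^ indN d) *
      ((-1) ^ indN e * (-1) ^ indN f) =
      (-1) ^ (indN a + indN b + indN c + indN d + indN e + indN f) := by
    simp only [pow_add]; ring
  rw [this, h.neg_one_pow]

theorem ind_mul (p q : Prop) : ind p * ind q = ind (p ∧ q) := by
  by_cases h : p <;> by_cases h' : q
  · rw [ind_true h, ind_true h', ind_true ⟨h, h'⟩]; norm_num
  · rw [ind_true h, ind_false h', ind_false (fun x => h' x.2)]; norm_num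
  · rw [ind_false h, ind_true h', ind_false (fun x => h x.1)]; norm_num
  · rw [ind_false h, ind_false h', ind_false (fun x => h x.1)]; norm_num

theorem ind_eq_indicator {X : Type*} (S : Set X) : (fun x => ind (x ∈ S)) = S.indicator (fun _ => (1 : ℝ)) := by
  classical
  funext x
  by_cases h : x ∈ S
  · rw [ind_true h, indicator_of_mem h]
  · rw [ind_false h, indicator_of_notMem h]

theorem ind_aesm {X : Type*} [MeasurableSpace X] {μ : Measure X} {S : Set X}
    (hS : NullMeasurableSet S μ) : AEStronglyMeasurable (fun x => ind (x ∈ S)) μ := by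
  rw [ind_eq_indicator]
  exact (aestronglyMeasurable_const (b := (1 : ℝ))).indicator₀ hS

theorem integral_ind {X : Type*} [MeasurableSpace X] {μ : Measure X} [IsFiniteMeasure μ] {S : Set X}
    (hS : NullMeasurableSet S μ) : ∫ x, ind (x ∈ S) ∂μ = μ.real S := by
  rw [ind_eq_indicator, integral_indicator₀ hS, setIntegral_const]
  simp

/-- integral of the pull-back of an indicator under a choice of coordinates -/
theorem integral_pull {m n : ℕ} (e : Fin m → Fin n) (he : Function.Injective e)
    {S : Set (Fin m → I)} (hS : NullMeasurableSet S volume) :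
    ∫ v : Fin n → I, ind ((fun i => v (e i)) ∈ S) = (volume : Measure (Fin m → I)).real S := by
  have hmp := L1Aux.mp_comp e he
  have hS' : NullMeasurableSet ((fun (v : Fin n → I) (i : Fin m) => v (e i)) ⁻¹' S) volume :=
    hS.preimage hmp.quasiMeasurePreserving
  have h1 := integral_ind hS'
  have h2 : (volume : Measure (Fin n → I)).real ((fun (v : Fin n → I) (i : Fin m) => v (e i)) ⁻¹' S)
      = (volume : Measure (Fin m → I)).real S := by
    rw [measureReal_def, hmp.measure_preimage hS, measureReal_def]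
  rw [← h2, ← h1]
  rfl

theorem pull_aesm {m n : ℕ} (e : Fin m → Fin n) (he : Function.Injective e)
    {S : Set (Fin m → I)} (hS : NullMeasurableSet S volume) :
    AEStronglyMeasurable (fun v : Fin n → I => ind ((fun i => v (e i)) ∈ S)) volume :=
  ind_aesm (S := (fun (v : Fin n → I) (i : Fin m) => v (e i)) ⁻¹' S)
    (hS.preimage (L1Aux.mp_comp e he).quasiMeasurePreserving)

theorem integrable_of_le_one {n : ℕ} {F : (Fin n → I) → ℝ} (hF : AEStronglyMeasurable F volume)
    {C : ℝ} (hb : ∀ v, |F v| ≤ C) : Integrable F volume := by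
  apply Integrable.of_bound hF C
  filter_upwards with v
  rw [Real.norm_eq_abs]
  exact hb v

/-- the exceptional set of `l1_cont` -/
def LSet (P : I → I → I → I → Prop) (r : ℕ) : Set (Fin 5 → I) :=
  {v | cell r (v 0) = cell r (v 1) ∧ ¬ (P (v 0) (v 2) (v 3) (v 4) ↔ P (v 1) (v 2) (v 3) (v 4))}

theorem LSet_null {P : I → I → I → I → Prop} (hm : NullMeasurableSet (PSet P) volume) (r : ℕ) :
    NullMeasurableSet (LSet P r) volume := by
  have h1 : NullMeasurableSet ((fun (v : Fin 5 → I) (i : Fin 4) => v ((1 : Fin 5).succAbove i)) ⁻¹'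
      PSet P) volume :=
    hm.preimage (L1Aux.mp_comp _ Fin.succAbove_right_injective).quasiMeasurePreserving
  have h2 : NullMeasurableSet ((fun (v : Fin 5 → I) (i : Fin 4) => v ((0 : Fin 5).succAbove i)) ⁻¹'
      PSet P) volume :=
    hm.preimage (L1Aux.mp_comp _ Fin.succAbove_right_injective).quasiMeasurePreserving
  have h3 : NullMeasurableSet {v : Fin 5 → I | cell r (v 0) = cell r (v 1)} volume :=
    (measurableSet_same r 0 1).nullMeasurableSet
  have h4 : LSet P r = {v : Fin 5 → I | cell r (v 0) = cell r (v 1)} ∩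
      ((((fun (v : Fin 5 → I) (i : Fin 4) => v ((1 : Fin 5).succAbove i)) ⁻¹' PSet P) ∩
        ((fun (v : Fin 5 → I) (i : Fin 4) => v ((0 : Fin 5).succAbove i)) ⁻¹' PSet P)ᶜ) ∪
      (((fun (v : Fin 5 → I) (i : Fin 4) => v ((0 : Fin 5).succAbove i)) ⁻¹' PSet P) ∩
        ((fun (v : Fin 5 → I) (i : Fin 4) => v ((1 : Fin 5).succAbove i)) ⁻¹' PSet P)ᶜ)) := by
    ext v
    have e1 : (v ∈ (fun (v : Fin 5 → I) (i : Fin 4) => v ((1 : Fin 5).succAbove i)) ⁻¹' PSet P) =
      P (v 0) (v 2) (v 3) (v 4) := rfl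
    have e2 : (v ∈ (fun (v : Fin 5 → I) (i : Fin 4) => v ((0 : Fin 5).succAbove i)) ⁻¹' PSet P) =
      P (v 1) (v 2) (v 3) (v 4) := rfl
    simp only [mem_inter_iff, mem_union, mem_compl_iff, e1, e2, mem_ofPred_eq, LSet]
    tauto
  rw [h4]
  exact h3.inter ((h1.inter h2.compl).union (h2.inter h1.compl))

end NDAux

open NDAux in
theorem near_diag (P : I → I → I → I → Prop) (hm : NullMeasurableSet (PSet P) volume)
    (hr : (volume : Measure (Fin 6 → I))
      {v | ¬ RelAt P (v 0) (v 1) (v 2) (v 3) (v 4) (v 5)} = 0) (ε : ℝ) (hε : 0 < ε) :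
    ∃ r₀, ∀ r ≥ r₀, (1 / 4 - ε) * (1 / 2) ^ r ≤ (volume : Measure (Fin 4 → I)).real
      {v | cell r (v 0) = cell r (v 2) ∧ P (v 0) (v 1) (v 2) (v 3)} := by
  have hL := l1_cont P hm
  rw [Metric.tendsto_atTop] at hL
  obtain ⟨r₀, hr₀⟩ := hL (ε / 3) (by positivity)
  refine ⟨r₀, fun r hrr => ?_⟩
  have hD := hr₀ r hrr
  rw [Real.dist_eq, sub_zero] at hD
  have hD' := (abs_lt.mp hD).2
  set D : ℝ := (volume : Measure (Fin 5 → I)).real (LSet P r) with hDdef
  have hD2 : (2 : ℝ) ^ r * D < ε / 3 := hD'
  set VS : Set (Fin 4 → I) := {v | cell r (v 0) = cell r (v 2) ∧ P (v 0) (v 1) (v 2) (v 3)} with hVS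
  set V : ℝ := (volume : Measure (Fin 4 → I)).real VS with hV
  have hVm : NullMeasurableSet VS volume :=
    (measurableSet_same (m := 4) r 0 2).nullMeasurableSet.inter hm
  set q : ℝ := (1 / 2) ^ r with hq
  -- the functions
  set ee : (Fin 6 → I) → ℝ := fun v => ind (cell r (v 0) = cell r (v 1)) with hee
  set s12 : (Fin 6 → I) → ℝ := fun v => sg (P (v 0) (v 3) (v 1) (v 4)) (P (v 0) (v 4) (v 1) (v 3))
    with hs12
  set s13 : (Fin 6 → I) → ℝ := fun v => sg (P (v 0) (v 3) (v 1) (v 5)) (P (v 0) (v 5) (v 1) (v 3))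
    with hs13
  set s23 : (Fin 6 → I) → ℝ := fun v => sg (P (v 0) (v 4) (v 1) (v 5)) (P (v 0) (v 5) (v 1) (v 4))
    with hs23
  have mP : ∀ (n : ℕ) (a b c d : Fin n), Function.Injective ![a, b, c, d] →
      AEStronglyMeasurable (fun v : Fin n → I => 1 - 2 * ind (P (v a) (v b) (v c) (v d))) volume := by
    intro n a b c d h
    have h1 := pull_aesm _ h hm
    have h2 : (fun v : Fin n → I => ind (P (v a) (v b) (v c) (v d))) =
        fun v : Fin n → I => ind ((fun i => v (![a, b, c, d] i)) ∈ PSet P) := rfl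
    rw [← h2] at h1
    exact aestronglyMeasurable_const.sub (h1.const_mul 2)
  have mee : AEStronglyMeasurable ee volume :=
    ind_aesm (S := {v : Fin 6 → I | cell r (v 0) = cell r (v 1)})
      (measurableSet_same r 0 1).nullMeasurableSet
  have m12 : AEStronglyMeasurable s12 volume :=
    (mP 6 0 3 1 4 (by decide)).mul (mP 6 0 4 1 3 (by decide))
  have m13 : AEStronglyMeasurable s13 volume :=
    (mP 6 0 3 1 5 (by decide)).mul (mP 6 0 5 1 3 (by decide))
  have m23 : AEStronglyMeasurable s23 volume :=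
    (mP 6 0 4 1 5 (by decide)).mul (mP 6 0 5 1 4 (by decide))
  have bee : ∀ v, |ee v| ≤ 1 := fun v => by
    rw [abs_of_nonneg (ind_nonneg _)]; exact ind_le_one _
  have ee0 : ∀ v, 0 ≤ ee v := fun v => ind_nonneg _
  have b12 : ∀ v, |s12 v| = 1 := fun v => sg_abs _ _
  have b13 : ∀ v, |s13 v| = 1 := fun v => sg_abs _ _
  have b23 : ∀ v, |s23 v| = 1 := fun v => sg_abs _ _
  have ie : Integrable ee volume := integrable_of_le_one mee bee
  have i12 : Integrable (fun v => ee v * s12 v) volume :=
    integrable_of_le_one (C := 1) (mee.mul m12) (fun v => by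
      change |ee v * s12 v| ≤ 1
      rw [abs_mul, b12, mul_one]; exact bee v)
  have i1323 : Integrable (fun v => ee v * (s13 v * s23 v)) volume :=
    integrable_of_le_one (C := 1) (mee.mul (m13.mul m23)) (fun v => by
      change |ee v * (s13 v * s23 v)| ≤ 1
      rw [abs_mul, abs_mul, b13, b23, mul_one, mul_one]; exact bee v)
  have iall : Integrable (fun v => ee v * (s12 v * s13 v * s23 v)) volume :=
    integrable_of_le_one (C := 1) (mee.mul ((m12.mul m13).mul m23)) (fun v => by
      change |ee v * (s12 v * s13 v * s23 v)| ≤ 1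
      rw [abs_mul, abs_mul, abs_mul, b12, b13, b23, mul_one, mul_one, mul_one]; exact bee v)
  -- the mass of the diagonal
  have hmass : ∫ v, ee v = q := by
    have := integral_ind (S := {v : Fin 6 → I | cell r (v 0) = cell r (v 1)})
      (μ := volume) (measurableSet_same r 0 1).nullMeasurableSet
    rw [vol_same r 0 1 (by decide)] at this
    exact this
  -- (1)
  have k1 : ∫ v, ee v * s12 v ≤ q + (∫ v, ee v * (s12 v * s13 v * s23 v)) -
      ∫ v, ee v * (s13 v * s23 v) := by
    have ieall : Integrable (fun v => ee v + ee v * (s12 v * s13 v * s23 v)) volume := ie.add iall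
    rw [← hmass, ← integral_add ie iall, ← integral_sub ieall i1323]
    apply integral_mono i12 (ieall.sub i1323)
    intro v
    change ee v * s12 v ≤ ee v + ee v * (s12 v * s13 v * s23 v) - ee v * (s13 v * s23 v)
    have h1 : 0 ≤ (1 - s12 v) * (1 - s13 v * s23 v) := by
      apply mul_nonneg
      · have := (abs_le.mp (b12 v).le).2; linarith
      · have h2 : |s13 v * s23 v| ≤ 1 := by rw [abs_mul, b13, b23]; norm_num
        have := (abs_le.mp h2).2; linarith
    have h2 := mul_nonneg (ee0 v) h1
    nlinarith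
  -- (2)
  have k2 : 0 ≤ ∫ v, ee v * (s13 v * s23 v) := by
    set F : (Fin 5 → I) → ℝ := fun w => ind (cell r (w 0) = cell r (w 1)) *
      sg (P (w 0) (w 3) (w 1) (w 4)) (P (w 0) (w 4) (w 1) (w 3)) with hF
    have hFm : AEStronglyMeasurable F volume := by
      have h1 : AEStronglyMeasurable (fun w : Fin 5 → I => ind (cell r (w 0) = cell r (w 1))) volume :=
        ind_aesm (S := {v : Fin 5 → I | cell r (v 0) = cell r (v 1)})
          (measurableSet_same r 0 1).nullMeasurableSet
      exact h1.mul ((mP 5 0 3 1 4 (by decide)).mul (mP 5 0 4 1 3 (by decide)))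
    have hFb : ∀ w, |F w| ≤ 1 := by
      intro w
      simp only [hF]
      rw [abs_mul, sg_abs, mul_one, abs_of_nonneg (ind_nonneg _)]
      exact ind_le_one _
    have h := pos56 F hFm hFb
    have e : (fun v : Fin 6 → I => F (fun k => v ((3 : Fin 6).succAbove k)) *
        F (fun k => v ((4 : Fin 6).succAbove k))) = fun v => ee v * (s13 v * s23 v) := by
      funext v
      have a1 : F (fun k => v ((3 : Fin 6).succAbove k)) = ee v * s23 v := rfl
      have a2 : F (fun k => v ((4 : Fin 6).succAbove k)) = ee v * s13 v := rfl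
      rw [a1, a2]
      have a3 : ee v * ee v = ee v := by
        simp only [hee]
        rw [ind_mul]
        exact ind_congr (and_self_iff)
      linear_combination (s13 v * s23 v) * a3
    rw [e] at h
    exact h
  -- (3)
  have iP : ∀ (e : Fin 4 → Fin 6), Function.Injective e →
      Integrable (fun v : Fin 6 → I => ind ((fun i => v (e i)) ∈ VS)) volume := by
    intro e he
    exact integrable_of_le_one (C := 1) (pull_aesm e he hVm) (fun v => by
      rw [abs_of_nonneg (ind_nonneg _)]; exact ind_le_one _)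
  have k3 : q - 4 * V ≤ ∫ v, ee v * s12 v := by
    have j1 := integral_pull ![(0 : Fin 6), 3, 1, 4] (by decide) hVm
    have j2 := integral_pull ![(0 : Fin 6), 4, 1, 3] (by decide) hVm
    have l1 := iP ![(0 : Fin 6), 3, 1, 4] (by decide)
    have l2 := iP ![(0 : Fin 6), 4, 1, 3] (by decide)
    have d1 : Integrable (fun v : Fin 6 → I =>
        ee v - 2 * ind ((fun i => v (![(0 : Fin 6), 3, 1, 4] i)) ∈ VS)) volume :=
      ie.sub (l1.const_mul 2)
    have e : q - 4 * V = ∫ v : Fin 6 → I, (ee v - 2 * ind ((fun i => v (![(0 : Fin 6), 3, 1, 4] i)) ∈ VS)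
        - 2 * ind ((fun i => v (![(0 : Fin 6), 4, 1, 3] i)) ∈ VS)) := by
      rw [integral_sub d1 (l2.const_mul 2), integral_sub ie (l1.const_mul 2),
        integral_const_mul, integral_const_mul, j1, j2, hmass]
      ring
    rw [e]
    apply integral_mono (d1.sub (l2.const_mul 2)) i12
    intro v
    change ee v - 2 * ind (cell r (v 0) = cell r (v 1) ∧ P (v 0) (v 3) (v 1) (v 4))
        - 2 * ind (cell r (v 0) = cell r (v 1) ∧ P (v 0) (v 4) (v 1) (v 3)) ≤ ee v * s12 v
    rw [← ind_mul, ← ind_mul]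
    have h1 := sg_ge (P (v 0) (v 3) (v 1) (v 4)) (P (v 0) (v 4) (v 1) (v 3))
    have h2 := mul_le_mul_of_nonneg_left h1 (ee0 v)
    change _ ≤ ee v * sg (P (v 0) (v 3) (v 1) (v 4)) (P (v 0) (v 4) (v 1) (v 3))
    have h3 : ee v = ind (cell r (v 0) = cell r (v 1)) := rfl
    rw [← h3]
    linarith
  -- (4)
  have hLm := LSet_null hm r
  have iL : ∀ (e : Fin 5 → Fin 6), Function.Injective e →
      Integrable (fun v : Fin 6 → I => ind ((fun i => v (e i)) ∈ LSet P r)) volume := by
    intro e he
    exact integrable_of_le_one (C := 1) (pull_aesm e he hLm) (fun v => by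
      rw [abs_of_nonneg (ind_nonneg _)]; exact ind_le_one _)
  have k4 : ∫ v, ee v * (s12 v * s13 v * s23 v) ≤ -q + 12 * D := by
    set L : (Fin 5 → Fin 6) → (Fin 6 → I) → ℝ := fun e v => ind ((fun i => v (e i)) ∈ LSet P r) with hLd
    set e1 : Fin 5 → Fin 6 := ![0, 1, 3, 4, 5] with he1
    set e2 : Fin 5 → Fin 6 := ![0, 1, 4, 3, 5] with he2
    set e3 : Fin 5 → Fin 6 := ![0, 1, 5, 3, 4] with he3
    set e4 : Fin 5 → Fin 6 := ![0, 1, 2, 3, 4] with he4
    set e5 : Fin 5 → Fin 6 := ![0, 1, 2, 3, 5] with he5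
    set e6 : Fin 5 → Fin 6 := ![0, 1, 2, 4, 5] with he6
    have j1 : ∫ v, L e1 v = D := integral_pull e1 (by decide) hLm
    have j2 : ∫ v, L e2 v = D := integral_pull e2 (by decide) hLm
    have j3 : ∫ v, L e3 v = D := integral_pull e3 (by decide) hLm
    have j4 : ∫ v, L e4 v = D := integral_pull e4 (by decide) hLm
    have j5 : ∫ v, L e5 v = D := integral_pull e5 (by decide) hLm
    have j6 : ∫ v, L e6 v = D := integral_pull e6 (by decide) hLm
    have l1 : Integrable (L e1) volume := iL e1 (by decide)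
    have l2 : Integrable (L e2) volume := iL e2 (by decide)
    have l3 : Integrable (L e3) volume := iL e3 (by decide)
    have l4 : Integrable (L e4) volume := iL e4 (by decide)
    have l5 : Integrable (L e5) volume := iL e5 (by decide)
    have l6 : Integrable (L e6) volume := iL e6 (by decide)
    have lsum : Integrable (fun v => L e1 v + L e2 v + L e3 v + L e4 v + L e5 v + L e6 v) volume :=
      ((((l1.add l2).add l3).add l4).add l5).add l6
    have jsum : ∫ v, (L e1 v + L e2 v + L e3 v + L e4 v + L e5 v + L e6 v) = 6 * D := by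
      have a1 := integral_add ((((l1.add l2).add l3).add l4).add l5) l6
      have a2 := integral_add (((l1.add l2).add l3).add l4) l5
      have a3 := integral_add ((l1.add l2).add l3) l4
      have a4 := integral_add (l1.add l2) l3
      have a5 := integral_add l1 l2
      simp only [Pi.add_apply] at a1 a2 a3 a4 a5
      rw [a1, a2, a3, a4, a5, j1, j2, j3, j4, j5, j6]
      ring
    have hbound : ∫ v, ee v * (s12 v * s13 v * s23 v) ≤
        ∫ v, (-ee v + 2 * (L e1 v + L e2 v + L e3 v + L e4 v + L e5 v + L e6 v)) := by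
      apply integral_mono_ae iall (ie.neg.add (lsum.const_mul 2))
      have hae : ∀ᵐ v : Fin 6 → I, RelAt P (v 0) (v 1) (v 2) (v 3) (v 4) (v 5) := hr
      filter_upwards [hae] with v hv
      change ee v * (s12 v * s13 v * s23 v) ≤
        -ee v + 2 * (L e1 v + L e2 v + L e3 v + L e4 v + L e5 v + L e6 v)
      have n1 : 0 ≤ L e1 v := ind_nonneg _
      have n2 : 0 ≤ L e2 v := ind_nonneg _
      have n3 : 0 ≤ L e3 v := ind_nonneg _
      have n4 : 0 ≤ L e4 v := ind_nonneg _
      have n5 : 0 ≤ L e5 v := ind_nonneg _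
      have n6 : 0 ≤ L e6 v := ind_nonneg _
      by_cases hc : cell r (v 0) = cell r (v 1)
      · have hee1 : ee v = 1 := ind_true hc
        rw [hee1, one_mul]
        have habs : s12 v * s13 v * s23 v ≤ 1 := by
          have : |s12 v * s13 v * s23 v| ≤ 1 := by
            rw [abs_mul, abs_mul, b12, b13, b23]; norm_num
          exact (abs_le.mp this).2
        have hone : ∀ e : Fin 5 → Fin 6, (fun i => v (e i)) ∈ LSet P r → L e v = 1 :=
          fun e he => ind_true he
        by_cases c1 : P (v 0) (v 3) (v 4) (v 5) ↔ P (v 1) (v 3) (v 4) (v 5)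
        swap
        · have := hone e1 ⟨hc, c1⟩
          linarith
        by_cases c2 : P (v 0) (v 4) (v 3) (v 5) ↔ P (v 1) (v 4) (v 3) (v 5)
        swap
        · have := hone e2 ⟨hc, c2⟩
          linarith
        by_cases c3 : P (v 0) (v 5) (v 3) (v 4) ↔ P (v 1) (v 5) (v 3) (v 4)
        swap
        · have := hone e3 ⟨hc, c3⟩
          linarith
        by_cases c4 : P (v 0) (v 2) (v 3) (v 4) ↔ P (v 1) (v 2) (v 3) (v 4)
        swap
        · have := hone e4 ⟨hc, c4⟩
          linarith
        by_cases c5 : P (v 0) (v 2) (v 3) (v 5) ↔ P (v 1) (v 2) (v 3) (v 5)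
        swap
        · have := hone e5 ⟨hc, c5⟩
          linarith
        by_cases c6 : P (v 0) (v 2) (v 4) (v 5) ↔ P (v 1) (v 2) (v 4) (v 5)
        swap
        · have := hone e6 ⟨hc, c6⟩
          linarith
        have hodd := hv c1 c2 c3 c4 c5 c6
        have hsg : s12 v * s13 v * s23 v = -1 := sg_odd _ _ _ _ _ _ hodd
        rw [hsg]
        linarith
      · have hee0 : ee v = 0 := ind_false hc
        rw [hee0]
        linarith
    refine hbound.trans ?_
    have ine : Integrable (fun v => -ee v) volume := ie.neg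
    rw [integral_add ine (lsum.const_mul 2), integral_const_mul, jsum, integral_neg, hmass]
    linarith
  -- conclusion
  have hq2 : (2 : ℝ) ^ r * q = 1 := by rw [hq, ← mul_pow]; norm_num
  have hqpos : 0 < q := by rw [hq]; positivity
  have hDq : D < ε / 3 * q := by
    have h1 : q * ((2 : ℝ) ^ r * D) < q * (ε / 3) := mul_lt_mul_of_pos_left hD2 hqpos
    have h2 : q * ((2 : ℝ) ^ r * D) = D := by
      linear_combination D * hq2
    linarith
  nlinarith

end Pool.Agent.MP_a0a8d4_co
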