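import Pool.Agent.MP_a0a8d4_co.OptCoinc

set_option autoImplicit false

/-!
# MP_a0a8d4_co: averaging over the cells
-/

namespace Pool.Agent.MP_a0a8d4_co

open MeasureTheory Set
open scoped unitInterval

namespace OptAvg

open OptBase

/-- Functions on `Fin 4` as pairs of pairs. -/
def eqv (A : Type) : (Fin 4 → A) ≃ (A × A) × (A × A) where
  toFun e := ((e 0, e 1), (e 2, e 3))
  invFun p := ![p.1.1, p.1.2, p.2.1, p.2.2]
  left_inv e := by
    funext i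
    fin_cases i <;> rfl
  right_inv p := rfl

theorem sum_four {A : Type} [Fintype A] (F G : A → A → ℝ) :
    ∑ e : Fin 4 → A, F (e 0) (e 1) * G (e 2) (e 3) =
      (∑ i, ∑ j, F i j) * ∑ i, ∑ j, G i j := by
  have h : ∑ e : Fin 4 → A, F (e 0) (e 1) * G (e 2) (e 3) =
      ∑ p : (A × A) × (A × A), F p.1.1 p.1.2 * G p.2.1 p.2.2 :=
    Fintype.sum_equiv (eqv A) _ _ (fun e => rfl)
  have h2 : ∀ H : A → A → ℝ, ∑ i, ∑ j, H i j = ∑ p : A × A, H p.1 p.2 := fun H =>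
    (Fintype.sum_prod_type (fun p : A × A => H p.1 p.2)).symm
  rw [h, Fintype.sum_prod_type, h2 F, h2 G, Finset.sum_mul_sum]

/-- The pointwise form of the average over the subcells. -/
theorem pointwise {k r : ℕ} (hk : k ≤ r) (v : Fin 4 → I) :
    ((1 / 2 : ℝ) ^ r) ^ 4 * ((2 : ℝ) ^ k) ^ 4 * ∑ e : Fin 4 → Fin (2 ^ r),
      (ind (Function.Injective e) * (Wd r (e 0) (e 1) * Wd r (e 2) (e 3))) *
        ind (∀ i, cell k (v i) = (e i : ℕ) / 2 ^ (r - k)) ≤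
      Wk k (v 0) (v 1) * Wk k (v 2) (v 3) := by
  let F : I → I → Fin (2 ^ r) → Fin (2 ^ r) → ℝ := fun x y i j =>
    ind (i ≠ j ∧ (i : ℕ) / 2 ^ (r - k) = cell k x ∧ (j : ℕ) / 2 ^ (r - k) = cell k y) * Wd r i j
  have hF0 : ∀ x y i j, 0 ≤ F x y i j := fun x y i j => mul_nonneg (ind_nonneg _) (Wd_nonneg _ _ _)
  have h1 : ∑ e : Fin 4 → Fin (2 ^ r),
      (ind (Function.Injective e) * (Wd r (e 0) (e 1) * Wd r (e 2) (e 3))) *
        ind (∀ i, cell k (v i) = (e i : ℕ) / 2 ^ (r - k)) ≤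
      (∑ i, ∑ j, F (v 0) (v 1) i j) * ∑ i, ∑ j, F (v 2) (v 3) i j := by
    rw [← sum_four]
    refine Finset.sum_le_sum fun e _ => ?_
    by_cases he : Function.Injective e
    · by_cases hc : ∀ i, cell k (v i) = (e i : ℕ) / 2 ^ (r - k)
      · have h01 : e 0 ≠ e 1 := fun h => absurd (he h) (by decide)
        have h23 : e 2 ≠ e 3 := fun h => absurd (he h) (by decide)
        simp only [F]
        rw [ind_true he, ind_true hc, ind_true ⟨h01, (hc 0).symm, (hc 1).symm⟩,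
          ind_true ⟨h23, (hc 2).symm, (hc 3).symm⟩]
        apply le_of_eq
        ring
      · rw [ind_false hc, mul_zero]
        exact mul_nonneg (hF0 _ _ _ _) (hF0 _ _ _ _)
    · rw [ind_false he, zero_mul, zero_mul]
      exact mul_nonneg (hF0 _ _ _ _) (hF0 _ _ _ _)
  have h2 : ∀ x y : I, ((1 / 2 : ℝ) ^ r) ^ 2 * ((2 : ℝ) ^ k) ^ 2 * (∑ i, ∑ j, F x y i j) ≤
      Wk k x y := by
    intro x y
    have h3 := Wd_avg_le hk (cell k x) (cell k y) (cell_lt k x) (cell_lt k y) x y rfl rfl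
    have h4 : ((2 : ℝ) ^ k) ^ 2 * ((1 / 2) ^ k) ^ 2 = 1 := by
      rw [← mul_pow, ← mul_pow]; norm_num
    have h5 := mul_le_mul_of_nonneg_left h3 (by positivity : (0 : ℝ) ≤ ((2 : ℝ) ^ k) ^ 2)
    calc ((1 / 2 : ℝ) ^ r) ^ 2 * ((2 : ℝ) ^ k) ^ 2 * (∑ i, ∑ j, F x y i j) =
          ((2 : ℝ) ^ k) ^ 2 * (((1 / 2 : ℝ) ^ r) ^ 2 * (∑ i, ∑ j, F x y i j)) := by ring
      _ ≤ ((2 : ℝ) ^ k) ^ 2 * (((1 / 2) ^ k) ^ 2 * Wk k x y) := h5
      _ = Wk k x y := by rw [← mul_assoc, h4, one_mul]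
  have hs0 : ∀ x y, 0 ≤ ∑ i, ∑ j, F x y i j := fun x y =>
    Finset.sum_nonneg fun i _ => Finset.sum_nonneg fun j _ => hF0 x y i j
  calc ((1 / 2 : ℝ) ^ r) ^ 4 * ((2 : ℝ) ^ k) ^ 4 * ∑ e : Fin 4 → Fin (2 ^ r),
      (ind (Function.Injective e) * (Wd r (e 0) (e 1) * Wd r (e 2) (e 3))) *
        ind (∀ i, cell k (v i) = (e i : ℕ) / 2 ^ (r - k)) ≤
      ((1 / 2 : ℝ) ^ r) ^ 4 * ((2 : ℝ) ^ k) ^ 4 *
        ((∑ i, ∑ j, F (v 0) (v 1) i j) * ∑ i, ∑ j, F (v 2) (v 3) i j) :=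
        mul_le_mul_of_nonneg_left h1 (by positivity)
    _ = (((1 / 2 : ℝ) ^ r) ^ 2 * ((2 : ℝ) ^ k) ^ 2 * (∑ i, ∑ j, F (v 0) (v 1) i j)) *
        (((1 / 2 : ℝ) ^ r) ^ 2 * ((2 : ℝ) ^ k) ^ 2 * (∑ i, ∑ j, F (v 2) (v 3) i j)) := by ring
    _ ≤ _ := mul_le_mul (h2 _ _) (h2 _ _) (mul_nonneg (by positivity) (hs0 _ _)) (Wk_nonneg _ _ _)

theorem Wk_integrable (P : I → I → I → I → Prop) (hm : NullMeasurableSet (PSet P) volume) (k : ℕ) :
    Integrable (fun v : Fin 4 → I => Wk k (v 0) (v 1) * Wk k (v 2) (v 3) *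
      ind (P (v 0) (v 1) (v 2) (v 3))) volume := by
  refine Chain.integrable_of ?_ 1 (fun v => ?_) (fun v => ?_)
  · exact (((Chain.measurable_coord (measurable_Wk _) 0 1).mul
      (Chain.measurable_coord (measurable_Wk _) 2 3)).aestronglyMeasurable).mul (Chain.Gf_aesm hm)
  · exact mul_nonneg (mul_nonneg (Wk_nonneg _ _ _) (Wk_nonneg _ _ _)) (ind_nonneg _)
  · exact mul_le_one₀ (mul_le_one₀ (Wk_le_one _ _ _) (Wk_nonneg _ _ _) (Wk_le_one _ _ _))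
      (ind_nonneg _) (ind_le_one _)

/-- The inequality at a finite level. -/
theorem finite_level (P : I → I → I → I → Prop) (hm : NullMeasurableSet (PSet P) volume) (h : OPT P)
    (k r : ℕ) (hk : k ≤ r) :
    En P ≤ (∫ v : Fin 4 → I, Wk k (v 0) (v 1) * Wk k (v 2) (v 3) *
      ind (P (v 0) (v 1) (v 2) (v 3))) + small r := by
  have h0 := key P hm h k r hk
  let Q : (Fin 4 → Fin (2 ^ r)) → (Fin 4 → I) → Prop := fun e v =>
    v ∈ PSet P ∧ ∀ i, cell k (v i) = (e i : ℕ) / 2 ^ (r - k)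
  have hQm : ∀ e, NullMeasurableSet {v | Q e v} volume := fun e =>
    hm.inter (OptCoinc.meas_cells k fun i => (e i : ℕ) / 2 ^ (r - k)).nullMeasurableSet
  let c : (Fin 4 → Fin (2 ^ r)) → ℝ := fun e =>
    ind (Function.Injective e) * (Wd r (e 0) (e 1) * Wd r (e 2) (e 3))
  have hI : Integrable (fun v : Fin 4 → I => ((1 / 2 : ℝ) ^ r) ^ 4 * ((2 : ℝ) ^ k) ^ 4 *
      ∑ e : Fin 4 → Fin (2 ^ r), c e * ind (Q e v)) volume :=
    (integrable_finsetSum _ fun e _ => (integrable_ind₀ _ (hQm e)).const_mul _).const_mul _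
  have hR : ((1 / 2 : ℝ) ^ r) ^ 4 * ∑ e : Fin 4 → Fin (2 ^ r), ind (Function.Injective e) *
      (Wd r (e 0) (e 1) * Wd r (e 2) (e 3) * (((2 : ℝ) ^ k) ^ 4 *
        (volume : Measure (Fin 4 → I)).real
          {v | v ∈ PSet P ∧ ∀ i, cell k (v i) = (e i : ℕ) / 2 ^ (r - k)})) =
      ∫ v : Fin 4 → I, ((1 / 2 : ℝ) ^ r) ^ 4 * ((2 : ℝ) ^ k) ^ 4 *
        ∑ e : Fin 4 → Fin (2 ^ r), c e * ind (Q e v) := by
    rw [integral_const_mul,
      integral_finsetSum _ fun e _ => (integrable_ind₀ _ (hQm e)).const_mul _, Finset.mul_sum,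
      Finset.mul_sum]
    refine Finset.sum_congr rfl fun e _ => ?_
    rw [integral_const_mul, integral_ind₀ _ (hQm e)]
    simp only [c, Q]
    ring
  rw [hR] at h0
  refine h0.trans (add_le_add_left ?_ _)
  refine integral_mono hI (Wk_integrable P hm k) fun v => ?_
  have e1 : ∀ e : Fin 4 → Fin (2 ^ r), c e * ind (Q e v) =
      ((ind (Function.Injective e) * (Wd r (e 0) (e 1) * Wd r (e 2) (e 3))) *
        ind (∀ i, cell k (v i) = (e i : ℕ) / 2 ^ (r - k))) * ind (P (v 0) (v 1) (v 2) (v 3)) := by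
    intro e
    simp only [c, Q]
    rw [WkAvg.ind_and]
    have : ind (v ∈ PSet P) = ind (P (v 0) (v 1) (v 2) (v 3)) := rfl
    rw [this]
    ring
  simp only [e1]
  rw [← Finset.sum_mul, ← mul_assoc]
  exact mul_le_mul_of_nonneg_right (pointwise hk v) (ind_nonneg _)

end OptAvg

open OptBase OptAvg in
theorem opt_avg (P : I → I → I → I → Prop) (hm : NullMeasurableSet (PSet P) volume) (h : OPT P)
    (k : ℕ) :
    En P ≤ ∫ v : Fin 4 → I, Wk k (v 0) (v 1) * Wk k (v 2) (v 3) *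
      ind (P (v 0) (v 1) (v 2) (v 3)) := by
  apply le_of_forall_pos_le_add
  intro ε hε
  obtain ⟨n, hn⟩ := exists_pow_lt_of_lt_one (show (0 : ℝ) < ε / 10 by positivity)
    (show ((1 : ℝ) / 2) < 1 by norm_num)
  have h1 := finite_level P hm h k (max k n) (le_max_left _ _)
  have h2 : ((1 : ℝ) / 2) ^ (max k n) ≤ ε / 10 :=
    (pow_le_pow_of_le_one (by norm_num) (by norm_num) (le_max_right k n)).trans hn.le
  have h3 : ((1 : ℝ) / 2) ^ (max k n) ≤ 1 := Chain.pow_half_le_one _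
  have h4 : (0 : ℝ) ≤ (1 / 2) ^ (max k n) := by positivity
  have h5 : small (max k n) ≤ ε := by
    unfold small
    nlinarith
  linarith

end Pool.Agent.MP_a0a8d4_co
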