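import Pool.Agent.MP_a0a8d4_co.OptBase

set_option autoImplicit false

/-!
# MP_a0a8d4_co: the energy of the coincidences of cells for an optimal drawing
-/

namespace Pool.Agent.MP_a0a8d4_co

open MeasureTheory Set
open scoped unitInterval

namespace OptCoinc

open OptBase

theorem meas_cells (r : ℕ) (c : Fin 4 → ℕ) :
    MeasurableSet {v : Fin 4 → I | ∀ i, cell r (v i) = c i} := by
  have : {v : Fin 4 → I | ∀ i, cell r (v i) = c i} =
      ⋂ i, {v : Fin 4 → I | cell r (v i) = c i} := by
    ext v; simp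
  rw [this]
  refine MeasurableSet.iInter fun i => ?_
  exact (WkAvg.meas_cell r (c i)).preimage (measurable_pi_apply i)

theorem sum_cells (r : ℕ) (v : Fin 4 → I) (F : (Fin 4 → Fin (2 ^ r)) → ℝ) (p : Prop) :
    ∑ e : Fin 4 → Fin (2 ^ r), F e * ind (p ∧ ∀ i, cell r (v i) = (e i : ℕ)) =
      F (fun i => cellF r (v i)) * ind p := by
  rw [Finset.sum_eq_single (fun i => cellF r (v i))]
  · congr 1
    apply ind_congr
    constructor
    · exact fun h => h.1
    · exact fun h => ⟨h, fun i => rfl⟩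
  · intro e _ he
    have : ¬ (p ∧ ∀ i, cell r (v i) = (e i : ℕ)) := by
      rintro ⟨_, h⟩
      apply he
      funext i
      exact Fin.ext (h i).symm
    rw [ind_false this, mul_zero]
  · intro h
    exact absurd (Finset.mem_univ _) h

end OptCoinc

open OptBase OptCoinc in
theorem opt_coinc (P : I → I → I → I → Prop) (hm : NullMeasurableSet (PSet P) volume)
    (h : OPT P) (r : ℕ) :
    ∫ v : Fin 4 → I, ind (¬ Function.Injective fun i => cell r (v i)) *
      (W (v 0) (v 1) * W (v 2) (v 3) * ind (P (v 0) (v 1) (v 2) (v 3))) ≤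
      (1 / 2) ^ r * (1 + 1 / 64) + 8 * ((1 / 2) ^ r) ^ 2 := by
  have hk := key P hm h r r le_rfl
  simp only [Nat.sub_self, pow_zero, Nat.div_one] at hk
  let Q : (Fin 4 → Fin (2 ^ r)) → (Fin 4 → I) → Prop := fun e v =>
    v ∈ PSet P ∧ ∀ i, cell r (v i) = (e i : ℕ)
  have hQm : ∀ e, NullMeasurableSet {v | Q e v} volume := fun e =>
    hm.inter (meas_cells r fun i => (e i : ℕ)).nullMeasurableSet
  let c : (Fin 4 → Fin (2 ^ r)) → ℝ := fun e =>
    ind (Function.Injective e) * (Wd r (e 0) (e 1) * Wd r (e 2) (e 3))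
  have hR : ((1 / 2 : ℝ) ^ r) ^ 4 * ∑ e : Fin 4 → Fin (2 ^ r), ind (Function.Injective e) *
      (Wd r (e 0) (e 1) * Wd r (e 2) (e 3) * (((2 : ℝ) ^ r) ^ 4 *
        (volume : Measure (Fin 4 → I)).real
          {v | v ∈ PSet P ∧ ∀ i, cell r (v i) = (e i : ℕ)})) =
      ∫ v : Fin 4 → I, ∑ e : Fin 4 → Fin (2 ^ r), c e * ind (Q e v) := by
    rw [integral_finsetSum _ fun e _ => (integrable_ind₀ _ (hQm e)).const_mul _, Finset.mul_sum]
    refine Finset.sum_congr rfl fun e _ => ?_
    rw [integral_const_mul, integral_ind₀ _ (hQm e)]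
    have h1 : ((1 / 2 : ℝ) ^ r) ^ 4 * ((2 : ℝ) ^ r) ^ 4 = 1 := by
      rw [← mul_pow, ← mul_pow]; norm_num
    calc ((1 / 2 : ℝ) ^ r) ^ 4 * (ind (Function.Injective e) *
          (Wd r (e 0) (e 1) * Wd r (e 2) (e 3) * (((2 : ℝ) ^ r) ^ 4 *
          (volume : Measure (Fin 4 → I)).real {v | v ∈ PSet P ∧ ∀ i, cell r (v i) = (e i : ℕ)}))) =
          (((1 / 2 : ℝ) ^ r) ^ 4 * ((2 : ℝ) ^ r) ^ 4) * (c e *
          (volume : Measure (Fin 4 → I)).real {v | v ∈ PSet P ∧ ∀ i, cell r (v i) = (e i : ℕ)}) := by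
            simp only [c]; ring
      _ = _ := by rw [h1, one_mul]
  rw [hR] at hk
  have hpt : ∀ v : Fin 4 → I, ∑ e : Fin 4 → Fin (2 ^ r), c e * ind (Q e v) =
      ind (Function.Injective fun i => cell r (v i)) *
      (W (v 0) (v 1) * W (v 2) (v 3) * ind (P (v 0) (v 1) (v 2) (v 3))) := by
    intro v
    rw [sum_cells r v c (v ∈ PSet P)]
    simp only [c]
    by_cases hinj : Function.Injective fun i => cell r (v i)
    · have hinj' : Function.Injective fun i => cellF r (v i) := by
        intro i j hij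
        exact hinj (congrArg Fin.val hij)
      rw [ind_true hinj, ind_true hinj']
      have h01 : cell r (v 0) ≠ cell r (v 1) := fun h => absurd (hinj h) (by decide)
      have h23 : cell r (v 2) ≠ cell r (v 3) := fun h => absurd (hinj h) (by decide)
      rw [W_eq_Wd r _ _ h01, W_eq_Wd r _ _ h23]
      have : ind (v ∈ PSet P) = ind (P (v 0) (v 1) (v 2) (v 3)) := rfl
      rw [this]
      simp only [cellF]
      ring
    · have hinj' : ¬ Function.Injective fun i => cellF r (v i) := by
        intro h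
        apply hinj
        intro i j hij
        exact h (Fin.ext hij)
      rw [ind_false hinj, ind_false hinj']
      ring
  simp only [hpt] at hk
  have hWW : Integrable (fun v : Fin 4 → I => W (v 0) (v 1) * W (v 2) (v 3) *
      ind (P (v 0) (v 1) (v 2) (v 3))) volume := by
    have := Chain.integrable_R hm measurable_W (C := 1) Chain.W_nonneg W_le_one 0 1 2 3
    refine this.congr (Filter.Eventually.of_forall fun v => ?_)
    simp only [Chain.Gf]
    ring
  have hinjI : Integrable (fun v : Fin 4 → I => ind (Function.Injective fun i => cell r (v i)) *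
      (W (v 0) (v 1) * W (v 2) (v 3) * ind (P (v 0) (v 1) (v 2) (v 3)))) volume := by
    have h1 : Integrable (fun v : Fin 4 → I => ∑ e : Fin 4 → Fin (2 ^ r), c e * ind (Q e v))
        volume := integrable_finsetSum _ fun e _ => (integrable_ind₀ _ (hQm e)).const_mul _
    simp only [hpt] at h1
    exact h1
  have hsplit : ∀ v : Fin 4 → I, ind (¬ Function.Injective fun i => cell r (v i)) *
      (W (v 0) (v 1) * W (v 2) (v 3) * ind (P (v 0) (v 1) (v 2) (v 3))) =
      W (v 0) (v 1) * W (v 2) (v 3) * ind (P (v 0) (v 1) (v 2) (v 3)) -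
      ind (Function.Injective fun i => cell r (v i)) *
      (W (v 0) (v 1) * W (v 2) (v 3) * ind (P (v 0) (v 1) (v 2) (v 3))) := by
    intro v
    by_cases hinj : Function.Injective fun i => cell r (v i)
    · rw [ind_true hinj, ind_false (not_not.2 hinj)]; ring
    · rw [ind_false hinj, ind_true hinj]; ring
  simp only [hsplit]
  rw [integral_sub hWW hinjI]
  have h9 : ∫ v : Fin 4 → I, W (v 0) (v 1) * W (v 2) (v 3) *
      ind (P (v 0) (v 1) (v 2) (v 3)) = En P := rfl
  rw [h9]
  unfold small at hk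
  linarith

end Pool.Agent.MP_a0a8d4_co
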