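import Pool.Agent.MP_a0a8d4_co.OptBase

set_option autoImplicit false

/-!
# MP_a0a8d4_co: lower bound for the volume of the crossing set
-/

namespace Pool.Agent.MP_a0a8d4_co

open MeasureTheory Set
open scoped unitInterval

namespace OptFive

open OptBase

/-- The injective four-tuples of the first five cells. -/
def EE : Finset (Fin 4 → Fin (2 ^ 3)) :=
  Finset.univ.filter fun e => Function.Injective e ∧ ∀ i, (e i : ℕ) < 5

/-- An injection of `Fin 4 → Fin 5` for counting. -/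
theorem card_EE : EE.card = 120 := by
  have h : EE.card = Fintype.card (Fin 4 ↪ Fin 5) := by
    rw [← Fintype.card_coe]
    refine Fintype.card_congr
      { toFun := fun e => ⟨fun i => ⟨(e.1 i : ℕ), (Finset.mem_filter.1 e.2).2.2 i⟩, fun i j hij =>
          (Finset.mem_filter.1 e.2).2.1
            (Fin.ext (congrArg (fun z : Fin 5 => (z : ℕ)) hij))⟩
        invFun := fun g => ⟨fun i => ⟨(g i : ℕ), lt_trans (g i).2 (by norm_num)⟩,
          Finset.mem_filter.2 ⟨Finset.mem_univ _, fun i j hij =>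
            g.injective (Fin.ext (congrArg (fun z : Fin (2 ^ 3) => (z : ℕ)) hij)),
            fun i => (g i).2⟩⟩
        left_inv := fun e => rfl
        right_inv := fun g => rfl }
  rw [h, Fintype.card_embedding_eq]
  decide

/-- The eight symmetric copies. -/
def eight {A : Type} (a b c d : A) : List (Fin 4 → A) :=
  [![a, b, c, d], ![b, a, c, d], ![a, b, d, c], ![b, a, d, c],
    ![c, d, a, b], ![d, c, a, b], ![c, d, b, a], ![d, c, b, a]]

theorem eight_nodup {A : Type} (a b c d : A) (h : [a, b, c, d].Nodup) : (eight a b c d).Nodup := by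
  have key : ∀ (p q : Fin 4 → A), (∃ i, p i ≠ q i) → p ≠ q := fun p q ⟨i, hi⟩ hpq => hi (by rw [hpq])
  simp only [List.nodup_cons, List.mem_cons, List.not_mem_nil, or_false, not_or,
    not_false_eq_true, List.nodup_nil, and_true] at h
  obtain ⟨⟨hab, hac, had⟩, ⟨hbc, hbd⟩, hcd⟩ := h
  have hba := Ne.symm hab
  have hca := Ne.symm hac
  have hda := Ne.symm had
  have hcb := Ne.symm hbc
  have hdb := Ne.symm hbd
  have hdc := Ne.symm hcd
  unfold eight
  simp only [List.nodup_cons, List.mem_cons, List.not_mem_nil, or_false, not_or,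
    not_false_eq_true, List.nodup_nil, and_true]
  refine ⟨⟨?_, ?_, ?_, ?_, ?_, ?_, ?_⟩, ⟨?_, ?_, ?_, ?_, ?_, ?_⟩, ⟨?_, ?_, ?_, ?_, ?_⟩,
    ⟨?_, ?_, ?_, ?_⟩, ⟨?_, ?_, ?_⟩, ⟨?_, ?_⟩, ?_⟩ <;> apply key
  all_goals first
    | exact ⟨0, hab⟩
    | exact ⟨0, hba⟩
    | exact ⟨0, hac⟩
    | exact ⟨0, hca⟩
    | exact ⟨0, had⟩
    | exact ⟨0, hda⟩
    | exact ⟨0, hbc⟩
    | exact ⟨0, hcb⟩
    | exact ⟨0, hbd⟩
    | exact ⟨0, hdb⟩
    | exact ⟨0, hcd⟩
    | exact ⟨0, hdc⟩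
    | exact ⟨2, hcd⟩
    | exact ⟨2, hdc⟩
    | exact ⟨2, hab⟩
    | exact ⟨2, hba⟩

theorem eight_P {P : I → I → I → I → Prop} (hs : PSym P) {A : Type} (ξ : A → I) (a b c d : A)
    (h : P (ξ a) (ξ b) (ξ c) (ξ d)) :
    ∀ e ∈ eight a b c d, P (ξ (e 0)) (ξ (e 1)) (ξ (e 2)) (ξ (e 3)) := by
  have h1 := fun x y z w => (hs.1 x y z w).1
  have h2 := fun x y z w => (hs.2 x y z w).1
  have h3 : ∀ x y z w, P x y z w → P x y w z := fun x y z w hp =>
    h2 _ _ _ _ (h1 _ _ _ _ (h2 _ _ _ _ hp))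
  intro e he
  unfold eight at he
  simp only [List.mem_cons, List.not_mem_nil, or_false] at he
  rcases he with rfl | rfl | rfl | rfl | rfl | rfl | rfl | rfl
  · exact h
  · exact h1 _ _ _ _ h
  · exact h3 _ _ _ _ h
  · exact h1 _ _ _ _ (h3 _ _ _ _ h)
  · exact h2 _ _ _ _ h
  · exact h1 _ _ _ _ (h2 _ _ _ _ h)
  · exact h3 _ _ _ _ (h2 _ _ _ _ h)
  · exact h1 _ _ _ _ (h3 _ _ _ _ (h2 _ _ _ _ h))

theorem mem_EE (a b c d : Fin (2 ^ 3)) (h : [a, b, c, d].Nodup)
    (ha : (a : ℕ) < 5) (hb : (b : ℕ) < 5) (hc : (c : ℕ) < 5) (hd : (d : ℕ) < 5) :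
    ![a, b, c, d] ∈ EE := by
  refine Finset.mem_filter.2 ⟨Finset.mem_univ _, ?_, ?_⟩
  · have h1 : [a, b, c, d] = List.ofFn ![a, b, c, d] := by simp [List.ofFn_succ, Fin.succ]
    rw [h1, List.nodup_ofFn] at h
    exact h
  · intro i
    fin_cases i
    · exact ha
    · exact hb
    · exact hc
    · exact hd

theorem eight_EE (a b c d : Fin (2 ^ 3)) (h : [a, b, c, d].Nodup)
    (ha : (a : ℕ) < 5) (hb : (b : ℕ) < 5) (hc : (c : ℕ) < 5) (hd : (d : ℕ) < 5) :
    ∀ e ∈ eight a b c d, e ∈ EE := by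
  intro e he
  unfold eight at he
  simp only [List.mem_cons, List.not_mem_nil, or_false] at he
  simp only [List.nodup_cons, List.mem_cons, List.not_mem_nil, or_false, not_or,
    not_false_eq_true, List.nodup_nil, and_true] at h
  obtain ⟨⟨hab, hac, had⟩, ⟨hbc, hbd⟩, hcd⟩ := h
  have hba := Ne.symm hab
  have hca := Ne.symm hac
  have hda := Ne.symm had
  have hcb := Ne.symm hbc
  have hdb := Ne.symm hbd
  have hdc := Ne.symm hcd
  rcases he with rfl | rfl | rfl | rfl | rfl | rfl | rfl | rfl <;> apply mem_EE <;>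
    first | assumption | simp [*]

end OptFive

open OptBase OptFive in
theorem opt_five (P : I → I → I → I → Prop) (hs : PSym P)
    (hm : NullMeasurableSet (PSet P) volume) (h : OPT P) :
    1 / 15 ≤ (volume : Measure (Fin 4 → I)).real (PSet P) := by
  classical
  obtain ⟨μ, hμ, hsam⟩ := sampling 0 3 (by norm_num)
  have hvol : ∀ e ∈ EE, NullMeasurableSet {ξ : Fin (2 ^ 3) → I |
      P (ξ (e 0)) (ξ (e 1)) (ξ (e 2)) (ξ (e 3))} μ ∧
      ∫ ξ : Fin (2 ^ 3) → I, ind (P (ξ (e 0)) (ξ (e 1)) (ξ (e 2)) (ξ (e 3))) ∂μ =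
        (volume : Measure (Fin 4 → I)).real (PSet P) := by
    intro e he
    obtain ⟨h1, h2⟩ := hsam 4 e (Finset.mem_filter.1 he).2.1 (PSet P) hm
    refine ⟨h1, ?_⟩
    rw [integral_ind₀ (fun ξ : Fin (2 ^ 3) → I => P (ξ (e 0)) (ξ (e 1)) (ξ (e 2)) (ξ (e 3))) h1]
    refine h2.trans ?_
    rw [pow_zero, one_pow, one_mul]
    congr 1
    ext v
    refine ⟨fun h => h.1, fun h => ⟨h, fun i => ?_⟩⟩
    have h3 := cell_lt 0 (v i)
    have h4 : (e i : ℕ) / 2 ^ (3 - 0) = 0 := Nat.div_eq_of_lt (e i).2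
    rw [h4]
    simpa using h3
  have hpt : ∀ ξ : Fin (2 ^ 3) → I, (8 : ℝ) ≤
      ∑ e ∈ EE, ind (P (ξ (e 0)) (ξ (e 1)) (ξ (e 2)) (ξ (e 3))) := by
    intro ξ
    obtain ⟨cr, h1, _, h3, _⟩ := h 3 ξ
    obtain ⟨a, b, c, d, hnd, hmem, hcr⟩ := h3 0 1 2 3 4 (by decide)
    have hP := h1 a b c d hnd hcr
    have hlt : ∀ u ∈ [a, b, c, d], (u : ℕ) < 5 := by
      intro u hu
      have := hmem u hu
      simp only [List.mem_cons, List.not_mem_nil, or_false] at this
      rcases this with rfl | rfl | rfl | rfl | rfl <;> decide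
    have h5 := eight_nodup a b c d hnd
    have h6 := eight_P hs ξ a b c d hP
    have h7 := eight_EE a b c d hnd (hlt a (by simp)) (hlt b (by simp)) (hlt c (by simp))
      (hlt d (by simp))
    have hsub : (eight a b c d).toFinset ⊆ EE := by
      intro e he
      exact h7 e (List.mem_toFinset.1 he)
    have h8 : (eight a b c d).toFinset.card = 8 := by
      rw [List.toFinset_card_of_nodup h5]
      rfl
    calc (8 : ℝ) = ∑ e ∈ (eight a b c d).toFinset, (1 : ℝ) := by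
          rw [Finset.sum_const, h8]; norm_num
      _ = ∑ e ∈ (eight a b c d).toFinset, ind (P (ξ (e 0)) (ξ (e 1)) (ξ (e 2)) (ξ (e 3))) := by
          refine Finset.sum_congr rfl fun e he => ?_
          rw [ind_true (h6 e (List.mem_toFinset.1 he))]
      _ ≤ _ := Finset.sum_le_sum_of_subset_of_nonneg hsub fun e _ _ => ind_nonneg _
  have hint : ∀ e ∈ EE, Integrable (fun ξ : Fin (2 ^ 3) → I =>
      ind (P (ξ (e 0)) (ξ (e 1)) (ξ (e 2)) (ξ (e 3)))) μ := fun e he =>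
    integrable_ind₀ (fun ξ : Fin (2 ^ 3) → I => P (ξ (e 0)) (ξ (e 1)) (ξ (e 2)) (ξ (e 3)))
      (hvol e he).1
  have h9 : (8 : ℝ) ≤ ∫ ξ : Fin (2 ^ 3) → I,
      ∑ e ∈ EE, ind (P (ξ (e 0)) (ξ (e 1)) (ξ (e 2)) (ξ (e 3))) ∂μ := by
    have h10 : ∫ _ : Fin (2 ^ 3) → I, (8 : ℝ) ∂μ = 8 := by simp
    rw [← h10]
    exact integral_mono (integrable_const _) (integrable_finsetSum _ hint) hpt
  rw [integral_finsetSum _ hint, Finset.sum_congr rfl fun e he => (hvol e he).2,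
    Finset.sum_const, card_EE] at h9
  simp only [nsmul_eq_mul] at h9
  norm_num at h9
  linarith

end Pool.Agent.MP_a0a8d4_co
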