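import Pool.Agent.MP_a0a8d4_co.Cells

set_option autoImplicit false

/-!
# MP_a0a8d4_co: the graphon W
-/

namespace Pool.Agent.MP_a0a8d4_co

open MeasureTheory Set Filter
open scoped unitInterval Topology

theorem uw_nonneg (i : ℕ) : 0 ≤ uw i := by unfold uw; positivity

theorem uw_pos (i : ℕ) : 0 < uw i := by unfold uw; positivity

theorem hasSum_uw : HasSum (fun i : ℕ => uw (i + 1)) (1 / 1000) := by
  have h := hasSum_geometric_two' (1 / 1000 : ℝ)
  convert h using 2 with i
  unfold uw
  rw [pow_succ, div_pow, one_pow]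
  ring

theorem summable_uw : Summable (fun i : ℕ => uw (i + 1)) := hasSum_uw.summable

theorem tsum_uw : ∑' i : ℕ, uw (i + 1) = 1 / 1000 := hasSum_uw.tsum_eq

/-- Sums with coefficients in `[0,1]`. -/
theorem summable_uw_mul (f : ℕ → ℝ) (h0 : ∀ i, 0 ≤ f i) (h1 : ∀ i, f i ≤ uw (i + 1)) :
    Summable f := Summable.of_nonneg_of_le h0 h1 summable_uw

theorem tsum_le_uw (f : ℕ → ℝ) (h0 : ∀ i, 0 ≤ f i) (h1 : ∀ i, f i ≤ uw (i + 1)) :
    ∑' i, f i ≤ 1 / 1000 := by
  rw [← tsum_uw]
  exact (summable_uw_mul f h0 h1).tsum_le_tsum h1 summable_uw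

theorem lev_strictMono : StrictMono lev := by
  intro a b hab
  unfold lev
  have : a ^ 2 < b ^ 2 := Nat.pow_lt_pow_left hab (by norm_num)
  omega

theorem lev_zero : lev 0 = 0 := rfl

theorem W_term_nonneg (x y : I) (i : ℕ) :
    0 ≤ (if cell (lev (i + 1)) x = cell (lev (i + 1)) y then uw (i + 1) else 0) := by
  split_ifs
  · exact uw_nonneg _
  · exact le_refl _

theorem W_term_le (x y : I) (i : ℕ) :
    (if cell (lev (i + 1)) x = cell (lev (i + 1)) y then uw (i + 1) else 0) ≤ uw (i + 1) := by
  split_ifs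
  · exact le_refl _
  · exact uw_nonneg _

theorem W_summable (x y : I) : Summable fun i : ℕ =>
    (if cell (lev (i + 1)) x = cell (lev (i + 1)) y then uw (i + 1) else 0) :=
  summable_uw_mul _ (W_term_nonneg x y) (W_term_le x y)

theorem W_ge (x y : I) : 0.999 ≤ W x y := by
  unfold W
  have := tsum_le_uw _ (W_term_nonneg x y) (W_term_le x y)
  norm_num at this ⊢
  linarith

theorem W_le_one (x y : I) : W x y ≤ 1 := by
  have h : 0 ≤ ∑' i : ℕ, (if cell (lev (i + 1)) x = cell (lev (i + 1)) y then uw (i + 1) else 0) :=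
    tsum_nonneg (W_term_nonneg x y)
  unfold W
  linarith

theorem W_symm (x y : I) : W x y = W y x := by
  unfold W
  simp only [eq_comm]

theorem measurable_W : Measurable fun p : I × I => W p.1 p.2 := by
  unfold W
  apply measurable_const.sub
  apply Measurable.tsum
  intro i
  apply Measurable.ite _ measurable_const measurable_const
  exact measurableSet_eq_fun ((measurable_cell _).comp measurable_fst)
    ((measurable_cell _).comp measurable_snd)

theorem W_nonneg (x y : I) : 0 ≤ W x y := by
  have := W_ge x y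
  norm_num at this ⊢
  linarith

theorem isGraphon_W : IsGraphon W where
  symm := W_symm
  nonneg := W_nonneg
  le_one := W_le_one
  meas := measurable_W

theorem W_eq_Wd (r : ℕ) (x y : I) (h : cell r x ≠ cell r y) : W x y = Wd r (cell r x) (cell r y) := by
  unfold W Wd
  congr 1
  apply tsum_congr
  intro i
  by_cases hi : lev (i + 1) ≤ r
  · rw [cell_div hi, cell_div hi]
    simp [hi]
  · rw [if_neg (fun h' => h (cell_mono (le_of_not_ge hi) h')), if_neg (fun h' => hi h'.1)]

theorem Wd_term_nonneg (r a b i : ℕ) : 0 ≤ (if lev (i + 1) ≤ r ∧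
    a / 2 ^ (r - lev (i + 1)) = b / 2 ^ (r - lev (i + 1)) then uw (i + 1) else 0) := by
  split_ifs
  · exact uw_nonneg _
  · exact le_refl _

theorem Wd_term_le (r a b i : ℕ) : (if lev (i + 1) ≤ r ∧
    a / 2 ^ (r - lev (i + 1)) = b / 2 ^ (r - lev (i + 1)) then uw (i + 1) else 0) ≤ uw (i + 1) := by
  split_ifs
  · exact le_refl _
  · exact uw_nonneg _

theorem Wd_ge (r a b : ℕ) : 0.999 ≤ Wd r a b := by
  unfold Wd
  have := tsum_le_uw _ (Wd_term_nonneg r a b) (Wd_term_le r a b)
  norm_num at this ⊢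
  linarith

theorem Wd_le_one (r a b : ℕ) : Wd r a b ≤ 1 := by
  have h : 0 ≤ ∑' i : ℕ, (if lev (i + 1) ≤ r ∧
      a / 2 ^ (r - lev (i + 1)) = b / 2 ^ (r - lev (i + 1)) then uw (i + 1) else 0) :=
    tsum_nonneg (Wd_term_nonneg r a b)
  unfold Wd
  linarith

theorem Wk_term_nonneg (k : ℕ) (x y : I) (i : ℕ) : 0 ≤ (if lev (i + 1) ≤ k then
      (if cell (lev (i + 1)) x = cell (lev (i + 1)) y then uw (i + 1) else 0)
    else (if cell k x = cell k y then uw (i + 1) * (1 / 2) ^ (lev (i + 1) - k) else 0)) := by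
  have := uw_nonneg (i + 1)
  split_ifs <;> positivity

theorem Wk_term_le (k : ℕ) (x y : I) (i : ℕ) : (if lev (i + 1) ≤ k then
      (if cell (lev (i + 1)) x = cell (lev (i + 1)) y then uw (i + 1) else 0)
    else (if cell k x = cell k y then uw (i + 1) * (1 / 2) ^ (lev (i + 1) - k) else 0)) ≤
      uw (i + 1) := by
  have := uw_nonneg (i + 1)
  split_ifs
  · exact le_refl _
  · exact this
  · exact mul_le_of_le_one_right this (pow_le_one₀ (by norm_num) (by norm_num))
  · exact this

theorem Wk_summable (k : ℕ) (x y : I) : Summable fun i : ℕ => (if lev (i + 1) ≤ k then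
      (if cell (lev (i + 1)) x = cell (lev (i + 1)) y then uw (i + 1) else 0)
    else (if cell k x = cell k y then uw (i + 1) * (1 / 2) ^ (lev (i + 1) - k) else 0)) :=
  summable_uw_mul _ (Wk_term_nonneg k x y) (Wk_term_le k x y)

theorem Wk_ge (k : ℕ) (x y : I) : 0.999 ≤ Wk k x y := by
  unfold Wk
  have := tsum_le_uw _ (Wk_term_nonneg k x y) (Wk_term_le k x y)
  norm_num at this ⊢
  linarith

theorem Wk_nonneg (k : ℕ) (x y : I) : 0 ≤ Wk k x y := by
  have := Wk_ge k x y
  norm_num at this ⊢
  linarith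

theorem Wk_le_one (k : ℕ) (x y : I) : Wk k x y ≤ 1 := by
  have h := tsum_nonneg (L := SummationFilter.unconditional ℕ) (Wk_term_nonneg k x y)
  unfold Wk
  linarith

theorem measurable_Wk (k : ℕ) : Measurable fun p : I × I => Wk k p.1 p.2 := by
  unfold Wk
  apply measurable_const.sub
  apply Measurable.tsum
  intro i
  split_ifs
  · apply Measurable.ite _ measurable_const measurable_const
    exact measurableSet_eq_fun ((measurable_cell _).comp measurable_fst)
      ((measurable_cell _).comp measurable_snd)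
  · apply Measurable.ite _ measurable_const measurable_const
    exact measurableSet_eq_fun ((measurable_cell _).comp measurable_fst)
      ((measurable_cell _).comp measurable_snd)

theorem Wk_congr (k : ℕ) {x y x' y' : I} (hx : cell k x = cell k x') (hy : cell k y = cell k y') :
    Wk k x y = Wk k x' y' := by
  unfold Wk
  congr 1
  apply tsum_congr
  intro i
  by_cases hi : lev (i + 1) ≤ k
  · rw [if_pos hi, if_pos hi, cell_mono hi hx, cell_mono hi hy]
  · rw [if_neg hi, if_neg hi, hx, hy]

theorem Wk_symm (k : ℕ) (x y : I) : Wk k x y = Wk k y x := by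
  unfold Wk
  simp only [eq_comm]

end Pool.Agent.MP_a0a8d4_co
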