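import Pool.Agent.MP_a0a8d4_co.Cells

set_option autoImplicit false

/-!
# MP_a0a8d4_co: independent sampling
-/

namespace Pool.Agent.MP_a0a8d4_co

open MeasureTheory Set
open scoped unitInterval ENNReal

namespace Sampling

/-- The uniform distribution on a cell. -/
noncomputable def nu (k r : ℕ) (J : Fin (2 ^ r)) : Measure I :=
  ((2 : ℝ≥0∞) ^ k) • (volume : Measure I).restrict {x | cell k x = (J : ℕ) / 2 ^ (r - k)}

theorem meas_cell (k j : ℕ) : MeasurableSet {x : I | cell k x = j} :=
  measurable_cell k (MeasurableSet.singleton j)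

theorem div_lt {k r : ℕ} (hk : k ≤ r) (J : Fin (2 ^ r)) : (J : ℕ) / 2 ^ (r - k) < 2 ^ k := by
  rw [Nat.div_lt_iff_lt_mul (by positivity), ← pow_add, Nat.add_sub_cancel' hk]
  exact J.2

theorem nu_prob {k r : ℕ} (hk : k ≤ r) (J : Fin (2 ^ r)) : IsProbabilityMeasure (nu k r J) := by
  constructor
  have h1 := vol_cell k _ (div_lt hk J)
  have h2 : (volume : Measure I) {x | cell k x = (J : ℕ) / 2 ^ (r - k)} = (1 / 2 : ℝ≥0∞) ^ k := by
    rw [measureReal_def] at h1
    rw [← ENNReal.ofReal_toReal (measure_ne_top volume {x : I | cell k x = (J : ℕ) / 2 ^ (r - k)}),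
      h1, ENNReal.ofReal_pow (by norm_num)]
    congr 1
    rw [ENNReal.ofReal_div_of_pos (by norm_num)]
    simp
  rw [nu, Measure.smul_apply, Measure.restrict_apply_univ, h2, smul_eq_mul, ← mul_pow]
  rw [one_div, ENNReal.mul_inv_cancel (by norm_num) (by norm_num), one_pow]

theorem map_pi {k r : ℕ} (hk : k ≤ r) {m : ℕ} (e : Fin m → Fin (2 ^ r))
    (he : Function.Injective e) :
    (Measure.pi (nu k r)).map (fun ξ i => ξ (e i)) =
      (((2 : ℝ≥0∞) ^ k) ^ m) • (volume : Measure (Fin m → I)).restrict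
        {v | ∀ i, cell k (v i) = (e i : ℕ) / 2 ^ (r - k)} := by
  have hprob : ∀ J, IsProbabilityMeasure (nu k r J) := nu_prob hk
  have hg : Measurable (fun (ξ : Fin (2 ^ r) → I) (i : Fin m) => ξ (e i)) :=
    measurable_pi_lambda _ fun i => measurable_pi_apply _
  have h1 : (Measure.pi fun i => nu k r (e i)) =
      (Measure.pi (nu k r)).map (fun ξ i => ξ (e i)) := by
    apply Measure.pi_eq
    intro s hs
    rw [Measure.map_apply hg (MeasurableSet.univ_pi hs)]
    classical
    let t : Fin (2 ^ r) → Set I := fun J => if h : ∃ i, e i = J then s h.choose else univ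
    have ht : ∀ i, t (e i) = s i := by
      intro i
      have h : ∃ i', e i' = e i := ⟨i, rfl⟩
      simp only [t, dif_pos h]
      rw [he h.choose_spec]
    have hpre : (fun (ξ : Fin (2 ^ r) → I) (i : Fin m) => ξ (e i)) ⁻¹' (univ.pi s) = univ.pi t := by
      ext ξ
      simp only [mem_preimage, mem_pi, mem_univ, true_implies]
      constructor
      · intro h J
        by_cases hJ : ∃ i, e i = J
        · obtain ⟨i, rfl⟩ := hJ
          rw [ht]
          exact h i
        · simp only [t, dif_neg hJ, mem_univ]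
      · intro h i
        rw [← ht]
        exact h (e i)
    rw [hpre, Measure.pi_pi]
    symm
    apply Fintype.prod_of_injective e he
    · intro J hJ
      have hJ' : ¬ ∃ i, e i = J := hJ
      simp only [t, dif_neg hJ']
      exact measure_univ
    · intro i
      rw [ht]
  rw [← h1]
  apply Measure.pi_eq
  intro s hs
  have hC : {v : Fin m → I | ∀ i, cell k (v i) = (e i : ℕ) / 2 ^ (r - k)} =
      univ.pi (fun i => {x : I | cell k x = (e i : ℕ) / 2 ^ (r - k)}) := by
    ext v
    simp
  rw [Measure.smul_apply, Measure.restrict_apply (MeasurableSet.univ_pi hs), hC, ← pi_inter_distrib,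
    volume_pi_pi]
  simp only [nu, Measure.smul_apply, smul_eq_mul, Measure.restrict_apply (hs _)]
  rw [Finset.prod_mul_distrib]
  simp

end Sampling

open Sampling in
/-- Independent sampling: `ξ J` is uniform in the cell of level `k` that contains the cell `J` of
level `r`. -/
theorem sampling (k r : ℕ) (hk : k ≤ r) : ∃ μ : Measure (Fin (2 ^ r) → I), IsProbabilityMeasure μ ∧
    ∀ (m : ℕ) (e : Fin m → Fin (2 ^ r)), Function.Injective e → ∀ S : Set (Fin m → I),
      NullMeasurableSet S volume →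
      NullMeasurableSet {ξ | (fun i => ξ (e i)) ∈ S} μ ∧
      μ.real {ξ | (fun i => ξ (e i)) ∈ S} = ((2 : ℝ) ^ k) ^ m *
        (volume : Measure (Fin m → I)).real
          {v | v ∈ S ∧ ∀ i, cell k (v i) = (e i : ℕ) / 2 ^ (r - k)} := by
  have hprob : ∀ J, IsProbabilityMeasure (nu k r J) := nu_prob hk
  refine ⟨Measure.pi (nu k r), inferInstance, ?_⟩
  intro m e he S hS
  have hmap := map_pi hk e he
  have hg : Measurable (fun (ξ : Fin (2 ^ r) → I) (i : Fin m) => ξ (e i)) :=
    measurable_pi_lambda _ fun i => measurable_pi_apply _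
  have hmp : MeasurePreserving (fun (ξ : Fin (2 ^ r) → I) (i : Fin m) => ξ (e i))
      (Measure.pi (nu k r)) ((((2 : ℝ≥0∞) ^ k) ^ m) • (volume : Measure (Fin m → I)).restrict
        {v | ∀ i, cell k (v i) = (e i : ℕ) / 2 ^ (r - k)}) := ⟨hg, hmap⟩
  have hac : ((((2 : ℝ≥0∞) ^ k) ^ m) • (volume : Measure (Fin m → I)).restrict
        {v | ∀ i, cell k (v i) = (e i : ℕ) / 2 ^ (r - k)}) ≪ (volume : Measure (Fin m → I)) :=
    (Measure.smul_absolutelyContinuous).trans Measure.restrict_le_self.absolutelyContinuous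
  have hS' : NullMeasurableSet S ((((2 : ℝ≥0∞) ^ k) ^ m) • (volume : Measure (Fin m → I)).restrict
        {v | ∀ i, cell k (v i) = (e i : ℕ) / 2 ^ (r - k)}) := hS.mono_ac hac
  refine ⟨hS'.preimage hmp.quasiMeasurePreserving, ?_⟩
  have h1 := hmp.measure_preimage hS'
  have h2 : {ξ : Fin (2 ^ r) → I | (fun i => ξ (e i)) ∈ S} =
      (fun (ξ : Fin (2 ^ r) → I) (i : Fin m) => ξ (e i)) ⁻¹' S := rfl
  have hS'' : NullMeasurableSet S ((volume : Measure (Fin m → I)).restrict
        {v | ∀ i, cell k (v i) = (e i : ℕ) / 2 ^ (r - k)}) :=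
    hS.mono_ac Measure.restrict_le_self.absolutelyContinuous
  rw [measureReal_def, h2, h1, Measure.smul_apply, Measure.restrict_apply₀ hS'', smul_eq_mul,
    ENNReal.toReal_mul, measureReal_def]
  congr 1

end Pool.Agent.MP_a0a8d4_co
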