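import Pool.Agent.MP_a0a8d4_co.NearDiag
import Pool.Agent.MP_a0a8d4_co.Sampling
import Pool.Agent.MP_a0a8d4_co.GraphonW

/-!
Module RE of MP_a0a8d4_co: the parity relation holds almost everywhere.
-/

set_option autoImplicit false

namespace Pool.Agent.MP_a0a8d4_co

open MeasureTheory Set Filter
open scoped unitInterval Topology

namespace REAux

open NDAux

theorem relAt_congr6 {P Q : Fin 6 → Fin 6 → Fin 6 → Fin 6 → Prop}
    (h : ∀ t : Fin 4 → Fin 6, Function.Injective t →
      (P (t 0) (t 1) (t 2) (t 3) ↔ Q (t 0) (t 1) (t 2) (t 3))) :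
    RelAt P 0 1 2 3 4 5 ↔ RelAt Q 0 1 2 3 4 5 := by
  have h' : ∀ a b c d : Fin 6, Function.Injective ![a, b, c, d] → (P a b c d) = (Q a b c d) :=
    fun a b c d hi => propext (h ![a, b, c, d] hi)
  unfold RelAt
  rw [h' 0 3 4 5 (by decide), h' 1 3 4 5 (by decide), h' 0 4 3 5 (by decide),
    h' 1 4 3 5 (by decide), h' 0 5 3 4 (by decide), h' 1 5 3 4 (by decide),
    h' 0 2 3 4 (by decide), h' 1 2 3 4 (by decide), h' 0 2 3 5 (by decide),
    h' 1 2 3 5 (by decide), h' 0 2 4 5 (by decide), h' 1 2 4 5 (by decide),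
    h' 0 3 1 4 (by decide), h' 0 4 1 3 (by decide), h' 0 3 1 5 (by decide),
    h' 0 5 1 3 (by decide), h' 0 4 1 5 (by decide), h' 0 5 1 4 (by decide)]

theorem null_of_fun {ι X : Type} [Finite ι] [MeasurableSpace X] {μ : Measure X} (A : ι → Set X)
    (hA : ∀ i, NullMeasurableSet (A i) μ) (Φ : (ι → Prop) → Prop) :
    NullMeasurableSet {x | Φ (fun i => x ∈ A i)} μ := by
  classical
  have h : {x | Φ (fun i => x ∈ A i)} =
      ⋃ s : {s : Set ι // Φ (fun i => i ∈ s)}, ⋂ i, (if i ∈ s.1 then A i else (A i)ᶜ) := by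
    ext x
    simp only [mem_ofPred_eq, mem_iUnion, mem_iInter]
    constructor
    · intro hx
      refine ⟨⟨{i | x ∈ A i}, hx⟩, fun i => ?_⟩
      by_cases hi : x ∈ A i
      · rw [if_pos (show i ∈ {i | x ∈ A i} from hi)]; exact hi
      · rw [if_neg (show i ∉ {i | x ∈ A i} from hi)]; exact hi
    · rintro ⟨s, hs⟩
      have : (fun i => x ∈ A i) = fun i => i ∈ s.1 := by
        funext i
        apply propext
        have := hs i
        by_cases hi : i ∈ s.1
        · rw [if_pos hi] at this
          exact ⟨fun _ => hi, fun _ => this⟩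
        · rw [if_neg hi] at this
          exact ⟨fun h' => absurd h' this, fun h' => absurd h' hi⟩
      rw [this]
      exact s.2
  rw [h]
  have : Finite {s : Set ι // Φ (fun i => i ∈ s)} := inferInstance
  apply NullMeasurableSet.iUnion
  intro s
  apply NullMeasurableSet.iInter
  intro i
  split_ifs
  · exact hA i
  · exact (hA i).compl

/-- the set where the parity relation fails -/
def FSet (P : I → I → I → I → Prop) : Set (Fin 6 → I) :=
  {v | ¬ RelAt P (v 0) (v 1) (v 2) (v 3) (v 4) (v 5)}

theorem FSet_null {P : I → I → I → I → Prop} (hm : NullMeasurableSet (PSet P) volume) :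
    NullMeasurableSet (FSet P) volume := by
  let ι := {t : Fin 4 → Fin 6 // Function.Injective t}
  let A : ι → Set (Fin 6 → I) := fun t => {v | (fun i => v (t.1 i)) ∈ PSet P}
  have hA : ∀ t, NullMeasurableSet (A t) volume := fun t =>
    hm.preimage (L1Aux.mp_comp t.1 t.2).quasiMeasurePreserving
  let Φ : (ι → Prop) → Prop := fun p => ¬ RelAt (fun a b c d : Fin 6 =>
    ∃ t : ι, t.1 0 = a ∧ t.1 1 = b ∧ t.1 2 = c ∧ t.1 3 = d ∧ p t) 0 1 2 3 4 5
  have h := null_of_fun A hA Φ
  have e : FSet P = {x | Φ (fun i => x ∈ A i)} := by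
    ext v
    have h1 : (v ∈ FSet P) = ¬ RelAt (fun a b c d : Fin 6 => P (v a) (v b) (v c) (v d)) 0 1 2 3 4 5 :=
      rfl
    rw [h1]
    apply not_congr
    apply relAt_congr6
    intro t ht
    constructor
    · intro hp
      exact ⟨⟨t, ht⟩, rfl, rfl, rfl, rfl, hp⟩
    · rintro ⟨t', a0, a1, a2, a3, hp⟩
      have : t'.1 = t := by
        funext i
        fin_cases i
        · exact a0
        · exact a1
        · exact a2
        · exact a3
      have hp' : (fun i => v (t'.1 i)) ∈ PSet P := hp
      rw [this] at hp'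
      exact hp'
  rw [e]
  exact h

theorem cell_sum {m : ℕ} (r : ℕ) {S : Set (Fin m → I)} (hS : NullMeasurableSet S volume)
    (c : (Fin m → Fin (2 ^ r)) → ℝ) :
    ∑ e, c e * (volume : Measure (Fin m → I)).real (S ∩ {v | cellV r v = e}) =
      ∫ v, c (cellV r v) * ind (v ∈ S) := by
  classical
  have hm : ∀ e : Fin m → Fin (2 ^ r), NullMeasurableSet (S ∩ {v | cellV r v = e}) volume :=
    fun e => hS.inter ((measurable_cellV r (measurableSet_singleton e)).nullMeasurableSet)
  have h1 : (fun v => c (cellV r v) * ind (v ∈ S)) = fun v =>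
      ∑ e, c e * ind (v ∈ S ∩ {v | cellV r v = e}) := by
    funext v
    rw [Finset.sum_eq_single (cellV r v)]
    · congr 1
      apply ind_congr
      simp
    · intro e _ he
      rw [ind_false (fun h => he h.2.symm), mul_zero]
    · intro h; exact absurd (Finset.mem_univ _) h
  rw [h1, integral_finsetSum]
  · apply Finset.sum_congr rfl
    intro e _
    rw [integral_const_mul, integral_ind (hm e)]
  · intro e _
    apply Integrable.const_mul
    exact integrable_of_le_one (C := 1) (ind_aesm (hm e)) (fun v => by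
      rw [abs_of_nonneg (ind_nonneg _)]; exact ind_le_one _)

/-- fibre count -/
theorem fiber_sum {N : ℕ} (t : Fin 4 → Fin 6) (ht : Function.Injective t)
    (g : (Fin 4 → Fin N) → ℝ) (hg : ∀ e, 0 ≤ g e) :
    ∑ e : Fin 6 → Fin N, g (fun i => e (t i)) ≤ (N : ℝ) ^ 2 * ∑ e, g e := by
  classical
  have h1 : ∑ e : Fin 6 → Fin N, g (fun i => e (t i)) =
      ∑ e' : Fin 4 → Fin N, ∑ e : Fin 6 → Fin N, if (fun i => e (t i)) = e' then g e' else 0 := by
    rw [Finset.sum_comm]
    apply Finset.sum_congr rfl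
    intro e _
    simp
  rw [h1, Finset.mul_sum]
  apply Finset.sum_le_sum
  intro e' _
  rw [← Finset.sum_filter, Finset.sum_const, nsmul_eq_mul]
  apply mul_le_mul_of_nonneg_right _ (hg e')
  have hcard : (Finset.univ.filter (fun e : Fin 6 → Fin N => (fun i => e (t i)) = e')).card ≤ N ^ 2 := by
    have hc : Fintype.card ({i : Fin 6 // i ∉ Set.range t} → Fin N) = N ^ 2 := by
      rw [Fintype.card_fun, Fintype.card_fin]
      congr 1
      rw [Fintype.card_subtype_compl, Fintype.card_fin]
      have : Fintype.card {i : Fin 6 // i ∈ Set.range t} = 4 := by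
        rw [← Fintype.card_congr (Equiv.ofInjective t ht), Fintype.card_fin]
      omega
    rw [← hc, ← Finset.card_univ]
    apply Finset.card_le_card_of_injOn (fun e i => e i.1) (fun _ _ => Finset.mem_coe.mpr (Finset.mem_univ _))
    intro e1 h1 e2 h2 heq
    simp only [Finset.coe_filter, Finset.mem_univ, true_and, mem_ofPred_eq] at h1 h2
    funext i
    by_cases hi : i ∈ Set.range t
    · obtain ⟨j, rfl⟩ := hi
      have := congrFun (h1.trans h2.symm) j
      exact this
    · exact congrFun heq ⟨i, hi⟩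
  exact_mod_cast hcard

/-- the pointwise inequality -/
theorem pointwise {P : I → I → I → I → Prop} (h : OPT P) (r : ℕ) (ξ : Fin (2 ^ r) → I) :
    ((1 / 2 : ℝ) ^ r) ^ 6 * ∑ e : Fin 6 → Fin (2 ^ r),
      ind (Function.Injective e) * ind ((fun i => ξ (e i)) ∈ FSet P) ≤
    1440 * (((1 / 2 : ℝ) ^ r) ^ 4 * ∑ e : Fin 4 → Fin (2 ^ r),
      ind (Function.Injective e) * (Wd r (e 0) (e 1) * Wd r (e 2) (e 3)) *
        ind ((fun i => ξ (e i)) ∈ PSet P) - En P +
        ((1 / 2) ^ r * (1 + 1 / 64) + 8 * ((1 / 2) ^ r) ^ 2)) := by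
  classical
  obtain ⟨cr, h1, h2, -, h4⟩ := h r ξ
  set q : ℝ := (1 / 2 : ℝ) ^ r with hq
  have hq0 : 0 < q := by positivity
  have hNq : ((2 ^ r : ℕ) : ℝ) * q = 1 := by
    rw [hq]; push_cast; rw [← mul_pow]; norm_num
  set B : (Fin 4 → Fin (2 ^ r)) → Prop := fun e =>
    (fun i => ξ (e i)) ∈ PSet P ∧ ¬ cr (e 0) (e 1) (e 2) (e 3) with hB
  have hnodup : ∀ e : Fin 4 → Fin (2 ^ r), Function.Injective e → [e 0, e 1, e 2, e 3].Nodup := by
    intro e he
    have : [e 0, e 1, e 2, e 3] = List.ofFn e := by simp [List.ofFn_succ]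
    rw [this]
    exact List.nodup_ofFn.mpr he
  have hnodup6 : ∀ e : Fin 6 → Fin (2 ^ r), Function.Injective e →
      [e 0, e 1, e 2, e 3, e 4, e 5].Nodup := by
    intro e he
    have : [e 0, e 1, e 2, e 3, e 4, e 5] = List.ofFn e := by simp [List.ofFn_succ]
    rw [this]
    exact List.nodup_ofFn.mpr he
  -- (iii)
  have c1 : ∀ e : Fin 6 → Fin (2 ^ r),
      ind (Function.Injective e) * ind ((fun i => ξ (e i)) ∈ FSet P) ≤
      ∑ t : Fin 4 → Fin 6, ind (Function.Injective t) *
        (ind (Function.Injective (fun i => e (t i))) * ind (B (fun i => e (t i)))) := by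
    intro e
    have hnn : ∀ t : Fin 4 → Fin 6, 0 ≤ ind (Function.Injective t) *
        (ind (Function.Injective (fun i => e (t i))) * ind (B (fun i => e (t i)))) := fun t =>
      mul_nonneg (ind_nonneg _) (mul_nonneg (ind_nonneg _) (ind_nonneg _))
    by_cases he : Function.Injective e
    swap
    · rw [ind_false he, zero_mul]
      exact Finset.sum_nonneg (fun t _ => hnn t)
    by_cases hf : (fun i => ξ (e i)) ∈ FSet P
    swap
    · rw [ind_false hf, mul_zero]
      exact Finset.sum_nonneg (fun t _ => hnn t)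
    rw [ind_true he, ind_true hf, mul_one]
    have hex : ∃ t : Fin 4 → Fin 6, Function.Injective t ∧ B (fun i => e (t i)) := by
      by_contra hcon
      push Not at hcon
      apply hf
      have hrel := h2 (e 0) (e 1) (e 2) (e 3) (e 4) (e 5) (hnodup6 e he)
      have g1 : RelAt (fun a b c d : Fin 6 => cr (e a) (e b) (e c) (e d)) 0 1 2 3 4 5 := hrel
      have g2 : RelAt (fun a b c d : Fin 6 => P (ξ (e a)) (ξ (e b)) (ξ (e c)) (ξ (e d)))
          0 1 2 3 4 5 := by
        refine (relAt_congr6 ?_).mpr g1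
        intro t ht
        have hinj : Function.Injective (fun i => e (t i)) := he.comp ht
        have hb := hcon t ht
        constructor
        · intro hp
          by_contra hc
          exact hb ⟨hp, hc⟩
        · intro hc
          exact h1 _ _ _ _ (hnodup _ hinj) hc
      exact g2
    obtain ⟨t, ht, hBt⟩ := hex
    have hinj : Function.Injective (fun i => e (t i)) := he.comp ht
    have hterm : (1 : ℝ) = ind (Function.Injective t) *
        (ind (Function.Injective (fun i => e (t i))) * ind (B (fun i => e (t i)))) := by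
      rw [ind_true ht, ind_true hinj, ind_true hBt]; norm_num
    rw [hterm]
    exact Finset.single_le_sum (fun t _ => hnn t) (Finset.mem_univ t)
  have c2 : ∑ e : Fin 6 → Fin (2 ^ r),
      ind (Function.Injective e) * ind ((fun i => ξ (e i)) ∈ FSet P) ≤
      1296 * (((2 ^ r : ℕ) : ℝ) ^ 2 * ∑ e : Fin 4 → Fin (2 ^ r),
        ind (Function.Injective e) * ind (B e)) := by
    refine (Finset.sum_le_sum (fun e _ => c1 e)).trans ?_
    rw [Finset.sum_comm]
    have hbound : ∀ t ∈ (Finset.univ : Finset (Fin 4 → Fin 6)),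
        ∑ e : Fin 6 → Fin (2 ^ r), ind (Function.Injective t) *
        (ind (Function.Injective (fun i => e (t i))) * ind (B (fun i => e (t i)))) ≤
        ((2 ^ r : ℕ) : ℝ) ^ 2 * ∑ e : Fin 4 → Fin (2 ^ r), ind (Function.Injective e) * ind (B e) := by
      intro t _
      rw [← Finset.mul_sum]
      have hnn : 0 ≤ ((2 ^ r : ℕ) : ℝ) ^ 2 * ∑ e : Fin 4 → Fin (2 ^ r),
          ind (Function.Injective e) * ind (B e) :=
        mul_nonneg (by positivity) (Finset.sum_nonneg (fun e _ =>
          mul_nonneg (ind_nonneg _) (ind_nonneg _)))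
      by_cases ht : Function.Injective t
      · rw [ind_true ht, one_mul]
        exact fiber_sum t ht (fun e => ind (Function.Injective e) * ind (B e))
          (fun e => mul_nonneg (ind_nonneg _) (ind_nonneg _))
      · rw [ind_false ht, zero_mul]
        exact hnn
    refine (Finset.sum_le_sum hbound).trans ?_
    rw [Finset.sum_const, Finset.card_univ, nsmul_eq_mul]
    have : (Fintype.card (Fin 4 → Fin 6) : ℝ) = 1296 := by
      rw [Fintype.card_fun, Fintype.card_fin, Fintype.card_fin]; norm_num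
    rw [this]
  -- (i), (ii)
  have c3 : q ^ 4 * ∑ e : Fin 4 → Fin (2 ^ r), ind (Function.Injective e) * ind (B e) * 0.9 ≤
      q ^ 4 * ∑ e : Fin 4 → Fin (2 ^ r),
      ind (Function.Injective e) * (Wd r (e 0) (e 1) * Wd r (e 2) (e 3)) *
        ind ((fun i => ξ (e i)) ∈ PSet P) - EnD r cr := by
    unfold EnD
    rw [← mul_sub, ← Finset.sum_sub_distrib]
    apply mul_le_mul_of_nonneg_left _ (by positivity)
    apply Finset.sum_le_sum
    intro e _
    have hw1 := Wd_ge r (e 0) (e 1)
    have hw2 := Wd_ge r (e 2) (e 3)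
    have hww : 0.9 ≤ Wd r (e 0) (e 1) * Wd r (e 2) (e 3) := by
      have : (0.999 : ℝ) * 0.999 ≤ Wd r (e 0) (e 1) * Wd r (e 2) (e 3) :=
        mul_le_mul hw1 hw2 (by norm_num) (by linarith)
      norm_num at this ⊢
      linarith
    by_cases he : Function.Injective e
    swap
    · rw [ind_false he]; simp
    rw [ind_true he, one_mul, one_mul, one_mul]
    have hmono : cr (e 0) (e 1) (e 2) (e 3) → (fun i => ξ (e i)) ∈ PSet P :=
      fun hc => h1 _ _ _ _ (hnodup e he) hc
    have key : ind (B e) = ind ((fun i => ξ (e i)) ∈ PSet P) - ind (cr (e 0) (e 1) (e 2) (e 3)) := by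
      by_cases hc : cr (e 0) (e 1) (e 2) (e 3)
      · rw [ind_true hc, ind_true (hmono hc), ind_false (fun hb => hb.2 hc)]; norm_num
      · by_cases hp : (fun i => ξ (e i)) ∈ PSet P
        · rw [ind_false hc, ind_true hp, ind_true ⟨hp, hc⟩]; norm_num
        · rw [ind_false hc, ind_false hp, ind_false (fun hb => hp hb.1)]; norm_num
    have hB0 := ind_nonneg (B e)
    have h5 : ind (B e) * 0.9 ≤ ind (B e) * (Wd r (e 0) (e 1) * Wd r (e 2) (e 3)) :=
      mul_le_mul_of_nonneg_left hww hB0
    refine h5.trans (le_of_eq ?_)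
    rw [key]
    ring
  rw [← Finset.sum_mul] at c3
  set SB : ℝ := ∑ e : Fin 4 → Fin (2 ^ r), ind (Function.Injective e) * ind (B e) with hSB
  set S4 : ℝ := ∑ e : Fin 4 → Fin (2 ^ r),
      ind (Function.Injective e) * (Wd r (e 0) (e 1) * Wd r (e 2) (e 3)) *
        ind ((fun i => ξ (e i)) ∈ PSet P) with hS4
  set S6 : ℝ := ∑ e : Fin 6 → Fin (2 ^ r),
      ind (Function.Injective e) * ind ((fun i => ξ (e i)) ∈ FSet P) with hS6
  have d1 : q ^ 6 * S6 ≤ q ^ 6 * (1296 * (((2 ^ r : ℕ) : ℝ) ^ 2 * SB)) :=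
    mul_le_mul_of_nonneg_left c2 (by positivity)
  have d2 : q ^ 6 * (1296 * (((2 ^ r : ℕ) : ℝ) ^ 2 * SB)) = 1296 * (q ^ 4 * SB) := by
    have : q ^ 6 * (1296 * (((2 ^ r : ℕ) : ℝ) ^ 2 * SB)) =
      1296 * (q ^ 4 * SB) * (((2 ^ r : ℕ) : ℝ) * q) ^ 2 := by ring
    rw [this, hNq]
    ring
  have d3 : q ^ 4 * (SB * 0.9) = 0.9 * (q ^ 4 * SB) := by ring
  rw [d3] at c3
  rw [d2] at d1
  linarith

/-- the part of the energy with four different cells -/
theorem en_ge {P : I → I → I → I → Prop} (hm : NullMeasurableSet (PSet P) volume) (r : ℕ) :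
    ∑ e : Fin 4 → Fin (2 ^ r), ind (Function.Injective e) *
      (Wd r (e 0) (e 1) * Wd r (e 2) (e 3)) *
      (volume : Measure (Fin 4 → I)).real (PSet P ∩ {v | cellV r v = e}) ≤ En P := by
  set c : (Fin 4 → Fin (2 ^ r)) → ℝ := fun e => ind (Function.Injective e) *
      (Wd r (e 0) (e 1) * Wd r (e 2) (e 3)) with hc
  have h0 := cell_sum r hm c
  rw [h0]
  unfold En
  have mW : ∀ a b : Fin 4, Measurable fun v : Fin 4 → I => W (v a) (v b) := by
    intro a b
    have hpair : Measurable (fun v : Fin 4 → I => ((v a, v b) : I × I)) :=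
      (measurable_pi_apply a).prodMk (measurable_pi_apply b)
    have h1 := Measurable.comp measurable_W hpair
    exact h1
  have mR : AEStronglyMeasurable (fun v : Fin 4 → I =>
      W (v 0) (v 1) * W (v 2) (v 3) * ind (v ∈ PSet P)) volume :=
    ((mW 0 1).mul (mW 2 3)).aestronglyMeasurable.mul (ind_aesm hm)
  have hWW : ∀ v : Fin 4 → I, 0 ≤ W (v 0) (v 1) * W (v 2) (v 3) ∧
      W (v 0) (v 1) * W (v 2) (v 3) ≤ 1 := fun v =>
    ⟨mul_nonneg (W_nonneg _ _) (W_nonneg _ _),
      mul_le_one₀ (W_le_one _ _) (W_nonneg _ _) (W_le_one _ _)⟩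
  have mc : Measurable (fun v : Fin 4 → I => c (cellV r v)) :=
    (measurable_of_finite c).comp (measurable_cellV r)
  have mL : AEStronglyMeasurable (fun v : Fin 4 → I => c (cellV r v) * ind (v ∈ PSet P)) volume :=
    mc.aestronglyMeasurable.mul (ind_aesm hm)
  have hcb : ∀ e, 0 ≤ c e ∧ c e ≤ 1 := by
    intro e
    have a1 := Wd_ge r (e 0) (e 1)
    have a2 := Wd_ge r (e 2) (e 3)
    have b1 : 0 ≤ Wd r (e 0) (e 1) * Wd r (e 2) (e 3) := mul_nonneg (by linarith) (by linarith)
    have b2 : Wd r (e 0) (e 1) * Wd r (e 2) (e 3) ≤ 1 :=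
      mul_le_one₀ (Wd_le_one _ _ _) (by linarith) (Wd_le_one _ _ _)
    exact ⟨mul_nonneg (ind_nonneg _) b1, mul_le_one₀ (ind_le_one _) b1 b2⟩
  apply integral_mono
  · apply integrable_of_le_one (C := 1) mL
    intro v
    obtain ⟨b1, b2⟩ := hcb (cellV r v)
    rw [abs_of_nonneg (mul_nonneg b1 (ind_nonneg _))]
    exact mul_le_one₀ b2 (ind_nonneg _) (ind_le_one _)
  · apply integrable_of_le_one (C := 1) mR
    intro v
    obtain ⟨b1, b2⟩ := hWW v
    rw [abs_of_nonneg (mul_nonneg b1 (ind_nonneg _))]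
    exact mul_le_one₀ b2 (ind_nonneg _) (ind_le_one _)
  · intro v
    change c (cellV r v) * ind (v ∈ PSet P) ≤
      W (v 0) (v 1) * W (v 2) (v 3) * ind (v ∈ PSet P)
    apply mul_le_mul_of_nonneg_right _ (ind_nonneg _)
    simp only [hc]
    by_cases hinj : Function.Injective (cellV r v)
    · rw [ind_true hinj, one_mul]
      have n1 : cell r (v 0) ≠ cell r (v 1) := by
        intro hh
        have : cellV r v 0 = cellV r v 1 := Fin.ext hh
        exact absurd (hinj this) (by decide)
      have n2 : cell r (v 2) ≠ cell r (v 3) := by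
        intro hh
        have : cellV r v 2 = cellV r v 3 := Fin.ext hh
        exact absurd (hinj this) (by decide)
      rw [W_eq_Wd r _ _ n1, W_eq_Wd r _ _ n2]
      exact le_rfl
    · rw [ind_false hinj, zero_mul]
      exact (hWW v).1

end REAux

open NDAux REAux in
theorem opt_rel (P : I → I → I → I → Prop) (hm : NullMeasurableSet (PSet P) volume) (h : OPT P) :
    (volume : Measure (Fin 6 → I))
      {v | ¬ RelAt P (v 0) (v 1) (v 2) (v 3) (v 4) (v 5)} = 0 := by
  classical
  have hF := FSet_null hm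
  have hmain : ∀ r : ℕ, (volume : Measure (Fin 6 → I)).real (FSet P) ≤ 20000 * (1 / 2) ^ r := by
    intro r
    set q : ℝ := (1 / 2 : ℝ) ^ r with hq
    have hq0 : 0 < q := by positivity
    have hq1 : q ≤ 1 := pow_le_one₀ (by norm_num) (by norm_num)
    have hNq : (2 : ℝ) ^ r * q = 1 := by
      rw [hq, ← mul_pow]; norm_num
    obtain ⟨μ, hμ, hS⟩ := sampling r r le_rfl
    have hcells : ∀ (m : ℕ) (e : Fin m → Fin (2 ^ r)) (S : Set (Fin m → I)),
        {v : Fin m → I | v ∈ S ∧ ∀ i, cell r (v i) = (e i : ℕ) / 2 ^ (r - r)} =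
          S ∩ {v | cellV r v = e} := by
      intro m e S
      ext v
      simp only [mem_ofPred_eq, mem_inter_iff, Nat.sub_self, pow_zero, Nat.div_one, funext_iff,
        cellV, cellF_eq]
    -- integral of one indicator
    have hI : ∀ (m : ℕ) (e : Fin m → Fin (2 ^ r)), Function.Injective e → ∀ S : Set (Fin m → I),
        NullMeasurableSet S volume →
        Integrable (fun ξ : Fin (2 ^ r) → I => ind ((fun i => ξ (e i)) ∈ S)) μ ∧
        ∫ ξ, ind ((fun i => ξ (e i)) ∈ S) ∂μ =
          ((2 : ℝ) ^ r) ^ m * (volume : Measure (Fin m → I)).real (S ∩ {v | cellV r v = e}) := by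
      intro m e he S hSn
      obtain ⟨k1, k2⟩ := hS m e he S hSn
      rw [hcells] at k2
      constructor
      · apply Integrable.of_bound (ind_aesm k1) 1
        filter_upwards with ξ
        rw [Real.norm_eq_abs]
        change |ind _| ≤ 1
        rw [abs_of_nonneg (ind_nonneg _)]
        exact ind_le_one _
      · rw [← k2, ← integral_ind k1]
        rfl
    have hI' : ∀ (m : ℕ) (e : Fin m → Fin (2 ^ r)) (c : ℝ) (S : Set (Fin m → I)),
        NullMeasurableSet S volume →
        Integrable (fun ξ : Fin (2 ^ r) → I => ind (Function.Injective e) * c *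
          ind ((fun i => ξ (e i)) ∈ S)) μ ∧
        ∫ ξ, ind (Function.Injective e) * c * ind ((fun i => ξ (e i)) ∈ S) ∂μ =
          ((2 : ℝ) ^ r) ^ m * (ind (Function.Injective e) * c *
            (volume : Measure (Fin m → I)).real (S ∩ {v | cellV r v = e})) := by
      intro m e c S hSn
      by_cases he : Function.Injective e
      · obtain ⟨k1, k2⟩ := hI m e he S hSn
        refine ⟨k1.const_mul _, ?_⟩
        rw [integral_const_mul, k2]
        ring
      · simp only [ind_false he, zero_mul, mul_zero, integral_zero]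
        exact ⟨integrable_zero _ _ _, trivial⟩
    have hI6 := fun e => hI' 6 e 1 (FSet P) hF
    have hI4 := fun e : Fin 4 → Fin (2 ^ r) =>
      hI' 4 e (Wd r (e 0) (e 1) * Wd r (e 2) (e 3)) (PSet P) hm
    -- integrate the pointwise inequality
    have hL : ∫ ξ, ((1 / 2 : ℝ) ^ r) ^ 6 * ∑ e : Fin 6 → Fin (2 ^ r),
        ind (Function.Injective e) * 1 * ind ((fun i => ξ (e i)) ∈ FSet P) ∂μ =
        ∑ e : Fin 6 → Fin (2 ^ r), ind (Function.Injective e) *
          (volume : Measure (Fin 6 → I)).real (FSet P ∩ {v | cellV r v = e}) := by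
      rw [integral_const_mul, integral_finsetSum _ (fun e _ => (hI6 e).1), Finset.mul_sum]
      apply Finset.sum_congr rfl
      intro e _
      rw [(hI6 e).2]
      have : ((1 / 2 : ℝ) ^ r) ^ 6 * (((2 : ℝ) ^ r) ^ 6 * (ind (Function.Injective e) * 1 *
        (volume : Measure (Fin 6 → I)).real (FSet P ∩ {v | cellV r v = e}))) =
        ((2 : ℝ) ^ r * q) ^ 6 * (ind (Function.Injective e) *
        (volume : Measure (Fin 6 → I)).real (FSet P ∩ {v | cellV r v = e})) := by
        rw [hq]; ring
      rw [this, hNq]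
      ring
    have hR4 : ∫ ξ, ((1 / 2 : ℝ) ^ r) ^ 4 * ∑ e : Fin 4 → Fin (2 ^ r),
        ind (Function.Injective e) * (Wd r (e 0) (e 1) * Wd r (e 2) (e 3)) *
          ind ((fun i => ξ (e i)) ∈ PSet P) ∂μ =
        ∑ e : Fin 4 → Fin (2 ^ r), ind (Function.Injective e) *
          (Wd r (e 0) (e 1) * Wd r (e 2) (e 3)) *
          (volume : Measure (Fin 4 → I)).real (PSet P ∩ {v | cellV r v = e}) := by
      rw [integral_const_mul, integral_finsetSum _ (fun e _ => (hI4 e).1), Finset.mul_sum]
      apply Finset.sum_congr rfl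
      intro e _
      rw [(hI4 e).2]
      have : ((1 / 2 : ℝ) ^ r) ^ 4 * (((2 : ℝ) ^ r) ^ 4 * (ind (Function.Injective e) *
        (Wd r (e 0) (e 1) * Wd r (e 2) (e 3)) *
        (volume : Measure (Fin 4 → I)).real (PSet P ∩ {v | cellV r v = e}))) =
        ((2 : ℝ) ^ r * q) ^ 4 * (ind (Function.Injective e) *
        (Wd r (e 0) (e 1) * Wd r (e 2) (e 3)) *
        (volume : Measure (Fin 4 → I)).real (PSet P ∩ {v | cellV r v = e})) := by
        rw [hq]; ring
      rw [this, hNq]
      ring
    have hEn := en_ge hm r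
    -- integrate
    have hInt : ∫ ξ, ((1 / 2 : ℝ) ^ r) ^ 6 * ∑ e : Fin 6 → Fin (2 ^ r),
        ind (Function.Injective e) * 1 * ind ((fun i => ξ (e i)) ∈ FSet P) ∂μ ≤
        1440 * (q * (1 + 1 / 64) + 8 * q ^ 2) := by
      have i6 : Integrable (fun ξ : Fin (2 ^ r) → I => ((1 / 2 : ℝ) ^ r) ^ 6 *
          ∑ e : Fin 6 → Fin (2 ^ r),
          ind (Function.Injective e) * 1 * ind ((fun i => ξ (e i)) ∈ FSet P)) μ :=
        (integrable_finsetSum _ (fun e _ => (hI6 e).1)).const_mul _
      have i4 : Integrable (fun ξ : Fin (2 ^ r) → I => ((1 / 2 : ℝ) ^ r) ^ 4 *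
          ∑ e : Fin 4 → Fin (2 ^ r),
          ind (Function.Injective e) * (Wd r (e 0) (e 1) * Wd r (e 2) (e 3)) *
            ind ((fun i => ξ (e i)) ∈ PSet P)) μ :=
        (integrable_finsetSum _ (fun e _ => (hI4 e).1)).const_mul _
      have i4' : Integrable (fun ξ : Fin (2 ^ r) → I => 1440 * (((1 / 2 : ℝ) ^ r) ^ 4 *
          ∑ e : Fin 4 → Fin (2 ^ r),
          ind (Function.Injective e) * (Wd r (e 0) (e 1) * Wd r (e 2) (e 3)) *
            ind ((fun i => ξ (e i)) ∈ PSet P) - En P + (q * (1 + 1 / 64) + 8 * q ^ 2))) μ :=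
        ((i4.sub (integrable_const _)).add (integrable_const _)).const_mul _
      have hle := integral_mono i6 i4' (fun ξ => by
        have := pointwise h r ξ
        simp only [mul_one]
        exact this)
      refine hle.trans ?_
      have i5 : Integrable (fun ξ : Fin (2 ^ r) → I => ((1 / 2 : ℝ) ^ r) ^ 4 *
          ∑ e : Fin 4 → Fin (2 ^ r),
          ind (Function.Injective e) * (Wd r (e 0) (e 1) * Wd r (e 2) (e 3)) *
            ind ((fun i => ξ (e i)) ∈ PSet P) - En P) μ := i4.sub (integrable_const _)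
      rw [integral_const_mul, integral_add i5 (integrable_const _), integral_sub i4 (integrable_const _),
        hR4, integral_const, integral_const]
      simp only [probReal_univ, smul_eq_mul, one_mul]
      linarith
    rw [hL] at hInt
    -- the volume of the failure set with distinct cells
    have hdist : ∑ e : Fin 6 → Fin (2 ^ r), ind (Function.Injective e) *
          (volume : Measure (Fin 6 → I)).real (FSet P ∩ {v | cellV r v = e}) =
        (volume : Measure (Fin 6 → I)).real (FSet P ∩ {v | Function.Injective (cellV r v)}) := by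
      have hm2 : NullMeasurableSet (FSet P ∩ {v | Function.Injective (cellV r v)}) volume := by
        refine hF.inter (MeasurableSet.nullMeasurableSet ?_)
        have : {v : Fin 6 → I | Function.Injective (cellV r v)} =
          cellV r ⁻¹' {e | Function.Injective e} := rfl
        rw [this]
        exact (measurable_cellV r) (Set.toFinite _).measurableSet
      rw [cell_sum r hF (fun e => ind (Function.Injective e)), ← integral_ind hm2]
      congr 1
      funext v
      rw [ind_mul]
      apply ind_congr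
      constructor
      · rintro ⟨a, b⟩; exact ⟨b, a⟩
      · rintro ⟨a, b⟩; exact ⟨b, a⟩
    rw [hdist] at hInt
    have hcover : FSet P ⊆ (FSet P ∩ {v | Function.Injective (cellV r v)}) ∪
        ⋃ p ∈ (Finset.univ : Finset (Fin 6)).offDiag, {v : Fin 6 → I | cell r (v p.1) = cell r (v p.2)} := by
      intro v hv
      by_cases hinj : Function.Injective (cellV r v)
      · exact Or.inl ⟨hv, hinj⟩
      · right
        have : ∃ a b, cellV r v a = cellV r v b ∧ a ≠ b := by
          by_contra hcon
          push Not at hcon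
          exact hinj (fun a b hab => hcon a b hab)
        obtain ⟨a, b, hab, hne⟩ := this
        simp only [mem_iUnion]
        exact ⟨(a, b), Finset.mem_offDiag.mpr ⟨Finset.mem_univ _, Finset.mem_univ _, hne⟩,
          congrArg Fin.val hab⟩
    have hle1 := measureReal_mono hcover (μ := (volume : Measure (Fin 6 → I))) (measure_ne_top _ _)
    refine hle1.trans ((measureReal_union_le _ _).trans ?_)
    have hle2 := measureReal_biUnion_finset_le (μ := (volume : Measure (Fin 6 → I)))
      ((Finset.univ : Finset (Fin 6)).offDiag)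
      (fun p => {v : Fin 6 → I | cell r (v p.1) = cell r (v p.2)})
    have hsum : ∑ p ∈ (Finset.univ : Finset (Fin 6)).offDiag,
        (volume : Measure (Fin 6 → I)).real {v : Fin 6 → I | cell r (v p.1) = cell r (v p.2)} =
        30 * q := by
      rw [Finset.sum_congr rfl (g := fun _ => q)]
      · rw [Finset.sum_const, nsmul_eq_mul]
        have : ((Finset.univ : Finset (Fin 6)).offDiag).card = 30 := by decide
        rw [this]
        norm_num
      · intro p hp
        rw [Finset.mem_offDiag] at hp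
        exact vol_same r p.1 p.2 hp.2.2
    rw [hsum] at hle2
    have hqq : q ^ 2 ≤ q := by nlinarith
    linarith
  have hzero : (volume : Measure (Fin 6 → I)).real (FSet P) ≤ 0 := by
    apply le_of_forall_pos_le_add
    intro ε hε
    rw [zero_add]
    obtain ⟨r, hr⟩ := exists_pow_lt_of_lt_one (show (0 : ℝ) < ε / 20000 by positivity)
      (by norm_num : (1 / 2 : ℝ) < 1)
    have := hmain r
    linarith
  have h0 : (volume : Measure (Fin 6 → I)).real (FSet P) = 0 :=
    le_antisymm hzero measureReal_nonneg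
  have h1 := (measureReal_eq_zero_iff (measure_ne_top _ _)).mp h0
  exact h1

end Pool.Agent.MP_a0a8d4_co
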