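import Pool.Agent.MP_a0a8d4_co.Cells
import Pool.Agent.MP_a0a8d4_co.GraphonW

set_option autoImplicit false

/-!
# MP_a0a8d4_co: the energy of a step drawing

Module STEP.
-/

namespace Pool.Agent.MP_a0a8d4_co

open MeasureTheory Set Filter
open scoped unitInterval Topology

namespace Step

/-- The vertices of the blow-up. -/
abbrev Vx (r : ℕ) := Fin (2 ^ r) × Fin 256

lemma kap_iff (r : ℕ) (x : I) (j : Vx r) :
    kap r x = j ↔ cell (r + 8) x = 256 * (j.1 : ℕ) + (j.2 : ℕ) := by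
  have h1 : cell (r + 8) x / 2 ^ (r + 8 - r) = cell r x := cell_div (by omega) x
  have h2 : r + 8 - r = 8 := by omega
  rw [h2] at h1
  norm_num at h1
  have h3 := j.2.2
  unfold kap cellF
  rw [Prod.ext_iff, Fin.ext_iff, Fin.ext_iff]
  simp only
  omega

/-- The vector of vertices. -/
noncomputable def KV {m : ℕ} (r : ℕ) (v : Fin m → I) : Fin m → Vx r := fun i => kap r (v i)

lemma measurable_kap (r : ℕ) : Measurable (kap r) := by
  apply measurable_to_countable'
  intro j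
  have : kap r ⁻¹' {j} = {x | cell (r + 8) x = 256 * (j.1 : ℕ) + (j.2 : ℕ)} := by
    ext x; simp [kap_iff]
  rw [this]
  exact measurableSet_cell _ _

lemma measurable_KV {m : ℕ} (r : ℕ) : Measurable (KV (m := m) r) := by
  apply measurable_pi_lambda
  intro i
  exact (measurable_kap r).comp (measurable_pi_apply i)

lemma vol_KV {m : ℕ} (r : ℕ) (k : Fin m → Vx r) :
    (volume : Measure (Fin m → I)).real (KV r ⁻¹' {k}) = ((1 / 2) ^ (r + 8)) ^ m := by
  rw [← vol_cells (r + 8) (fun i => 256 * ((k i).1 : ℕ) + ((k i).2 : ℕ)) ?_]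
  · congr 1
    ext v
    simp only [mem_preimage, mem_singleton_iff, funext_iff, KV, kap_iff, mem_ofPred_eq]
  · intro i
    have h1 := (k i).1.2
    have h2 := (k i).2.2
    rw [pow_add]
    omega

lemma integral_KV {m : ℕ} (r : ℕ) (g : (Fin m → Vx r) → ℝ) :
    ∫ v : Fin m → I, g (KV r v) = ((1 / 2) ^ (r + 8)) ^ m * ∑ k, g k := by
  rw [← integral_map (μ := volume) (φ := KV (m := m) r) (f := g) (measurable_KV r).aemeasurable
    (measurable_of_countable g).aestronglyMeasurable, integral_fintype (Integrable.of_finite),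
    Finset.mul_sum]
  refine Finset.sum_congr rfl fun k _ => ?_
  rw [map_measureReal_apply (measurable_KV r) (measurableSet_singleton k), vol_KV, smul_eq_mul]

lemma integral_cellV {m : ℕ} (r : ℕ) (g : (Fin m → Fin (2 ^ r)) → ℝ) :
    ∫ v : Fin m → I, g (cellV r v) = ((1 / 2) ^ r) ^ m * ∑ k, g k := by
  rw [← integral_map (μ := volume) (φ := cellV (m := m) r) (f := g)
    (measurable_cellV r).aemeasurable
    (measurable_of_countable g).aestronglyMeasurable, integral_fintype (Integrable.of_finite),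
    Finset.mul_sum]
  refine Finset.sum_congr rfl fun k _ => ?_
  rw [map_measureReal_apply (measurable_cellV r) (measurableSet_singleton k), smul_eq_mul]
  congr 1
  exact vol_cellV r k

lemma integrable_KV {m : ℕ} (r : ℕ) (g : (Fin m → Vx r) → ℝ) :
    Integrable (fun v : Fin m → I => g (KV r v)) := by
  have h : Integrable g (Measure.map (KV (m := m) r) volume) := Integrable.of_finite
  exact h.comp_measurable (measurable_KV r)

lemma kap_fst (r : ℕ) (x : I) : (kap r x).1 = cellF r x := rfl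

/-- Four-tuples. -/
def e4 (A : Type) : (Fin 4 → A) ≃ A × A × A × A where
  toFun k := (k 0, k 1, k 2, k 3)
  invFun p := ![p.1, p.2.1, p.2.2.1, p.2.2.2]
  left_inv k := by
    funext i
    fin_cases i <;> rfl
  right_inv p := rfl

lemma sum4 {A : Type} [Fintype A] (g : (Fin 4 → A) → ℝ) :
    ∑ k, g k = ∑ a, ∑ b, ∑ c, ∑ d, g ![a, b, c, d] := by
  classical
  rw [← Equiv.sum_comp (e4 A).symm g, Fintype.sum_prod_type]
  refine Finset.sum_congr rfl fun a _ => ?_
  rw [Fintype.sum_prod_type]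
  refine Finset.sum_congr rfl fun b _ => ?_
  rw [Fintype.sum_prod_type]
  rfl

/-- The near-diagonal term. -/
noncomputable def CC {r : ℕ} (F : Vx r → Vx r → I → Pt) (a z c w : Vx r) : ℝ :=
  ind (a.1 = c.1 ∧ a ≠ c ∧ z.1 ≠ a.1 ∧ w.1 ≠ a.1 ∧ z.1 ≠ w.1) * ind (Meets F a z c w)

lemma CC_nonneg {r : ℕ} (F : Vx r → Vx r → I → Pt) (a z c w : Vx r) : 0 ≤ CC F a z c w :=
  mul_nonneg (ind_nonneg _) (ind_nonneg _)

lemma sum_CC {r : ℕ} (F : Vx r → Vx r → I → Pt)
    (h5 : ∀ J a b, a ≠ b → 4 * ∑ z, ∑ w, ind (z.1 ≠ J ∧ w.1 ≠ J ∧ z.1 ≠ w.1) *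
      ind (Meets F (J, a) z (J, b) w) ≤ (256 : ℝ) ^ 2 * (((2 ^ r : ℕ) : ℝ) ^ 2 + 1)) :
    4 * ∑ a, ∑ b, ∑ c, ∑ d, CC F a b c d ≤
      ((2 : ℝ) ^ r) * 256 ^ 4 * (((2 : ℝ) ^ r) ^ 2 + 1) := by
  classical
  have h0 : ∀ a : Vx r, ∑ b, ∑ c, ∑ d, CC F a b c d =
      ∑ γ : Fin 256, ∑ b, ∑ d, CC F a b (a.1, γ) d := by
    intro a
    rw [Finset.sum_comm]
    rw [Fintype.sum_prod_type, Finset.sum_eq_single a.1]
    · intro J _ hJ
      refine Finset.sum_eq_zero fun γ _ => Finset.sum_eq_zero fun b _ =>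
        Finset.sum_eq_zero fun d _ => ?_
      unfold CC
      rw [ind_false (fun h => hJ h.1.symm), zero_mul]
    · intro h; exact absurd (Finset.mem_univ _) h
  have h1 : ∀ (a : Vx r) (γ : Fin 256), 4 * ∑ b, ∑ d, CC F a b (a.1, γ) d ≤
      (256 : ℝ) ^ 2 * (((2 ^ r : ℕ) : ℝ) ^ 2 + 1) := by
    rintro ⟨J, α⟩ γ
    by_cases hαγ : α = γ
    · subst hαγ
      have : ∑ b, ∑ d, CC F (J, α) b (J, α) d = 0 := by
        refine Finset.sum_eq_zero fun b _ => Finset.sum_eq_zero fun d _ => ?_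
        unfold CC
        rw [ind_false (fun h => h.2.1 rfl), zero_mul]
      simp only at this ⊢
      rw [this]
      have h9 : (0 : ℝ) ≤ (256 : ℝ) ^ 2 * (((2 ^ r : ℕ) : ℝ) ^ 2 + 1) := by positivity
      simpa using h9
    · refine le_trans (le_of_eq ?_) (h5 J α γ hαγ)
      congr 1
      refine Finset.sum_congr rfl fun b _ => Finset.sum_congr rfl fun d _ => ?_
      unfold CC
      congr 1
      apply ind_congr
      constructor
      · rintro ⟨_, _, h⟩; exact h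
      · intro h
        exact ⟨rfl, fun h' => hαγ (Prod.mk.inj h').2, h⟩
  calc 4 * ∑ a, ∑ b, ∑ c, ∑ d, CC F a b c d
      = ∑ a : Vx r, ∑ γ : Fin 256, 4 * ∑ b, ∑ d, CC F a b (a.1, γ) d := by
        rw [Finset.mul_sum]
        refine Finset.sum_congr rfl fun a _ => ?_
        rw [h0, Finset.mul_sum]
    _ ≤ ∑ a : Vx r, ∑ γ : Fin 256, (256 : ℝ) ^ 2 * (((2 ^ r : ℕ) : ℝ) ^ 2 + 1) :=
        Finset.sum_le_sum fun a _ => Finset.sum_le_sum fun γ _ => h1 a γ
    _ = ((2 : ℝ) ^ r) * 256 ^ 4 * (((2 : ℝ) ^ r) ^ 2 + 1) := by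
        simp only [Finset.sum_const, Finset.card_univ, Fintype.card_prod, Fintype.card_fin,
          nsmul_eq_mul]
        push_cast
        ring

/-- The vector of the cells. -/
lemma kap_cell {r : ℕ} {x y : I} : (kap r x).1 = (kap r y).1 ↔ cell r x = cell r y := by
  rw [kap_fst, kap_fst]
  unfold cellF
  rw [Fin.ext_iff]

lemma kap_eq_iff {r : ℕ} {x y : I} : kap r x = kap r y ↔ cell (r + 8) x = cell (r + 8) y := by
  constructor
  · intro h
    have h1 := (kap_iff r x (kap r y)).1 h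
    have h2 := (kap_iff r y (kap r y)).1 rfl
    rw [h1, h2]
  · intro h
    rw [kap_iff, h, ← kap_iff]

lemma meets_swap1 {r : ℕ} {F : Vx r → Vx r → I → Pt} (hF : IsSimpleDrawing F) (a b c d : Vx r) :
    Meets F a b c d ↔ Meets F b a c d := by
  have h : range (F a b) = range (F b a) := by
    ext p
    constructor
    · rintro ⟨t, rfl⟩; exact ⟨σ t, (hF.symm a b t).symm⟩
    · rintro ⟨t, rfl⟩; exact ⟨σ t, (hF.symm b a t).symm⟩
  unfold Meets
  rw [h]

lemma meets_comm {r : ℕ} {F : Vx r → Vx r → I → Pt} (a b c d : Vx r) :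
    Meets F a b c d ↔ Meets F c d a b := by
  unfold Meets
  rw [inter_comm]

lemma meets_swap2 {r : ℕ} {F : Vx r → Vx r → I → Pt} (hF : IsSimpleDrawing F) (a b c d : Vx r) :
    Meets F a b c d ↔ Meets F a b d c := by
  rw [meets_comm, meets_swap1 hF, meets_comm]

/-- Two coincidences of cells. -/
noncomputable def EE {r : ℕ} (k : Fin 4 → Vx r) : ℝ :=
  ind ((k 0).1 = (k 1).1 ∧ (k 1).1 = (k 2).1) + ind ((k 0).1 = (k 1).1 ∧ (k 1).1 = (k 3).1) +
  ind ((k 0).1 = (k 2).1 ∧ (k 2).1 = (k 3).1) + ind ((k 1).1 = (k 2).1 ∧ (k 2).1 = (k 3).1) +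
  ind ((k 0).1 = (k 1).1 ∧ (k 2).1 = (k 3).1) + ind ((k 0).1 = (k 2).1 ∧ (k 1).1 = (k 3).1) +
  ind ((k 0).1 = (k 3).1 ∧ (k 1).1 = (k 2).1)

/-- The bound for the integrand. -/
noncomputable def GG {r : ℕ} (F : Vx r → Vx r → I → Pt) (k : Fin 4 → Vx r) : ℝ :=
  (ind (k 0 = k 2) + ind (k 0 = k 3) + ind (k 1 = k 2) + ind (k 1 = k 3)) +
  (CC F (k 0) (k 1) (k 2) (k 3) + CC F (k 0) (k 1) (k 3) (k 2) + CC F (k 1) (k 0) (k 2) (k 3) +
    CC F (k 1) (k 0) (k 3) (k 2)) + EE k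

lemma EE_nonneg {r : ℕ} (k : Fin 4 → Vx r) : 0 ≤ EE k := by
  unfold EE
  exact add_nonneg (add_nonneg (add_nonneg (add_nonneg (add_nonneg (add_nonneg (ind_nonneg _)
    (ind_nonneg _)) (ind_nonneg _)) (ind_nonneg _)) (ind_nonneg _)) (ind_nonneg _)) (ind_nonneg _)

lemma GG_nonneg {r : ℕ} (F : Vx r → Vx r → I → Pt) (k : Fin 4 → Vx r) : 0 ≤ GG F k := by
  unfold GG
  have h1 := EE_nonneg k
  have h2 := CC_nonneg F (k 0) (k 1) (k 2) (k 3)
  have h3 := CC_nonneg F (k 0) (k 1) (k 3) (k 2)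
  have h4 := CC_nonneg F (k 1) (k 0) (k 2) (k 3)
  have h5 := CC_nonneg F (k 1) (k 0) (k 3) (k 2)
  have h6 := ind_nonneg (k 0 = k 2)
  have h7 := ind_nonneg (k 0 = k 3)
  have h8 := ind_nonneg (k 1 = k 2)
  have h9 := ind_nonneg (k 1 = k 3)
  linarith

lemma EE_ge {r : ℕ} {k : Fin 4 → Vx r}
    (h : ((k 0).1 = (k 1).1 ∧ (k 1).1 = (k 2).1) ∨ ((k 0).1 = (k 1).1 ∧ (k 1).1 = (k 3).1) ∨
      ((k 0).1 = (k 2).1 ∧ (k 2).1 = (k 3).1) ∨ ((k 1).1 = (k 2).1 ∧ (k 2).1 = (k 3).1) ∨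
      ((k 0).1 = (k 1).1 ∧ (k 2).1 = (k 3).1) ∨ ((k 0).1 = (k 2).1 ∧ (k 1).1 = (k 3).1) ∨
      ((k 0).1 = (k 3).1 ∧ (k 1).1 = (k 2).1)) : 1 ≤ EE k := by
  unfold EE
  have h1 := ind_nonneg ((k 0).1 = (k 1).1 ∧ (k 1).1 = (k 2).1)
  have h2 := ind_nonneg ((k 0).1 = (k 1).1 ∧ (k 1).1 = (k 3).1)
  have h3 := ind_nonneg ((k 0).1 = (k 2).1 ∧ (k 2).1 = (k 3).1)
  have h4 := ind_nonneg ((k 1).1 = (k 2).1 ∧ (k 2).1 = (k 3).1)
  have h5 := ind_nonneg ((k 0).1 = (k 1).1 ∧ (k 2).1 = (k 3).1)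
  have h6 := ind_nonneg ((k 0).1 = (k 2).1 ∧ (k 1).1 = (k 3).1)
  have h7 := ind_nonneg ((k 0).1 = (k 3).1 ∧ (k 1).1 = (k 2).1)
  rcases h with h | h | h | h | h | h | h
  all_goals
    have h' := ind_true h
    linarith

/-- If two of the cells coincide and the curves meet, then the bound is at least one. -/
lemma GG_ge {r : ℕ} {F : Vx r → Vx r → I → Pt} (hF : IsSimpleDrawing F)
    (h4 : ∀ a b c d : Vx r, a.1 = b.1 → a.1 ≠ c.1 → a.1 ≠ d.1 → ¬ Meets F a b c d)
    (k : Fin 4 → Vx r) (hk : ¬ [(k 0).1, (k 1).1, (k 2).1, (k 3).1].Nodup)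
    (hm : Meets F (k 0) (k 1) (k 2) (k 3)) : 1 ≤ GG F k := by
  have h1 := EE_nonneg k
  have n2 := CC_nonneg F (k 0) (k 1) (k 2) (k 3)
  have n3 := CC_nonneg F (k 0) (k 1) (k 3) (k 2)
  have n4 := CC_nonneg F (k 1) (k 0) (k 2) (k 3)
  have n5 := CC_nonneg F (k 1) (k 0) (k 3) (k 2)
  have n6 := ind_nonneg (k 0 = k 2)
  have n7 := ind_nonneg (k 0 = k 3)
  have n8 := ind_nonneg (k 1 = k 2)
  have n9 := ind_nonneg (k 1 = k 3)
  by_cases hE : ((k 0).1 = (k 1).1 ∧ (k 1).1 = (k 2).1) ∨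
      ((k 0).1 = (k 1).1 ∧ (k 1).1 = (k 3).1) ∨
      ((k 0).1 = (k 2).1 ∧ (k 2).1 = (k 3).1) ∨ ((k 1).1 = (k 2).1 ∧ (k 2).1 = (k 3).1) ∨
      ((k 0).1 = (k 1).1 ∧ (k 2).1 = (k 3).1) ∨ ((k 0).1 = (k 2).1 ∧ (k 1).1 = (k 3).1) ∨
      ((k 0).1 = (k 3).1 ∧ (k 1).1 = (k 2).1)
  · have := EE_ge hE
    unfold GG
    linarith
  have c01 : (k 0).1 ≠ (k 1).1 := by
    intro h
    refine h4 (k 0) (k 1) (k 2) (k 3) h ?_ ?_ hm
    · intro h'; exact hE (Or.inl ⟨h, h.symm.trans h'⟩)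
    · intro h'; exact hE (Or.inr (Or.inl ⟨h, h.symm.trans h'⟩))
  have c23 : (k 2).1 ≠ (k 3).1 := by
    intro h
    refine h4 (k 2) (k 3) (k 0) (k 1) h ?_ ?_ ((meets_comm _ _ _ _).1 hm)
    · intro h'; exact hE (Or.inr (Or.inr (Or.inl ⟨h'.symm, h⟩)))
    · intro h'; exact hE (Or.inr (Or.inr (Or.inr (Or.inl ⟨h'.symm, h⟩))))
  by_cases c02 : (k 0).1 = (k 2).1
  · by_cases hk2 : k 0 = k 2
    · have := ind_true hk2
      unfold GG
      linarith
    · have hc : CC F (k 0) (k 1) (k 2) (k 3) = 1 := by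
        unfold CC
        rw [ind_true, ind_true hm, one_mul]
        refine ⟨c02, hk2, c01.symm, ?_, ?_⟩
        · intro h; exact c23 (c02.symm.trans h.symm)
        · intro h; exact hE (by tauto)
      unfold GG
      linarith
  by_cases c03 : (k 0).1 = (k 3).1
  · by_cases hk2 : k 0 = k 3
    · have := ind_true hk2
      unfold GG
      linarith
    · have hc : CC F (k 0) (k 1) (k 3) (k 2) = 1 := by
        unfold CC
        rw [ind_true, ind_true ((meets_swap2 hF _ _ _ _).1 hm), one_mul]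
        refine ⟨c03, hk2, c01.symm, ?_, ?_⟩
        · intro h; exact c23 (h.trans c03)
        · intro h; exact hE (by tauto)
      unfold GG
      linarith
  by_cases c12 : (k 1).1 = (k 2).1
  · by_cases hk2 : k 1 = k 2
    · have := ind_true hk2
      unfold GG
      linarith
    · have hc : CC F (k 1) (k 0) (k 2) (k 3) = 1 := by
        unfold CC
        rw [ind_true, ind_true ((meets_swap1 hF _ _ _ _).1 hm), one_mul]
        refine ⟨c12, hk2, c01, ?_, ?_⟩
        · intro h; exact c23 (c12.symm.trans h.symm)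
        · exact c03
      unfold GG
      linarith
  by_cases c13 : (k 1).1 = (k 3).1
  · by_cases hk2 : k 1 = k 3
    · have := ind_true hk2
      unfold GG
      linarith
    · have hc : CC F (k 1) (k 0) (k 3) (k 2) = 1 := by
        unfold CC
        rw [ind_true, ind_true ((meets_swap2 hF _ _ _ _).1 ((meets_swap1 hF _ _ _ _).1 hm)),
          one_mul]
        refine ⟨c13, hk2, c01, ?_, ?_⟩
        · intro h; exact c23 (h.trans c13)
        · exact c02
      unfold GG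
      linarith
  exfalso
  apply hk
  simp [c01, c02, c03, c12, c13, c23]

end Step

open Step in
theorem step_meas (r : ℕ) (F : Fin (2 ^ r) × Fin 256 → Fin (2 ^ r) × Fin 256 → I → Pt) :
    MeasurableSet (crossSet fun x y => F (kap r x) (kap r y)) := by
  have h : (crossSet fun x y => F (kap r x) (kap r y)) =
      KV (m := 4) r ⁻¹' {k | Meets F (k 0) (k 1) (k 2) (k 3)} := rfl
  rw [h]
  exact measurable_KV r (Set.toFinite _).measurableSet

namespace Step

lemma int_ind_eq (r : ℕ) (i j : Fin 4) (hij : i ≠ j) :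
    ∫ v : Fin 4 → I, ind (KV r v i = KV r v j) = (1 / 2) ^ (r + 8) := by
  rw [← vol_same (m := 4) (r + 8) i j hij]
  have h : ∀ v : Fin 4 → I, ind (KV r v i = KV r v j) =
      {v : Fin 4 → I | cell (r + 8) (v i) = cell (r + 8) (v j)}.indicator (fun _ => (1 : ℝ)) v := by
    intro v
    unfold ind
    rw [indicator_apply]
    simp only [mem_ofPred_eq]
    congr 1
    exact propext kap_eq_iff
  simp only [h]
  rw [integral_indicator_const _ (measurableSet_same (r + 8) i j)]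
  simp

lemma int_ind_two (r : ℕ) (i j k l : Fin 4) (hij : i ≠ j) (hkl : k ≠ l)
    (h : ¬ (i = k ∧ j = l)) (h' : ¬ (i = l ∧ j = k)) :
    ∫ v : Fin 4 → I, ind ((KV r v i).1 = (KV r v j).1 ∧ (KV r v k).1 = (KV r v l).1) ≤
      ((1 / 2) ^ r) ^ 2 := by
  refine le_trans (le_of_eq ?_) (vol_same_two (m := 4) r i j k l hij hkl h h')
  have hset : {v : Fin 4 → I | cell r (v i) = cell r (v j) ∧ cell r (v k) = cell r (v l)} =
      {v | cell r (v i) = cell r (v j)} ∩ {v | cell r (v k) = cell r (v l)} := rfl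
  have hms : MeasurableSet
      {v : Fin 4 → I | cell r (v i) = cell r (v j) ∧ cell r (v k) = cell r (v l)} :=
    (measurableSet_same r i j).inter (measurableSet_same r k l)
  have h : ∀ v : Fin 4 → I, ind ((KV r v i).1 = (KV r v j).1 ∧ (KV r v k).1 = (KV r v l).1) =
      {v : Fin 4 → I | cell r (v i) = cell r (v j) ∧ cell r (v k) = cell r (v l)}.indicator
        (fun _ => (1 : ℝ)) v := by
    intro v
    unfold ind
    rw [indicator_apply]
    simp only [mem_ofPred_eq]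
    congr 1
    exact propext (and_congr kap_cell kap_cell)
  simp only [h]
  rw [integral_indicator_const _ hms]
  simp

lemma int_add (r : ℕ) (g h : (Fin 4 → Vx r) → ℝ) :
    ∫ v : Fin 4 → I, (g (KV r v) + h (KV r v)) =
      (∫ v : Fin 4 → I, g (KV r v)) + ∫ v : Fin 4 → I, h (KV r v) :=
  integral_add (integrable_KV r g) (integrable_KV r h)

lemma int_add4 (r : ℕ) (a b c d : (Fin 4 → Vx r) → ℝ) :
    ∫ v : Fin 4 → I, (a (KV r v) + b (KV r v) + c (KV r v) + d (KV r v)) =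
      (∫ v : Fin 4 → I, a (KV r v)) + (∫ v : Fin 4 → I, b (KV r v)) +
      (∫ v : Fin 4 → I, c (KV r v)) + ∫ v : Fin 4 → I, d (KV r v) := by
  rw [int_add r (fun k => a k + b k + c k) d, int_add r (fun k => a k + b k) c, int_add r a b]

lemma int_add7 (r : ℕ) (a b c d e f g : (Fin 4 → Vx r) → ℝ) :
    ∫ v : Fin 4 → I, (a (KV r v) + b (KV r v) + c (KV r v) + d (KV r v) + e (KV r v) +
      f (KV r v) + g (KV r v)) =
      (∫ v : Fin 4 → I, a (KV r v)) + (∫ v : Fin 4 → I, b (KV r v)) +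
      (∫ v : Fin 4 → I, c (KV r v)) + (∫ v : Fin 4 → I, d (KV r v)) +
      (∫ v : Fin 4 → I, e (KV r v)) + (∫ v : Fin 4 → I, f (KV r v)) +
      ∫ v : Fin 4 → I, g (KV r v) := by
  rw [int_add r (fun k => a k + b k + c k + d k + e k + f k) g,
    int_add r (fun k => a k + b k + c k + d k + e k) f,
    int_add r (fun k => a k + b k + c k + d k) e, int_add4 r a b c d]

lemma int_CC {r : ℕ} {F : Vx r → Vx r → I → Pt} (S : ℝ)
    (hS : 4 * ∑ a, ∑ b, ∑ c, ∑ d, CC F a b c d = S) :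
    4 * ∫ v : Fin 4 → I, (CC F (KV r v 0) (KV r v 1) (KV r v 2) (KV r v 3) +
      CC F (KV r v 0) (KV r v 1) (KV r v 3) (KV r v 2) +
      CC F (KV r v 1) (KV r v 0) (KV r v 2) (KV r v 3) +
      CC F (KV r v 1) (KV r v 0) (KV r v 3) (KV r v 2)) = 4 * ((1 / 2) ^ (r + 8)) ^ 4 * S := by
  rw [integral_KV (m := 4) r (fun k => CC F (k 0) (k 1) (k 2) (k 3) +
      CC F (k 0) (k 1) (k 3) (k 2) + CC F (k 1) (k 0) (k 2) (k 3) +
      CC F (k 1) (k 0) (k 3) (k 2)), sum4, ← hS]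
  have e0 : ∀ a b c d : Vx r, (![a, b, c, d] : Fin 4 → Vx r) 0 = a := fun _ _ _ _ => rfl
  have e1 : ∀ a b c d : Vx r, (![a, b, c, d] : Fin 4 → Vx r) 1 = b := fun _ _ _ _ => rfl
  have e2 : ∀ a b c d : Vx r, (![a, b, c, d] : Fin 4 → Vx r) 2 = c := fun _ _ _ _ => rfl
  have e3 : ∀ a b c d : Vx r, (![a, b, c, d] : Fin 4 → Vx r) 3 = d := fun _ _ _ _ => rfl
  simp only [e0, e1, e2, e3, Finset.sum_add_distrib]
  have s1 : ∑ a, ∑ b, ∑ c, ∑ d, CC F a b d c = ∑ a, ∑ b, ∑ c, ∑ d, CC F a b c d := by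
    refine Finset.sum_congr rfl fun a _ => Finset.sum_congr rfl fun b _ => ?_
    rw [Finset.sum_comm]
  have s2 : ∑ a, ∑ b, ∑ c, ∑ d, CC F b a c d = ∑ a, ∑ b, ∑ c, ∑ d, CC F a b c d := by
    rw [Finset.sum_comm]
  have s3 : ∑ a, ∑ b, ∑ c, ∑ d, CC F b a d c = ∑ a, ∑ b, ∑ c, ∑ d, CC F a b c d := by
    rw [Finset.sum_comm, s1]
  rw [s1, s2, s3]
  ring

end Step

open Step in
theorem step_energy (r : ℕ) (cr : Fin (2 ^ r) → Fin (2 ^ r) → Fin (2 ^ r) → Fin (2 ^ r) → Prop)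
    (F : Fin (2 ^ r) × Fin 256 → Fin (2 ^ r) × Fin 256 → I → Pt) (hF : IsSimpleDrawing F)
    (h3 : ∀ a b c d, [a.1, b.1, c.1, d.1].Nodup → (Meets F a b c d ↔ cr a.1 b.1 c.1 d.1))
    (h4 : ∀ a b c d, a.1 = b.1 → a.1 ≠ c.1 → a.1 ≠ d.1 → ¬ Meets F a b c d)
    (h5 : ∀ J a b, a ≠ b → 4 * ∑ z, ∑ w, ind (z.1 ≠ J ∧ w.1 ≠ J ∧ z.1 ≠ w.1) *
      ind (Meets F (J, a) z (J, b) w) ≤ (256 : ℝ) ^ 2 * (((2 ^ r : ℕ) : ℝ) ^ 2 + 1)) :
    En (Meets fun x y => F (kap r x) (kap r y)) ≤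
      EnD r cr + (1 / 2) ^ r * (1 + 1 / 64) + 8 * ((1 / 2) ^ r) ^ 2 := by
  classical
  -- the main term
  set A : (Fin 4 → Fin (2 ^ r)) → ℝ := fun e => ind (Function.Injective e) *
    (Wd r (e 0) (e 1) * Wd r (e 2) (e 3) * ind (cr (e 0) (e 1) (e 2) (e 3))) with hA
  have hA0 : ∀ e, 0 ≤ A e := by
    intro e
    have w1 := Wd_ge r (e 0) (e 1)
    have w2 := Wd_ge r (e 2) (e 3)
    have i1 := ind_nonneg (Function.Injective e)
    have i2 := ind_nonneg (cr (e 0) (e 1) (e 2) (e 3))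
    have w1' : 0 ≤ Wd r (e 0) (e 1) := by linarith
    have w2' : 0 ≤ Wd r (e 2) (e 3) := by linarith
    rw [hA]
    positivity
  have hAint : ∫ v : Fin 4 → I, A (cellV r v) = EnD r cr := by
    rw [integral_cellV]
    rfl
  have hinj : ∀ e : Fin 4 → Fin (2 ^ r), Function.Injective e ↔ [e 0, e 1, e 2, e 3].Nodup := by
    intro e
    have : [e 0, e 1, e 2, e 3] = List.ofFn e := by simp [List.ofFn_succ]
    rw [this, List.nodup_ofFn]
  -- pointwise bound
  have hpt : ∀ v : Fin 4 → I, W (v 0) (v 1) * W (v 2) (v 3) *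
      ind (Meets (fun x y => F (kap r x) (kap r y)) (v 0) (v 1) (v 2) (v 3)) ≤
      A (cellV r v) + GG F (KV r v) := by
    intro v
    have hM : Meets (fun x y => F (kap r x) (kap r y)) (v 0) (v 1) (v 2) (v 3) =
        Meets F (KV r v 0) (KV r v 1) (KV r v 2) (KV r v 3) := rfl
    rw [hM]
    have hg := GG_nonneg F (KV r v)
    by_cases hm : Meets F (KV r v 0) (KV r v 1) (KV r v 2) (KV r v 3)
    · by_cases hn : [(KV r v 0).1, (KV r v 1).1, (KV r v 2).1, (KV r v 3).1].Nodup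
      · have hc := (h3 _ _ _ _ hn).1 hm
        have hi : Function.Injective (cellV r v) := (hinj _).2 hn
        have hAv : A (cellV r v) = W (v 0) (v 1) * W (v 2) (v 3) := by
          have n01 : cell r (v 0) ≠ cell r (v 1) := fun h => by
            have := hi (a₁ := 0) (a₂ := 1) (by
              rw [cellV, cellV, cellF_eq]; exact h)
            exact absurd this (by decide)
          have n23 : cell r (v 2) ≠ cell r (v 3) := fun h => by
            have := hi (a₁ := 2) (a₂ := 3) (by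
              rw [cellV, cellV, cellF_eq]; exact h)
            exact absurd this (by decide)
          rw [hA]
          simp only
          rw [ind_true hi, one_mul]
          rw [show ind (cr (cellV r v 0) (cellV r v 1) (cellV r v 2) (cellV r v 3)) = 1 from
            ind_true hc, mul_one, W_eq_Wd r _ _ n01, W_eq_Wd r _ _ n23]
          rfl
        rw [hAv, ind_true hm, mul_one]
        linarith
      · have h1 := GG_ge hF h4 (KV r v) hn hm
        have h2 := hA0 (cellV r v)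
        have w1 := W_le_one (v 0) (v 1)
        have w2 := W_le_one (v 2) (v 3)
        have w3 := W_ge (v 0) (v 1)
        have w4 := W_ge (v 2) (v 3)
        rw [ind_true hm, mul_one]
        nlinarith
    · rw [ind_false hm, mul_zero]
      have h2 := hA0 (cellV r v)
      linarith
  have hAi : Integrable (fun v : Fin 4 → I => A (cellV r v)) := by
    have h : Integrable A (Measure.map (cellV (m := 4) r) volume) := Integrable.of_finite
    exact h.comp_measurable (measurable_cellV r)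
  have hGi : Integrable (fun v : Fin 4 → I => GG F (KV r v)) := integrable_KV (m := 4) r (GG F)
  have hle : En (Meets fun x y => F (kap r x) (kap r y)) ≤
      ∫ v : Fin 4 → I, (A (cellV r v) + GG F (KV r v)) := by
    unfold En
    refine integral_mono_of_nonneg (Eventually.of_forall fun v => ?_) (hAi.add hGi)
      (Eventually.of_forall hpt)
    exact mul_nonneg (mul_nonneg (W_nonneg _ _) (W_nonneg _ _)) (ind_nonneg _)
  rw [integral_add hAi hGi, hAint] at hle
  -- the integral of the bound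
  have hG : ∫ v : Fin 4 → I, GG F (KV r v) ≤
      (1 / 2) ^ r * (1 + 1 / 64) + 8 * ((1 / 2) ^ r) ^ 2 := by
    have hsplit : ∫ v : Fin 4 → I, GG F (KV r v) =
        (∫ v : Fin 4 → I, (ind (KV r v 0 = KV r v 2) + ind (KV r v 0 = KV r v 3) +
          ind (KV r v 1 = KV r v 2) + ind (KV r v 1 = KV r v 3))) +
        (∫ v : Fin 4 → I, (CC F (KV r v 0) (KV r v 1) (KV r v 2) (KV r v 3) +
          CC F (KV r v 0) (KV r v 1) (KV r v 3) (KV r v 2) +
          CC F (KV r v 1) (KV r v 0) (KV r v 2) (KV r v 3) +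
          CC F (KV r v 1) (KV r v 0) (KV r v 3) (KV r v 2))) +
        ∫ v : Fin 4 → I, EE (KV r v) := by
      have e1 := int_add r (fun k => (ind (k 0 = k 2) + ind (k 0 = k 3) + ind (k 1 = k 2) +
        ind (k 1 = k 3))) (fun k => (CC F (k 0) (k 1) (k 2) (k 3) +
        CC F (k 0) (k 1) (k 3) (k 2) + CC F (k 1) (k 0) (k 2) (k 3) +
        CC F (k 1) (k 0) (k 3) (k 2)))
      have e2 := int_add r (fun k => (ind (k 0 = k 2) + ind (k 0 = k 3) + ind (k 1 = k 2) +
        ind (k 1 = k 3)) + (CC F (k 0) (k 1) (k 2) (k 3) +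
        CC F (k 0) (k 1) (k 3) (k 2) + CC F (k 1) (k 0) (k 2) (k 3) +
        CC F (k 1) (k 0) (k 3) (k 2))) EE
      rw [← e1, ← e2]
      rfl
    have hB : ∫ v : Fin 4 → I, (ind (KV r v 0 = KV r v 2) + ind (KV r v 0 = KV r v 3) +
          ind (KV r v 1 = KV r v 2) + ind (KV r v 1 = KV r v 3)) = 4 * (1 / 2) ^ (r + 8) := by
      have e := int_add4 r (fun k => ind (k 0 = k 2)) (fun k => ind (k 0 = k 3))
        (fun k => ind (k 1 = k 2)) (fun k => ind (k 1 = k 3))
      rw [e, int_ind_eq r 0 2 (by decide), int_ind_eq r 0 3 (by decide),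
        int_ind_eq r 1 2 (by decide), int_ind_eq r 1 3 (by decide)]
      ring
    have hC := int_CC (r := r) (F := F) _ rfl
    have hC' := sum_CC F h5
    have hE : ∫ v : Fin 4 → I, EE (KV r v) ≤ 7 * ((1 / 2) ^ r) ^ 2 := by
      have e := int_add7 r (fun k => ind ((k 0).1 = (k 1).1 ∧ (k 1).1 = (k 2).1))
        (fun k => ind ((k 0).1 = (k 1).1 ∧ (k 1).1 = (k 3).1))
        (fun k => ind ((k 0).1 = (k 2).1 ∧ (k 2).1 = (k 3).1))
        (fun k => ind ((k 1).1 = (k 2).1 ∧ (k 2).1 = (k 3).1))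
        (fun k => ind ((k 0).1 = (k 1).1 ∧ (k 2).1 = (k 3).1))
        (fun k => ind ((k 0).1 = (k 2).1 ∧ (k 1).1 = (k 3).1))
        (fun k => ind ((k 0).1 = (k 3).1 ∧ (k 1).1 = (k 2).1))
      unfold EE
      rw [e]
      have b1 := int_ind_two r 0 1 1 2 (by decide) (by decide) (by decide) (by decide)
      have b2 := int_ind_two r 0 1 1 3 (by decide) (by decide) (by decide) (by decide)
      have b3 := int_ind_two r 0 2 2 3 (by decide) (by decide) (by decide) (by decide)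
      have b4 := int_ind_two r 1 2 2 3 (by decide) (by decide) (by decide) (by decide)
      have b5 := int_ind_two r 0 1 2 3 (by decide) (by decide) (by decide) (by decide)
      have b6 := int_ind_two r 0 2 1 3 (by decide) (by decide) (by decide) (by decide)
      have b7 := int_ind_two r 0 3 1 2 (by decide) (by decide) (by decide) (by decide)
      linarith
    rw [hsplit, hB]
    have hq : (2 : ℝ) ^ r * (1 / 2) ^ r = 1 := by rw [← mul_pow]; norm_num
    have hq0 : (0 : ℝ) < (1 / 2) ^ r := by positivity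
    have hq1 : ((1 : ℝ) / 2) ^ r ≤ 1 := pow_le_one₀ (by norm_num) (by norm_num)
    have h8 : ((1 : ℝ) / 2) ^ (r + 8) = (1 / 2) ^ r / 256 := by rw [pow_add]; norm_num; ring
    rw [h8] at hC ⊢
    set q := ((1 : ℝ) / 2) ^ r with hqdef
    set n := (2 : ℝ) ^ r with hndef
    set T := 4 * ∑ a, ∑ b, ∑ c, ∑ d, CC F a b c d with hT
    have hC2 : (q / 256) ^ 4 * T ≤ q + q ^ 3 := by
      have h1 : (q / 256) ^ 4 * T ≤ (q / 256) ^ 4 * (n * 256 ^ 4 * (n ^ 2 + 1)) :=
        mul_le_mul_of_nonneg_left hC' (by positivity)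
      have h2 : (q / 256) ^ 4 * (n * 256 ^ 4 * (n ^ 2 + 1)) =
          (n * q) ^ 3 * q + (n * q) * q ^ 3 := by ring
      rw [h2, hq] at h1
      linarith
    have hq2 : q ^ 3 ≤ q ^ 2 := by
      have : q ^ 3 = q ^ 2 * q := by ring
      rw [this]
      exact mul_le_of_le_one_right (by positivity) hq1
    linarith
  linarith

end Pool.Agent.MP_a0a8d4_co
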