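import Pool.Agent.MP_a0a8d4_co.Geo
import Pool.Agent.MP_a0a8d4_co.StepEnergy
import Pool.Agent.MP_a0a8d4_co.OptAvg
import Pool.Agent.MP_a0a8d4_co.Chain
import Pool.Agent.MP_a0a8d4_co.OptFive
import Pool.Agent.MP_a0a8d4_co.OptRel
import Pool.Agent.MP_a0a8d4_co.NearDiag
import Pool.Agent.MP_a0a8d4_co.OptCoinc
import Pool.Agent.MP_a0a8d4_co.CoincLower

set_option autoImplicit false

/-!
# MP_a0a8d4_co: assembly
-/

namespace Pool.Agent.MP_a0a8d4_co

open MeasureTheory Set Filter
open scoped unitInterval Topology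

theorem cd_eq (D : I → I → I → Pt) : cd W D = (1 / 8) * En (Meets D) := by
  unfold cd En
  congr 1

/-- An optimal drawing satisfies the main inequality. -/
theorem opt_of_optimal (D : I → I → I → Pt) (hD : IsSimpleDrawing D)
    (hopt : ∀ D' : I → I → I → Pt, IsSimpleDrawing D' → MeasurableSet (crossSet D') →
      cd W D ≤ cd W D') : OPT (Meets D) := by
  intro r ξ
  obtain ⟨cr, F, hF, h1, h2, h6, h3, h4, h5⟩ :=
    geo (N := 2 ^ r) (M := 256) (by norm_num) (fun a b => D (ξ a) (ξ b)) (hD.comap ξ)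
  refine ⟨cr, h1, h2, h6, ?_⟩
  have h := hopt (fun x y => F (kap r x) (kap r y)) (hF.comap (kap r)) (step_meas r F)
  rw [cd_eq, cd_eq] at h
  have h' := step_energy r cr F hF h3 h4 (by simpa using h5)
  linarith

theorem eN_zero_eq (P : I → I → I → I → Prop) :
    eN P 0 = ∫ v : Fin 4 → I, W (v 2) (v 3) * ind (P (v 0) (v 1) (v 2) (v 3)) := by
  unfold eN
  rw [lev_zero, pow_zero, one_mul]
  apply integral_congr_ae
  refine Filter.Eventually.of_forall fun v => ?_
  have : cell 0 (v 0) = cell 0 (v 1) := by rw [cell_zero, cell_zero]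
  simp only [ind_true this, one_mul]

theorem eN_zero (P : I → I → I → I → Prop) (hm : NullMeasurableSet (PSet P) volume) :
    0.999 * (volume : Measure (Fin 4 → I)).real (PSet P) ≤ eN P 0 := by
  have h2 : (volume : Measure (Fin 4 → I)).real (PSet P) =
      ∫ v : Fin 4 → I, ind (P (v 0) (v 1) (v 2) (v 3)) :=
    (OptBase.integral_ind₀ (fun v : Fin 4 → I => P (v 0) (v 1) (v 2) (v 3)) hm).symm
  have hI : Integrable (fun v : Fin 4 → I => ind (P (v 0) (v 1) (v 2) (v 3))) volume :=
    OptBase.integrable_ind₀ (fun v : Fin 4 → I => P (v 0) (v 1) (v 2) (v 3)) hm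
  have hW : AEStronglyMeasurable (fun v : Fin 4 → I => W (v 2) (v 3)) volume :=
    (Chain.measurable_coord measurable_W 2 3).aestronglyMeasurable
  have hWI : Integrable (fun v : Fin 4 → I => W (v 2) (v 3) *
      ind (P (v 0) (v 1) (v 2) (v 3))) volume := by
    refine Integrable.bdd_mul (c := 1) hI hW ?_
    refine Filter.Eventually.of_forall fun v => ?_
    rw [Real.norm_eq_abs, abs_of_nonneg (W_nonneg _ _)]
    exact W_le_one _ _
  rw [eN_zero_eq, h2, ← integral_const_mul]
  refine integral_mono (hI.const_mul _) hWI fun v => ?_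
  exact mul_le_mul_of_nonneg_right (W_ge _ _) (ind_nonneg _)

theorem analysis (P : I → I → I → I → Prop) (hs : PSym P)
    (hm : NullMeasurableSet (PSet P) volume) (h : OPT P) : False := by
  have h1 := opt_five P hs hm h
  have h2 := eN_zero P hm
  have h3 : ∀ n, 0.05 ≤ eN P n := by
    intro n
    have := chain P hs hm (opt_avg P hm h) n
    norm_num at h1 h2 this ⊢
    linarith
  obtain ⟨r₀, hr₀⟩ := near_diag P hm (opt_rel P hm h) (1 / 1000) (by norm_num)
  -- choose `n` with `lev n ≥ r₀` and `lev n ≥ 10`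
  obtain ⟨n, hn, hn'⟩ : ∃ n, r₀ ≤ lev n ∧ 10 ≤ lev n := by
    have h1 : r₀ + 1 ≤ (r₀ + 1) ^ 2 := Nat.le_self_pow (by norm_num) _
    refine ⟨r₀ + 1, ?_, ?_⟩ <;> unfold lev <;> omega
  have h4 := hr₀ (lev n) hn
  have h5 := coinc_lower P hs hm n
  have h6 := opt_coinc P hm h (lev n)
  have h7 := h3 n
  have h8 : ((1 : ℝ) / 2) ^ (lev n) ≤ 1 / 1024 := by
    calc ((1 : ℝ) / 2) ^ (lev n) ≤ (1 / 2) ^ 10 :=
          pow_le_pow_of_le_one (by norm_num) (by norm_num) hn'
      _ = 1 / 1024 := by norm_num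
  have h9 : 0 < ((1 : ℝ) / 2) ^ (lev n) := by positivity
  set q := ((1 : ℝ) / 2) ^ (lev n) with hq
  have h10 : 2 * 0.999 * q * 0.05 ≤ 2 * 0.999 * q * eN P n := by
    apply mul_le_mul_of_nonneg_left h7; positivity
  norm_num at h4 h5 h6 h10
  nlinarith

/-- For every drawing there is a better drawing. -/
theorem exists_better (D : I → I → I → Pt) (hD : IsSimpleDrawing D)
    (hm : NullMeasurableSet (crossSet D) volume) :
    ∃ D' : I → I → I → Pt, IsSimpleDrawing D' ∧ MeasurableSet (crossSet D') ∧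
      cd W D' < cd W D := by
  by_contra hcon
  push Not at hcon
  exact analysis (Meets D) hD.psym hm (opt_of_optimal D hD hcon)

end Pool.Agent.MP_a0a8d4_co
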