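import Pool.Agent.MP_a0a8d4_co.Defs2

set_option autoImplicit false

/-!
# MP_a0a8d4_co: parity facts for five points in the plane

Module PAR1: a triangle and a segment, and the parity of the number of crossings of five points,
both by a finite check of all sign patterns that satisfy the Grassmann-Pluecker relations.
-/

namespace Pool.Agent.MP_a0a8d4_co

namespace FivePts

/-- The sign of a real number as a Boolean. -/
noncomputable def sg (x : ℝ) : Bool := decide (0 < x)

lemma mul_neg_iff' {x y : ℝ} (hx : x ≠ 0) (hy : y ≠ 0) : x * y < 0 ↔ (sg x ^^ sg y) = true := by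
  unfold sg
  rcases lt_or_gt_of_ne hx with h1 | h1 <;> rcases lt_or_gt_of_ne hy with h2 | h2
  · simp [not_lt.2 h1.le, not_lt.2 h2.le, (mul_pos_of_neg_of_neg h1 h2).le]
  · simp [not_lt.2 h1.le, h2, mul_neg_of_neg_of_pos h1 h2]
  · simp [not_lt.2 h2.le, h1, mul_neg_of_pos_of_neg h1 h2]
  · simp [h1, h2, (mul_pos h1 h2).le]

lemma sg_neg {x : ℝ} (hx : x ≠ 0) : sg (-x) = !sg x := by
  unfold sg
  rcases lt_or_gt_of_ne hx with h1 | h1
  · simp [h1, not_lt.2 h1.le]
  · simp [h1, not_lt.2 h1.le]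

lemma pos_iff {x : ℝ} : 0 < x ↔ sg x = true := by simp [sg]

lemma neg_iff {x : ℝ} (hx : x ≠ 0) : x < 0 ↔ (!sg x) = true := by
  have h := pos_iff (x := -x)
  rw [sg_neg hx] at h
  rw [← h]
  simp

lemma indN_eq {p : Prop} {b : Bool} (h : p ↔ b = true) : indN p = b.toNat := by
  cases b
  · rw [indN_false (by simpa using h)]; rfl
  · rw [indN_true (by simpa using h)]; rfl

/-- Three real numbers with sum zero do not have all the same sign. -/
def n3 (a b c : Bool) : Bool := !(a && b && c) && !(!a && !b && !c)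

def n4 (a b c d : Bool) : Bool := !(a && b && c && d) && !(!a && !b && !c && !d)

/-- The three-term relation. -/
lemma three {x1 x2 y1 y2 z1 z2 : ℝ} (h1 : x1 ≠ 0) (h2 : x2 ≠ 0) (h3 : y1 ≠ 0) (h4 : y2 ≠ 0)
    (h5 : z1 ≠ 0) (h6 : z2 ≠ 0) (h : x1 * x2 - y1 * y2 + z1 * z2 = 0) :
    n3 (!(sg x1 ^^ sg x2)) (sg y1 ^^ sg y2) (!(sg z1 ^^ sg z2)) = true := by
  have e1 := mul_neg_iff' h1 h2
  have e2 := mul_neg_iff' h3 h4
  have e3 := mul_neg_iff' h5 h6
  have p1 : x1 * x2 ≠ 0 := mul_ne_zero h1 h2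
  have p2 : y1 * y2 ≠ 0 := mul_ne_zero h3 h4
  have p3 : z1 * z2 ≠ 0 := mul_ne_zero h5 h6
  generalize (sg x1 ^^ sg x2) = b1 at *
  generalize (sg y1 ^^ sg y2) = b2 at *
  generalize (sg z1 ^^ sg z2) = b3 at *
  cases b1 <;> cases b2 <;> cases b3 <;> simp [n3] at * <;> grind

/-- The four-term relation. -/
lemma four {x y z w : ℝ}
    (h : x - y + z - w = 0) : n4 (sg x) (!sg y) (sg z) (!sg w) = true := by
  have e1 := pos_iff (x := x)
  have e2 := pos_iff (x := y)
  have e3 := pos_iff (x := z)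
  have e4 := pos_iff (x := w)
  generalize sg x = b1 at *
  generalize sg y = b2 at *
  generalize sg z = b3 at *
  generalize sg w = b4 at *
  cases b1 <;> cases b2 <;> cases b3 <;> cases b4 <;> simp [n4] at * <;> grind

lemma rot (a b c : Pt) : orient b c a = orient a b c := by unfold orient; ring
lemma swp (a b c : Pt) : orient b a c = -orient a b c := by unfold orient; ring
lemma swp' (a b c : Pt) : orient a c b = -orient a b c := by unfold orient; ring

/-- The three crossings of four points in terms of the four signs. -/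
lemma cr_iff {w x y z : Pt} (h1 : orient w x y ≠ 0) (h2 : orient w x z ≠ 0)
    (h3 : orient w y z ≠ 0) (h4 : orient x y z ≠ 0) :
    (Cr w x y z ↔ ((sg (orient w x y) ^^ sg (orient w x z)) &&
      (sg (orient w y z) ^^ sg (orient x y z))) = true) ∧
    (Cr w y x z ↔ (!(sg (orient w x y) ^^ sg (orient w y z)) &&
      !(sg (orient w x z) ^^ sg (orient x y z))) = true) ∧
    (Cr w z x y ↔ ((sg (orient w x z) ^^ sg (orient w y z)) &&
      (sg (orient w x y) ^^ sg (orient x y z))) = true) := by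
  refine ⟨?_, ?_, ?_⟩
  · unfold Cr
    rw [rot w y z, rot x y z, mul_neg_iff' h1 h2, mul_neg_iff' h3 h4, Bool.and_eq_true]
  · unfold Cr
    rw [swp' w x y, rot w x z, swp' x y z, mul_neg_iff' (neg_ne_zero.2 h1) h3,
      mul_neg_iff' h2 (neg_ne_zero.2 h4), sg_neg h1, sg_neg h4, Bool.and_eq_true]
    cases sg (orient w x y) <;> cases sg (orient w x z) <;> cases sg (orient w y z) <;>
      cases sg (orient x y z) <;> simp
  · unfold Cr
    rw [swp' w x z, swp' w y z, rot w x y, mul_neg_iff' (neg_ne_zero.2 h2) (neg_ne_zero.2 h3),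
      mul_neg_iff' h1 h4, sg_neg h2, sg_neg h3, Bool.and_eq_true]
    cases sg (orient w x y) <;> cases sg (orient w x z) <;> cases sg (orient w y z) <;>
      cases sg (orient x y z) <;> simp

lemma cr_swap {a b c d : Pt} : Cr a b c d ↔ Cr b a c d := by
  unfold Cr
  rw [swp a b c, swp a b d, neg_mul_neg, mul_comm (orient c d b)]

/-- The Boolean form of the ten relations between the ten signs of five points. -/
def rels (abc abd abe acd ace ade bcd bce bde cde : Bool) : Bool :=
  n3 (!(abc ^^ ade)) (abd ^^ ace) (!(abe ^^ acd)) &&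
  n3 (!(abc ^^ bde)) (abd ^^ bce) (!(abe ^^ bcd)) &&
  n3 (!(abc ^^ cde)) (acd ^^ bce) (!(ace ^^ bcd)) &&
  n3 (!(abd ^^ cde)) (acd ^^ bde) (!(ade ^^ bcd)) &&
  n3 (!(abe ^^ cde)) (ace ^^ bde) (!(ade ^^ bce)) &&
  n4 bcd (!acd) abd (!abc) &&
  n4 bce (!ace) abe (!abc) &&
  n4 bde (!ade) abe (!abd) &&
  n4 cde (!ade) ace (!acd) &&
  n4 cde (!bde) bce (!bcd)

lemma rels_of {a b c d e : Pt} (h1 : orient a b c ≠ 0) (h2 : orient a b d ≠ 0)
    (h3 : orient a b e ≠ 0) (h4 : orient a c d ≠ 0) (h5 : orient a c e ≠ 0)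
    (h6 : orient a d e ≠ 0) (h7 : orient b c d ≠ 0) (h8 : orient b c e ≠ 0)
    (h9 : orient b d e ≠ 0) (h10 : orient c d e ≠ 0) :
    rels (sg (orient a b c)) (sg (orient a b d)) (sg (orient a b e)) (sg (orient a c d))
      (sg (orient a c e)) (sg (orient a d e)) (sg (orient b c d)) (sg (orient b c e))
      (sg (orient b d e)) (sg (orient c d e)) = true := by
  unfold rels
  simp only [Bool.and_eq_true]
  refine ⟨⟨⟨⟨⟨⟨⟨⟨⟨?_, ?_⟩, ?_⟩, ?_⟩, ?_⟩, ?_⟩, ?_⟩, ?_⟩, ?_⟩, ?_⟩
  · exact three h1 h6 h2 h5 h3 h4 (by unfold orient; ring)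
  · exact three h1 h9 h2 h8 h3 h7 (by unfold orient; ring)
  · exact three h1 h10 h4 h8 h5 h7 (by unfold orient; ring)
  · exact three h2 h10 h4 h9 h6 h7 (by unfold orient; ring)
  · exact three h3 h10 h5 h9 h6 h8 (by unfold orient; ring)
  · exact four (by unfold orient; ring)
  · exact four (by unfold orient; ring)
  · exact four (by unfold orient; ring)
  · exact four (by unfold orient; ring)
  · exact four (by unfold orient; ring)

/-- The finite check for a triangle `a b c` and a segment `d e`. -/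
lemma check_tri : ∀ abc abd abe acd ace ade bcd bce bde cde : Bool,
    rels abc abd abe acd ace ade bcd bce bde cde = true →
    (((abd ^^ abe) && (ade ^^ bde)).toNat + ((bcd ^^ bce) && (bde ^^ cde)).toNat +
      ((acd ^^ ace) && (ade ^^ cde)).toNat +
      ((abd && bcd && !acd) || (!abd && !bcd && acd)).toNat +
      ((abe && bce && !ace) || (!abe && !bce && ace)).toNat) % 2 = 0 := by
  decide +kernel

/-- The finite check for five points. -/
lemma check_five : ∀ abc abd abe acd ace ade bcd bce bde cde : Bool,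
    rels abc abd abe acd ace ade bcd bce bde cde = true →
    (((abc ^^ abd) && (acd ^^ bcd)).toNat + (!(abc ^^ acd) && !(abd ^^ bcd)).toNat +
      ((abd ^^ acd) && (abc ^^ bcd)).toNat +
      ((abc ^^ abe) && (ace ^^ bce)).toNat + (!(abc ^^ ace) && !(abe ^^ bce)).toNat +
      ((abe ^^ ace) && (abc ^^ bce)).toNat +
      ((abd ^^ abe) && (ade ^^ bde)).toNat + (!(abd ^^ ade) && !(abe ^^ bde)).toNat +
      ((abe ^^ ade) && (abd ^^ bde)).toNat +
      ((acd ^^ ace) && (ade ^^ cde)).toNat + (!(acd ^^ ade) && !(ace ^^ cde)).toNat +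
      ((ace ^^ ade) && (acd ^^ cde)).toNat +
      ((bcd ^^ bce) && (bde ^^ cde)).toNat + (!(bcd ^^ bde) && !(bce ^^ cde)).toNat +
      ((bce ^^ bde) && (bcd ^^ cde)).toNat) % 2 = 1 := by
  decide +kernel

end FivePts

open FivePts in
theorem tri_seg (a b c p q : Pt) (h : GP {a, b, c, p, q}) (hn : [a, b, c, p, q].Nodup) :
    Even (indN (Cr a b p q) + indN (Cr b c p q) + indN (Cr c a p q) + indN (Inside a b c p) +
      indN (Inside a b c q)) := by
  simp only [List.nodup_cons, List.mem_cons, List.not_mem_nil, or_false, not_or,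
    List.nodup_nil, and_true, not_false_eq_true] at hn
  obtain ⟨⟨hab, hac, hap, haq⟩, ⟨hbc, hbp, hbq⟩, ⟨hcp, hcq⟩, hpq⟩ := hn
  have ma : a ∈ ({a, b, c, p, q} : Set Pt) := by simp
  have mb : b ∈ ({a, b, c, p, q} : Set Pt) := by simp
  have mc : c ∈ ({a, b, c, p, q} : Set Pt) := by simp
  have mp : p ∈ ({a, b, c, p, q} : Set Pt) := by simp
  have mq : q ∈ ({a, b, c, p, q} : Set Pt) := by simp
  have h1 := h a ma b mb c mc hab hbc hac
  have h2 := h a ma b mb p mp hab hbp hap
  have h3 := h a ma b mb q mq hab hbq haq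
  have h4 := h a ma c mc p mp hac hcp hap
  have h5 := h a ma c mc q mq hac hcq haq
  have h6 := h a ma p mp q mq hap hpq haq
  have h7 := h b mb c mc p mp hbc hcp hbp
  have h8 := h b mb c mc q mq hbc hcq hbq
  have h9 := h b mb p mp q mq hbp hpq hbq
  have h10 := h c mc p mp q mq hcp hpq hcq
  have hr := rels_of h1 h2 h3 h4 h5 h6 h7 h8 h9 h10
  have k1 := indN_eq (cr_iff h2 h3 h6 h9).1
  have k2 := indN_eq (cr_iff h7 h8 h9 h10).1
  have k3 := indN_eq ((cr_swap (a := c) (b := a) (c := p) (d := q)).trans (cr_iff h4 h5 h6 h10).1)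
  have k4 : indN (Inside a b c p) =
      ((sg (orient a b p) && sg (orient b c p) && !sg (orient a c p)) ||
        (!sg (orient a b p) && !sg (orient b c p) && sg (orient a c p))).toNat := by
    refine indN_eq ?_
    unfold Inside
    rw [swp a c p, neg_pos, neg_neg_iff_pos, pos_iff, pos_iff, neg_iff h4, neg_iff h2, neg_iff h7,
      pos_iff]
    simp [and_assoc]
  have k5 : indN (Inside a b c q) =
      ((sg (orient a b q) && sg (orient b c q) && !sg (orient a c q)) ||
        (!sg (orient a b q) && !sg (orient b c q) && sg (orient a c q))).toNat := by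
    refine indN_eq ?_
    unfold Inside
    rw [swp a c q, neg_pos, neg_neg_iff_pos, pos_iff, pos_iff, neg_iff h5, neg_iff h3, neg_iff h8,
      pos_iff]
    simp [and_assoc]
  rw [k1, k2, k3, k4, k5, Nat.even_iff]
  exact check_tri _ _ _ _ _ _ _ _ _ _ hr

open FivePts in
theorem five_straight (a b c d e : Pt) (h : GP {a, b, c, d, e}) (hn : [a, b, c, d, e].Nodup) :
    Odd (indN (Cr a b c d) + indN (Cr a c b d) + indN (Cr a d b c) +
      indN (Cr a b c e) + indN (Cr a c b e) + indN (Cr a e b c) +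
      indN (Cr a b d e) + indN (Cr a d b e) + indN (Cr a e b d) +
      indN (Cr a c d e) + indN (Cr a d c e) + indN (Cr a e c d) +
      indN (Cr b c d e) + indN (Cr b d c e) + indN (Cr b e c d)) := by
  simp only [List.nodup_cons, List.mem_cons, List.not_mem_nil, or_false, not_or,
    List.nodup_nil, and_true, not_false_eq_true] at hn
  obtain ⟨⟨hab, hac, had, hae⟩, ⟨hbc, hbd, hbe⟩, ⟨hcd, hce⟩, hde⟩ := hn
  have ma : a ∈ ({a, b, c, d, e} : Set Pt) := by simp
  have mb : b ∈ ({a, b, c, d, e} : Set Pt) := by simp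
  have mc : c ∈ ({a, b, c, d, e} : Set Pt) := by simp
  have md : d ∈ ({a, b, c, d, e} : Set Pt) := by simp
  have me : e ∈ ({a, b, c, d, e} : Set Pt) := by simp
  have h1 := h a ma b mb c mc hab hbc hac
  have h2 := h a ma b mb d md hab hbd had
  have h3 := h a ma b mb e me hab hbe hae
  have h4 := h a ma c mc d md hac hcd had
  have h5 := h a ma c mc e me hac hce hae
  have h6 := h a ma d md e me had hde hae
  have h7 := h b mb c mc d md hbc hcd hbd
  have h8 := h b mb c mc e me hbc hce hbe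
  have h9 := h b mb d md e me hbd hde hbe
  have h10 := h c mc d md e me hcd hde hce
  have hr := rels_of h1 h2 h3 h4 h5 h6 h7 h8 h9 h10
  have k1 := cr_iff h1 h2 h4 h7
  have k2 := cr_iff h1 h3 h5 h8
  have k3 := cr_iff h2 h3 h6 h9
  have k4 := cr_iff h4 h5 h6 h10
  have k5 := cr_iff h7 h8 h9 h10
  rw [indN_eq k1.1, indN_eq k1.2.1, indN_eq k1.2.2, indN_eq k2.1, indN_eq k2.2.1, indN_eq k2.2.2,
    indN_eq k3.1, indN_eq k3.2.1, indN_eq k3.2.2, indN_eq k4.1, indN_eq k4.2.1, indN_eq k4.2.2,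
    indN_eq k5.1, indN_eq k5.2.1, indN_eq k5.2.2, Nat.odd_iff]
  exact check_five _ _ _ _ _ _ _ _ _ _ hr

end Pool.Agent.MP_a0a8d4_co
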