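import Pool.Agent.MP_a0a8d4_co.ClosedEven

set_option autoImplicit false

/-!
# MP_a0a8d4_co: the parity relations of a nice drawing

Module PAR3.
-/

namespace Pool.Agent.MP_a0a8d4_co

namespace NiceRel

open ClosedEven FivePts

lemma nd4 {V : Type} {a b c d : V} (h1 : a ≠ b) (h2 : a ≠ c) (h3 : a ≠ d) (h4 : b ≠ c)
    (h5 : b ≠ d) (h6 : c ≠ d) : [a, b, c, d].Nodup := by
  simp [h1, h2, h3, h4, h5, h6]

lemma nd5 {V : Type} {a b c d e : V} (h1 : a ≠ b) (h2 : a ≠ c) (h3 : a ≠ d) (h4 : a ≠ e)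
    (h5 : b ≠ c) (h6 : b ≠ d) (h7 : b ≠ e) (h8 : c ≠ d) (h9 : c ≠ e) (h10 : d ≠ e) :
    [a, b, c, d, e].Nodup := by
  simp [h1, h2, h3, h4, h5, h6, h7, h8, h9, h10]

lemma cr_comm' {a b c d : Pt} : Cr a b c d ↔ Cr c d a b := by
  unfold Cr
  exact and_comm

lemma sum_comm {α β : Type*} (f : α → β → ℕ) (L : List α) (M : List β) :
    (L.map fun a => (M.map fun b => f a b).sum).sum =
      (M.map fun b => (L.map fun a => f a b).sum).sum := by
  induction L with
  | nil => simp
  | cons a L ih =>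
      simp only [List.map_cons, List.sum_cons]
      rw [ih, ← List.sum_map_add]

lemma cnt_comm (l m : List Pt) : cnt l m = cnt m l := by
  unfold cnt
  rw [sum_comm]
  refine congrArg List.sum (List.map_congr_left fun b _ =>
    congrArg List.sum (List.map_congr_left fun a _ => ?_))
  exact congrArg indN (propext cr_comm')

lemma segs_append : ∀ (l₁ l₂ : List Pt) (a b : Pt), l₁.getLast? = some a → l₂.head? = some b →
    segs (l₁ ++ l₂) = segs l₁ ++ (a, b) :: segs l₂
  | [], _, _, _, h, _ => by simp at h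
  | [x], l₂, a, b, h, h' => by
      cases l₂ with
      | nil => simp at h'
      | cons y t =>
        simp at h h'
        subst h; subst h'
        rfl
  | x :: y :: t, l₂, a, b, h, h' => by
      have ih := segs_append (y :: t) l₂ a b (by simpa using h) h'
      rw [List.cons_append, List.cons_append, segs_cc, segs_cc, ← List.cons_append, ih]
      rfl

/-- The crossings of one segment with a polyline. -/
noncomputable def one (m : List Pt) (e : Pt × Pt) : ℕ :=
  ((segs m).map fun f => indN (Cr e.1 e.2 f.1 f.2)).sum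

lemma cnt_def (l m : List Pt) : cnt l m = ((segs l).map (one m)).sum := rfl

lemma one_deg (m : List Pt) (a : Pt) : one m (a, a) = 0 := by
  unfold one
  refine List.sum_eq_zero fun x hx => ?_
  obtain ⟨f, _, rfl⟩ := List.mem_map.1 hx
  exact indN_false (cr_degL _ _ _)

lemma one_swap (m : List Pt) (a b : Pt) : one m (a, b) = one m (b, a) := by
  unfold one
  congr 1
  refine List.map_congr_left fun f _ => ?_
  simp only
  rw [propext (cr_swap (a := a) (b := b) (c := f.1) (d := f.2))]

lemma cnt_append {l₁ l₂ : List Pt} (m : List Pt) {a : Pt} (h₁ : l₁.getLast? = some a)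
    (h₂ : l₂.head? = some a) : cnt (l₁ ++ l₂) m = cnt l₁ m + cnt l₂ m := by
  rw [cnt_def, cnt_def, cnt_def, segs_append l₁ l₂ a a h₁ h₂, List.map_append, List.sum_append,
    List.map_cons, List.sum_cons, one_deg, zero_add]

lemma cnt_append' {l₁ l₂ : List Pt} (m : List Pt) {a : Pt} (h₁ : l₁.getLast? = some a)
    (h₂ : l₂.head? = some a) : cnt m (l₁ ++ l₂) = cnt m l₁ + cnt m l₂ := by
  rw [cnt_comm, cnt_append m h₁ h₂, cnt_comm l₁, cnt_comm l₂]

lemma cnt_reverse (m : List Pt) : ∀ l : List Pt, cnt l.reverse m = cnt l m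
  | [] => rfl
  | [a] => rfl
  | a :: b :: t => by
      have ih := cnt_reverse m (b :: t)
      have h1 : cnt (a :: b :: t) m = one m (a, b) + cnt (b :: t) m := by
        rw [cnt_def, cnt_def, segs_cc, List.map_cons, List.sum_cons]
      have h2 : cnt (a :: b :: t).reverse m = cnt (b :: t).reverse m + one m (b, a) := by
        rw [List.reverse_cons, cnt_def, cnt_def,
          segs_append (b :: t).reverse [a] b a (by simp) rfl, List.map_append, List.sum_append,
          List.map_cons, List.sum_cons]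
        have h0 : segs [a] = [] := rfl
        rw [h0, List.map_nil, List.sum_nil, add_zero]
      rw [h1, h2, ih, one_swap m a b, add_comm]

lemma cnt_reverse' (m l : List Pt) : cnt m l.reverse = cnt m l := by
  rw [cnt_comm, cnt_reverse, cnt_comm]

lemma cnt_two (a b c d : Pt) : cnt [a, b] [c, d] = indN (Cr a b c d) := by
  simp [cnt, segs]

variable {V : Type}

/-- A polyline that joins the positions of `u` and `v` and whose points are points of the path. -/
def Good (N : Nice V) (u v : V) (L : List Pt) : Prop :=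
  L.head? = some (N.pos u) ∧ L.getLast? = some (N.pos v) ∧ ∀ a ∈ L, a ∈ N.path u v

lemma good_path (N : Nice V) {u v : V} (h : u ≠ v) : Good N u v (N.path u v) :=
  ⟨N.head u v h, N.last u v h, fun _ ha => ha⟩

lemma pos_mem (N : Nice V) {u v : V} (h : u ≠ v) : N.pos u ∈ N.path u v :=
  List.mem_of_mem_head? (N.head u v h)

lemma pos_mem' (N : Nice V) {u v : V} (h : u ≠ v) : N.pos v ∈ N.path u v :=
  List.mem_of_mem_getLast? (N.last u v h)

lemma good_straight (N : Nice V) {u v : V} (h : u ≠ v) : Good N u v [N.pos u, N.pos v] := by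
  refine ⟨rfl, rfl, fun a ha => ?_⟩
  simp only [List.mem_cons, List.not_mem_nil, or_false] at ha
  rcases ha with rfl | rfl
  · exact pos_mem N h
  · exact pos_mem' N h

lemma Good.rev {N : Nice V} {u v : V} {L : List Pt} (h : Good N u v L) :
    Good N v u L.reverse := by
  refine ⟨by rw [List.head?_reverse]; exact h.2.1, by rw [List.getLast?_reverse]; exact h.1, ?_⟩
  intro a ha
  rw [N.rev u v, List.mem_reverse]
  exact h.2.2 a (List.mem_reverse.1 ha)

/-- All points of the list are on paths between vertices of the class `A`. -/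
def On (N : Nice V) (A : V → Prop) (L : List Pt) : Prop :=
  ∀ a ∈ L, ∃ u v, u ≠ v ∧ A u ∧ A v ∧ a ∈ N.path u v

lemma Good.on {N : Nice V} {u v : V} {L : List Pt} (h : Good N u v L) (huv : u ≠ v)
    {A : V → Prop} (hu : A u) (hv : A v) : On N A L :=
  fun a ha => ⟨u, v, huv, hu, hv, h.2.2 a ha⟩

lemma On.append {N : Nice V} {A : V → Prop} {L M : List Pt} (h : On N A L) (h' : On N A M) :
    On N A (L ++ M) := by
  intro a ha
  rcases List.mem_append.1 ha with ha | ha
  · exact h a ha
  · exact h' a ha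

lemma closedN (N : Nice V) (A B : V → Prop) (hAB : ∀ u, A u → ¬ B u) (L M : List Pt) (p q : Pt)
    (hl : L.head? = some p) (hl' : L.getLast? = some p) (hm : M.head? = some q)
    (hm' : M.getLast? = some q) (hL : On N A L) (hM : On N B M) : Even (cnt L M) := by
  refine closed_even L M p q hl hl' hm hm' ?_ ?_
  · have hmem : ∀ a ∈ {a | a ∈ L ∨ a ∈ M}, a ∈ {a | ∃ x y, x ≠ y ∧ a ∈ N.path x y} := by
      rintro a (ha | ha)
      · obtain ⟨u, v, huv, _, _, h⟩ := hL a ha
        exact ⟨u, v, huv, h⟩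
      · obtain ⟨u, v, huv, _, _, h⟩ := hM a ha
        exact ⟨u, v, huv, h⟩
    intro a ha b hb c hc
    exact N.gp a (hmem a ha) b (hmem b hb) c (hmem c hc)
  · intro a ha ha'
    obtain ⟨u, v, huv, hu, hv, h⟩ := hL a ha
    obtain ⟨z, w, hzw, hz, hw, h'⟩ := hM a ha'
    obtain ⟨t, _, h1, h2⟩ := N.share u v z w huv hzw (fun h => hAB u hu (h.1 ▸ hz))
      (fun h => hAB u hu (h.1 ▸ hw)) a h h'
    have hA : A t := by rcases h1 with rfl | rfl <;> assumption
    have hB : B t := by rcases h2 with rfl | rfl <;> assumption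
    exact hAB t hA hB

/-- Replacing one edge of a drawing of `K₅`. -/
lemma step (N : Nice V) {u v x y z : V} (h : [u, v, x, y, z].Nodup) {L L' R₁ R₂ R₃ : List Pt}
    (hL : Good N u v L) (hL' : Good N u v L') (h₁ : Good N x y R₁) (h₂ : Good N y z R₂)
    (h₃ : Good N x z R₃) :
    (cnt L R₁ + cnt L R₂ + cnt L R₃ + cnt L' R₁ + cnt L' R₂ + cnt L' R₃) % 2 = 0 := by
  simp only [List.nodup_cons, List.mem_cons, List.not_mem_nil, or_false, not_or,
    List.nodup_nil, and_true, not_false_eq_true] at h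
  obtain ⟨⟨huv, hux, huy, huz⟩, ⟨hvx, hvy, hvz⟩, ⟨hxy, hxz⟩, hyz⟩ := h
  have e1 : (R₁ ++ R₂).getLast? = some (N.pos z) := by
    rw [List.getLast?_append, h₂.2.1]; rfl
  have e2 : (R₁ ++ R₂).head? = some (N.pos x) := by
    rw [List.head?_append, h₁.1]; rfl
  have key := closedN N (fun t => t = u ∨ t = v) (fun t => t = x ∨ t = y ∨ t = z)
    (by
      rintro t (rfl | rfl) (h | h | h)
      exacts [hux h, huy h, huz h, hvx h, hvy h, hvz h])
    (L ++ L'.reverse) ((R₁ ++ R₂) ++ R₃.reverse) (N.pos u) (N.pos x)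
    (by rw [List.head?_append, hL.1]; rfl)
    (by rw [List.getLast?_append, hL'.rev.2.1]; rfl)
    (by rw [List.head?_append, e2]; rfl)
    (by rw [List.getLast?_append, h₃.rev.2.1]; rfl)
    ((hL.on huv (Or.inl rfl) (Or.inr rfl)).append (hL'.rev.on (Ne.symm huv) (Or.inr rfl) (Or.inl rfl)))
    (((h₁.on hxy (Or.inl rfl) (Or.inr (Or.inl rfl))).append
      (h₂.on hyz (Or.inr (Or.inl rfl)) (Or.inr (Or.inr rfl)))).append
      (h₃.rev.on (Ne.symm hxz) (Or.inr (Or.inr rfl)) (Or.inl rfl)))
  rw [cnt_append _ hL.2.1 hL'.rev.1, cnt_append' _ e1 h₃.rev.1, cnt_append' _ h₁.2.1 h₂.1,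
    cnt_append' _ e1 h₃.rev.1, cnt_append' _ h₁.2.1 h₂.1, cnt_reverse, cnt_reverse, cnt_reverse,
    cnt_reverse', cnt_reverse', Nat.even_iff] at key
  omega

lemma segs_nodup {l : List Pt} (h : l.Nodup) : (segs l).Nodup := by
  have h1 : ((segs l).map Prod.snd).Nodup := by
    unfold segs
    rw [List.map_snd_zip (by simp)]
    exact h.tail
  exact h1.of_map

/-- The indicator of a crossing is the number of crossings. -/
lemma ind_cr (N : Nice V) {x y z w : V} (h : [x, y, z, w].Nodup) :
    indN (N.cr x y z w) = cnt (N.path x y) (N.path z w) := by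
  classical
  have h' := h
  simp only [List.nodup_cons, List.mem_cons, List.not_mem_nil, or_false, not_or,
    List.nodup_nil, and_true, not_false_eq_true] at h'
  have n1 := segs_nodup (N.nodup x y h'.1.1)
  have n2 := segs_nodup (N.nodup z w h'.2.2)
  have e : cnt (N.path x y) (N.path z w) = ∑ e ∈ (segs (N.path x y)).toFinset,
      ∑ f ∈ (segs (N.path z w)).toFinset, indN (Cr e.1 e.2 f.1 f.2) := by
    rw [List.sum_toFinset _ n1]
    unfold cnt
    congr 1
    refine List.map_congr_left fun e _ => ?_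
    rw [List.sum_toFinset _ n2]
  rw [e]
  by_cases hc : N.cr x y z w
  · rw [indN_true hc]
    obtain ⟨e, he, f, hf, hef⟩ := hc
    rw [Finset.sum_eq_single e, Finset.sum_eq_single f, indN_true hef]
    · intro f' hf' hne
      apply indN_false
      intro hc'
      exact hne (N.indep x y z w h e he f hf e he f' (by simpa using hf') hef hc').2.symm
    · intro hn
      exact absurd (List.mem_toFinset.2 hf) hn
    · intro e' he' hne
      refine Finset.sum_eq_zero fun f' hf' => indN_false fun hc' => ?_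
      exact hne (N.indep x y z w h e he f hf e' (by simpa using he') f' (by simpa using hf')
        hef hc').1.symm
    · intro hn
      exact absurd (List.mem_toFinset.2 he) hn
  · rw [indN_false hc]
    symm
    refine Finset.sum_eq_zero fun e he => Finset.sum_eq_zero fun f hf => indN_false fun hc' => ?_
    exact hc ⟨e, by simpa using he, f, by simpa using hf, hc'⟩

/-- The number of crossings of a nice drawing of `K₅` is odd. -/
lemma k5 (N : Nice V) (a b c d e : V) (h : [a, b, c, d, e].Nodup) :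
    (indN (N.cr a b c d) + indN (N.cr a c b d) + indN (N.cr a d b c) +
      indN (N.cr a b c e) + indN (N.cr a c b e) + indN (N.cr a e b c) +
      indN (N.cr a b d e) + indN (N.cr a d b e) + indN (N.cr a e b d) +
      indN (N.cr a c d e) + indN (N.cr a d c e) + indN (N.cr a e c d) +
      indN (N.cr b c d e) + indN (N.cr b d c e) + indN (N.cr b e c d)) % 2 = 1 := by
  have h' := h
  simp only [List.nodup_cons, List.mem_cons, List.not_mem_nil, or_false, not_or,
    List.nodup_nil, and_true, not_false_eq_true] at h'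
  obtain ⟨⟨hab, hac, had, hae⟩, ⟨hbc, hbd, hbe⟩, ⟨hcd, hce⟩, hde⟩ := h'
  have hs := five_straight (N.pos a) (N.pos b) (N.pos c) (N.pos d) (N.pos e)
    (by
      have hm : ∀ t ∈ ({N.pos a, N.pos b, N.pos c, N.pos d, N.pos e} : Set Pt),
          t ∈ {t | ∃ x y, x ≠ y ∧ t ∈ N.path x y} := by
        intro t ht
        simp only [Set.mem_insert_iff, Set.mem_singleton_iff] at ht
        rcases ht with rfl | rfl | rfl | rfl | rfl
        · exact ⟨a, b, hab, pos_mem N hab⟩
        · exact ⟨b, c, hbc, pos_mem N hbc⟩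
        · exact ⟨c, d, hcd, pos_mem N hcd⟩
        · exact ⟨d, e, hde, pos_mem N hde⟩
        · exact ⟨d, e, hde, pos_mem' N hde⟩
      intro r hr s hs t ht
      exact N.gp r (hm r hr) s (hm s hs) t (hm t ht))
    (by
      have hi := N.pos_inj
      simp only [List.nodup_cons, List.mem_cons, List.not_mem_nil, or_false, not_or,
        List.nodup_nil, and_true, not_false_eq_true, hi.eq_iff]
      exact ⟨⟨hab, hac, had, hae⟩, ⟨hbc, hbd, hbe⟩, ⟨hcd, hce⟩, hde⟩)
  simp only [← cnt_two] at hs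
  rw [Nat.odd_iff] at hs
  rw [ind_cr N (nd4 hab hac had hbc hbd hcd),
    ind_cr N (nd4 hac hab had (Ne.symm hbc) hcd hbd),
    ind_cr N (nd4 had hab hac (Ne.symm hbd) (Ne.symm hcd) hbc),
    ind_cr N (nd4 hab hac hae hbc hbe hce),
    ind_cr N (nd4 hac hab hae (Ne.symm hbc) hce hbe),
    ind_cr N (nd4 hae hab hac (Ne.symm hbe) (Ne.symm hce) hbc),
    ind_cr N (nd4 hab had hae hbd hbe hde),
    ind_cr N (nd4 had hab hae (Ne.symm hbd) hde hbe),
    ind_cr N (nd4 hae hab had (Ne.symm hbe) (Ne.symm hde) hbd),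
    ind_cr N (nd4 hac had hae hcd hce hde),
    ind_cr N (nd4 had hac hae (Ne.symm hcd) hde hce),
    ind_cr N (nd4 hae hac had (Ne.symm hce) (Ne.symm hde) hcd),
    ind_cr N (nd4 hbc hbd hbe hcd hce hde),
    ind_cr N (nd4 hbd hbc hbe (Ne.symm hcd) hde hce),
    ind_cr N (nd4 hbe hbc hbd (Ne.symm hce) (Ne.symm hde) hcd)]
  have s0 := step N (nd5 hab hac had hae hbc hbd hbe hcd hce hde)
    (good_path N hab) (good_straight N hab) (good_path N hcd) (good_path N hde)
    (good_path N hce)
  have s1 := step N (nd5 hac hab had hae (Ne.symm hbc) hcd hce hbd hbe hde)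
    (good_path N hac) (good_straight N hac) (good_path N hbd) (good_path N hde)
    (good_path N hbe)
  have s2 := step N (nd5 had hab hac hae (Ne.symm hbd) (Ne.symm hcd) hde hbc hbe hce)
    (good_path N had) (good_straight N had) (good_path N hbc) (good_path N hce)
    (good_path N hbe)
  have s3 := step N (nd5 hae hab hac had (Ne.symm hbe) (Ne.symm hce) (Ne.symm hde) hbc hbd hcd)
    (good_path N hae) (good_straight N hae) (good_path N hbc) (good_path N hcd)
    (good_path N hbd)
  have s4 := step N (nd5 hbc (Ne.symm hab) hbd hbe (Ne.symm hac) hcd hce had hae hde)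
    (good_path N hbc) (good_straight N hbc) (good_straight N had) (good_path N hde)
    (good_straight N hae)
  rw [cnt_comm (N.path b c) [N.pos a, N.pos d],
    cnt_comm [N.pos b, N.pos c] [N.pos a, N.pos d],
    cnt_comm (N.path b c) [N.pos a, N.pos e],
    cnt_comm [N.pos b, N.pos c] [N.pos a, N.pos e]] at s4
  have s5 := step N (nd5 hbd (Ne.symm hab) hbc hbe (Ne.symm had) (Ne.symm hcd) hde hac hae hce)
    (good_path N hbd) (good_straight N hbd) (good_straight N hac) (good_path N hce)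
    (good_straight N hae)
  rw [cnt_comm (N.path b d) [N.pos a, N.pos c],
    cnt_comm [N.pos b, N.pos d] [N.pos a, N.pos c],
    cnt_comm (N.path b d) [N.pos a, N.pos e],
    cnt_comm [N.pos b, N.pos d] [N.pos a, N.pos e]] at s5
  have s6 := step N (nd5 hbe (Ne.symm hab) hbc hbd (Ne.symm hae) (Ne.symm hce) (Ne.symm hde) hac had hcd)
    (good_path N hbe) (good_straight N hbe) (good_straight N hac) (good_path N hcd)
    (good_straight N had)
  rw [cnt_comm (N.path b e) [N.pos a, N.pos c],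
    cnt_comm [N.pos b, N.pos e] [N.pos a, N.pos c],
    cnt_comm (N.path b e) [N.pos a, N.pos d],
    cnt_comm [N.pos b, N.pos e] [N.pos a, N.pos d]] at s6
  have s7 := step N (nd5 hcd (Ne.symm hac) (Ne.symm hbc) hce (Ne.symm had) (Ne.symm hbd) hde hab hae hbe)
    (good_path N hcd) (good_straight N hcd) (good_straight N hab) (good_straight N hbe)
    (good_straight N hae)
  rw [cnt_comm (N.path c d) [N.pos a, N.pos b],
    cnt_comm [N.pos c, N.pos d] [N.pos a, N.pos b],
    cnt_comm (N.path c d) [N.pos b, N.pos e],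
    cnt_comm [N.pos c, N.pos d] [N.pos b, N.pos e],
    cnt_comm (N.path c d) [N.pos a, N.pos e],
    cnt_comm [N.pos c, N.pos d] [N.pos a, N.pos e]] at s7
  have s8 := step N (nd5 hce (Ne.symm hac) (Ne.symm hbc) hcd (Ne.symm hae) (Ne.symm hbe) (Ne.symm hde) hab had hbd)
    (good_path N hce) (good_straight N hce) (good_straight N hab) (good_straight N hbd)
    (good_straight N had)
  rw [cnt_comm (N.path c e) [N.pos a, N.pos b],
    cnt_comm [N.pos c, N.pos e] [N.pos a, N.pos b],
    cnt_comm (N.path c e) [N.pos b, N.pos d],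
    cnt_comm [N.pos c, N.pos e] [N.pos b, N.pos d],
    cnt_comm (N.path c e) [N.pos a, N.pos d],
    cnt_comm [N.pos c, N.pos e] [N.pos a, N.pos d]] at s8
  have s9 := step N (nd5 hde (Ne.symm had) (Ne.symm hbd) (Ne.symm hcd) (Ne.symm hae) (Ne.symm hbe) (Ne.symm hce) hab hac hbc)
    (good_path N hde) (good_straight N hde) (good_straight N hab) (good_straight N hbc)
    (good_straight N hac)
  rw [cnt_comm (N.path d e) [N.pos a, N.pos b],
    cnt_comm [N.pos d, N.pos e] [N.pos a, N.pos b],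
    cnt_comm (N.path d e) [N.pos b, N.pos c],
    cnt_comm [N.pos d, N.pos e] [N.pos b, N.pos c],
    cnt_comm (N.path d e) [N.pos a, N.pos c],
    cnt_comm [N.pos d, N.pos e] [N.pos a, N.pos c]] at s9
  omega

/-- Two disjoint triangles cross evenly. -/
lemma tri (N : Nice V) (x y o a b c : V) (h : [x, y, o, a, b, c].Nodup) :
    (indN (N.cr x y a b) + indN (N.cr x y b c) + indN (N.cr x y a c) +
      indN (N.cr y o a b) + indN (N.cr y o b c) + indN (N.cr y o a c) +
      indN (N.cr x o a b) + indN (N.cr x o b c) + indN (N.cr x o a c)) % 2 = 0 := by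
  have h' := h
  simp only [List.nodup_cons, List.mem_cons, List.not_mem_nil, or_false, not_or,
    List.nodup_nil, and_true, not_false_eq_true] at h'
  obtain ⟨⟨hxy, hxo, hxa, hxb, hxc⟩, ⟨hyo, hya, hyb, hyc⟩, ⟨hoa, hob, hoc⟩, ⟨hab, hac⟩, hbc⟩ := h'
  have g1 := good_path N hxy
  have g2 := good_path N hyo
  have g3 := good_path N hxo
  have k1 := good_path N hab
  have k2 := good_path N hbc
  have k3 := good_path N hac
  have e1 : (N.path x y ++ N.path y o).getLast? = some (N.pos o) := by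
    rw [List.getLast?_append, g2.2.1]; rfl
  have e2 : (N.path x y ++ N.path y o).head? = some (N.pos x) := by
    rw [List.head?_append, g1.1]; rfl
  have e3 : (N.path a b ++ N.path b c).getLast? = some (N.pos c) := by
    rw [List.getLast?_append, k2.2.1]; rfl
  have e4 : (N.path a b ++ N.path b c).head? = some (N.pos a) := by
    rw [List.head?_append, k1.1]; rfl
  have key := closedN N (fun t => t = x ∨ t = y ∨ t = o) (fun t => t = a ∨ t = b ∨ t = c)
    (by
      rintro t (rfl | rfl | rfl) (h | h | h)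
      exacts [hxa h, hxb h, hxc h, hya h, hyb h, hyc h, hoa h, hob h, hoc h])
    ((N.path x y ++ N.path y o) ++ (N.path x o).reverse)
    ((N.path a b ++ N.path b c) ++ (N.path a c).reverse) (N.pos x) (N.pos a)
    (by rw [List.head?_append, e2]; rfl)
    (by rw [List.getLast?_append, g3.rev.2.1]; rfl)
    (by rw [List.head?_append, e4]; rfl)
    (by rw [List.getLast?_append, k3.rev.2.1]; rfl)
    (((g1.on hxy (Or.inl rfl) (Or.inr (Or.inl rfl))).append
      (g2.on hyo (Or.inr (Or.inl rfl)) (Or.inr (Or.inr rfl)))).append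
      (g3.rev.on (Ne.symm hxo) (Or.inr (Or.inr rfl)) (Or.inl rfl)))
    (((k1.on hab (Or.inl rfl) (Or.inr (Or.inl rfl))).append
      (k2.on hbc (Or.inr (Or.inl rfl)) (Or.inr (Or.inr rfl)))).append
      (k3.rev.on (Ne.symm hac) (Or.inr (Or.inr rfl)) (Or.inl rfl)))
  rw [cnt_append _ e1 g3.rev.1, cnt_append _ g1.2.1 g2.1, cnt_reverse,
    cnt_append' _ e3 k3.rev.1, cnt_append' _ e3 k3.rev.1, cnt_append' _ e3 k3.rev.1,
    cnt_append' _ k1.2.1 k2.1, cnt_append' _ k1.2.1 k2.1, cnt_append' _ k1.2.1 k2.1,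
    cnt_reverse', cnt_reverse', cnt_reverse', Nat.even_iff] at key
  rw [ind_cr N (nd4 hxy hxa hxb hya hyb hab),
    ind_cr N (nd4 hxy hxb hxc hyb hyc hbc),
    ind_cr N (nd4 hxy hxa hxc hya hyc hac),
    ind_cr N (nd4 hyo hya hyb hoa hob hab),
    ind_cr N (nd4 hyo hyb hyc hob hoc hbc),
    ind_cr N (nd4 hyo hya hyc hoa hoc hac),
    ind_cr N (nd4 hxo hxa hxb hoa hob hab),
    ind_cr N (nd4 hxo hxb hxc hob hoc hbc),
    ind_cr N (nd4 hxo hxa hxc hoa hoc hac)]
  omega

end NiceRel

open NiceRel in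
theorem Nice.rel {V : Type} (N : Nice V) (x y o z₁ z₂ z₃ : V) (h : [x, y, o, z₁, z₂, z₃].Nodup) :
    RelAt N.cr x y o z₁ z₂ z₃ := by
  intro h1 h2 h3 h4 h5 h6
  have hk := k5 N x y z₁ z₂ z₃ (by
    simp only [List.nodup_cons, List.mem_cons, List.not_mem_nil, or_false, not_or,
      List.nodup_nil, and_true, not_false_eq_true] at h ⊢
    tauto)
  have ht := tri N x y o z₁ z₂ z₃ h
  rw [propext h1, propext h2, propext h3] at hk
  rw [propext h4, propext h5, propext h6] at ht
  rw [Nat.odd_iff]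
  omega

open NiceRel in
theorem Nice.five {V : Type} (N : Nice V) (x₀ x₁ x₂ x₃ x₄ : V) (h : [x₀, x₁, x₂, x₃, x₄].Nodup) :
    FiveAt N.cr x₀ x₁ x₂ x₃ x₄ := by
  by_contra hcon
  have hk := k5 N x₀ x₁ x₂ x₃ x₄ h
  simp only [List.nodup_cons, List.mem_cons, List.not_mem_nil, or_false, not_or,
    List.nodup_nil, and_true, not_false_eq_true] at h
  obtain ⟨⟨hab, hac, had, hae⟩, ⟨hbc, hbd, hbe⟩, ⟨hcd, hce⟩, hde⟩ := h
  have key : ∀ a b c d : V, [a, b, c, d].Nodup →
      (∀ u ∈ [a, b, c, d], u ∈ [x₀, x₁, x₂, x₃, x₄]) → indN (N.cr a b c d) = 0 :=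
    fun a b c d h1 h2 => indN_false fun h3 => hcon ⟨a, b, c, d, h1, h2, h3⟩
  rw [key x₀ x₁ x₂ x₃ (nd4 hab hac had hbc hbd hcd) (by simp),
    key x₀ x₂ x₁ x₃ (nd4 hac hab had (Ne.symm hbc) hcd hbd) (by simp),
    key x₀ x₃ x₁ x₂ (nd4 had hab hac (Ne.symm hbd) (Ne.symm hcd) hbc) (by simp),
    key x₀ x₁ x₂ x₄ (nd4 hab hac hae hbc hbe hce) (by simp),
    key x₀ x₂ x₁ x₄ (nd4 hac hab hae (Ne.symm hbc) hce hbe) (by simp),
    key x₀ x₄ x₁ x₂ (nd4 hae hab hac (Ne.symm hbe) (Ne.symm hce) hbc) (by simp),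
    key x₀ x₁ x₃ x₄ (nd4 hab had hae hbd hbe hde) (by simp),
    key x₀ x₃ x₁ x₄ (nd4 had hab hae (Ne.symm hbd) hde hbe) (by simp),
    key x₀ x₄ x₁ x₃ (nd4 hae hab had (Ne.symm hbe) (Ne.symm hde) hbd) (by simp),
    key x₀ x₂ x₃ x₄ (nd4 hac had hae hcd hce hde) (by simp),
    key x₀ x₃ x₂ x₄ (nd4 had hac hae (Ne.symm hcd) hde hce) (by simp),
    key x₀ x₄ x₂ x₃ (nd4 hae hac had (Ne.symm hce) (Ne.symm hde) hcd) (by simp),
    key x₁ x₂ x₃ x₄ (nd4 hbc hbd hbe hcd hce hde) (by simp),
    key x₁ x₃ x₂ x₄ (nd4 hbd hbc hbe (Ne.symm hcd) hde hce) (by simp),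
    key x₁ x₄ x₂ x₃ (nd4 hbe hbc hbd (Ne.symm hce) (Ne.symm hde) hcd) (by simp)] at hk
  omega

end Pool.Agent.MP_a0a8d4_co
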