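import Pool.Agent.MP_a0a8d4_co.Curve

set_option autoImplicit false

/-!
# MP_a0a8d4_co: realisation of a nice drawing by curves

Module RZ2.
-/

namespace Pool.Agent.MP_a0a8d4_co

open MeasureTheory Set Filter
open scoped unitInterval Topology

namespace Realize

lemma segs_fst {l : List Pt} (hl : l.Nodup) {e f : Pt × Pt} (he : e ∈ segs l) (hf : f ∈ segs l)
    (h : e.1 = f.1) : e = f := by
  induction l with
  | nil => simp [segs] at he
  | cons a l ih =>
    cases l with
    | nil => simp [segs] at he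
    | cons b l =>
      have ha : a ∉ b :: l := (List.nodup_cons.1 hl).1
      rw [segs_cons_cons, List.mem_cons] at he hf
      rcases he with rfl | he <;> rcases hf with rfl | hf
      · rfl
      · exact (ha (by rw [show a = f.1 from h]; exact (segs_mem hf).1)).elim
      · exact (ha (by rw [← show e.1 = a from h]; exact (segs_mem he).1)).elim
      · exact ih (List.nodup_cons.1 hl).2 he hf

lemma segs_snd {l : List Pt} (hl : l.Nodup) {e f : Pt × Pt} (he : e ∈ segs l) (hf : f ∈ segs l)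
    (h : e.2 = f.2) : e = f := by
  have he' : (e.2, e.1) ∈ segs l.reverse := segs_reverse.2 he
  have hf' : (f.2, f.1) ∈ segs l.reverse := segs_reverse.2 hf
  have h3 := segs_fst (List.nodup_reverse.2 hl) he' hf' h
  simp only [Prod.mk.injEq] at h3
  exact Prod.ext h3.2 h3.1

lemma segs_not_swap {l : List Pt} (hl : l.Nodup) {a b : Pt} (he : (a, b) ∈ segs l)
    (hf : (b, a) ∈ segs l) : False := by
  induction l with
  | nil => simp [segs] at he
  | cons c l ih =>
    cases l with
    | nil => simp [segs] at he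
    | cons d l =>
      have ha : c ∉ d :: l := (List.nodup_cons.1 hl).1
      rw [segs_cons_cons, List.mem_cons] at he hf
      rcases he with he | he <;> rcases hf with hf | hf
      · simp only [Prod.mk.injEq] at he hf
        exact ha (by rw [← hf.1, he.2]; simp)
      · simp only [Prod.mk.injEq] at he
        exact ha (by rw [← he.1]; exact (segs_mem hf).2)
      · simp only [Prod.mk.injEq] at hf
        exact ha (by rw [← hf.1]; exact (segs_mem he).2)
      · exact ih (List.nodup_cons.1 hl).2 he hf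

lemma symm_inv : Function.Involutive (σ : I → I) := unitInterval.symm_symm

variable {V : Type}

lemma pair_unique {x y z w u v : V} (n1 : ¬ (x = z ∧ y = w)) (n2 : ¬ (x = w ∧ y = z))
    (hu1 : u = x ∨ u = y) (hu2 : u = z ∨ u = w) (hv1 : v = x ∨ v = y) (hv2 : v = z ∨ v = w) :
    u = v := by
  grind

lemma mem_pts (N : Nice V) {x y : V} (h : x ≠ y) {a : Pt} (ha : a ∈ N.path x y) :
    a ∈ {a | ∃ x y, x ≠ y ∧ a ∈ N.path x y} := ⟨x, y, h, ha⟩

lemma gp_sub {S T : Set Pt} (hS : GP S) (h : ∀ a ∈ T, a ∈ S) : GP T :=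
  fun a ha b hb c hc => hS a (h a ha) b (h b hb) c (h c hc)

/-- Two segments between points in general position meet only if they cross or have a common
end point, which is then the only common point, or if they are equal. -/
lemma meet_cases {S : Set Pt} (hS : GP S) {a b c d p : Pt} (ha : a ∈ S) (hb : b ∈ S) (hc : c ∈ S)
    (hd : d ∈ S) (hab : a ≠ b) (hcd : c ≠ d) (h1 : p ∈ segment ℝ a b) (h2 : p ∈ segment ℝ c d) :
    Cr a b c d ∨ ((a = c ∧ b = d) ∨ (a = d ∧ b = c)) ∨ (p = a ∧ (p = c ∨ p = d)) ∨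
      (p = b ∧ (p = c ∨ p = d)) := by
  by_cases hac : a = c
  · subst hac
    by_cases hbd : b = d
    · exact Or.inr (Or.inl (Or.inl ⟨rfl, hbd⟩))
    · have h3 := inter_common (hS a ha b hb d hd hab hbd hcd)
      have h4 : p ∈ ({a} : Set Pt) := by rw [← h3]; exact ⟨h1, h2⟩
      have h5 : p = a := h4
      exact Or.inr (Or.inr (Or.inl ⟨h5, Or.inl h5⟩))
  by_cases had : a = d
  · subst had
    by_cases hbc : b = c
    · exact Or.inr (Or.inl (Or.inr ⟨rfl, hbc⟩))
    · have h3 := inter_common (hS a ha b hb c hc hab hbc hac)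
      have h4 : p ∈ ({a} : Set Pt) := by
        rw [← h3]; exact ⟨h1, by rw [segment_symm]; exact h2⟩
      have h5 : p = a := h4
      exact Or.inr (Or.inr (Or.inl ⟨h5, Or.inr h5⟩))
  by_cases hbc : b = c
  · subst hbc
    have h3 := inter_common (hS b hb a ha d hd (Ne.symm hab) had hcd)
    have h4 : p ∈ ({b} : Set Pt) := by
      rw [← h3]; exact ⟨by rw [segment_symm]; exact h1, h2⟩
    have h5 : p = b := h4
    exact Or.inr (Or.inr (Or.inr ⟨h5, Or.inl h5⟩))
  by_cases hbd : b = d
  · subst hbd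
    have h3 := inter_common (hS b hb a ha c hc (Ne.symm hab) hac (Ne.symm hcd))
    have h4 : p ∈ ({b} : Set Pt) := by
      rw [← h3]; exact ⟨by rw [segment_symm]; exact h1, by rw [segment_symm]; exact h2⟩
    have h5 : p = b := h4
    exact Or.inr (Or.inr (Or.inr ⟨h5, Or.inr h5⟩))
  left
  refine Cr_of_inter (gp_sub hS ?_) ?_ ⟨p, h1, h2⟩
  · intro t ht
    simp only [mem_insert_iff, mem_singleton_iff] at ht
    rcases ht with rfl | rfl | rfl | rfl <;> assumption
  · simp [hab, hac, had, hbc, hbd, hcd]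

/-- Different edges. -/
lemma meet_diff (N : Nice V) {x y z w : V} (hxy : x ≠ y) (hzw : z ≠ w) (h1 : ¬ (x = z ∧ y = w))
    (h2 : ¬ (x = w ∧ y = z)) {e f : Pt × Pt} (he : e ∈ segs (N.path x y))
    (hf : f ∈ segs (N.path z w)) {p : Pt} (hp : p ∈ segment ℝ e.1 e.2)
    (hq : p ∈ segment ℝ f.1 f.2) :
    Cr e.1 e.2 f.1 f.2 ∨ ∃ u, p = N.pos u ∧ (u = x ∨ u = y) ∧ (u = z ∨ u = w) := by
  have me := segs_mem he
  have mf := segs_mem hf
  have ne := segs_ne (N.nodup x y hxy) he
  have nf := segs_ne (N.nodup z w hzw) hf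
  rcases meet_cases N.gp (mem_pts N hxy me.1) (mem_pts N hxy me.2) (mem_pts N hzw mf.1)
    (mem_pts N hzw mf.2) ne nf hp hq with h | h | h | h
  · exact Or.inl h
  · exfalso
    have h3 : e.1 ∈ N.path z w ∧ e.2 ∈ N.path z w := by
      rcases h with ⟨h, h'⟩ | ⟨h, h'⟩
      · rw [h, h']; exact mf
      · rw [h, h']; exact ⟨mf.2, mf.1⟩
    obtain ⟨u, hu, hu1, hu2⟩ := N.share x y z w hxy hzw h1 h2 e.1 me.1 h3.1
    obtain ⟨v, hv, hv1, hv2⟩ := N.share x y z w hxy hzw h1 h2 e.2 me.2 h3.2
    have huv : u ≠ v := by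
      rintro rfl
      exact ne (hu.trans hv.symm)
    exact huv (pair_unique h1 h2 hu1 hu2 hv1 hv2)
  · right
    have h3 : p ∈ N.path x y := by rw [h.1]; exact me.1
    have h4 : p ∈ N.path z w := by
      rcases h.2 with h | h <;> rw [h]
      exacts [mf.1, mf.2]
    exact N.share x y z w hxy hzw h1 h2 p h3 h4
  · right
    have h3 : p ∈ N.path x y := by rw [h.1]; exact me.2
    have h4 : p ∈ N.path z w := by
      rcases h.2 with h | h <;> rw [h]
      exacts [mf.1, mf.2]
    exact N.share x y z w hxy hzw h1 h2 p h3 h4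

lemma simple_path (N : Nice V) {x y : V} (hxy : x ≠ y) : SimpleL (N.path x y) := by
  have hn := N.nodup x y hxy
  refine ⟨hn, ?_⟩
  intro e he f hf p hp hq
  have me := segs_mem he
  have mf := segs_mem hf
  by_cases hef : e = f
  · exact Or.inl hef
  right
  rcases meet_cases N.gp (mem_pts N hxy me.1) (mem_pts N hxy me.2) (mem_pts N hxy mf.1)
    (mem_pts N hxy mf.2) (segs_ne hn he) (segs_ne hn hf) hp hq with h | h | h | h
  · exact (N.self x y hxy e he f hf h).elim
  · exfalso
    rcases h with ⟨h, h'⟩ | ⟨h, h'⟩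
    · exact hef (Prod.ext h h')
    · have e1 : ((e.1, e.2) : Pt × Pt) ∈ segs (N.path x y) := he
      have e2 : ((e.2, e.1) : Pt × Pt) ∈ segs (N.path x y) := by
        rw [h', h]; exact hf
      exact segs_not_swap hn e1 e2
  · rcases h with ⟨h, h' | h'⟩
    · exact (hef (segs_fst hn he hf (h.symm.trans h'))).elim
    · exact Or.inr ⟨h'.symm.trans h, h⟩
  · rcases h with ⟨h, h' | h'⟩
    · exact Or.inl ⟨h.symm.trans h', h⟩
    · exact (hef (segs_snd hn he hf (h.symm.trans h'))).elim

lemma segs_rev (N : Nice V) {x y : V} {a b : Pt} :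
    (a, b) ∈ segs (N.path x y) ↔ (b, a) ∈ segs (N.path y x) := by
  rw [N.rev x y, segs_reverse]

/-- Adjacent different edges do not cross. -/
lemma no_cross (N : Nice V) {x y z w : V} (hxy : x ≠ y) (hzw : z ≠ w) (h1 : ¬ (x = z ∧ y = w))
    (h2 : ¬ (x = w ∧ y = z)) (h : x = z ∨ x = w ∨ y = z ∨ y = w) {e f : Pt × Pt}
    (he : e ∈ segs (N.path x y)) (hf : f ∈ segs (N.path z w)) : ¬ Cr e.1 e.2 f.1 f.2 := by
  have he' : (e.2, e.1) ∈ segs (N.path y x) := segs_rev N |>.1 he
  have hf' : (f.2, f.1) ∈ segs (N.path w z) := segs_rev N |>.1 hf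
  rcases h with rfl | rfl | rfl | rfl
  · exact N.adj x y w hxy hzw (fun h => h1 ⟨rfl, h⟩) e he f hf
  · intro hc
    exact N.adj x y z hxy (Ne.symm hzw) (fun h => h2 ⟨rfl, h⟩) e he _ hf' (Cr_swap_right.1 hc)
  · intro hc
    exact N.adj y x w (Ne.symm hxy) hzw (fun h => h2 ⟨h, rfl⟩) _ he' f hf (Cr_swap_left.1 hc)
  · intro hc
    exact N.adj y x z (Ne.symm hxy) (Ne.symm hzw) (fun h => h1 ⟨h, rfl⟩) _ he' _ hf'
      (Cr_swap_left.1 (Cr_swap_right.1 hc))

lemma pos_mem (N : Nice V) {u v : V} (h : u ≠ v) : N.pos u ∈ N.path u v :=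
  List.mem_of_mem_head? (N.head u v h)

/-- No position is on another edge. -/
lemma pos_not (N : Nice V) {x z w : V} (hzw : z ≠ w) (hxz : x ≠ z) (hxw : x ≠ w) :
    N.pos x ∉ Car (N.path z w) := by
  rintro ⟨f, hf, hp⟩
  have mf := segs_mem hf
  have key : N.pos x ∉ N.path z w := by
    intro h
    obtain ⟨u, hu, hu1, hu2⟩ := N.share x z z w hxz hzw (fun h => hzw h.2)
      (fun h => hxw h.1) _ (pos_mem N hxz) h
    have hxu := N.pos_inj hu
    subst hxu
    rcases hu2 with h | h
    · exact hxz h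
    · exact hxw h
  have o := N.gp f.1 (mem_pts N hzw mf.1) f.2 (mem_pts N hzw mf.2) (N.pos x)
    (mem_pts N hxz (pos_mem N hxz)) (segs_ne (N.nodup z w hzw) hf)
    (fun h => key (h ▸ mf.2)) (fun h => key (h ▸ mf.1))
  exact o (orient_of_mem hp)

/-- The curves of the drawing. -/
lemma exists_F (N : Nice V) : ∃ F : V → V → I → Pt, (∀ x y, IsCurve (F x y)) ∧
    (∀ x y t, F x y t = F y x (σ t)) ∧ (∀ x t, F x x t = N.pos x) ∧
    (∀ x y, F x y 0 = N.pos x) ∧ (∀ x y, x ≠ y → range (F x y) = Car (N.path x y)) := by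
  classical
  have h : ∀ x y : V, ∃ c : I → Pt, x ≠ y → Continuous c ∧ Function.Injective c ∧
      c 0 = N.pos x ∧ c 1 = N.pos y ∧ range c = Car (N.path x y) := by
    intro x y
    by_cases hxy : x = y
    · exact ⟨fun _ => 0, fun h => absurd hxy h⟩
    · obtain ⟨c, hc⟩ := exists_curve (N.path x y) (N.pos x) (N.pos y) (N.head x y hxy)
        (N.last x y hxy) (fun h => hxy (N.pos_inj h)) (simple_path N hxy)
      exact ⟨c, fun _ => hc⟩
  choose c hc using h
  refine ⟨fun x y t => if x = y then N.pos x else if WellOrderingRel x y then c x y t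
    else c y x (σ t), ?_, ?_, ?_, ?_, ?_⟩
  · intro x y
    by_cases hxy : x = y
    · refine ⟨?_, Or.inr ⟨N.pos x, ?_⟩⟩
      · simp only [if_pos hxy]; exact continuous_const
      · intro t; simp only [if_pos hxy]
    · by_cases hr : WellOrderingRel x y
      · simp only [if_neg hxy, if_pos hr]
        exact ⟨(hc x y hxy).1, Or.inl (hc x y hxy).2.1⟩
      · simp only [if_neg hxy, if_neg hr]
        refine ⟨(hc y x (Ne.symm hxy)).1.comp unitInterval.continuous_symm, Or.inl ?_⟩
        exact (hc y x (Ne.symm hxy)).2.1.comp symm_inv.injective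
  · intro x y t
    by_cases hxy : x = y
    · subst hxy; simp
    · have hyx : ¬ y = x := fun h => hxy h.symm
      rcases trichotomous_of WellOrderingRel x y with hr | hr | hr
      · have hr' : ¬ WellOrderingRel y x := fun h => asymm_of WellOrderingRel hr h
        simp only [if_neg hxy, if_neg hyx, if_pos hr, if_neg hr', unitInterval.symm_symm]
      · exact absurd hr hxy
      · have hr' : ¬ WellOrderingRel x y := fun h => asymm_of WellOrderingRel hr h
        simp only [if_neg hxy, if_neg hyx, if_pos hr, if_neg hr']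
  · intro x t; simp
  · intro x y
    by_cases hxy : x = y
    · simp [hxy]
    · by_cases hr : WellOrderingRel x y
      · simp only [if_neg hxy, if_pos hr]
        exact (hc x y hxy).2.2.1
      · simp only [if_neg hxy, if_neg hr, unitInterval.symm_zero]
        exact (hc y x (Ne.symm hxy)).2.2.2.1
  · intro x y hxy
    by_cases hr : WellOrderingRel x y
    · simp only [if_neg hxy, if_pos hr]
      exact (hc x y hxy).2.2.2.2
    · simp only [if_neg hxy, if_neg hr]
      have h1 : range (fun t => c y x (σ t)) = range (c y x) :=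
        symm_inv.surjective.range_comp (c y x)
      rw [h1, (hc y x (Ne.symm hxy)).2.2.2.2, N.rev x y, Car_reverse]

end Realize

open Realize in
theorem Nice.realize {V : Type} (N : Nice V) :
    ∃ F : V → V → I → Pt, IsSimpleDrawing F ∧
      (∀ x y z w, [x, y, z, w].Nodup → (Meets F x y z w ↔ N.cr x y z w)) ∧
      (∀ x z w, x ≠ z → x ≠ w → ¬ Meets F x x z w) := by
  obtain ⟨F, h1, h2, h3, h4, h5⟩ := exists_F N
  have hdiag : ∀ x, range (F x x) = {N.pos x} := by
    intro x
    ext p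
    constructor
    · rintro ⟨t, rfl⟩; exact h3 x t
    · intro hp
      exact ⟨0, by rw [h3]; exact (mem_singleton_iff.1 hp).symm⟩
  refine ⟨F, ⟨h1, h2, fun x => ⟨N.pos x, h3 x⟩, fun x y => by rw [h4, h4], ?_⟩, ?_, ?_⟩
  · intro x y z w hne
    by_cases hxy : x = y
    · subst hxy
      rw [hdiag]
      exact subsingleton_singleton.anti inter_subset_left
    by_cases hzw : z = w
    · subst hzw
      rw [hdiag z]
      exact subsingleton_singleton.anti inter_subset_right
    rw [h5 x y hxy, h5 z w hzw] at hne ⊢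
    have n1 : ¬ (x = z ∧ y = w) := by
      rintro ⟨rfl, rfl⟩; exact hne rfl
    have n2 : ¬ (x = w ∧ y = z) := by
      rintro ⟨rfl, rfl⟩
      exact hne (by rw [N.rev x y, Car_reverse])
    rintro p ⟨⟨e, he, hpe⟩, ⟨f, hf, hpf⟩⟩ q ⟨⟨e', he', hqe⟩, ⟨f', hf', hqf⟩⟩
    by_cases hc : x = z ∨ x = w ∨ y = z ∨ y = w
    · have k1 := (meet_diff N hxy hzw n1 n2 he hf hpe hpf).resolve_left
        (no_cross N hxy hzw n1 n2 hc he hf)
      have k2 := (meet_diff N hxy hzw n1 n2 he' hf' hqe hqf).resolve_left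
        (no_cross N hxy hzw n1 n2 hc he' hf')
      obtain ⟨u, hu, hu1, hu2⟩ := k1
      obtain ⟨v, hv, hv1, hv2⟩ := k2
      have huv : u = v := pair_unique n1 n2 hu1 hu2 hv1 hv2
      rw [hu, hv, huv]
    · push Not at hc
      have hn : [x, y, z, w].Nodup := by
        simp [hxy, hzw, hc.1, hc.2.1, hc.2.2.1, hc.2.2.2]
      have nov : ∀ u, (u = x ∨ u = y) → (u = z ∨ u = w) → False := by
        rintro u (rfl | rfl) (h | h)
        exacts [hc.1 h, hc.2.1 h, hc.2.2.1 h, hc.2.2.2 h]
      have k1 := (meet_diff N hxy hzw n1 n2 he hf hpe hpf).resolve_right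
        (by rintro ⟨u, _, hu1, hu2⟩; exact nov u hu1 hu2)
      have k2 := (meet_diff N hxy hzw n1 n2 he' hf' hqe hqf).resolve_right
        (by rintro ⟨u, _, hu1, hu2⟩; exact nov u hu1 hu2)
      obtain ⟨rfl, rfl⟩ := N.indep x y z w hn e he f hf e' he' f' hf' k1 k2
      obtain ⟨r, hr, _, _⟩ := Cr_inter k1
      have p1 : p ∈ ({r} : Set Pt) := by rw [← hr]; exact ⟨hpe, hpf⟩
      have q1 : q ∈ ({r} : Set Pt) := by rw [← hr]; exact ⟨hqe, hqf⟩
      rw [mem_singleton_iff.1 p1, mem_singleton_iff.1 q1]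
  · intro x y z w hn
    have hn' := hn
    simp only [List.nodup_cons, List.mem_cons, List.not_mem_nil, or_false, not_or,
      List.nodup_nil, and_true, not_false_eq_true] at hn'
    obtain ⟨⟨hxy, hxz, hxw⟩, ⟨hyz, hyw⟩, hzw⟩ := hn'
    unfold Meets
    rw [h5 x y hxy, h5 z w hzw]
    constructor
    · rintro ⟨p, ⟨e, he, hpe⟩, ⟨f, hf, hpf⟩⟩
      refine ⟨e, he, f, hf, (meet_diff N hxy hzw (fun h => hxz h.1) (fun h => hxw h.1)
        he hf hpe hpf).resolve_right ?_⟩
      rintro ⟨u, _, rfl | rfl, h | h⟩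
      exacts [hxz h, hxw h, hyz h, hyw h]
    · rintro ⟨e, he, f, hf, hc⟩
      obtain ⟨r, hr, _, _⟩ := Cr_inter hc
      have p1 : r ∈ segment ℝ e.1 e.2 ∩ segment ℝ f.1 f.2 := by rw [hr]; rfl
      exact ⟨r, ⟨e, he, p1.1⟩, ⟨f, hf, p1.2⟩⟩
  · rintro x z w hxz hxw ⟨p, hp1, hp2⟩
    rw [hdiag, mem_singleton_iff] at hp1
    subst hp1
    by_cases hzw : z = w
    · subst hzw
      rw [hdiag, mem_singleton_iff] at hp2
      exact hxz (N.pos_inj hp2)
    · rw [h5 z w hzw] at hp2
      exact pos_not N hzw hxz hxw hp2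

end Pool.Agent.MP_a0a8d4_co
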