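import Pool.Agent.MP_a0a8d4_co.ExistsNice
import Pool.Agent.MP_a0a8d4_co.Realize
import Pool.Agent.MP_a0a8d4_co.NiceRel

set_option autoImplicit false

/-!
# MP_a0a8d4_co: the geometric input of the proof
-/

namespace Pool.Agent.MP_a0a8d4_co

open MeasureTheory Set Filter
open scoped unitInterval Topology

theorem geo {N M : ℕ} (hM : 0 < M) (D : Fin N → Fin N → I → Pt) (hD : IsSimpleDrawing D) :
    ∃ (cr : Fin N → Fin N → Fin N → Fin N → Prop)
      (F : Fin N × Fin M → Fin N × Fin M → I → Pt), IsSimpleDrawing F ∧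
      (∀ a b c d, [a, b, c, d].Nodup → cr a b c d → Meets D a b c d) ∧
      (∀ x y o z₁ z₂ z₃, [x, y, o, z₁, z₂, z₃].Nodup → RelAt cr x y o z₁ z₂ z₃) ∧
      (∀ x₀ x₁ x₂ x₃ x₄, [x₀, x₁, x₂, x₃, x₄].Nodup → FiveAt cr x₀ x₁ x₂ x₃ x₄) ∧
      (∀ a b c d, [a.1, b.1, c.1, d.1].Nodup → (Meets F a b c d ↔ cr a.1 b.1 c.1 d.1)) ∧
      (∀ a b c d, a.1 = b.1 → a.1 ≠ c.1 → a.1 ≠ d.1 → ¬ Meets F a b c d) ∧
      (∀ J a b, a ≠ b → 4 * ∑ z, ∑ w, ind (z.1 ≠ J ∧ w.1 ≠ J ∧ z.1 ≠ w.1) *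
        ind (Meets F (J, a) z (J, b) w) ≤ (M : ℝ) ^ 2 * ((N : ℝ) ^ 2 + 1)) := by
  classical
  obtain ⟨N₀, hN₀⟩ := exists_nice D hD
  have hMR : (0 : ℝ) < M := by exact_mod_cast hM
  obtain ⟨N₁, hi, hii, hiii⟩ := N₀.dupAll (V' := Fin N × Fin M) Prod.fst
    (fun x => ⟨(x, ⟨0, hM⟩), rfl⟩) (fun _ => 1 / (M : ℝ)) (fun _ => by positivity) (by
      intro x
      rw [← Finset.sum_mul, Fintype.sum_prod_type]
      have h1 : ∀ a : Fin N, ∑ b : Fin M, ind (((a, b) : Fin N × Fin M).1 = x) =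
          if a = x then (M : ℝ) else 0 := by
        intro a
        by_cases h : a = x
        · simp [h, ind_true]
        · simp [h, ind_false]
      rw [Finset.sum_congr rfl (fun a _ => h1 a)]
      simp only [Finset.sum_ite_eq', Finset.mem_univ, if_true]
      field_simp)
  obtain ⟨F, hF, hF1, hF2⟩ := N₁.realize
  have hnd : ∀ a b c d : Fin N × Fin M, [a.1, b.1, c.1, d.1].Nodup → [a, b, c, d].Nodup := by
    intro a b c d h
    have : [a.1, b.1, c.1, d.1] = [a, b, c, d].map Prod.fst := rfl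
    rw [this] at h
    exact h.of_map _
  refine ⟨N₀.cr, F, hF, hN₀, fun x y o z₁ z₂ z₃ h => N₀.rel x y o z₁ z₂ z₃ h,
    fun x₀ x₁ x₂ x₃ x₄ h => N₀.five x₀ x₁ x₂ x₃ x₄ h, ?_, ?_, ?_⟩
  · intro a b c d h
    rw [hF1 a b c d (hnd a b c d h), hi a b c d h]
  · intro a b c d hab hac had hmeet
    have nac : a ≠ c := fun h => hac (by rw [h])
    have nad : a ≠ d := fun h => had (by rw [h])
    have nbc : b ≠ c := fun h => hac (by rw [hab, h])
    have nbd : b ≠ d := fun h => had (by rw [hab, h])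
    by_cases h1 : a = b
    · subst h1
      exact hF2 a c d nac nad hmeet
    · by_cases h2 : c = d
      · subst h2
        rw [hF.psym.2] at hmeet
        exact hF2 c a b (Ne.symm nac) (Ne.symm nbc) hmeet
      · have hn : [a, b, c, d].Nodup := by
          simp only [List.nodup_cons, List.mem_cons, List.not_mem_nil, or_false, not_or,
            List.nodup_nil, and_true, not_false_eq_true]
          exact ⟨⟨h1, nac, nad⟩, ⟨nbc, nbd⟩, h2⟩
        rw [hF1 a b c d hn] at hmeet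
        exact hii a b c d hn hab (Ne.symm hac) (Ne.symm had) hmeet
  · intro J a b hab
    have h1 := hiii (J, a) (J, b) (by simpa using hab) rfl
    rw [Fintype.card_fin] at h1
    have h2 : (M : ℝ) ^ 2 * (4 * ∑ z : Fin N × Fin M, ∑ w : Fin N × Fin M,
        ind (z.1 ≠ J ∧ w.1 ≠ J ∧ z.1 ≠ w.1) *
        (1 / (M : ℝ) * (1 / (M : ℝ)) * ind (N₁.cr (J, a) z (J, b) w))) ≤
        (M : ℝ) ^ 2 * ((N : ℝ) ^ 2 + 1) := mul_le_mul_of_nonneg_left h1 (by positivity)
    refine le_trans (le_of_eq ?_) h2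
    rw [mul_left_comm]
    congr 1
    rw [Finset.mul_sum]
    apply Finset.sum_congr rfl
    intro z _
    rw [Finset.mul_sum]
    apply Finset.sum_congr rfl
    intro w _
    by_cases h3 : z.1 ≠ J ∧ w.1 ≠ J ∧ z.1 ≠ w.1
    · have hn : [((J, a) : Fin N × Fin M), z, (J, b), w].Nodup := by
        simp only [List.nodup_cons, List.mem_cons, List.not_mem_nil, or_false, not_or,
          List.nodup_nil, and_true, not_false_eq_true]
        refine ⟨⟨?_, ?_, ?_⟩, ⟨?_, ?_⟩, ?_⟩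
        · intro h; exact h3.1 (by rw [← h])
        · intro h; exact hab (Prod.mk.injEq _ _ _ _ ▸ h).2
        · intro h; exact h3.2.1 (by rw [← h])
        · intro h; exact h3.1 (by rw [h])
        · intro h; exact h3.2.2 (by rw [h])
        · intro h; exact h3.2.1 (by rw [← h])
      rw [ind_congr (hF1 _ _ _ _ hn), ind_true h3]
      field_simp
    · rw [ind_false h3]
      ring

end Pool.Agent.MP_a0a8d4_co
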