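import Pool.Agent.MP_a0a8d4_co.Basic

set_option autoImplicit false

/-!
# MP_a0a8d4_co: reversing and concatenating simple polylines
-/

namespace Pool.Agent.MP_a0a8d4_co

open MeasureTheory Set Filter
open scoped unitInterval Topology

theorem SimpleL.reverse {l : List Pt} (h : SimpleL l) : SimpleL l.reverse := by
  refine ⟨List.nodup_reverse.2 h.1, ?_⟩
  rintro ⟨a, b⟩ he ⟨c, d⟩ hf p hp hq
  have he' := segs_reverse.1 he
  have hf' := segs_reverse.1 hf
  have := h.2 _ he' _ hf' p (by simpa [segment_symm] using hp) (by simpa [segment_symm] using hq)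
  rcases this with h1 | h1 | h1
  · left
    rw [Prod.mk.injEq] at h1
    rw [h1.1, h1.2]
  · right; right
    exact ⟨h1.1.symm, h1.2⟩
  · right; left
    exact ⟨h1.1.symm, h1.2⟩

/-- In a simple polyline the last point is only on the last segment. -/
theorem SimpleL.last_mem {a : List Pt} {c : Pt} (h : SimpleL (a ++ [c])) {e : Pt × Pt}
    (he : e ∈ segs (a ++ [c])) (hc : c ∈ segment ℝ e.1 e.2) : e.2 = c := by
  rcases List.eq_nil_or_concat a with rfl | ⟨a', g, rfl⟩
  · simp [segs_single] at he
  · have hg : (g, c) ∈ segs (a'.concat g ++ [c]) := by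
      rw [List.concat_eq_append, List.append_assoc]
      change (g, c) ∈ segs (a' ++ [g, c])
      rw [segs_concat]
      simp
    have hne := segs_ne h.1 hg
    rcases h.2 _ he _ hg c hc (right_mem_segment ℝ _ _) with h1 | h1 | h1
    · rw [h1]
    · exact absurd (h1.2.trans h1.1).symm hne
    · -- `e.1 = c` is impossible
      exfalso
      have hcn : c ∉ a'.concat g := by
        have := h.1
        rw [List.nodup_append] at this
        intro hc'
        exact this.2.2 c hc' c (by simp) rfl
      have hmem : ∀ (l : List Pt) (u v : Pt), (u, v) ∈ segs (l ++ [c]) → u ∈ l := by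
        intro l
        induction l with
        | nil => intro u v huv; simp [segs_single] at huv
        | cons x l ih =>
          intro u v huv
          cases l with
          | nil =>
            simp only [List.cons_append, List.nil_append, segs_cons_cons, segs_single,
              List.mem_cons, List.not_mem_nil, or_false, Prod.mk.injEq] at huv
            simp [huv.1]
          | cons y l =>
            simp only [List.cons_append, segs_cons_cons, List.mem_cons, Prod.mk.injEq] at huv
            rcases huv with huv | huv
            · simp [huv.1]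
            · exact List.mem_cons_of_mem _ (ih u v huv)
      have := hmem _ e.1 e.2 he
      rw [← h1.2] at this
      exact hcn this

/-- In a simple polyline the first point is only on the first segment. -/
theorem SimpleL.head_mem {b : List Pt} {c : Pt} (h : SimpleL (c :: b)) {e : Pt × Pt}
    (he : e ∈ segs (c :: b)) (hc : c ∈ segment ℝ e.1 e.2) : e.1 = c := by
  have h' := h.reverse
  rw [List.reverse_cons] at h'
  have he' : (e.2, e.1) ∈ segs (b.reverse ++ [c]) := by
    rw [← List.reverse_cons]
    exact segs_reverse.2 he
  exact h'.last_mem he' (by simpa [segment_symm] using hc)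

/-- Concatenation of simple polylines that meet only in the common end point. -/
theorem SimpleL.concat {a b : List Pt} {c : Pt} (ha : SimpleL (a ++ [c])) (hb : SimpleL (c :: b))
    (hac : ∀ p ∈ Car (a ++ [c]), p ∈ Car (c :: b) → p = c) : SimpleL (a ++ c :: b) := by
  have hmemb : ∀ p ∈ a, p ∈ c :: b → False := by
    intro p hp hp'
    have hpc : p ≠ c := by
      intro h
      have := ha.1
      rw [List.nodup_append] at this
      exact this.2.2 p hp c (by simp) h
    have h1 : p ∈ Car (a ++ [c]) := mem_Car (b := c) (by simp [hp]) (by simp) hpc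
    have h2 : p ∈ Car (c :: b) := mem_Car (b := c) hp' (by simp) hpc
    exact hpc (hac p h1 h2)
  refine ⟨?_, ?_⟩
  · rw [List.nodup_append]
    refine ⟨(List.nodup_append.1 ha.1).1, hb.1, ?_⟩
    intro p hp q hq hpq
    subst hpq
    exact hmemb p hp hq
  · have key : ∀ e ∈ segs (a ++ [c]), ∀ f ∈ segs (c :: b), ∀ p, p ∈ segment ℝ e.1 e.2 →
        p ∈ segment ℝ f.1 f.2 → e.2 = f.1 ∧ p = e.2 := by
      intro e he f hf p hp hq
      have hpc : p = c := hac p ⟨e, he, hp⟩ ⟨f, hf, hq⟩
      rw [hpc] at hp hq ⊢
      have h1 := ha.last_mem he hp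
      have h2 := hb.head_mem hf hq
      exact ⟨h1.trans h2.symm, h1.symm⟩
    intro e he f hf p hp hq
    rw [segs_append, List.mem_append] at he hf
    rcases he with he | he <;> rcases hf with hf | hf
    · exact ha.2 e he f hf p hp hq
    · exact Or.inr (Or.inl (key e he f hf p hp hq))
    · have h := key f hf e he p hq hp
      exact Or.inr (Or.inr ⟨h.1, h.2.trans h.1⟩)
    · exact hb.2 e he f hf p hp hq

/-- The points of a piece that are consecutive in a finite set of times. -/
def Adj (T : Finset I) (s t : I) : Prop := s ∈ T ∧ t ∈ T ∧ s < t ∧ ∀ u ∈ T, u ≤ s ∨ t ≤ u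

/-- Joining the polylines between consecutive times. -/
theorem exists_join (c : I → Pt) (hc : Function.Injective c) (S : Set Pt) (T : Finset I)
    (L : I → I → List Pt) (h0 : ∀ s t, Adj T s t → (L s t).head? = some (c s))
    (h1 : ∀ s t, Adj T s t → (L s t).getLast? = some (c t))
    (hs : ∀ s t, Adj T s t → SimpleL (L s t))
    (hS : ∀ s t, Adj T s t → ∀ p ∈ Car (L s t), p ∈ S → p = c s ∨ p = c t)
    (hd : ∀ s t s' t', Adj T s t → Adj T s' t' → (s, t) ≠ (s', t') →
      ∀ p ∈ Car (L s t), p ∈ Car (L s' t') → p ∈ S) (n : ℕ) :
    ∀ a b : I, a ∈ T → b ∈ T → a < b → (T.filter fun u => a < u ∧ u < b).card ≤ n →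
      ∃ l : List Pt, l.head? = some (c a) ∧ l.getLast? = some (c b) ∧ SimpleL l ∧
        (∀ p ∈ Car l, ∃ s t, Adj T s t ∧ a ≤ s ∧ t ≤ b ∧ p ∈ Car (L s t)) ∧
        (∀ u ∈ T, a ≤ u → u ≤ b → c u ∈ l) := by
  induction n with
  | zero =>
    intro a b ha hb hab hcard
    have hadj : Adj T a b := by
      refine ⟨ha, hb, hab, fun u hu => ?_⟩
      by_contra hcon
      push Not at hcon
      have : u ∈ T.filter fun u => a < u ∧ u < b := by simp [hu, hcon.1, hcon.2]
      have := Finset.card_pos.2 ⟨u, this⟩
      omega
    refine ⟨L a b, h0 a b hadj, h1 a b hadj, hs a b hadj, fun p hp => ⟨a, b, hadj, le_refl _,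
      le_refl _, hp⟩, ?_⟩
    intro u hu hau hub
    rcases hadj.2.2.2 u hu with h | h
    · rw [le_antisymm h hau]
      exact List.mem_of_mem_head? (h0 a b hadj)
    · rw [le_antisymm hub h]
      exact List.mem_of_getLast? (h1 a b hadj)
  | succ n ih =>
    intro a b ha hb hab hcard
    by_cases hadj : Adj T a b
    · refine ⟨L a b, h0 a b hadj, h1 a b hadj, hs a b hadj, fun p hp => ⟨a, b, hadj, le_refl _,
        le_refl _, hp⟩, ?_⟩
      intro u hu hau hub
      rcases hadj.2.2.2 u hu with h | h
      · rw [le_antisymm h hau]
        exact List.mem_of_mem_head? (h0 a b hadj)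
      · rw [le_antisymm hub h]
        exact List.mem_of_getLast? (h1 a b hadj)
    · have : ∃ u ∈ T, a < u ∧ u < b := by
        by_contra hcon
        push Not at hcon
        apply hadj
        refine ⟨ha, hb, hab, fun u hu => ?_⟩
        by_cases h : a < u
        · exact Or.inr (hcon u hu h)
        · exact Or.inl (not_lt.1 h)
      obtain ⟨u, hu, hau, hub⟩ := this
      have humem : u ∈ T.filter fun u => a < u ∧ u < b := by simp [hu, hau, hub]
      have c1 : (T.filter fun v => a < v ∧ v < u).card ≤ n := by
        have hss : (T.filter fun v => a < v ∧ v < u) ⊂ (T.filter fun v => a < v ∧ v < b) := by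
          rw [Finset.ssubset_iff_of_subset]
          · exact ⟨u, humem, by simp⟩
          · intro v hv
            simp only [Finset.mem_filter] at hv ⊢
            exact ⟨hv.1, hv.2.1, hv.2.2.trans hub⟩
        have := Finset.card_lt_card hss
        omega
      have c2 : (T.filter fun v => u < v ∧ v < b).card ≤ n := by
        have hss : (T.filter fun v => u < v ∧ v < b) ⊂ (T.filter fun v => a < v ∧ v < b) := by
          rw [Finset.ssubset_iff_of_subset]
          · exact ⟨u, humem, by simp⟩
          · intro v hv
            simp only [Finset.mem_filter] at hv ⊢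
            exact ⟨hv.1, hau.trans hv.2.1, hv.2.2⟩
        have := Finset.card_lt_card hss
        omega
      obtain ⟨l₁, p1, p2, p3, p4, p5⟩ := ih a u ha hu hau c1
      obtain ⟨l₂, q1, q2, q3, q4, q5⟩ := ih u b hu hb hub c2
      -- write `l₁ = a' ++ [c u]` and `l₂ = c u :: b'`
      obtain ⟨a', rfl⟩ : ∃ a', l₁ = a' ++ [c u] := by
        have := List.getLast?_eq_some_iff.1 p2
        exact this
      obtain ⟨b', rfl⟩ : ∃ b', l₂ = c u :: b' := by
        exact List.head?_eq_some_iff.1 q1
      have hmeet : ∀ p ∈ Car (a' ++ [c u]), p ∈ Car (c u :: b') → p = c u := by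
        intro p hp hq
        obtain ⟨s, t, hst, has, htu, hps⟩ := p4 p hp
        obtain ⟨s', t', hst', hus, htb, hps'⟩ := q4 p hq
        have hlt : s < s' := lt_of_lt_of_le hst.2.2.1 (htu.trans hus)
        have hpS : p ∈ S := by
          apply hd s t s' t' hst hst' _ p hps hps'
          intro h
          rw [Prod.mk.injEq] at h
          exact hlt.ne h.1
        rcases hS s t hst p hps hpS with h | h
        · rcases hS s' t' hst' p hps' hpS with h' | h'
          · exact absurd (hc (h.symm.trans h')) hlt.ne
          · exact absurd (hc (h.symm.trans h')) (hlt.trans hst'.2.2.1).ne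
        · rcases hS s' t' hst' p hps' hpS with h' | h'
          · have : t = s' := hc (h.symm.trans h')
            have : t = u := le_antisymm htu (by rw [this]; exact hus)
            rw [h, this]
          · have : t = t' := hc (h.symm.trans h')
            exact absurd this (lt_of_le_of_lt (htu.trans hus) hst'.2.2.1).ne
      refine ⟨a' ++ c u :: b', ?_, ?_, p3.concat q3 hmeet, ?_, ?_⟩
      · cases a' with
        | nil =>
          exfalso
          simp only [List.nil_append, List.head?_cons, Option.some.injEq] at p1
          exact hau.ne (hc p1).symm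
        | cons x a' => simpa using p1
      · rw [List.getLast?_append, q2]; rfl
      · intro p hp
        rw [Car_append, mem_union] at hp
        rcases hp with hp | hp
        · obtain ⟨s, t, hst, has, htu, hps⟩ := p4 p hp
          exact ⟨s, t, hst, has, htu.trans hub.le, hps⟩
        · obtain ⟨s, t, hst, has, htu, hps⟩ := q4 p hp
          exact ⟨s, t, hst, hau.le.trans has, htu, hps⟩
      · intro v hv hav hvb
        rcases le_total v u with h | h
        · have := p5 v hv hav h
          rw [List.mem_append] at this ⊢
          rcases this with h' | h'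
          · exact Or.inl h'
          · right
            simp only [List.mem_cons, List.not_mem_nil, or_false] at h'
            rw [h']; simp
        · have := q5 v hv h hvb
          rw [List.mem_append]
          exact Or.inr this

end Pool.Agent.MP_a0a8d4_co
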