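import Pool.Agent.MP_a0a8d4_co.Cells

/-!
Module L1 of MP_a0a8d4_co: continuity in `L^1` of the crossing relation in its first variable.
-/

set_option autoImplicit false

namespace Pool.Agent.MP_a0a8d4_co
open MeasureTheory Set Filter
open scoped unitInterval Topology
namespace L1Aux

theorem mp_comp {m n : ℕ} (e : Fin m → Fin n) (he : Function.Injective e) :
    MeasurePreserving (fun (v : Fin n → I) (i : Fin m) => v (e i)) volume volume := by
  refine ⟨by fun_prop, ?_⟩
  have h1 : ProbabilityTheory.iIndepFun (fun (i : Fin n) (ω : Fin n → I) => ω i)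
      (volume : Measure (Fin n → I)) :=
    ProbabilityTheory.iIndepFun_pi (μ := fun _ : Fin n => (volume : Measure I))
      (X := fun _ x => x) (fun i => aemeasurable_id)
  have h2 := h1.precomp he
  have h3 := h2.map_fun_eq_pi_map (fun i => (measurable_pi_apply (e i)).aemeasurable)
  rw [h3, volume_pi]
  congr 1
  funext i
  exact (measurePreserving_eval (fun _ : Fin n => (volume : Measure I)) (e i)).map_eq

theorem lint_cell (r c : ℕ) (hc : c < 2 ^ r) (a : ENNReal) :
    ∫⁻ y : I, (if cell r y = c then a else 0) = ENNReal.ofReal ((1 / 2) ^ r) * a := by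
  have h : (fun y : I => if cell r y = c then a else 0) = {y : I | cell r y = c}.indicator (fun _ => a) := by
    funext y
    by_cases h : cell r y = c
    · rw [if_pos h, indicator_of_mem (show y ∈ {y : I | cell r y = c} from h)]
    · rw [if_neg h, indicator_of_notMem (show y ∉ {y : I | cell r y = c} from h)]
  rw [h, lintegral_indicator_const (measurableSet_cell r c), vol_cell' r c hc, mul_comm]

/-- integrating out a coordinate that is in the same cell as another one -/
theorem lint_same {n : ℕ} (r : ℕ) (i : Fin (n + 1)) (j : Fin n) (f : (Fin n → I) → ENNReal)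
    (hf : AEMeasurable f volume) :
    ∫⁻ v : Fin (n + 1) → I, (if cell r (v i) = cell r (v (i.succAbove j)) then
      f (fun k => v (i.succAbove k)) else 0) = ENNReal.ofReal ((1 / 2) ^ r) * ∫⁻ w, f w := by
  have hmp := volume_preserving_piFinSuccAbove (fun _ : Fin (n + 1) => I) i
  have h1 : ∫⁻ v : Fin (n + 1) → I, (if cell r (v i) = cell r (v (i.succAbove j)) then
      f (fun k => v (i.succAbove k)) else 0) =
      ∫⁻ p : I × (Fin n → I), (if cell r p.1 = cell r (p.2 j) then f p.2 else 0) := by
    rw [← hmp.lintegral_comp_emb (MeasurableEquiv.measurableEmbedding _)]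
    rfl
  rw [h1]
  have hmeas : MeasurableSet {p : I × (Fin n → I) | cell r p.1 = cell r (p.2 j)} :=
    measurableSet_eq_fun ((measurable_cell r).comp measurable_fst)
      ((measurable_cell_coord r j).comp measurable_snd)
  have hae : AEMeasurable (fun p : I × (Fin n → I) => if cell r p.1 = cell r (p.2 j) then f p.2 else 0)
      (volume.prod volume) := by
    have h2 : AEMeasurable (fun p : I × (Fin n → I) => f p.2) (volume.prod volume) :=
      hf.comp_quasiMeasurePreserving Measure.quasiMeasurePreserving_snd
    have h3 := h2.indicator hmeas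
    refine h3.congr (Filter.Eventually.of_forall fun p => ?_)
    simp only [indicator, mem_ofPred_eq]
  have h4 : (volume : Measure (I × (Fin n → I))) = volume.prod volume := rfl
  rw [h4, lintegral_prod_symm _ hae, ← lintegral_const_mul'' _ hf]
  apply lintegral_congr
  intro w
  exact lint_cell r (cell r (w j)) (cell_lt r _) (f w)

theorem ae_ite {n : ℕ} {i j : Fin n} (r : ℕ) {f : (Fin n → I) → ENNReal}
    (hf : AEMeasurable f volume) :
    AEMeasurable (fun v => if cell r (v i) = cell r (v j) then f v else 0) volume := by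
  have h3 := hf.indicator (measurableSet_same r i j)
  refine h3.congr (Filter.Eventually.of_forall fun p => ?_)
  by_cases h : cell r (p i) = cell r (p j)
  · simp only [if_pos h]
    rw [indicator_of_mem (show p ∈ {v : Fin n → I | cell r (v i) = cell r (v j)} from h)]
  · simp only [if_neg h]
    rw [indicator_of_notMem (show p ∉ {v : Fin n → I | cell r (v i) = cell r (v j)} from h)]

end L1Aux

open L1Aux in
theorem l1_cont (P : I → I → I → I → Prop) (hm : NullMeasurableSet (PSet P) volume) :
    Tendsto (fun r : ℕ => (2 : ℝ) ^ r * (volume : Measure (Fin 5 → I)).real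
      {v | cell r (v 0) = cell r (v 1) ∧
        ¬ (P (v 0) (v 2) (v 3) (v 4) ↔ P (v 1) (v 2) (v 3) (v 4))}) atTop (𝓝 0) := by
  classical
  set g : (Fin 4 → I) → ℝ := (PSet P).indicator (fun _ => (1 : ℝ)) with hg
  have hgi : Integrable g volume := (integrable_const (1 : ℝ)).indicator₀ hm
  rw [Metric.tendsto_atTop]
  intro ε hε
  set η : ℝ := ε / 4 with hη
  have hη0 : 0 < η := by positivity
  have hηne : ENNReal.ofReal η ≠ 0 := by
    rw [ne_eq, ENNReal.ofReal_eq_zero, not_le]; exact hη0
  obtain ⟨H, hH, -⟩ := hgi.exists_boundedContinuous_lintegral_sub_le hηne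
  have huc := CompactSpace.uniformContinuous_of_continuous H.continuous
  rw [Metric.uniformContinuous_iff] at huc
  obtain ⟨δ, hδ, hδ'⟩ := huc η hη0
  obtain ⟨r₀, hr₀⟩ := exists_pow_lt_of_lt_one hδ (by norm_num : (1 / 2 : ℝ) < 1)
  refine ⟨r₀, fun r hr => ?_⟩
  set A : (Fin 5 → I) → (Fin 4 → I) := fun v k => v ((1 : Fin 5).succAbove k) with hA
  set B : (Fin 5 → I) → (Fin 4 → I) := fun v k => v ((0 : Fin 5).succAbove k) with hB
  set f : (Fin 4 → I) → ENNReal := fun w => ‖g w - H w‖ₑ with hf
  have hfm : AEMeasurable f volume :=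
    (hgi.aestronglyMeasurable.sub H.continuous.aestronglyMeasurable).enorm
  have hAm : MeasurePreserving A volume volume := mp_comp _ Fin.succAbove_right_injective
  have hBm : MeasurePreserving B volume volume := mp_comp _ Fin.succAbove_right_injective
  set E : Set (Fin 5 → I) := {v | cell r (v 0) = cell r (v 1)} with hE
  have hEm : MeasurableSet E := measurableSet_same r 0 1
  set T : Set (Fin 5 → I) := {v | cell r (v 0) = cell r (v 1) ∧
        ¬ (P (v 0) (v 2) (v 3) (v 4) ↔ P (v 1) (v 2) (v 3) (v 4))} with hT
  set F1 : (Fin 5 → I) → ENNReal := fun v =>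
    (if cell r (v 1) = cell r (v ((1 : Fin 5).succAbove 0)) then f (A v) else 0) with hF1
  set F2 : (Fin 5 → I) → ENNReal := fun v =>
    (if cell r (v 0) = cell r (v ((0 : Fin 5).succAbove 0)) then f (B v) else 0) with hF2
  set F3 : (Fin 5 → I) → ENNReal := fun v =>
    (if cell r (v 1) = cell r (v ((1 : Fin 5).succAbove 0)) then ENNReal.ofReal η else 0) with hF3
  set F : (Fin 5 → I) → ENNReal := fun v => F1 v + F2 v + F3 v with hF
  have m1 : AEMeasurable F1 volume :=
    ae_ite r (hfm.comp_quasiMeasurePreserving hAm.quasiMeasurePreserving)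
  have m2 : AEMeasurable F2 volume :=
    ae_ite r (hfm.comp_quasiMeasurePreserving hBm.quasiMeasurePreserving)
  have m3 : AEMeasurable F3 volume := ae_ite r aemeasurable_const
  have m12 : AEMeasurable (fun v => F1 v + F2 v) volume := m1.add m2
  have hFm : AEMeasurable F volume := m12.add m3
  have hint : ∫⁻ v, F v ≤ ENNReal.ofReal ((1 / 2) ^ r) * ENNReal.ofReal (3 * η) := by
    have hsplit : ∫⁻ v, F v = (∫⁻ v, F1 v) + (∫⁻ v, F2 v) + ∫⁻ v, F3 v :=
      (lintegral_add_left' m12 F3).trans
        (congrArg (fun z => z + ∫⁻ v, F3 v) (lintegral_add_left' m1 F2))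
    rw [hsplit]
    have i1 := lint_same r (1 : Fin 5) (0 : Fin 4) f hfm
    have i2 := lint_same r (0 : Fin 5) (0 : Fin 4) f hfm
    have i3 := lint_same r (1 : Fin 5) (0 : Fin 4) (fun _ => ENNReal.ofReal η) aemeasurable_const
    rw [show ∫⁻ v, F1 v = _ from i1, show ∫⁻ v, F2 v = _ from i2, show ∫⁻ v, F3 v = _ from i3,
      ← mul_add, ← mul_add]
    apply mul_le_mul_of_nonneg_left _ (by positivity)
    rw [lintegral_const, measure_univ, mul_one]
    have e3 : ENNReal.ofReal (3 * η) = ENNReal.ofReal η + ENNReal.ofReal η + ENNReal.ofReal η := by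
      rw [← ENNReal.ofReal_add hη0.le hη0.le, ← ENNReal.ofReal_add (by linarith) hη0.le]
      congr 1; ring
    rw [e3]
    gcongr
  have hTle : volume T ≤ ∫⁻ v, F v := by
    have h1 : T ⊆ {v | 1 ≤ F v} := by
      intro v hv
      obtain ⟨hv1, hv2⟩ := hv
      have c1 : cell r (v 1) = cell r (v ((1 : Fin 5).succAbove 0)) := hv1.symm
      have c2 : cell r (v 0) = cell r (v ((0 : Fin 5).succAbove 0)) := hv1
      have hFv : F v = f (A v) + f (B v) + ENNReal.ofReal η := by
        simp only [hF, hF1, hF2, hF3, if_pos c1, if_pos c2]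
      change 1 ≤ F v
      rw [hFv]
      have hdist : dist (A v) (B v) < δ := by
        have : dist (A v) (B v) ≤ (1 / 2) ^ r := by
          rw [dist_pi_le_iff (by positivity)]
          intro k
          fin_cases k
          · have := cell_close hv1
            rw [← Real.dist_eq] at this
            exact this
          · change dist (v 2) (v 2) ≤ _
            simp
          · change dist (v 3) (v 3) ≤ _
            simp
          · change dist (v 4) (v 4) ≤ _
            simp
        calc dist (A v) (B v) ≤ (1 / 2) ^ r := this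
          _ ≤ (1 / 2) ^ r₀ := pow_le_pow_of_le_one (by norm_num) (by norm_num) hr
          _ < δ := hr₀
      have hH1 := hδ' hdist
      rw [Real.dist_eq] at hH1
      have hgg : |g (A v) - g (B v)| = 1 := by
        have e1 : (A v ∈ PSet P) = P (v 0) (v 2) (v 3) (v 4) := rfl
        have e2 : (B v ∈ PSet P) = P (v 1) (v 2) (v 3) (v 4) := rfl
        simp only [hg]
        by_cases p1 : P (v 0) (v 2) (v 3) (v 4) <;> by_cases p2 : P (v 1) (v 2) (v 3) (v 4)
        · exact absurd (iff_of_true p1 p2) hv2
        · rw [indicator_of_mem (by rw [e1]; exact p1), indicator_of_notMem (by rw [e2]; exact p2)]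
          simp
        · rw [indicator_of_notMem (by rw [e1]; exact p1), indicator_of_mem (by rw [e2]; exact p2)]
          simp
        · exact absurd (iff_of_false p1 p2) hv2
      have htri : (1 : ℝ) ≤ |g (A v) - H (A v)| + |g (B v) - H (B v)| + η := by
        rw [← hgg]
        have e : g (A v) - g (B v) = (g (A v) - H (A v)) - (g (B v) - H (B v)) + (H (A v) - H (B v)) := by
          ring
        rw [e]
        have t1 := abs_add_le ((g (A v) - H (A v)) - (g (B v) - H (B v))) (H (A v) - H (B v))
        have t2 := abs_sub (g (A v) - H (A v)) (g (B v) - H (B v))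
        linarith
      have e1 : f (A v) = ENNReal.ofReal |g (A v) - H (A v)| := by
        simp only [hf]; rw [Real.enorm_eq_ofReal_abs]
      have e2 : f (B v) = ENNReal.ofReal |g (B v) - H (B v)| := by
        simp only [hf]; rw [Real.enorm_eq_ofReal_abs]
      rw [e1, e2, ← ENNReal.ofReal_add (abs_nonneg _) (abs_nonneg _),
        ← ENNReal.ofReal_add (by positivity) hη0.le, ← ENNReal.ofReal_one]
      exact ENNReal.ofReal_le_ofReal htri
    refine (measure_mono h1).trans ?_
    have := mul_meas_ge_le_lintegral₀ hFm 1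
    rwa [one_mul] at this
  have hTr : (volume : Measure (Fin 5 → I)).real T ≤ (1 / 2) ^ r * (3 * η) := by
    rw [measureReal_def]
    apply ENNReal.toReal_le_of_le_ofReal (by positivity)
    rw [ENNReal.ofReal_mul (by positivity)]
    exact hTle.trans hint
  have hp : (2 : ℝ) ^ r * (1 / 2) ^ r = 1 := by rw [← mul_pow]; norm_num
  rw [Real.dist_eq, sub_zero, abs_of_nonneg (by positivity)]
  calc (2 : ℝ) ^ r * (volume : Measure (Fin 5 → I)).real T ≤ 2 ^ r * ((1 / 2) ^ r * (3 * η)) :=
        mul_le_mul_of_nonneg_left hTr (by positivity)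
    _ = 3 * η := by rw [← mul_assoc, hp, one_mul]
    _ < ε := by rw [hη]; linarith

end Pool.Agent.MP_a0a8d4_co
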