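import Pool.Agent.MP_a0a8d4_co.GraphonW

set_option autoImplicit false

/-!
# MP_a0a8d4_co: averages of `W` over products of cells
-/

namespace Pool.Agent.MP_a0a8d4_co

open MeasureTheory Set
open scoped unitInterval

namespace WkAvg

theorem ind_eq_indicator {α : Type} (p : α → Prop) :
    (fun x => ind (p x)) = {x | p x}.indicator (fun _ => (1 : ℝ)) := by
  funext x
  by_cases h : p x
  · have h' : x ∈ {x | p x} := h
    rw [indicator_of_mem h', ind_true h]
  · have h' : x ∉ {x | p x} := h
    rw [indicator_of_notMem h', ind_false h]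

theorem ind_and (p q : Prop) : ind (p ∧ q) = ind p * ind q := by
  by_cases hp : p <;> by_cases hq : q <;> simp [ind, hp, hq]

theorem integral_ind {α : Type} [MeasurableSpace α] {μ : Measure α} (p : α → Prop)
    (hp : MeasurableSet {x | p x}) : ∫ x, ind (p x) ∂μ = μ.real {x | p x} := by
  rw [ind_eq_indicator]
  exact integral_indicator_one hp

theorem meas_cell (k j : ℕ) : MeasurableSet {x : I | cell k x = j} :=
  measurable_cell k (MeasurableSet.singleton j)

theorem integral_cell (r j : ℕ) (hj : j < 2 ^ r) : ∫ x : I, ind (cell r x = j) = (1 / 2) ^ r := by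
  rw [integral_ind _ (meas_cell r j), vol_cell r j hj]

theorem integral_cell' (r : ℕ) (x : I) : ∫ y : I, ind (cell r x = cell r y) = (1 / 2) ^ r := by
  rw [← integral_cell r (cell r x) (cell_lt r x)]
  apply integral_congr_ae
  refine Filter.Eventually.of_forall fun y => ?_
  exact ind_congr eq_comm

theorem integral_cells (r i j : ℕ) (hi : i < 2 ^ r) (hj : j < 2 ^ r) :
    ∫ p : I × I, ind (cell r p.1 = i) * ind (cell r p.2 = j) = ((1 / 2) ^ r) ^ 2 := by
  rw [Measure.volume_eq_prod, integral_prod_mul (fun x : I => ind (cell r x = i))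
    (fun y : I => ind (cell r y = j)), integral_cell r i hi, integral_cell r j hj]
  ring

theorem measurable_ind {α : Type} [MeasurableSpace α] (p : α → Prop)
    (hp : MeasurableSet {x | p x}) : Measurable fun x => ind (p x) := by
  rw [ind_eq_indicator]
  exact measurable_const.indicator hp

theorem integrable_of {f : I × I → ℝ} (hf : Measurable f) (C : ℝ)
    (h0 : ∀ v, 0 ≤ f v) (h1 : ∀ v, f v ≤ C) : Integrable f volume :=
  Integrable.of_bound hf.aestronglyMeasurable C (Filter.Eventually.of_forall fun v => by
    rw [Real.norm_eq_abs, abs_of_nonneg (h0 v)]; exact h1 v)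

theorem meas1 (k a : ℕ) : MeasurableSet {p : I × I | cell k p.1 = a} :=
  measurable_fst (meas_cell k a)

theorem meas2 (k a : ℕ) : MeasurableSet {p : I × I | cell k p.2 = a} :=
  measurable_snd (meas_cell k a)

theorem meas12 (l : ℕ) : MeasurableSet {p : I × I | cell l p.1 = cell l p.2} :=
  measurableSet_eq_fun ((measurable_cell _).comp measurable_fst)
    ((measurable_cell _).comp measurable_snd)

/-- The volume of the part of a product of two cells on which the cells of another level agree. -/
theorem integral_three (k l a b : ℕ) (ha : a < 2 ^ k) (hb : b < 2 ^ k) (x y : I)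
    (hx : cell k x = a) (hy : cell k y = b) :
    ∫ p : I × I, ind (cell k p.1 = a ∧ cell k p.2 = b) * ind (cell l p.1 = cell l p.2) =
      ((1 / 2) ^ k) ^ 2 * (if l ≤ k then ind (cell l x = cell l y) else
        ind (cell k x = cell k y) * (1 / 2) ^ (l - k)) := by
  split_ifs with hlk
  · have h1 : (fun p : I × I => ind (cell k p.1 = a ∧ cell k p.2 = b) *
        ind (cell l p.1 = cell l p.2)) = fun p : I × I => (ind (cell k p.1 = a) *
        ind (cell k p.2 = b)) * ind (cell l x = cell l y) := by
      funext p
      rw [ind_and]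
      by_cases h1 : cell k p.1 = a
      · by_cases h2 : cell k p.2 = b
        · have e1 : cell l p.1 = cell l x := cell_mono hlk (by rw [h1, hx])
          have e2 : cell l p.2 = cell l y := cell_mono hlk (by rw [h2, hy])
          rw [e1, e2]
        · rw [ind_false h2]; ring
      · rw [ind_false h1]; ring
    rw [h1, integral_mul_const, integral_cells k a b ha hb]
  · push Not at hlk
    by_cases hab : a = b
    · subst hab
      have hxy : cell k x = cell k y := by rw [hx, hy]
      rw [ind_true hxy, one_mul]
      have h1 : (fun p : I × I => ind (cell k p.1 = a ∧ cell k p.2 = a) *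
          ind (cell l p.1 = cell l p.2)) = fun p : I × I => ind (cell k p.1 = a) *
          ind (cell l p.1 = cell l p.2) := by
        funext p
        by_cases h2 : cell l p.1 = cell l p.2
        · have e1 : cell k p.1 = cell k p.2 := cell_mono hlk.le h2
          congr 1
          apply ind_congr
          rw [e1]
          exact and_self_iff
        · rw [ind_false h2]; ring
      rw [h1]
      have hint : Integrable (fun p : I × I => ind (cell k p.1 = a) *
          ind (cell l p.1 = cell l p.2)) (volume : Measure (I × I)) :=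
        integrable_of ((measurable_ind _ (meas1 k a)).mul (measurable_ind _ (meas12 l))) 1
          (fun p => mul_nonneg (ind_nonneg _) (ind_nonneg _))
          (fun p => mul_le_one₀ (ind_le_one _) (ind_nonneg _) (ind_le_one _))
      rw [Measure.volume_eq_prod] at hint ⊢
      rw [integral_prod _ hint]
      have h2 : ∀ u : I, ∫ v : I, ind (cell k u = a) * ind (cell l u = cell l v) =
          ind (cell k u = a) * (1 / 2) ^ l := by
        intro u
        rw [integral_const_mul, integral_cell' l u]
      simp only [h2]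
      rw [integral_mul_const, integral_cell k a ha]
      have h3 : ((1 : ℝ) / 2) ^ l = (1 / 2) ^ (l - k) * (1 / 2) ^ k := by
        rw [← pow_add]; congr 1; omega
      rw [h3]
      ring
    · have hxy : ¬ cell k x = cell k y := by rw [hx, hy]; exact hab
      rw [ind_false hxy, zero_mul, mul_zero]
      have h1 : (fun p : I × I => ind (cell k p.1 = a ∧ cell k p.2 = b) *
          ind (cell l p.1 = cell l p.2)) = fun _ => (0 : ℝ) := by
        funext p
        by_cases h2 : cell l p.1 = cell l p.2
        · have e1 : cell k p.1 = cell k p.2 := cell_mono hlk.le h2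
          have h3 : ¬ (cell k p.1 = a ∧ cell k p.2 = b) := by
            rintro ⟨h3, h4⟩
            exact hab (by rw [← h3, ← h4, e1])
          rw [ind_false h3, zero_mul]
        · rw [ind_false h2, mul_zero]
      rw [h1]
      simp

theorem uw_pos (j : ℕ) : 0 < uw j := by unfold uw; positivity

theorem summable_uw : Summable fun j : ℕ => uw (j + 1) := by
  have h : (fun j : ℕ => uw (j + 1)) = fun j : ℕ => uw 1 * (1 / 2) ^ j := by
    funext j
    unfold uw
    rw [show j + 1 = 1 + j by ring, pow_add]
    ring
  rw [h]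
  exact (summable_geometric_of_lt_one (by norm_num) (by norm_num)).mul_left _

end WkAvg

open WkAvg in
/-- `Wk k` is the average of `W` over products of cells of level `k`. -/
theorem Wk_avg (k a b : ℕ) (ha : a < 2 ^ k) (hb : b < 2 ^ k) (x y : I) (hx : cell k x = a)
    (hy : cell k y = b) :
    ∫ p : I × I, ind (cell k p.1 = a ∧ cell k p.2 = b) * W p.1 p.2 =
      ((1 / 2) ^ k) ^ 2 * Wk k x y := by
  have hm1 : Measurable fun p : I × I => ind (cell k p.1 = a ∧ cell k p.2 = b) :=
    measurable_ind _ ((meas1 k a).inter (meas2 k b))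
  have hi1 : Integrable (fun p : I × I => ind (cell k p.1 = a ∧ cell k p.2 = b)) volume :=
    integrable_of hm1 1 (fun p => ind_nonneg _) (fun p => ind_le_one _)
  let F : ℕ → I × I → ℝ := fun j p => uw (j + 1) * (ind (cell k p.1 = a ∧ cell k p.2 = b) *
    ind (cell (lev (j + 1)) p.1 = cell (lev (j + 1)) p.2))
  have hF0 : ∀ j p, 0 ≤ F j p := fun j p =>
    mul_nonneg (uw_pos _).le (mul_nonneg (ind_nonneg _) (ind_nonneg _))
  have hF1 : ∀ j p, F j p ≤ uw (j + 1) := fun j p => mul_le_of_le_one_right (uw_pos _).le
    (mul_le_one₀ (ind_le_one _) (ind_nonneg _) (ind_le_one _))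
  have hFi : ∀ j, Integrable (F j) volume := fun j =>
    integrable_of ((hm1.mul (measurable_ind _ (meas12 _))).const_mul _) _ (hF0 j) (hF1 j)
  have hFI : ∀ j, ∫ p, F j p = ((1 / 2) ^ k) ^ 2 * (if lev (j + 1) ≤ k then
      (if cell (lev (j + 1)) x = cell (lev (j + 1)) y then uw (j + 1) else 0)
      else (if cell k x = cell k y then uw (j + 1) * (1 / 2) ^ (lev (j + 1) - k) else 0)) := by
    intro j
    simp only [F]
    rw [integral_const_mul, integral_three k (lev (j + 1)) a b ha hb x y hx hy]
    unfold ind
    split_ifs <;> ring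
  have hsum : ∀ p : I × I, Summable fun j => F j p := fun p =>
    Summable.of_nonneg_of_le (fun j => hF0 j p) (fun j => hF1 j p) summable_uw
  have hW : ∀ p : I × I, ind (cell k p.1 = a ∧ cell k p.2 = b) * W p.1 p.2 =
      ind (cell k p.1 = a ∧ cell k p.2 = b) - ∑' j, F j p := by
    intro p
    unfold W
    rw [mul_sub, mul_one, ← tsum_mul_left]
    congr 1
    apply tsum_congr
    intro j
    simp only [F]
    have : (if cell (lev (j + 1)) p.1 = cell (lev (j + 1)) p.2 then uw (j + 1) else 0) =
        uw (j + 1) * ind (cell (lev (j + 1)) p.1 = cell (lev (j + 1)) p.2) := by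
      unfold ind
      split_ifs <;> ring
    rw [this]
    ring
  have hnorm : Summable fun j => ∫ p, ‖F j p‖ := by
    refine Summable.of_nonneg_of_le (fun j => integral_nonneg fun p => norm_nonneg _) (fun j => ?_)
      summable_uw
    have h1 : ∫ p, ‖F j p‖ ≤ ∫ _ : I × I, uw (j + 1) := by
      refine integral_mono (hFi j).norm (integrable_const _) (fun p => ?_)
      simp only
      rw [Real.norm_eq_abs, abs_of_nonneg (hF0 j p)]
      exact hF1 j p
    simpa using h1
  have hts : Integrable (fun p => ∑' j, F j p) volume := by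
    have h1 : (fun p : I × I => ∑' j, F j p) = fun p : I × I =>
        ind (cell k p.1 = a ∧ cell k p.2 = b) -
          ind (cell k p.1 = a ∧ cell k p.2 = b) * W p.1 p.2 := by
      funext p
      rw [hW p]
      ring
    rw [h1]
    refine hi1.sub (integrable_of (hm1.mul measurable_W) 1 (fun p => ?_) (fun p => ?_))
    · exact mul_nonneg (ind_nonneg _) (isGraphon_W.nonneg _ _)
    · exact mul_le_one₀ (ind_le_one _) (isGraphon_W.nonneg _ _) (W_le_one _ _)
  simp only [hW]
  rw [integral_sub hi1 hts, ← integral_tsum_of_summable_integral_norm hFi hnorm]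
  have h2 : ∫ p : I × I, ind (cell k p.1 = a ∧ cell k p.2 = b) = ((1 / 2) ^ k) ^ 2 := by
    rw [← integral_cells k a b ha hb]
    apply integral_congr_ae
    exact Filter.Eventually.of_forall fun p => ind_and _ _
  rw [h2]
  unfold Wk
  rw [mul_sub, mul_one, ← tsum_mul_left]
  congr 1
  exact tsum_congr hFI

open WkAvg in
/-- The discrete average: sum over the different subcells. -/
theorem Wd_avg_le {k r : ℕ} (hk : k ≤ r) (a b : ℕ) (ha : a < 2 ^ k) (hb : b < 2 ^ k) (x y : I)
    (hx : cell k x = a) (hy : cell k y = b) :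
    ((1 / 2 : ℝ) ^ r) ^ 2 * ∑ i : Fin (2 ^ r), ∑ j : Fin (2 ^ r),
      ind (i ≠ j ∧ (i : ℕ) / 2 ^ (r - k) = a ∧ (j : ℕ) / 2 ^ (r - k) = b) * Wd r i j ≤
      ((1 / 2) ^ k) ^ 2 * Wk k x y := by
  rw [← Wk_avg k a b ha hb x y hx hy]
  let c : Fin (2 ^ r) → Fin (2 ^ r) → ℝ := fun i j =>
    ind (i ≠ j ∧ (i : ℕ) / 2 ^ (r - k) = a ∧ (j : ℕ) / 2 ^ (r - k) = b) * Wd r i j
  have hcell : ∀ (i j : Fin (2 ^ r)), Integrable
      (fun p : I × I => ind (cell r p.1 = i) * ind (cell r p.2 = j)) volume := fun i j =>
    integrable_of ((measurable_ind _ (meas1 r i)).mul (measurable_ind _ (meas2 r j))) 1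
      (fun p => mul_nonneg (ind_nonneg _) (ind_nonneg _))
      (fun p => mul_le_one₀ (ind_le_one _) (ind_nonneg _) (ind_le_one _))
  have h1 : ((1 / 2 : ℝ) ^ r) ^ 2 * ∑ i : Fin (2 ^ r), ∑ j : Fin (2 ^ r), c i j =
      ∫ p : I × I, ∑ i : Fin (2 ^ r), ∑ j : Fin (2 ^ r),
        c i j * (ind (cell r p.1 = i) * ind (cell r p.2 = j)) := by
    rw [integral_finset_sum _ fun i _ => integrable_finset_sum _ fun j _ => (hcell i j).const_mul _]
    rw [Finset.mul_sum]
    apply Finset.sum_congr rfl
    intro i _
    rw [integral_finset_sum _ fun j _ => (hcell i j).const_mul _, Finset.mul_sum]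
    apply Finset.sum_congr rfl
    intro j _
    rw [integral_const_mul, integral_cells r i j i.2 j.2]
    ring
  change ((1 / 2 : ℝ) ^ r) ^ 2 * ∑ i : Fin (2 ^ r), ∑ j : Fin (2 ^ r), c i j ≤ _
  rw [h1]
  have hm1 : Measurable fun p : I × I => ind (cell k p.1 = a ∧ cell k p.2 = b) :=
    measurable_ind _ ((meas1 k a).inter (meas2 k b))
  refine integral_mono ?_ ?_ ?_
  · exact integrable_finset_sum _ fun i _ => integrable_finset_sum _ fun j _ =>
      (hcell i j).const_mul _
  · exact integrable_of (hm1.mul measurable_W) 1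
      (fun p => mul_nonneg (ind_nonneg _) (isGraphon_W.nonneg _ _))
      (fun p => mul_le_one₀ (ind_le_one _) (isGraphon_W.nonneg _ _) (W_le_one _ _))
  · intro p
    simp only
    have h2 : ∑ i : Fin (2 ^ r), ∑ j : Fin (2 ^ r),
        c i j * (ind (cell r p.1 = i) * ind (cell r p.2 = j)) =
        c (cellF r p.1) (cellF r p.2) := by
      rw [Finset.sum_eq_single (cellF r p.1)]
      · rw [Finset.sum_eq_single (cellF r p.2)]
        · rw [ind_true (by rfl), ind_true (by rfl)]; ring
        · intro j _ hj
          have : ¬ cell r p.2 = (j : ℕ) := fun h => hj (Fin.ext h.symm)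
          rw [ind_false this]; ring
        · intro h; exact absurd (Finset.mem_univ _) h
      · intro i _ hi
        have : ¬ cell r p.1 = (i : ℕ) := fun h => hi (Fin.ext h.symm)
        apply Finset.sum_eq_zero
        intro j _
        rw [ind_false this]; ring
      · intro h; exact absurd (Finset.mem_univ _) h
    rw [h2]
    simp only [c]
    by_cases h3 : cellF r p.1 ≠ cellF r p.2 ∧ ((cellF r p.1 : Fin (2 ^ r)) : ℕ) / 2 ^ (r - k) = a ∧
        ((cellF r p.2 : Fin (2 ^ r)) : ℕ) / 2 ^ (r - k) = b
    · obtain ⟨h4, h5, h6⟩ := h3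
      have e1 : cell k p.1 = a := by rw [← cell_div hk]; exact h5
      have e2 : cell k p.2 = b := by rw [← cell_div hk]; exact h6
      rw [ind_true ⟨h4, h5, h6⟩, ind_true ⟨e1, e2⟩]
      have h7 : cell r p.1 ≠ cell r p.2 := fun h => h4 (Fin.ext h)
      rw [W_eq_Wd r _ _ h7]
      exact le_rfl
    · rw [ind_false h3, zero_mul]
      exact mul_nonneg (ind_nonneg _) (isGraphon_W.nonneg _ _)

end Pool.Agent.MP_a0a8d4_co
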