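import Pool.Agent.MP_a0a8d4_co.GraphonW
import Pool.Agent.MP_a0a8d4_co.Sampling
import Pool.Agent.MP_a0a8d4_co.Chain
import Pool.Agent.MP_a0a8d4_co.WkAvg

set_option autoImplicit false

/-!
# MP_a0a8d4_co: the average of the main inequality over independent samples
-/

namespace Pool.Agent.MP_a0a8d4_co

open MeasureTheory Set
open scoped unitInterval

namespace OptBase

/-- The error term of the main inequality. -/
noncomputable def small (r : ℕ) : ℝ := (1 / 2) ^ r * (1 + 1 / 64) + 8 * ((1 / 2) ^ r) ^ 2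

theorem nodup_of_inj {A : Type} (e : Fin 4 → A) (he : Function.Injective e) :
    [e 0, e 1, e 2, e 3].Nodup := by
  have h : [e 0, e 1, e 2, e 3] = List.ofFn e := by
    simp [List.ofFn_succ, Fin.succ]
  rw [h, List.nodup_ofFn]
  exact he

theorem Wd_nonneg (r a b : ℕ) : 0 ≤ Wd r a b := le_trans (by norm_num) (Wd_ge r a b)

theorem integral_ind₀ {α : Type} [MeasurableSpace α] {μ : Measure α} (p : α → Prop)
    (hp : NullMeasurableSet {x | p x} μ) : ∫ x, ind (p x) ∂μ = μ.real {x | p x} := by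
  rw [WkAvg.ind_eq_indicator, integral_indicator₀ hp, setIntegral_const, smul_eq_mul, mul_one]

theorem aesm_ind₀ {α : Type} [MeasurableSpace α] {μ : Measure α} (p : α → Prop)
    (hp : NullMeasurableSet {x | p x} μ) : AEStronglyMeasurable (fun x => ind (p x)) μ := by
  rw [WkAvg.ind_eq_indicator]
  exact aestronglyMeasurable_const.indicator₀ hp

theorem integrable_ind₀ {α : Type} [MeasurableSpace α] {μ : Measure α} [IsFiniteMeasure μ]
    (p : α → Prop) (hp : NullMeasurableSet {x | p x} μ) : Integrable (fun x => ind (p x)) μ :=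
  Integrable.of_bound (aesm_ind₀ p hp) 1 (Filter.Eventually.of_forall fun v => by
    rw [Real.norm_eq_abs, abs_of_nonneg (ind_nonneg _)]; exact ind_le_one _)

/-- The average of the main inequality. -/
theorem key (P : I → I → I → I → Prop) (hm : NullMeasurableSet (PSet P) volume)
    (h : OPT P) (k r : ℕ) (hk : k ≤ r) :
    En P ≤ ((1 / 2 : ℝ) ^ r) ^ 4 * ∑ e : Fin 4 → Fin (2 ^ r), ind (Function.Injective e) *
      (Wd r (e 0) (e 1) * Wd r (e 2) (e 3) * (((2 : ℝ) ^ k) ^ 4 *
        (volume : Measure (Fin 4 → I)).real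
          {v | v ∈ PSet P ∧ ∀ i, cell k (v i) = (e i : ℕ) / 2 ^ (r - k)})) + small r := by
  obtain ⟨μ, hμ, hs⟩ := sampling k r hk
  let A : (Fin (2 ^ r) → I) → ℝ := fun ξ => ((1 / 2 : ℝ) ^ r) ^ 4 *
    ∑ e : Fin 4 → Fin (2 ^ r), ind (Function.Injective e) *
      (Wd r (e 0) (e 1) * Wd r (e 2) (e 3) *
        ind (P (ξ (e 0)) (ξ (e 1)) (ξ (e 2)) (ξ (e 3))))
  have hA : ∀ ξ, En P ≤ A ξ + small r := by
    intro ξ
    obtain ⟨cr, h1, _, _, h4⟩ := h r ξ
    have h5 : EnD r cr ≤ A ξ := by
      unfold EnD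
      simp only [A]
      refine mul_le_mul_of_nonneg_left ?_ (by positivity)
      refine Finset.sum_le_sum fun e _ => ?_
      by_cases he : Function.Injective e
      · rw [ind_true he, one_mul, one_mul]
        refine mul_le_mul_of_nonneg_left ?_ (mul_nonneg (Wd_nonneg _ _ _) (Wd_nonneg _ _ _))
        exact ind_mono (h1 _ _ _ _ (nodup_of_inj e he))
      · rw [ind_false he, zero_mul, zero_mul]
    unfold small
    linarith
  have hint : ∀ e : Fin 4 → Fin (2 ^ r), Integrable (fun ξ => ind (Function.Injective e) *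
      (Wd r (e 0) (e 1) * Wd r (e 2) (e 3) *
        ind (P (ξ (e 0)) (ξ (e 1)) (ξ (e 2)) (ξ (e 3))))) μ := by
    intro e
    by_cases he : Function.Injective e
    · have := (hs 4 e he (PSet P) hm).1
      exact ((integrable_ind₀ (fun ξ : Fin (2 ^ r) → I => P (ξ (e 0)) (ξ (e 1)) (ξ (e 2)) (ξ (e 3))) this).const_mul
        _).const_mul _
    · rw [ind_false he]
      simp
  have hAI : Integrable A μ := (integrable_finsetSum _ fun e _ => hint e).const_mul _
  have h6 : En P ≤ ∫ ξ, (A ξ + small r) ∂μ := by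
    have h7 : ∫ _ : Fin (2 ^ r) → I, En P ∂μ = En P := by simp
    rw [← h7]
    exact integral_mono (integrable_const _) (hAI.add (integrable_const _)) hA
  have h8 : ∫ ξ, (A ξ + small r) ∂μ = ∫ ξ, A ξ ∂μ + small r := by
    rw [integral_add hAI (integrable_const _)]
    simp
  rw [h8] at h6
  refine h6.trans (le_of_eq ?_)
  congr 1
  simp only [A]
  rw [integral_const_mul, integral_finsetSum _ fun e _ => hint e]
  congr 1
  refine Finset.sum_congr rfl fun e _ => ?_
  by_cases he : Function.Injective e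
  · obtain ⟨h9, h10⟩ := hs 4 e he (PSet P) hm
    rw [integral_const_mul, integral_const_mul]
    congr 2
    rw [← h10]
    exact integral_ind₀ (fun ξ : Fin (2 ^ r) → I => P (ξ (e 0)) (ξ (e 1)) (ξ (e 2)) (ξ (e 3))) h9
  · rw [ind_false he]
    simp

end OptBase

end Pool.Agent.MP_a0a8d4_co
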