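import Pool.Agent.MP_a0a8d4_co.SimplePoly

set_option autoImplicit false

/-!
# MP_a0a8d4_co: plane graphs by polylines (module PP)
-/

namespace Pool.Agent.MP_a0a8d4_co

open MeasureTheory Set Filter
open scoped unitInterval Topology

/-- The point set of a polyline inside `Ω`. -/
theorem PolyIn.car {Ω : Set Pt} {p q : Pt} {l : List Pt} (h : PolyIn Ω p q l) {x : Pt}
    (hx : x ∈ Car (p :: (l ++ [q]))) : x ∈ Ω ∨ x = p ∨ x = q := by
  obtain ⟨e, he, hxe⟩ := hx
  have hl : ∀ a ∈ p :: (l ++ [q]), a ∈ Ω ∨ a = p ∨ a = q := by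
    intro a ha
    simp only [List.mem_cons, List.mem_append, List.not_mem_nil, or_false] at ha
    rcases ha with h' | h' | h'
    · exact Or.inr (Or.inl h')
    · exact Or.inl (h.2.1 a h')
    · exact Or.inr (Or.inr h')
  have hm := segs_mem he
  rcases (insert_endpoints_openSegment ℝ e.1 e.2).symm ▸ hxe with hx | hx | hx
  · rw [hx]; exact hl _ hm.1
  · rw [hx]; exact hl _ hm.2
  · exact Or.inl (h.2.2 e he hx)

theorem planePoly {ι : Type} [Finite ι] (S : Set Pt) (hS : S.Finite) (γ : ι → I → Pt)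
    (hc : ∀ i, Continuous (γ i)) (hinj : ∀ i, Function.Injective (γ i)) (h0 : ∀ i, γ i 0 ∈ S)
    (h1 : ∀ i, γ i 1 ∈ S) (hS' : ∀ i t, γ i t ∈ S → t = 0 ∨ t = 1)
    (hd : ∀ i j, i ≠ j → ∀ s t, γ i s = γ j t → γ i s ∈ S) :
    ∃ l : ι → List Pt, (∀ i, (l i).head? = some (γ i 0)) ∧ (∀ i, (l i).getLast? = some (γ i 1)) ∧
      (∀ i, SimpleL (l i)) ∧ (∀ i, ∀ p ∈ Car (l i), p ∈ S → p = γ i 0 ∨ p = γ i 1) ∧
      (∀ i j, i ≠ j → ∀ p ∈ Car (l i), p ∈ Car (l j) → p ∈ S) := by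
  obtain ⟨Ω, hΩS, hΩ, hl⟩ := thicken' S hS γ hc hinj h0 h1 hS' hd
  have hsp : ∀ i, ∃ l', PolyIn (Ω i) (γ i 0) (γ i 1) l' ∧ SimpleL (γ i 0 :: (l' ++ [γ i 1])) := by
    intro i
    obtain ⟨l, hl⟩ := hl i
    exact simplePoly' (Ω i) (γ i 0) (γ i 1)
      (fun h => zero_ne_one (hinj i h))
      (fun h => Set.disjoint_left.1 (hΩS i) h (h0 i))
      (fun h => Set.disjoint_left.1 (hΩS i) h (h1 i)) l hl
  choose l' hl' hs' using hsp
  refine ⟨fun i => γ i 0 :: (l' i ++ [γ i 1]), ?_, ?_, hs', ?_, ?_⟩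
  · intro i; simp
  · intro i
    simp only [List.getLast?_cons, List.getLast?_append]
    simp
  · intro i p hp hpS
    rcases (hl' i).car hp with h | h | h
    · exact absurd hpS (Set.disjoint_left.1 (hΩS i) h)
    · exact Or.inl h
    · exact Or.inr h
  · intro i j hij p hp hp'
    rcases (hl' i).car hp with h | h | h
    · rcases (hl' j).car hp' with h' | h' | h'
      · exact absurd h' (Set.disjoint_left.1 (hΩ i j hij) h)
      · rw [h']; exact h0 j
      · rw [h']; exact h1 j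
    · rw [h]; exact h0 i
    · rw [h]; exact h1 i

end Pool.Agent.MP_a0a8d4_co
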