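import Pool.Agent.MP_a0a8d4_co.JoinL
import Pool.Agent.MP_a0a8d4_co.DrawBasics
import Pool.Agent.MP_a0a8d4_co.PlanePoly

set_option autoImplicit false

/-!
# MP_a0a8d4_co: from a wild drawing to polylines through the crossing points
-/

namespace Pool.Agent.MP_a0a8d4_co

open MeasureTheory Set Filter
open scoped unitInterval Topology

/-- The affine map of `I` onto `[s,t]`. -/
noncomputable def cvx (s t u : I) : I :=
  ⟨s + u * (t - s), by
    have h1 := s.2; have h2 := t.2; have h3 := u.2
    constructor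
    · have : (s : ℝ) + u * (t - s) = (1 - u) * s + u * t := by ring
      rw [this]
      have : 0 ≤ 1 - (u : ℝ) := by linarith [h3.2]
      exact add_nonneg (mul_nonneg this h1.1) (mul_nonneg h3.1 h2.1)
    · nlinarith [h1.2, h2.2, h3.1, h3.2, mul_nonneg h3.1 (sub_nonneg.2 h2.2),
        mul_nonneg (sub_nonneg.2 h3.2) (sub_nonneg.2 h1.2)]⟩

theorem cvx_val (s t u : I) : (cvx s t u : ℝ) = s + u * (t - s) := rfl

theorem cvx_zero (s t : I) : cvx s t 0 = s := by
  apply Subtype.ext; rw [cvx_val]; simp

theorem cvx_one (s t : I) : cvx s t 1 = t := by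
  apply Subtype.ext; rw [cvx_val]; simp

theorem cvx_continuous (s t : I) : Continuous (cvx s t) := by
  apply Continuous.subtype_mk
  exact continuous_const.add (continuous_subtype_val.mul continuous_const)

theorem cvx_inj {s t : I} (h : s < t) : Function.Injective (cvx s t) := by
  intro u v huv
  have h1 : (cvx s t u : ℝ) = cvx s t v := by rw [huv]
  rw [cvx_val, cvx_val] at h1
  have h2 : (0 : ℝ) < t - s := sub_pos.2 h
  apply Subtype.ext
  have h3 : ((u : ℝ) - v) * (t - s) = 0 := by linarith
  rcases mul_eq_zero.1 h3 with h4 | h4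
  · linarith
  · linarith

theorem cvx_le {s t : I} (h : s < t) (u : I) : s ≤ cvx s t u ∧ cvx s t u ≤ t := by
  have h2 : (0 : ℝ) < t - s := sub_pos.2 h
  have h3 := u.2
  constructor
  · apply Subtype.coe_le_coe.1
    rw [cvx_val]; nlinarith [h3.1]
  · apply Subtype.coe_le_coe.1
    rw [cvx_val]; nlinarith [h3.2]

theorem cvx_eq_left {s t : I} (h : s < t) {u : I} (hu : cvx s t u ≤ s) : u = 0 := by
  apply cvx_inj h
  rw [cvx_zero]
  exact le_antisymm hu (cvx_le h u).1

theorem cvx_eq_right {s t : I} (h : s < t) {u : I} (hu : t ≤ cvx s t u) : u = 1 := by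
  apply cvx_inj h
  rw [cvx_one]
  exact le_antisymm (cvx_le h u).2 hu

/-- Curves of different edges (with sorted end vertices) as polylines through the common points. -/
theorem exists_edge_polys {E : Type} [Finite E] (c : E → I → Pt) (hc : ∀ e, Continuous (c e))
    (hi : ∀ e, Function.Injective (c e)) (S : Set Pt) (hS : S.Finite)
    (h0 : ∀ e, c e 0 ∈ S) (h1 : ∀ e, c e 1 ∈ S)
    (hd : ∀ e f, e ≠ f → ∀ p ∈ range (c e), p ∈ range (c f) → p ∈ S) :
    ∃ l : E → List Pt, (∀ e, (l e).head? = some (c e 0)) ∧ (∀ e, (l e).getLast? = some (c e 1)) ∧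
      (∀ e, SimpleL (l e)) ∧
      (∀ e, ∀ p ∈ Car (l e), p ∈ S → p ∈ range (c e) ∧ p ∈ l e) ∧
      (∀ e f, e ≠ f → ∀ p ∈ Car (l e), p ∈ Car (l f) → p ∈ S) := by
  classical
  have hTfin : ∀ e, {t : I | c e t ∈ S}.Finite := fun e => hS.preimage (hi e).injOn
  let T : E → Finset I := fun e => (hTfin e).toFinset
  have hT : ∀ e t, t ∈ T e ↔ c e t ∈ S := by
    intro e t
    simp [T]
  let ι := {q : E × I × I // Adj (T q.1) q.2.1 q.2.2}
  have hfin : Finite ι := by
    have : Finite {q : E × I × I | Adj (T q.1) q.2.1 q.2.2} := by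
      apply Set.Finite.to_subtype
      have hss : {q : E × I × I | Adj (T q.1) q.2.1 q.2.2} ⊆
          ⋃ e : E, (fun p : I × I => (e, p)) '' ((T e : Set I) ×ˢ (T e : Set I)) := by
        rintro ⟨e, s, t⟩ h
        simp only [mem_iUnion, mem_image, mem_prod]
        exact ⟨e, (s, t), ⟨h.1, h.2.1⟩, rfl⟩
      refine Set.Finite.subset (Set.finite_iUnion fun e => ?_) hss
      exact ((T e).finite_toSet.prod (T e).finite_toSet).image _
    exact this
  let γ : ι → I → Pt := fun q u => c q.1.1 (cvx q.1.2.1 q.1.2.2 u)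
  obtain ⟨l, l0, l1, ls, lS, ld⟩ := planePoly S hS γ
    (fun q => (hc _).comp (cvx_continuous _ _))
    (fun q => (hi _).comp (cvx_inj q.2.2.2.1))
    (fun q => by
      change c q.1.1 (cvx q.1.2.1 q.1.2.2 0) ∈ S
      rw [cvx_zero]; exact (hT _ _).1 q.2.1)
    (fun q => by
      change c q.1.1 (cvx q.1.2.1 q.1.2.2 1) ∈ S
      rw [cvx_one]; exact (hT _ _).1 q.2.2.1)
    (fun q t ht => by
      have h := q.2.2.2.2 _ ((hT _ _).2 ht)
      rcases h with h | h
      · exact Or.inl (cvx_eq_left q.2.2.2.1 h)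
      · exact Or.inr (cvx_eq_right q.2.2.2.1 h))
    (fun q q' hqq' s t hst => by
      by_cases he : q.1.1 = q'.1.1
      · obtain ⟨⟨e, a, b⟩, hq⟩ := q
        obtain ⟨⟨e', a', b'⟩, hq'⟩ := q'
        simp only at he
        subst he
        have hst' : cvx a b s = cvx a' b' t := hi e hst
        simp only at hq hq'
        change c e (cvx a b s) ∈ S
        rcases hq.2.2.2 a' hq'.1 with h | h
        · -- `a' ≤ a`
          rcases hq'.2.2.2 a hq.1 with h' | h'
          · -- `a ≤ a'`
            have haa : a = a' := le_antisymm h' h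
            exfalso
            apply hqq'
            have hbb : b = b' := by
              apply le_antisymm
              · rcases hq.2.2.2 b' hq'.2.1 with h'' | h''
                · exact absurd (h''.trans h') (not_le.2 hq'.2.2.1)
                · exact h''
              · rcases hq'.2.2.2 b hq.2.1 with h'' | h''
                · exact absurd (h''.trans h) (not_le.2 hq.2.2.1)
                · exact h''
            subst haa; subst hbb; rfl
          · -- `b' ≤ a`
            have h1 := (cvx_le hq.2.2.1 s).1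
            have h2 := (cvx_le hq'.2.2.1 t).2
            rw [← hst'] at h2
            have : cvx a b s = a := le_antisymm (h2.trans h') h1
            rw [this]; exact (hT _ _).1 hq.1
        · -- `b ≤ a'`
          have h1 := (cvx_le hq.2.2.1 s).2
          have h2 := (cvx_le hq'.2.2.1 t).1
          rw [← hst'] at h2
          have : cvx a b s = b := le_antisymm h1 (h.trans h2)
          rw [this]; exact (hT _ _).1 hq.2.1
      · exact hd _ _ he _ ⟨_, rfl⟩ ⟨_, hst.symm⟩)
  -- join the pieces
  let L : E → I → I → List Pt := fun e s t =>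
    if h : Adj (T e) s t then l ⟨(e, s, t), h⟩ else []
  have hL : ∀ e s t (h : Adj (T e) s t), L e s t = l ⟨(e, s, t), h⟩ := by
    intro e s t h; simp [L, h]
  have hjoin : ∀ e, ∃ m : List Pt, m.head? = some (c e 0) ∧ m.getLast? = some (c e 1) ∧
      SimpleL m ∧ (∀ p ∈ Car m, ∃ s t, Adj (T e) s t ∧ (0 : I) ≤ s ∧ t ≤ 1 ∧ p ∈ Car (L e s t)) ∧
      (∀ u ∈ T e, (0 : I) ≤ u → u ≤ 1 → c e u ∈ m) := by
    intro e
    apply exists_join (c e) (hi e) S (T e) (L e) _ _ _ _ _ _ 0 1 ((hT e 0).2 (h0 e))
      ((hT e 1).2 (h1 e)) zero_lt_one (le_refl _)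
    · intro s t hst
      rw [hL e s t hst, l0]
      change some (c e (cvx s t 0)) = _
      rw [cvx_zero]
    · intro s t hst
      rw [hL e s t hst, l1]
      change some (c e (cvx s t 1)) = _
      rw [cvx_one]
    · intro s t hst
      rw [hL e s t hst]
      exact ls _
    · intro s t hst p hp hpS
      rw [hL e s t hst] at hp
      have := lS _ p hp hpS
      change p = c e (cvx s t 0) ∨ p = c e (cvx s t 1) at this
      rwa [cvx_zero, cvx_one] at this
    · intro s t s' t' hst hst' hne p hp hp'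
      rw [hL e s t hst] at hp
      rw [hL e s' t' hst'] at hp'
      refine ld _ _ ?_ p hp hp'
      intro h
      apply hne
      have := congrArg Subtype.val h
      simp only [Prod.mk.injEq, true_and] at this
      rw [Prod.mk.injEq]
      exact this
  choose m m0 m1 ms mC mT using hjoin
  have hpoint : ∀ e, ∀ p ∈ Car (m e), p ∈ S → ∃ u ∈ T e, p = c e u := by
    intro e p hp hpS
    obtain ⟨s, t, hst, _, _, hp'⟩ := mC e p hp
    rw [hL e s t hst] at hp'
    have := lS _ p hp' hpS
    change p = c e (cvx s t 0) ∨ p = c e (cvx s t 1) at this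
    rw [cvx_zero, cvx_one] at this
    rcases this with h | h
    · exact ⟨s, hst.1, h⟩
    · exact ⟨t, hst.2.1, h⟩
  refine ⟨m, m0, m1, ms, ?_, ?_⟩
  · intro e p hp hpS
    obtain ⟨u, hu, rfl⟩ := hpoint e p hp hpS
    exact ⟨⟨u, rfl⟩, mT e u hu unitInterval.nonneg' unitInterval.le_one'⟩
  · intro e f hef p hp hp'
    obtain ⟨s, t, hst, _, _, hq⟩ := mC e p hp
    obtain ⟨s', t', hst', _, _, hq'⟩ := mC f p hp'
    rw [hL e s t hst] at hq
    rw [hL f s' t' hst'] at hq'
    refine ld _ _ ?_ p hq hq'
    intro h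
    apply hef
    have := congrArg Subtype.val h
    simp only [Prod.mk.injEq] at this
    exact this.1

theorem exists_semi {V : Type} [Finite V] (D : V → V → I → Pt) (hD : IsSimpleDrawing D)
    (hpos : Function.Injective fun x => D x x 0) :
    ∃ (C : Set Pt) (R : Semi V C), ∀ x y z w, [x, y, z, w].Nodup →
      (Car (R.path x y) ∩ Car (R.path z w)).Nonempty → Meets D x y z w := by
  classical
  let _ : LinearOrder V := linearOrderOfSTO WellOrderingRel
  let pos : V → Pt := fun x => D x x 0
  have hpi : ∀ x y, pos x = pos y → x = y := fun x y h => hpos h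
  have hsub : ∀ x y z w, x ≠ y → z ≠ w → ¬ (x = z ∧ y = w) → ¬ (x = w ∧ y = z) →
      (range (D x y) ∩ range (D z w)).Subsingleton := by
    intro x y z w hxy hzw h1 h2
    apply hD.cross
    intro hr
    rcases hD.ends_eq x y z w (fun h => hxy (hpi x y h)) hr with h | h
    · exact h1 ⟨hpi _ _ h.1, hpi _ _ h.2⟩
    · exact h2 ⟨hpi _ _ h.1, hpi _ _ h.2⟩
  let E := {p : V × V // p.1 < p.2}
  let c : E → I → Pt := fun e => D e.1.1 e.1.2
  have hsubE : ∀ e f : E, e ≠ f → (range (c e) ∩ range (c f)).Subsingleton := by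
    rintro ⟨⟨x, y⟩, hxy⟩ ⟨⟨z, w⟩, hzw⟩ hef
    apply hsub x y z w hxy.ne hzw.ne
    · rintro ⟨rfl, rfl⟩
      exact hef rfl
    · rintro ⟨rfl, rfl⟩
      exact lt_asymm hxy hzw
  let S : Set Pt := range pos ∪ ⋃ q ∈ {q : E × E | q.1 ≠ q.2}, (range (c q.1) ∩ range (c q.2))
  have hSfin : S.Finite := by
    apply (finite_range pos).union
    apply Set.Finite.biUnion (Set.toFinite _)
    intro q hq
    exact (hsubE _ _ hq).finite
  have hposS : ∀ x, pos x ∈ S := fun x => Or.inl ⟨x, rfl⟩
  obtain ⟨m, m0, m1, ms, mS, md⟩ := exists_edge_polys c (fun e => (hD.curve _ _).1)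
    (fun e => hD.inj _ _ (fun h => e.2.ne (hpi _ _ h))) S hSfin
    (fun e => by
      change D e.1.1 e.1.2 0 ∈ S
      rw [hD.start]; exact hposS _)
    (fun e => by
      change D e.1.1 e.1.2 1 ∈ S
      rw [hD.end_eq]; exact hposS _)
    (fun e f hef p hp hq => by
      right
      simp only [mem_iUnion]
      exact ⟨(e, f), hef, hp, hq⟩)
  let path : V → V → List Pt := fun x y =>
    if h : x < y then m ⟨(x, y), h⟩ else if h : y < x then (m ⟨(y, x), h⟩).reverse else []
  have path_lt : ∀ x y (h : x < y), path x y = m ⟨(x, y), h⟩ := by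
    intro x y h; simp only [path, dif_pos h]
  have path_gt : ∀ x y (h : y < x), path x y = (m ⟨(y, x), h⟩).reverse := by
    intro x y h; simp only [path, dif_neg (lt_asymm h), dif_pos h]
  have hedge : ∀ x y, x ≠ y → ∃ e : E, (e.1 = (x, y) ∨ e.1 = (y, x)) ∧
      Car (path x y) = Car (m e) ∧ (∀ a, a ∈ path x y ↔ a ∈ m e) ∧
      range (D x y) = range (c e) := by
    intro x y hxy
    rcases lt_or_gt_of_ne hxy with h | h
    · refine ⟨⟨(x, y), h⟩, Or.inl rfl, ?_, ?_, rfl⟩
      · rw [path_lt x y h]
      · intro a; rw [path_lt x y h]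
    · refine ⟨⟨(y, x), h⟩, Or.inr rfl, ?_, ?_, ?_⟩
      · rw [path_gt x y h, Car_reverse]
      · intro a; rw [path_gt x y h, List.mem_reverse]
      · exact hD.range_symm x y
  have hne : ∀ x y z w (e f : E), (e.1 = (x, y) ∨ e.1 = (y, x)) → (f.1 = (z, w) ∨ f.1 = (w, z)) →
      ¬ (x = z ∧ y = w) → ¬ (x = w ∧ y = z) → e ≠ f := by
    rintro x y z w e f he hf h1 h2 rfl
    rcases he with he | he <;> rcases hf with hf | hf <;> rw [he, Prod.mk.injEq] at hf
    · exact h1 hf
    · exact h2 hf
    · exact h2 ⟨hf.2, hf.1⟩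
    · exact h1 ⟨hf.2, hf.1⟩
  have keyS : ∀ x y, x ≠ y → ∀ p ∈ Car (path x y), p ∈ S → p ∈ range (D x y) ∧ p ∈ path x y := by
    intro x y hxy p hp hpS
    obtain ⟨e, _, h2, h3, h4⟩ := hedge x y hxy
    rw [h2] at hp
    have := mS e p hp hpS
    rw [h4, h3]
    exact this
  have keyD : ∀ x y z w, x ≠ y → z ≠ w → ¬ (x = z ∧ y = w) → ¬ (x = w ∧ y = z) →
      ∀ p ∈ Car (path x y), p ∈ Car (path z w) → p ∈ S := by
    intro x y z w hxy hzw h1 h2 p hp hq
    obtain ⟨e, e1, e2, _, _⟩ := hedge x y hxy
    obtain ⟨f, f1, f2, _, _⟩ := hedge z w hzw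
    rw [e2] at hp
    rw [f2] at hq
    exact md e f (hne x y z w e f e1 f1 h1 h2) p hp hq
  have keyR : ∀ x y z w, x ≠ y → z ≠ w → ¬ (x = z ∧ y = w) → ¬ (x = w ∧ y = z) →
      ∀ p ∈ Car (path x y), p ∈ Car (path z w) → p ∈ range (D x y) ∩ range (D z w) := by
    intro x y z w hxy hzw h1 h2 p hp hq
    have hpS := keyD x y z w hxy hzw h1 h2 p hp hq
    exact ⟨(keyS x y hxy p hp hpS).1, (keyS z w hzw p hq hpS).1⟩
  let R : Semi V (S \ range pos) :=
    { pos := pos
      path := path
      pos_inj := hpos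
      pos_not := fun x h => h.2 ⟨x, rfl⟩
      head := by
        intro x y hxy
        rcases lt_or_gt_of_ne hxy with h | h
        · rw [path_lt x y h, m0]
          change some (D x y 0) = _
          rw [hD.start]
        · rw [path_gt x y h, List.head?_reverse, m1]
          change some (D y x 1) = _
          rw [hD.end_eq]
      last := by
        intro x y hxy
        rcases lt_or_gt_of_ne hxy with h | h
        · rw [path_lt x y h, m1]
          change some (D x y 1) = _
          rw [hD.end_eq]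
        · rw [path_gt x y h, List.getLast?_reverse, m0]
          change some (D y x 0) = _
          rw [hD.start]
      rev := by
        intro x y
        rcases lt_trichotomy x y with h | h | h
        · rw [path_lt x y h, path_gt y x h]
        · subst h
          simp [path]
        · rw [path_gt x y h, path_lt y x h, List.reverse_reverse]
      simple := by
        intro x y hxy
        rcases lt_or_gt_of_ne hxy with h | h
        · rw [path_lt x y h]; exact ms _
        · rw [path_gt x y h]; exact (ms _).reverse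
      meet := by
        intro x y z w hxy hzw h1 h2 p hp hq
        have hpS := keyD x y z w hxy hzw h1 h2 p hp hq
        refine ⟨(keyS x y hxy p hp hpS).2, (keyS z w hzw p hq hpS).2, ?_⟩
        by_cases hr : p ∈ range pos
        · obtain ⟨u, hu⟩ := hr
          exact Or.inr ⟨u, hu.symm⟩
        · exact Or.inl ⟨hpS, hr⟩
      vert := by
        intro x y z hxy hz
        have h1 := (keyS x y hxy _ hz (hposS z)).1
        rcases hD.vert x y z h1 with h | h
        · exact Or.inl (hpi _ _ h)
        · exact Or.inr (hpi _ _ h)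
      adj := by
        intro x y z hxy hxz hyz p hp hq
        have h1 : ¬ (x = x ∧ y = z) := fun h => hyz h.2
        have h2 : ¬ (x = z ∧ y = x) := fun h => hxz h.1
        exact hsub x y x z hxy hxz h1 h2 (keyR x y x z hxy hxz h1 h2 p hp hq)
          ⟨hD.left_mem x y, hD.left_mem x z⟩
      indep := by
        intro x y z w hn p hp q hq
        simp only [List.nodup_cons, List.mem_cons, List.not_mem_nil, or_false, not_or,
          List.nodup_nil, and_true, not_false_eq_true] at hn
        obtain ⟨⟨hxy, hxz, hxw⟩, ⟨hyz, hyw⟩, hzw⟩ := hn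
        have h1 : ¬ (x = z ∧ y = w) := fun h => hxz h.1
        have h2 : ¬ (x = w ∧ y = z) := fun h => hxw h.1
        exact hsub x y z w hxy hzw h1 h2 (keyR x y z w hxy hzw h1 h2 p hp.1 hp.2)
          (keyR x y z w hxy hzw h1 h2 q hq.1 hq.2) }
  refine ⟨S \ range pos, R, ?_⟩
  intro x y z w hn hne'
  simp only [List.nodup_cons, List.mem_cons, List.not_mem_nil, or_false, not_or,
    List.nodup_nil, and_true, not_false_eq_true] at hn
  obtain ⟨⟨hxy, hxz, hxw⟩, ⟨hyz, hyw⟩, hzw⟩ := hn
  obtain ⟨p, hp, hq⟩ := hne'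
  exact ⟨p, keyR x y z w hxy hzw (fun h => hxz h.1) (fun h => hxw h.1) p hp hq⟩

end Pool.Agent.MP_a0a8d4_co
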