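import Pool.Agent.MP_a0a8d4_co.Thicken

set_option autoImplicit false

/-!
# MP_a0a8d4_co: loop erasure for polylines (module SP)

A polyline that runs inside a set `Ω` (up to its end points) can be replaced by a polyline without
self-intersections: take one with the least number of bends.
-/

namespace Pool.Agent.MP_a0a8d4_co

open MeasureTheory Set Filter
open scoped unitInterval Topology

namespace SP

/-- A polyline `f 0, ..., f (n + 1)` from `p` to `q` inside `Ω`. -/
def Sq (Ω : Set Pt) (p q : Pt) (n : ℕ) (f : ℕ → Pt) : Prop :=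
  1 ≤ n ∧ f 0 = p ∧ f (n + 1) = q ∧ (∀ k, 1 ≤ k → k ≤ n → f k ∈ Ω) ∧
    ∀ k ≤ n, openSegment ℝ (f k) (f (k + 1)) ⊆ Ω

theorem segs_eq {L : List Pt} {e : Pt × Pt} (he : e ∈ segs L) :
    ∃ (k : ℕ) (h : k + 1 < L.length), e = (L[k], L[k + 1]) := by
  unfold segs at he
  obtain ⟨k, hk, rfl⟩ := List.mem_iff_getElem.1 he
  simp only [List.length_zip, List.length_tail, lt_inf_iff] at hk
  exact ⟨k, by omega, by simp⟩

theorem segs_get {L : List Pt} {k : ℕ} (h : k + 1 < L.length) : (L[k], L[k + 1]) ∈ segs L := by
  unfold segs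
  apply List.mem_iff_getElem.2
  exact ⟨k, by simp; omega, by simp⟩

theorem exists_seq {Ω : Set Pt} {p q : Pt} {l : List Pt} (hl : PolyIn Ω p q l) :
    ∃ n f, Sq Ω p q n f := by
  obtain ⟨h1, h2, h3⟩ := hl
  have hlen : (p :: (l ++ [q])).length = l.length + 2 := by simp
  refine ⟨l.length, fun k => (p :: (l ++ [q])).getD k p, ?_, ?_, ?_, ?_, ?_⟩
  · exact List.length_pos_of_ne_nil h1
  · simp
  · simp
  · intro k hk1 hk2
    obtain ⟨m, rfl⟩ : ∃ m, k = m + 1 := ⟨k - 1, by omega⟩
    have : (p :: (l ++ [q])).getD (m + 1) p = l[m]'(by omega) := by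
      rw [List.getD_eq_getElem _ _ (by simp; omega)]
      simp [List.getElem_append_left (show m < l.length by omega)]
    simp only [this]
    exact h2 _ (List.getElem_mem _)
  · intro k hk
    have hk' : k + 1 < (p :: (l ++ [q])).length := by rw [hlen]; omega
    have := h3 _ (segs_get hk')
    simp only
    rw [List.getD_eq_getElem _ _ (by omega), List.getD_eq_getElem _ _ hk']
    exact this

variable {Ω : Set Pt} {p q : Pt} {n : ℕ} {f : ℕ → Pt}

theorem Sq.mem (h : Sq Ω p q n f) {k : ℕ} (hk : k ≤ n) {x : Pt}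
    (hx : x ∈ segment ℝ (f k) (f (k + 1))) : x ∈ Ω ∨ (k = 0 ∧ x = p) ∨ (k = n ∧ x = q) := by
  obtain ⟨h1, h2, h3, h4, h5⟩ := h
  rcases (insert_endpoints_openSegment ℝ (f k) (f (k + 1))).symm ▸ hx with hx | hx | hx
  · rcases Nat.eq_zero_or_pos k with h0 | h0
    · right; left; exact ⟨h0, by rw [hx, h0, h2]⟩
    · left; rw [hx]; exact h4 k h0 hk
  · rcases Nat.lt_or_ge k n with h0 | h0
    · left; rw [hx]; exact h4 (k + 1) (by omega) h0
    · right; right
      have : k = n := by omega
      exact ⟨this, by rw [hx, this, h3]⟩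
  · left; exact h5 k hk hx

/-- Remove the point `i + 1`. -/
theorem Sq.remove (h : Sq Ω p q n f) {i : ℕ} (hi : i + 1 ≤ n) (hn : 2 ≤ n)
    (ho : openSegment ℝ (f i) (f (i + 2)) ⊆ Ω) : ∃ g, Sq Ω p q (n - 1) g := by
  obtain ⟨h1, h2, h3, h4, h5⟩ := h
  refine ⟨fun k => if k ≤ i then f k else f (k + 1), by omega, by simp [h2], ?_, ?_, ?_⟩
  · have e : n - 1 + 1 = n := by omega
    simp only [e]
    rw [if_neg (by omega), h3]
  · intro k hk1 hk2
    simp only
    split_ifs with hk
    · exact h4 k hk1 (by omega)
    · exact h4 (k + 1) (by omega) (by omega)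
  · intro k hk
    simp only
    rcases Nat.lt_trichotomy k i with hki | hki | hki
    · rw [if_pos hki.le, if_pos (by omega)]
      exact h5 k (by omega)
    · subst hki
      rw [if_pos le_rfl, if_neg (by omega)]
      exact ho
    · rw [if_neg (by omega), if_neg (by omega)]
      exact h5 (k + 1) (by omega)

/-- Short cut at a common point of the segments `i` and `j`. -/
theorem Sq.cut (h : Sq Ω p q n f) {i j : ℕ} (hij : i + 2 ≤ j) (hj : j ≤ n) {x : Pt}
    (hx1 : x ∈ segment ℝ (f i) (f (i + 1))) (hx2 : x ∈ segment ℝ (f j) (f (j + 1)))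
    (hxΩ : x ∈ Ω) : ∃ g, Sq Ω p q (n - (j - i - 1)) g := by
  obtain ⟨h1, h2, h3, h4, h5⟩ := h
  -- the new segments
  have hl : openSegment ℝ (f i) x ⊆ Ω := by
    rcases (insert_endpoints_openSegment ℝ (f i) (f (i + 1))).symm ▸ hx1 with hx | hx | hx
    · rw [hx, openSegment_same, singleton_subset_iff, ← hx]; exact hxΩ
    · rw [hx]; exact h5 i (by omega)
    · refine Subset.trans ?_ (h5 i (by omega))
      obtain ⟨t, ht0, ht1, hxa, hxb⟩ := mem_openSegment_iff.1 hx
      intro y hy
      obtain ⟨s, hs0, hs1, hya, hyb⟩ := mem_openSegment_iff.1 hy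
      refine mem_openSegment_iff.2 ⟨s * t, by positivity, by nlinarith, ?_, ?_⟩
      · rw [hya, hxa]; ring
      · rw [hyb, hxb]; ring
  have hr : openSegment ℝ x (f (j + 1)) ⊆ Ω := by
    rcases (insert_endpoints_openSegment ℝ (f j) (f (j + 1))).symm ▸ hx2 with hx | hx | hx
    · rw [hx]; exact h5 j hj
    · rw [hx, openSegment_same, singleton_subset_iff, ← hx]; exact hxΩ
    · refine Subset.trans ?_ (h5 j hj)
      obtain ⟨t, ht0, ht1, hxa, hxb⟩ := mem_openSegment_iff.1 hx
      intro y hy
      obtain ⟨s, hs0, hs1, hya, hyb⟩ := mem_openSegment_iff.1 hy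
      refine mem_openSegment_iff.2 ⟨t + s * (1 - t), by nlinarith, by nlinarith, ?_, ?_⟩
      · rw [hya, hxa]; ring
      · rw [hyb, hxb]; ring
  refine ⟨fun k => if k ≤ i then f k else if k = i + 1 then x else f (k + (j - i - 1)),
    by omega, by simp [h2], ?_, ?_, ?_⟩
  · have e : n - (j - i - 1) + 1 + (j - i - 1) = n + 1 := by omega
    simp only [e]
    rw [if_neg (by omega), if_neg (by omega), h3]
  · intro k hk1 hk2
    simp only
    split_ifs with hk hk'
    · exact h4 k hk1 (by omega)
    · exact hxΩ
    · exact h4 _ (by omega) (by omega)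
  · intro k hk
    simp only
    rcases Nat.lt_trichotomy k i with hki | hki | hki
    · rw [if_pos hki.le, if_pos (by omega)]
      exact h5 k (by omega)
    · subst hki
      rw [if_pos le_rfl, if_neg (by omega), if_pos rfl]
      exact hl
    · rcases Nat.eq_or_lt_of_le (show i + 1 ≤ k from hki) with hk1 | hk1
      · subst hk1
        have e : i + 1 + 1 + (j - i - 1) = j + 1 := by omega
        rw [if_neg (by omega), if_pos rfl, if_neg (by omega), if_neg (by omega), e]
        exact hr
      · rw [if_neg (by omega), if_neg (by omega), if_neg (by omega), if_neg (by omega)]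
        have e : k + 1 + (j - i - 1) = k + (j - i - 1) + 1 := by omega
        rw [e]
        exact h5 _ (by omega)

end SP

open SP in
theorem simplePoly' (Ω : Set Pt) (p q : Pt) (hpq : p ≠ q) (hp : p ∉ Ω)
    (hq : q ∉ Ω) (l : List Pt) (hl : PolyIn Ω p q l) :
    ∃ l', PolyIn Ω p q l' ∧ SimpleL (p :: (l' ++ [q])) := by
  classical
  have hex : ∃ n, ∃ f, Sq Ω p q n f := exists_seq hl
  obtain ⟨f, hf⟩ := Nat.find_spec hex
  set n := Nat.find hex with hn
  have hmin : ∀ m < n, ∀ g, ¬ Sq Ω p q m g := fun m hm g hg => Nat.find_min hex hm ⟨g, hg⟩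
  obtain ⟨h1, h2, h3, h4, h5⟩ := id hf
  -- non-adjacent segments are disjoint
  have far : ∀ i j, i + 2 ≤ j → j ≤ n → ∀ x, x ∈ segment ℝ (f i) (f (i + 1)) →
      x ∈ segment ℝ (f j) (f (j + 1)) → False := by
    intro i j hij hj x hx1 hx2
    have hxΩ : x ∈ Ω := by
      rcases hf.mem (by omega) hx1 with h | h | h
      · exact h
      · rcases hf.mem hj hx2 with h' | h' | h'
        · exact h'
        · omega
        · exact absurd (h.2.symm.trans h'.2) hpq
      · omega
    obtain ⟨g, hg⟩ := hf.cut hij hj hx1 hx2 hxΩ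
    exact hmin _ (by omega) g hg
  -- consecutive points are different
  have hne : ∀ i ≤ n, f i ≠ f (i + 1) := by
    intro i hi heq
    rcases Nat.eq_zero_or_pos i with h0 | h0
    · subst h0
      rw [h2] at heq
      exact hp (heq ▸ h4 1 le_rfl h1)
    · rcases Nat.lt_or_ge i n with h | h
      · obtain ⟨g, hg⟩ := hf.remove (i := i) h (by omega) (by rw [heq]; exact h5 (i + 1) h)
        exact hmin _ (by omega) g hg
      · have : i = n := by omega
        subst this
        rw [h3] at heq
        exact hq (heq ▸ h4 n h1 le_rfl)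
  -- adjacent segments
  have near : ∀ i, i + 1 ≤ n → ∀ x, x ∈ segment ℝ (f i) (f (i + 1)) →
      x ∈ segment ℝ (f (i + 1)) (f (i + 2)) → x = f (i + 1) := by
    intro i hi x hx1 hx2
    by_contra hxb
    obtain ⟨s, hs0, hs1, hsa, hsb⟩ := mem_segment_iff.1 hx1
    obtain ⟨t, ht0, ht1, hta, htb⟩ := mem_segment_iff.1 hx2
    have hs : s < 1 := by
      rcases eq_or_lt_of_le hs1 with h | h
      · exfalso; apply hxb
        ext
        · rw [hsa, h]; ring
        · rw [hsb, h]; ring
      · exact h
    have ht : 0 < t := by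
      rcases eq_or_lt_of_le ht0 with h | h
      · exfalso; apply hxb
        ext
        · rw [hta, ← h]; ring
        · rw [htb, ← h]; ring
      · exact h
    -- `(1 - s) (a - b) = t (c - b)`
    have k1 : (1 - s) * ((f i).1 - (f (i + 1)).1) = t * ((f (i + 2)).1 - (f (i + 1)).1) := by
      linarith
    have k2 : (1 - s) * ((f i).2 - (f (i + 1)).2) = t * ((f (i + 2)).2 - (f (i + 1)).2) := by
      linarith
    have hs' : 0 < 1 - s := by linarith
    rcases le_total t (1 - s) with hts | hts
    · -- `a` is on the segment from `b` to `c`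
      have ha1 : (f i).1 = (f (i + 1)).1 + (t / (1 - s)) * ((f (i + 2)).1 - (f (i + 1)).1) := by
        field_simp; linarith
      have ha2 : (f i).2 = (f (i + 1)).2 + (t / (1 - s)) * ((f (i + 2)).2 - (f (i + 1)).2) := by
        field_simp; linarith
      have hθ0 : 0 < t / (1 - s) := by positivity
      have hθ1 : t / (1 - s) ≤ 1 := by rw [div_le_one hs']; exact hts
      have hmem : f i ∈ segment ℝ (f (i + 1)) (f (i + 2)) :=
        mem_segment_iff.2 ⟨_, hθ0.le, hθ1, ha1, ha2⟩
      have hi0 : 1 ≤ i := by
        by_contra hcon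
        have : i = 0 := by omega
        subst this
        rcases hf.mem hi hmem with h | h | h
        · exact hp (h2 ▸ h)
        · omega
        · exact hpq (h2.symm.trans h.2)
      have ho : openSegment ℝ (f i) (f (i + 2)) ⊆ Ω := by
        rcases eq_or_lt_of_le hθ1 with h | h
        · have : f i = f (i + 2) := by
            ext
            · rw [ha1, h]; ring
            · rw [ha2, h]; ring
          rw [← this, openSegment_same, singleton_subset_iff]
          exact h4 i hi0 (by omega)
        · refine Subset.trans ?_ (h5 (i + 1) hi)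
          intro y hy
          obtain ⟨u, hu0, hu1, hya, hyb⟩ := mem_openSegment_iff.1 hy
          set θ := t / (1 - s)
          refine mem_openSegment_iff.2 ⟨θ + u * (1 - θ), by nlinarith, by nlinarith, ?_, ?_⟩
          · rw [hya, ha1]; ring
          · rw [hyb, ha2]; ring
      obtain ⟨g, hg⟩ := hf.remove (i := i) hi (by omega) ho
      exact hmin _ (by omega) g hg
    · -- `c` is on the segment from `b` to `a`
      have ha1 : (f (i + 2)).1 = (f (i + 1)).1 + ((1 - s) / t) * ((f i).1 - (f (i + 1)).1) := by
        field_simp; linarith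
      have ha2 : (f (i + 2)).2 = (f (i + 1)).2 + ((1 - s) / t) * ((f i).2 - (f (i + 1)).2) := by
        field_simp; linarith
      have hθ0 : 0 < (1 - s) / t := by positivity
      have hθ1 : (1 - s) / t ≤ 1 := by rw [div_le_one ht]; exact hts
      have hmem : f (i + 2) ∈ segment ℝ (f i) (f (i + 1)) := by
        rw [segment_symm]
        exact mem_segment_iff.2 ⟨_, hθ0.le, hθ1, ha1, ha2⟩
      have hi0 : i + 2 ≤ n := by
        by_contra hcon
        have : i + 1 = n := by omega
        have hq' : f (i + 2) = q := by rw [← h3, ← this]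
        rcases hf.mem (by omega) hmem with h | h | h
        · exact hq (hq' ▸ h)
        · exact hpq (h.2.symm.trans hq')
        · omega
      have ho : openSegment ℝ (f i) (f (i + 2)) ⊆ Ω := by
        rcases eq_or_lt_of_le hθ1 with h | h
        · have : f (i + 2) = f i := by
            ext
            · rw [ha1, h]; ring
            · rw [ha2, h]; ring
          rw [← this, openSegment_same, singleton_subset_iff]
          exact h4 (i + 2) (by omega) hi0
        · refine Subset.trans ?_ (h5 i (by omega))
          intro y hy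
          obtain ⟨u, hu0, hu1, hya, hyb⟩ := mem_openSegment_iff.1 hy
          set θ := (1 - s) / t
          refine mem_openSegment_iff.2 ⟨u * (1 - θ), by nlinarith, by nlinarith, ?_, ?_⟩
          · rw [hya, ha1]; ring
          · rw [hyb, ha2]; ring
      obtain ⟨g, hg⟩ := hf.remove (i := i) hi (by omega) ho
      exact hmin _ (by omega) g hg
  -- all points are different
  have hinj : ∀ i j, i < j → j ≤ n + 1 → f i ≠ f j := by
    intro i j hij hj heq
    obtain ⟨m, rfl⟩ : ∃ m, j = m + 1 := ⟨j - 1, by omega⟩
    rcases Nat.lt_trichotomy (i + 1) m with h | h | h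
    · exact far i m h (by omega) (f i) (left_mem_segment ℝ _ _)
        (heq ▸ right_mem_segment ℝ _ _)
    · subst h
      have := near i (by omega) (f i) (left_mem_segment ℝ _ _) (heq ▸ right_mem_segment ℝ _ _)
      exact hne i (by omega) this
    · have : i = m := by omega
      subst this
      exact hne i (by omega) heq
  -- the list
  have hL : p :: ((List.range n).map (fun k => f (k + 1)) ++ [q]) = (List.range (n + 2)).map f := by
    rw [show n + 2 = (n + 1) + 1 from rfl, List.range_succ, List.range_succ_eq_map]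
    simp [Function.comp_def, h2, h3]
  have hsegs : ∀ e ∈ segs (p :: ((List.range n).map (fun k => f (k + 1)) ++ [q])),
      ∃ k ≤ n, e = (f k, f (k + 1)) := by
    intro e he
    rw [hL] at he
    obtain ⟨k, hk, h⟩ := TH.segs_range f (n + 1) he
    exact ⟨k, by omega, h⟩
  refine ⟨(List.range n).map (fun k => f (k + 1)), ⟨?_, ?_, ?_⟩, ?_, ?_⟩
  · intro h
    rw [List.map_eq_nil_iff, List.range_eq_nil] at h
    omega
  · intro a ha
    obtain ⟨k, hk, rfl⟩ := List.mem_map.1 ha
    rw [List.mem_range] at hk
    exact h4 (k + 1) (by omega) hk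
  · intro e he
    obtain ⟨k, hk, rfl⟩ := hsegs e he
    exact h5 k hk
  · rw [hL]
    apply List.Nodup.map_on _ List.nodup_range
    intro i hi j hj hij
    rw [List.mem_range] at hi hj
    rcases Nat.lt_trichotomy i j with h | h | h
    · exact absurd hij (hinj i j h (by omega))
    · exact h
    · exact absurd hij.symm (hinj j i h (by omega))
  · intro e he e' he' x hx hx'
    obtain ⟨i, hi, rfl⟩ := hsegs e he
    obtain ⟨j, hj, rfl⟩ := hsegs e' he'
    simp only at hx hx' ⊢
    rcases Nat.lt_trichotomy i j with h | h | h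
    · right; left
      rcases Nat.eq_or_lt_of_le (show i + 1 ≤ j from h) with h' | h'
      · subst h'
        exact ⟨rfl, near i hj x hx hx'⟩
      · exact absurd hx' (fun hx' => far i j h' hj x hx hx')
    · left; rw [h]
    · right; right
      rcases Nat.eq_or_lt_of_le (show j + 1 ≤ i from h) with h' | h'
      · subst h'
        exact ⟨rfl, near j hi x hx' hx⟩
      · exact absurd hx (fun hx => far j i h' hi x hx' hx)

end Pool.Agent.MP_a0a8d4_co
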