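import Pool.Agent.MP_a0a8d4_co.Basic

set_option autoImplicit false

/-!
# MP_a0a8d4_co: thickening of disjoint arcs (module TH)

Finitely many arcs that meet only in common end points have disjoint regions `Ω i`, each
containing a polyline from the first to the last point of the arc.
-/

namespace Pool.Agent.MP_a0a8d4_co

open MeasureTheory Set Filter Metric
open scoped unitInterval Topology

namespace TH

/-- Cut an arc at the spheres of radius `ρ` around the end points. -/
theorem cut (γ : I → Pt) (hc : Continuous γ) (ρ : ℝ) (hρ : 0 < ρ)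
    (h3 : 3 * ρ < dist (γ 0) (γ 1)) :
    ∃ τ v : I, τ < v ∧ dist (γ τ) (γ 0) = ρ ∧ dist (γ v) (γ 1) = ρ ∧
      ∀ t, τ ≤ t → t ≤ v → ρ ≤ dist (γ t) (γ 0) ∧ ρ ≤ dist (γ t) (γ 1) := by
  have hc0 : Continuous fun t => dist (γ t) (γ 0) := hc.dist continuous_const
  have hc1 : Continuous fun t => dist (γ t) (γ 1) := hc.dist continuous_const
  -- the last time in the first ball
  have hA : IsCompact {t : I | dist (γ t) (γ 0) ≤ ρ} :=
    (isClosed_le hc0 continuous_const).isCompact
  obtain ⟨τ, hτ, hτ'⟩ := hA.exists_isGreatest ⟨0, by simp [hρ.le]⟩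
  simp only [mem_ofPred_eq] at hτ
  have hτ1 : τ ≠ 1 := by
    rintro rfl
    rw [dist_comm] at hτ
    linarith
  have hτlt : τ < 1 := lt_of_le_of_ne le_top hτ1
  have hout : ∀ t, τ < t → ρ < dist (γ t) (γ 0) := by
    intro t ht
    by_contra hcon
    push Not at hcon
    exact absurd (hτ' hcon) (not_le.2 ht)
  have hτeq : dist (γ τ) (γ 0) = ρ := by
    refine le_antisymm hτ ?_
    have : (𝓝[>] τ).NeBot := nhdsGT_neBot_of_exists_gt ⟨1, hτlt⟩
    refine ge_of_tendsto ((hc0.tendsto τ).mono_left (nhdsWithin_le_nhds (s := Ioi τ))) ?_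
    filter_upwards [self_mem_nhdsWithin] with t ht
    exact (hout t ht).le
  -- the first time after `τ` in the second ball
  have hB : IsCompact {t : I | τ ≤ t ∧ dist (γ t) (γ 1) ≤ ρ} := by
    apply IsClosed.isCompact
    exact (isClosed_le continuous_const continuous_id).inter (isClosed_le hc1 continuous_const)
  obtain ⟨v, hv, hv'⟩ := hB.exists_isLeast ⟨1, le_top, by simp [hρ.le]⟩
  obtain ⟨hv0, hv1⟩ := hv
  have hτv : τ ≠ v := by
    rintro rfl
    have := dist_triangle_left (γ 0) (γ 1) (γ τ)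
    linarith
  have hlt : τ < v := lt_of_le_of_ne hv0 hτv
  have hout' : ∀ t, τ ≤ t → t < v → ρ < dist (γ t) (γ 1) := by
    intro t ht ht'
    by_contra hcon
    push Not at hcon
    exact absurd (hv' ⟨ht, hcon⟩) (not_le.2 ht')
  have hveq : dist (γ v) (γ 1) = ρ := by
    refine le_antisymm hv1 ?_
    have : (𝓝[<] v).NeBot := nhdsLT_neBot_of_exists_lt ⟨τ, hlt⟩
    refine ge_of_tendsto ((hc1.tendsto v).mono_left (nhdsWithin_le_nhds (s := Iio v))) ?_
    filter_upwards [Ioo_mem_nhdsLT hlt] with t ht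
    exact (hout' t ht.1.le ht.2).le
  refine ⟨τ, v, hlt, hτeq, hveq, fun t h1 h2 => ⟨?_, ?_⟩⟩
  · rcases eq_or_lt_of_le h1 with h | h
    · rw [← h, hτeq]
    · exact (hout t h).le
  · rcases eq_or_lt_of_le h2 with h | h
    · rw [h, hveq]
    · exact (hout' t h1 h).le

/-- A fine chain of points on an arc. -/
theorem fine (γ : I → Pt) (hc : Continuous γ) (ε : ℝ) (hε : 0 < ε) (τ v : I) (h : τ < v) :
    ∃ (n : ℕ) (f : ℕ → Pt), f 0 = γ τ ∧ f n = γ v ∧
      (∀ k ≤ n, ∃ t, τ ≤ t ∧ t ≤ v ∧ f k = γ t) ∧ ∀ k < n, dist (f k) (f (k + 1)) < ε := by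
  obtain ⟨δ, hδ, hγ⟩ := Metric.uniformContinuous_iff.1
    (CompactSpace.uniformContinuous_of_continuous hc) ε hε
  obtain ⟨n, hn⟩ := exists_nat_gt (1 / δ)
  have hn0 : (0 : ℝ) < n := lt_trans (by positivity) hn
  have hn0' : 0 < n := by exact_mod_cast hn0
  have hτv : (τ : ℝ) < v := h
  have hv1 : (v : ℝ) ≤ 1 := v.2.2
  have hτ0 : (0 : ℝ) ≤ τ := τ.2.1
  let T : ℕ → I := fun k => projIcc 0 1 zero_le_one ((τ : ℝ) + (k / n) * (v - τ))
  have hval : ∀ k ≤ n, ((T k : I) : ℝ) = (τ : ℝ) + (k / n) * (v - τ) := by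
    intro k hk
    have hk' : (k : ℝ) / n ≤ 1 := by
      rw [div_le_one hn0]; exact_mod_cast hk
    have hk0 : (0 : ℝ) ≤ (k : ℝ) / n := by positivity
    have : (τ : ℝ) + (k / n) * (v - τ) ∈ Icc (0 : ℝ) 1 := by
      constructor
      · nlinarith
      · nlinarith
    simp only [T]
    rw [projIcc_of_mem zero_le_one this]
  refine ⟨n, fun k => γ (T k), ?_, ?_, ?_, ?_⟩
  · have : T 0 = τ := by
      apply Subtype.ext
      rw [hval 0 (Nat.zero_le _)]; simp
    simp only [this]
  · have : T n = v := by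
      apply Subtype.ext
      rw [hval n le_rfl, div_self hn0.ne']; ring
    simp only [this]
  · intro k hk
    refine ⟨T k, ?_, ?_, rfl⟩
    · change (τ : ℝ) ≤ (T k : I)
      rw [hval k hk]
      have : (0 : ℝ) ≤ (k : ℝ) / n := by positivity
      nlinarith
    · change ((T k : I) : ℝ) ≤ v
      rw [hval k hk]
      have hk' : (k : ℝ) / n ≤ 1 := by
        rw [div_le_one hn0]; exact_mod_cast hk
      nlinarith
  · intro k hk
    apply hγ
    rw [Subtype.dist_eq, hval k hk.le, hval (k + 1) hk, Real.dist_eq]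
    have : (τ : ℝ) + (k / n) * (v - τ) - (τ + ((k + 1 : ℕ) / n) * (v - τ)) = -((v - τ) / n) := by
      push_cast
      field_simp
      ring
    rw [this, abs_neg, abs_of_pos (by apply div_pos _ hn0; linarith), div_lt_iff₀ hn0]
    rw [div_lt_iff₀ hδ] at hn
    nlinarith

/-- The segments of the list of the values of a sequence. -/
theorem segs_range (f : ℕ → Pt) (n : ℕ) {e : Pt × Pt}
    (he : e ∈ segs ((List.range (n + 1)).map f)) : ∃ k < n, e = (f k, f (k + 1)) := by
  unfold segs at he
  obtain ⟨k, hk, rfl⟩ := List.mem_iff_getElem.1 he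
  simp only [List.length_zip, List.length_map, List.length_range, List.length_tail,
    add_tsub_cancel_right, lt_inf_iff] at hk
  refine ⟨k, hk.2, ?_⟩
  simp

/-- A polyline from a chain of points. -/
theorem poly_of_chain (Ω : Set Pt) (p q : Pt) (f : ℕ → Pt) (n : ℕ) (hf : ∀ k ≤ n, f k ∈ Ω)
    (hs : ∀ k < n, openSegment ℝ (f k) (f (k + 1)) ⊆ Ω) (hp : openSegment ℝ p (f 0) ⊆ Ω)
    (hq : openSegment ℝ (f n) q ⊆ Ω) : ∃ l, PolyIn Ω p q l := by
  refine ⟨(List.range (n + 1)).map f, by simp, ?_, ?_⟩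
  · intro a ha
    obtain ⟨k, hk, rfl⟩ := List.mem_map.1 ha
    exact hf k (by rw [List.mem_range] at hk; omega)
  · intro e he
    have h1 : p :: ((List.range (n + 1)).map f ++ [q]) =
        p :: f 0 :: (((List.range n).map (fun k => f (k + 1))) ++ [q]) := by
      rw [List.range_succ_eq_map]
      simp [Function.comp_def]
    have h2 : f 0 :: (((List.range n).map (fun k => f (k + 1))) ++ [q]) =
        (List.range n).map f ++ [f n, q] := by
      have : (List.range (n + 1)).map f ++ [q] = (List.range n).map f ++ [f n, q] := by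
        rw [List.range_succ]; simp
      rw [← this, List.range_succ_eq_map]
      simp [Function.comp_def]
    have h3 : (List.range n).map f ++ [f n] = (List.range (n + 1)).map f := by
      rw [List.range_succ]; simp
    rw [h1, segs_cons_cons, h2, segs_concat, h3, List.mem_cons, List.mem_append] at he
    rcases he with rfl | he | he
    · exact hp
    · obtain ⟨k, hk, rfl⟩ := segs_range f n he
      exact hs k hk
    · rw [List.mem_singleton] at he
      subst he
      exact hq

end TH

/-- Finitely many arcs that meet only in common end points: there are pairwise disjoint regions,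
disjoint from the set of end points, each with a polyline from the beginning to the end of its arc.
-/
theorem thicken' {ι : Type} [Finite ι] (S : Set Pt) (hS : S.Finite) (γ : ι → I → Pt)
    (hc : ∀ i, Continuous (γ i)) (hinj : ∀ i, Function.Injective (γ i)) (h0 : ∀ i, γ i 0 ∈ S)
    (h1 : ∀ i, γ i 1 ∈ S) (hS' : ∀ i t, γ i t ∈ S → t = 0 ∨ t = 1)
    (hd : ∀ i j, i ≠ j → ∀ s t, γ i s = γ j t → γ i s ∈ S) :
    ∃ Ω : ι → Set Pt, (∀ i, Disjoint (Ω i) S) ∧
      (∀ i j, i ≠ j → Disjoint (Ω i) (Ω j)) ∧ (∀ i, ∃ l, PolyIn (Ω i) (γ i 0) (γ i 1) l) := by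
  classical
  have := Fintype.ofFinite ι
  -- the radius
  have hρ : ∃ ρ > 0, (∀ s ∈ S, ∀ s' ∈ S, s ≠ s' → 3 * ρ < dist s s') ∧
      ∀ i, ∀ s ∈ S, s ≠ γ i 0 → s ≠ γ i 1 → ∀ t, ρ ≤ dist (γ i t) s := by
    have e1 : ∀ᶠ ρ : ℝ in 𝓝[>] 0, ∀ s ∈ S, ∀ s' ∈ S, s ≠ s' → 3 * ρ < dist s s' := by
      rw [eventually_all_finite hS]
      intro s _
      rw [eventually_all_finite hS]
      intro s' _
      by_cases h : s = s'
      · exact Eventually.of_forall fun ρ h' => absurd h h'
      · have hpos : 0 < dist s s' / 3 := by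
          have := dist_pos.2 h
          linarith
        filter_upwards [Ioo_mem_nhdsGT hpos] with ρ hρ _
        linarith [hρ.2]
    have e2 : ∀ᶠ ρ : ℝ in 𝓝[>] 0, ∀ i, ∀ s ∈ S, s ≠ γ i 0 → s ≠ γ i 1 → ∀ t,
        ρ ≤ dist (γ i t) s := by
      rw [eventually_all]
      intro i
      rw [eventually_all_finite hS]
      intro s hs
      by_cases h : s = γ i 0 ∨ s = γ i 1
      · exact Eventually.of_forall fun ρ h' h'' => by
          rcases h with h | h
          · exact absurd h h'
          · exact absurd h h''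
      · push Not at h
        have hnot : s ∉ range (γ i) := by
          rintro ⟨t, rfl⟩
          rcases hS' i t hs with h' | h'
          · exact h.1 (by rw [h'])
          · exact h.2 (by rw [h'])
        have hpos := ((isCompact_range (hc i)).isClosed.notMem_iff_infDist_pos
          (range_nonempty _)).1 hnot
        filter_upwards [Ioo_mem_nhdsGT hpos] with ρ hρ _ _ t
        have := infDist_le_dist_of_mem (x := s) (mem_range_self (f := γ i) t)
        rw [dist_comm]
        linarith [hρ.2]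
    obtain ⟨ρ, hρ⟩ := (e1.and (e2.and self_mem_nhdsWithin)).exists
    exact ⟨ρ, hρ.2.2, hρ.1, hρ.2.1⟩
  obtain ⟨ρ, hρ0, hρ1, hρ2⟩ := hρ
  have h01 : ∀ i, γ i 0 ≠ γ i 1 := fun i h => by
    have := hinj i h
    exact zero_ne_one this
  have hcut := fun i => TH.cut (γ i) (hc i) ρ hρ0 (hρ1 _ (h0 i) _ (h1 i) (h01 i))
  choose τ v hτv hτ hv hmid using hcut
  let mid : ι → Set Pt := fun i => γ i '' Icc (τ i) (v i)
  have hmidc : ∀ i, IsCompact (mid i) := fun i => isCompact_Icc.image (hc i)
  -- all points of the middle part have distance at least `ρ` from `S`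
  have hfar : ∀ i, ∀ m ∈ mid i, ∀ s ∈ S, ρ ≤ dist m s := by
    rintro i m ⟨t, ht, rfl⟩ s hs
    by_cases hs0 : s = γ i 0
    · rw [hs0]; exact (hmid i t ht.1 ht.2).1
    by_cases hs1 : s = γ i 1
    · rw [hs1]; exact (hmid i t ht.1 ht.2).2
    exact hρ2 i s hs hs0 hs1 t
  have hmidS : ∀ i, Disjoint (mid i) S := by
    intro i
    rw [Set.disjoint_left]
    intro m hm hmS
    have := hfar i m hm m hmS
    rw [dist_self] at this
    linarith
  have hmm : ∀ i j, i ≠ j → Disjoint (mid i) (mid j) := by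
    intro i j hij
    rw [Set.disjoint_left]
    rintro m hm hm'
    obtain ⟨s, hs, rfl⟩ := hm
    obtain ⟨t, ht, hst⟩ := hm'
    exact (Set.disjoint_left.1 (hmidS i) ⟨s, hs, rfl⟩) (hd i j hij s t hst.symm)
  -- the two ends, in a uniform notation
  let sp : ι → Bool → Pt := fun i b => if b then γ i 1 else γ i 0
  let gp : ι → Bool → Pt := fun i b => if b then γ i (v i) else γ i (τ i)
  have hsp : ∀ i b, sp i b ∈ S := by
    rintro i (_ | _)
    · exact h0 i
    · exact h1 i
  have hgm : ∀ i b, gp i b ∈ mid i := by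
    rintro i (_ | _)
    · exact ⟨τ i, ⟨le_rfl, (hτv i).le⟩, rfl⟩
    · exact ⟨v i, ⟨(hτv i).le, le_rfl⟩, rfl⟩
  have hgs : ∀ i b, dist (gp i b) (sp i b) = ρ := by
    rintro i (_ | _)
    · exact hτ i
    · exact hv i
  let O : ι → Bool → Set Pt := fun i b => openSegment ℝ (sp i b) (gp i b)
  let A : ι → Bool → Set Pt := fun i b => segment ℝ (sp i b) (gp i b)
  have hOA : ∀ i b, O i b ⊆ A i b := fun i b => openSegment_subset_segment _ _ _
  have hAc : ∀ i b, IsClosed (A i b) := by
    intro i b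
    have : A i b = (fun t : ℝ => sp i b + t • (gp i b - sp i b)) '' Icc 0 1 :=
      segment_eq_image' _ _ _
    rw [this]
    exact (isCompact_Icc.image (by fun_prop)).isClosed
  -- points of the radial segments
  have hAp : ∀ i b, ∀ p ∈ A i b, ∃ t : ℝ, 0 ≤ t ∧ t ≤ 1 ∧ p = sp i b + t • (gp i b - sp i b) ∧
      dist p (sp i b) = t * ρ := by
    intro i b p hp
    have : p ∈ (fun t : ℝ => sp i b + t • (gp i b - sp i b)) '' Icc 0 1 := by
      rw [← segment_eq_image']; exact hp
    obtain ⟨t, ⟨ht0, ht1⟩, rfl⟩ := this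
    refine ⟨t, ht0, ht1, rfl, ?_⟩
    have h := hgs i b
    rw [dist_eq_norm] at h ⊢
    rw [add_sub_cancel_left, norm_smul, Real.norm_eq_abs, abs_of_nonneg ht0, h]
  have hOp : ∀ i b, ∀ p ∈ O i b, ∃ t : ℝ, 0 < t ∧ t < 1 ∧ p = sp i b + t • (gp i b - sp i b) ∧
      dist p (sp i b) = t * ρ := by
    intro i b p hp
    have : p ∈ (fun t : ℝ => sp i b + t • (gp i b - sp i b)) '' Ioo 0 1 := by
      rw [← openSegment_eq_image']; exact hp
    obtain ⟨t, ⟨ht0, ht1⟩, rfl⟩ := this
    refine ⟨t, ht0, ht1, rfl, ?_⟩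
    have h := hgs i b
    rw [dist_eq_norm] at h ⊢
    rw [add_sub_cancel_left, norm_smul, Real.norm_eq_abs, abs_of_nonneg ht0.le, h]
  have hOS : ∀ i b, Disjoint (O i b) S := by
    intro i b
    rw [Set.disjoint_left]
    intro p hp hpS
    obtain ⟨t, ht0, ht1, _, hdist⟩ := hOp i b p hp
    have hne : p ≠ sp i b := by
      intro h
      rw [h, dist_self] at hdist
      have : 0 < t * ρ := by positivity
      linarith
    have := hρ1 p hpS _ (hsp i b) hne
    nlinarith
  have hAm : ∀ i j b, i ≠ j → Disjoint (mid i) (A j b) := by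
    intro i j b hij
    rw [Set.disjoint_left]
    intro p hp hpA
    obtain ⟨t, ht0, ht1, hpt, hdist⟩ := hAp j b p hpA
    have h1 := hfar i p hp _ (hsp j b)
    have ht : t = 1 := by
      have : 1 * ρ ≤ t * ρ := by linarith
      exact le_antisymm ht1 (le_of_mul_le_mul_right this hρ0)
    have hpg : p = gp j b := by rw [hpt, ht, one_smul]; abel
    exact Set.disjoint_left.1 (hmm i j hij) hp (hpg ▸ hgm j b)
  have hOO : ∀ i j b c, i ≠ j → Disjoint (O i b) (O j c) := by
    intro i j b c hij
    rw [Set.disjoint_left]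
    intro p hp hp'
    obtain ⟨t, ht0, ht1, hpt, hdist⟩ := hOp i b p hp
    obtain ⟨t', ht0', ht1', hpt', hdist'⟩ := hOp j c p hp'
    by_cases hss : sp i b = sp j c
    · have htt : t = t' := by
        rw [hss, hdist'] at hdist
        exact (mul_right_cancel₀ hρ0.ne' hdist).symm
      have : gp i b = gp j c := by
        rw [hpt, hss, htt] at hpt'
        have h2 := add_left_cancel hpt'
        have h3 := smul_right_injective Pt (show t' ≠ 0 from ht0'.ne') h2
        exact sub_left_injective h3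
      exact Set.disjoint_left.1 (hmm i j hij) (hgm i b) (this ▸ hgm j c)
    · have h1 := hρ1 _ (hsp i b) _ (hsp j c) hss
      have h2 := dist_triangle_left (sp i b) (sp j c) p
      rw [hdist, hdist'] at h2
      nlinarith
  -- the width
  have hε : ∃ ε > 0, (∀ i, Disjoint (thickening ε (mid i)) S) ∧
      (∀ i j, i ≠ j → Disjoint (thickening ε (mid i)) (thickening ε (mid j))) ∧
      ∀ i j b, i ≠ j → Disjoint (thickening ε (mid i)) (A j b) := by
    have key : ∀ K L : Set Pt, IsCompact K → IsClosed L → Disjoint K L →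
        ∀ᶠ ε : ℝ in 𝓝[>] 0, Disjoint (thickening ε K) (thickening ε L) := by
      intro K L hK hL hKL
      obtain ⟨δ, hδ, hδ'⟩ := hKL.exists_thickenings hK hL
      filter_upwards [Ioo_mem_nhdsGT hδ] with ε hε
      exact hδ'.mono (thickening_mono hε.2.le _) (thickening_mono hε.2.le _)
    have e1 : ∀ᶠ ε : ℝ in 𝓝[>] 0, ∀ i, Disjoint (thickening ε (mid i)) S := by
      rw [eventually_all]
      intro i
      filter_upwards [key _ _ (hmidc i) hS.isClosed (hmidS i), self_mem_nhdsWithin] with ε h hε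
      exact h.mono_right (self_subset_thickening hε _)
    have e2 : ∀ᶠ ε : ℝ in 𝓝[>] 0, ∀ i j, i ≠ j →
        Disjoint (thickening ε (mid i)) (thickening ε (mid j)) := by
      rw [eventually_all]
      intro i
      rw [eventually_all]
      intro j
      by_cases hij : i = j
      · exact Eventually.of_forall fun ε h => absurd hij h
      · filter_upwards [key _ _ (hmidc i) (hmidc j).isClosed (hmm i j hij)] with ε h _
        exact h
    have e3 : ∀ᶠ ε : ℝ in 𝓝[>] 0, ∀ i j b, i ≠ j →
        Disjoint (thickening ε (mid i)) (A j b) := by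
      rw [eventually_all]
      intro i
      rw [eventually_all]
      intro j
      rw [eventually_all]
      intro b
      by_cases hij : i = j
      · exact Eventually.of_forall fun ε h => absurd hij h
      · filter_upwards [key _ _ (hmidc i) (hAc j b) (hAm i j b hij), self_mem_nhdsWithin]
          with ε h hε _
        exact h.mono_right (self_subset_thickening hε _)
    obtain ⟨ε, hε⟩ := (e1.and (e2.and (e3.and self_mem_nhdsWithin))).exists
    exact ⟨ε, hε.2.2.2, hε.1, hε.2.1, hε.2.2.1⟩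
  obtain ⟨ε, hε0, hε1, hε2, hε3⟩ := hε
  refine ⟨fun i => thickening ε (mid i) ∪ (O i false ∪ O i true), ?_, ?_, ?_⟩
  · intro i
    rw [disjoint_union_left, disjoint_union_left]
    exact ⟨hε1 i, hOS i _, hOS i _⟩
  · intro i j hij
    have h1 := hε3 i j false hij
    have h2 := hε3 i j true hij
    have h3 := hε3 j i false hij.symm
    have h4 := hε3 j i true hij.symm
    simp only [disjoint_union_left, disjoint_union_right]
    exact ⟨⟨hε2 i j hij, (h3.mono_right (hOA i _)).symm, (h4.mono_right (hOA i _)).symm⟩,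
      ⟨h1.mono_right (hOA j _), hOO i j _ _ hij, hOO i j _ _ hij⟩,
      ⟨h2.mono_right (hOA j _), hOO i j _ _ hij, hOO i j _ _ hij⟩⟩
  · intro i
    obtain ⟨n, f, hf0, hfn, hfm, hfd⟩ := TH.fine (γ i) (hc i) ε hε0 (τ i) (v i) (hτv i)
    have hfmid : ∀ k ≤ n, f k ∈ mid i := by
      intro k hk
      obtain ⟨t, h1, h2, h3⟩ := hfm k hk
      exact ⟨t, ⟨h1, h2⟩, h3.symm⟩
    apply TH.poly_of_chain _ _ _ f n
    · intro k hk
      exact Or.inl (self_subset_thickening hε0 _ (hfmid k hk))
    · intro k hk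
      refine Subset.trans ?_ subset_union_left
      have hsub : segment ℝ (f k) (f (k + 1)) ⊆ ball (f k) ε := by
        apply (convex_ball (f k) ε).segment_subset (mem_ball_self hε0)
        rw [mem_ball, dist_comm]
        exact hfd k hk
      intro x hx
      rw [mem_thickening_iff]
      exact ⟨f k, hfmid k hk.le, hsub (openSegment_subset_segment _ _ _ hx)⟩
    · rw [hf0]
      intro x hx
      exact Or.inr (Or.inl hx)
    · rw [hfn, openSegment_symm]
      intro x hx
      exact Or.inr (Or.inr hx)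

end Pool.Agent.MP_a0a8d4_co
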